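import Mathlib

/-!
# The base size set of a finite group: definitions
-/

set_option autoImplicit false

namespace Pool.Agent.R650.BaseSize

/-- The base size of an action of `P` on a finite set `S`: the least cardinality of a set `B` of
points whose pointwise stabilizer is trivial. -/
noncomputable def baseSize (P S : Type) [Group P] [MulAction P S] : ℕ :=
  sInf {n | ∃ B : Finset S, B.card = n ∧ ∀ g : P, (∀ x ∈ B, g • x = x) → g = 1}

/-- The base size set `𝓑(G)`: the base sizes of all faithful actions of `G` on finite sets. -/
def baseSizeSet (G : Type) [Group G] : Set ℕ :=
  {b | ∃ (S : Type) (_ : Finite S) (_ : MulAction G S), FaithfulSMul G S ∧ baseSize G S = b}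

end Pool.Agent.R650.BaseSize
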