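import Mathlib
import Pool.Agent.R650.BaseSizeDefs

/-!
# A group of order 80 whose base size set contains 4 but not 3
-/

set_option autoImplicit false

namespace Pool.Agent.R650.BaseSize

/-- The even weight vectors of length five. -/
def V : AddSubgroup (ZMod 5 → ZMod 2) where
  carrier := {x | ∑ i, x i = 0}
  zero_mem' := by simp
  add_mem' := by
    intro x y (hx : ∑ i, x i = 0) (hy : ∑ i, y i = 0)
    show ∑ i, (x i + y i) = 0
    rw [Finset.sum_add_distrib, hx, hy, add_zero]
  neg_mem' := by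
    intro x (hx : ∑ i, x i = 0)
    show ∑ i, (- x i) = 0
    rw [Finset.sum_neg_distrib, hx, neg_zero]

/-- The group of order 80. -/
@[ext] structure G80 where
  /-- the vector part -/
  x : ZMod 5 → ZMod 2
  /-- the vector part has even weight -/
  hx : ∑ i, x i = 0
  /-- the rotation part -/
  c : ZMod 5

theorem shift_sum (x : ZMod 5 → ZMod 2) (c : ZMod 5) : ∑ i, x (i - c) = ∑ i, x i :=
  Equiv.sum_comp (Equiv.subRight c) x

instance : Mul G80 := ⟨fun a b => ⟨fun i => a.x i + b.x (i - a.c), by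
  rw [Finset.sum_add_distrib, shift_sum, a.hx, b.hx, add_zero], a.c + b.c⟩⟩
instance : One G80 := ⟨⟨fun _ => 0, by simp, 0⟩⟩
instance : Inv G80 := ⟨fun a => ⟨fun i => - a.x (i + a.c), by
  rw [Finset.sum_neg_distrib]
  have := shift_sum a.x (-a.c)
  simp only [sub_neg_eq_add] at this
  rw [this, a.hx, neg_zero], - a.c⟩⟩

@[simp] theorem mul_x (a b : G80) (i : ZMod 5) : (a * b).x i = a.x i + b.x (i - a.c) := rfl
@[simp] theorem mul_c (a b : G80) : (a * b).c = a.c + b.c := rfl
@[simp] theorem one_x (i : ZMod 5) : (1 : G80).x i = 0 := rfl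
@[simp] theorem one_c : (1 : G80).c = 0 := rfl
@[simp] theorem inv_x (a : G80) (i : ZMod 5) : (a⁻¹).x i = - a.x (i + a.c) := rfl
@[simp] theorem inv_c (a : G80) : (a⁻¹).c = - a.c := rfl

instance : Group G80 := Group.ofLeftAxioms
  (by
    intro a b c
    ext i
    · simp only [mul_x, mul_c]
      rw [add_assoc, sub_add_eq_sub_sub]
    · simp [add_assoc])
  (by
    intro a
    ext i
    · simp
    · simp)
  (by
    intro a
    ext i
    · simp [CharTwo.add_self_eq_zero]
    · simp)

/-- The vector `v` as an element of the group. -/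
def ofV (v : V) : G80 := ⟨v.1, v.2, 0⟩

theorem ofV_add (v w : V) : ofV (v + w) = ofV v * ofV w := by
  ext i
  · simp [ofV]
  · simp [ofV]

/-- The intersection of a subgroup with `V`. -/
def inter (H : Subgroup G80) : AddSubgroup V where
  carrier := {v | ofV v ∈ H}
  zero_mem' := H.one_mem
  add_mem' := by
    intro v w (hv : ofV v ∈ H) (hw : ofV w ∈ H)
    show ofV (v + w) ∈ H
    rw [ofV_add]
    exact H.mul_mem hv hw
  neg_mem' := by
    intro v (hv : ofV v ∈ H)
    show ofV (-v) ∈ H
    have : ofV (-v) = (ofV v)⁻¹ := by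
      ext i
      · simp [ofV]
      · simp [ofV]
    rw [this]
    exact H.inv_mem hv

/-- Rotation by `d`. -/
def rot (d : ZMod 5) (v : ZMod 5 → ZMod 2) : ZMod 5 → ZMod 2 := fun i => v (i - d)

/-- Linear independence of three vectors. -/
def Ind (a b c : ZMod 5 → ZMod 2) : Prop :=
  ∀ α β γ : ZMod 2, (∀ i, α * a i + β * b i + γ * c i = 0) → α = 0 ∧ β = 0 ∧ γ = 0

instance (a b c : ZMod 5 → ZMod 2) : Decidable (Ind a b c) := by unfold Ind; infer_instance

theorem fact1 : ∀ d : ZMod 5, d ≠ 0 → ∀ v : ZMod 5 → ZMod 2, ∑ i, v i = 0 →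
    (∀ i, v i = v (i - d)) → ∀ i, v i = 0 := by decide +kernel

theorem fact2 : ∀ d : ZMod 5, d ≠ 0 → ∀ v : ZMod 5 → ZMod 2, ∑ i, v i = 0 →
    (∃ i, v i ≠ 0) → Ind v (rot d v) (rot d (rot d v)) := by decide +kernel

theorem fact3 : ∀ v : ZMod 5 → ZMod 2, ∑ i, v i = 0 → (∃ i, v i ≠ 0) →
    ∀ w : ZMod 5 → ZMod 2, ∑ i, w i = 0 → (∃ i, w i ≠ 0) →
    Ind v (rot 1 v) w ∨ Ind v (rot 1 v) (rot 2 w) := by decide +kernel

theorem fact4 : ∀ x : ZMod 5 → ZMod 2,
    (∑ i, x i = 0 ∧ x 0 = 0 ∧ x 1 = 0 ∧ x 2 = 0 ∧ x 3 = 0) → ∀ i, x i = 0 := by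
  decide +kernel

theorem card_V : Nat.card V = 16 := by
  have : Nat.card V = Fintype.card {x : ZMod 5 → ZMod 2 // ∑ i, x i = 0} := by
    rw [← Nat.card_eq_fintype_card]
    rfl
  rw [this]
  decide +kernel

/-- The underlying set of the group is `V × ℤ/5`. -/
def equivProd : G80 ≃ V × ZMod 5 where
  toFun g := (⟨g.x, g.hx⟩, g.c)
  invFun p := ⟨p.1.1, p.1.2, p.2⟩
  left_inv _ := rfl
  right_inv _ := rfl

theorem card_G80 : Nat.card G80 = 80 := by
  rw [Nat.card_congr equivProd, Nat.card_prod, card_V]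
  simp

instance : Finite G80 := Nat.finite_of_card_ne_zero (by rw [card_G80]; norm_num)

instance : Nontrivial G80 := by
  rw [← Finite.one_lt_card_iff_nontrivial, card_G80]
  norm_num

/-- A subgroup of `V` with three independent elements has at least 8 elements. -/
theorem card_of_ind (W : AddSubgroup V) (a b c : V) (ha : a ∈ W) (hb : b ∈ W) (hc : c ∈ W)
    (h : Ind a.1 b.1 c.1) : 8 ≤ Nat.card W := by
  have e : 8 = Nat.card (ZMod 2 × ZMod 2 × ZMod 2) := by
    simp [Nat.card_eq_fintype_card]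
  rw [e]
  have hsm : ∀ (α : ZMod 2) (v : V), v ∈ W → α.val • v ∈ W := fun α v hv => W.nsmul_mem hv _
  refine Nat.card_le_card_of_injective (fun p : ZMod 2 × ZMod 2 × ZMod 2 =>
    (⟨p.1.val • a + p.2.1.val • b + p.2.2.val • c,
      W.add_mem (W.add_mem (hsm _ _ ha) (hsm _ _ hb)) (hsm _ _ hc)⟩ : W)) ?_
  rintro ⟨α, β, γ⟩ ⟨α', β', γ'⟩ heq
  have h1 : ∀ i, α * a.1 i + β * b.1 i + γ * c.1 i = α' * a.1 i + β' * b.1 i + γ' * c.1 i := by
    intro i
    have hv : ∀ (δ : ZMod 2) (v : V), (δ.val • v).1 i = δ * v.1 i := by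
      intro δ v
      show δ.val • v.1 i = _
      rw [nsmul_eq_mul, ZMod.natCast_zmod_val]
    have h2 : (α.val • a).1 i + (β.val • b).1 i + (γ.val • c).1 i =
        (α'.val • a).1 i + (β'.val • b).1 i + (γ'.val • c).1 i :=
      congrFun (congrArg (fun w : W => w.1.1) heq) i
    rwa [hv, hv, hv, hv, hv, hv] at h2
  have h2 := h (α - α') (β - β') (γ - γ') (fun i => by
    have := h1 i
    linear_combination this)
  rw [sub_eq_zero, sub_eq_zero, sub_eq_zero] at h2
  obtain ⟨rfl, rfl, rfl⟩ := h2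
  rfl

theorem three (W₁ W₂ W₃ : AddSubgroup V) (h₁ : 8 ≤ Nat.card W₁) (h₂ : 8 ≤ Nat.card W₂)
    (h₃ : 8 ≤ Nat.card W₃) : ∃ v : V, v ≠ 0 ∧ v ∈ W₁ ∧ v ∈ W₂ ∧ v ∈ W₃ := by
  have hq : ∀ W : AddSubgroup V, 8 ≤ Nat.card W → Nat.card (V ⧸ W) ≤ 2 := by
    intro W hW
    have h := AddSubgroup.card_eq_card_quotient_mul_card_addSubgroup W
    rw [card_V] at h
    nlinarith
  let f : V → (V ⧸ W₁) × (V ⧸ W₂) × (V ⧸ W₃) := fun v => (v, v, v)
  have hf : ¬ Function.Injective f := by
    intro hinj
    have h1 := Nat.card_le_card_of_injective f hinj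
    rw [Nat.card_prod, Nat.card_prod, card_V] at h1
    have h2 := Nat.mul_le_mul (hq W₁ h₁) (Nat.mul_le_mul (hq W₂ h₂) (hq W₃ h₃))
    omega
  rw [Function.Injective] at hf
  push Not at hf
  obtain ⟨v, w, hvw, hne⟩ := hf
  simp only [f, Prod.mk.injEq, QuotientAddGroup.eq] at hvw
  exact ⟨-v + w, fun h => hne (by rwa [neg_add_eq_zero] at h), hvw.1, hvw.2.1, hvw.2.2⟩

/-- The key claim: a subgroup meeting all its conjugates non-trivially contains at least eight
elements of `V`. -/
theorem claim (H : Subgroup G80)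
    (h : ∀ g : G80, ∃ k : G80, k ≠ 1 ∧ k ∈ H ∧ g⁻¹ * k * g ∈ H) : 8 ≤ Nat.card (inter H) := by
  by_cases hH : ∃ y ∈ H, y.c ≠ 0
  · obtain ⟨y, hy, hyc⟩ := hH
    by_cases hW : ∃ v ∈ inter H, v ≠ 0
    · obtain ⟨v, hv, hv0⟩ := hW
      have hne : ∃ i, v.1 i ≠ 0 := by
        by_contra hcon
        push Not at hcon
        exact hv0 (Subtype.ext (funext hcon))
      have hrot : ∀ w : V, w ∈ inter H → ∃ w' : V, w' ∈ inter H ∧ w'.1 = rot y.c w.1 := by
        intro w hw
        refine ⟨⟨rot y.c w.1, ?_⟩, ?_, rfl⟩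
        · show ∑ i, w.1 (i - y.c) = 0
          rw [shift_sum]
          exact w.2
        · show ofV _ ∈ H
          have : ofV ⟨rot y.c w.1, by
              show ∑ i, w.1 (i - y.c) = 0
              rw [shift_sum]
              exact w.2⟩ = y * ofV w * y⁻¹ := by
            ext i
            · simp [ofV, rot]
              linear_combination (-1 : ZMod 2) * CharTwo.add_self_eq_zero (y.x i)
            · simp [ofV]
          rw [this]
          exact H.mul_mem (H.mul_mem hy hw) (H.inv_mem hy)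
      obtain ⟨w, hw, hwe⟩ := hrot v hv
      obtain ⟨u, hu, hue⟩ := hrot w hw
      refine card_of_ind (inter H) v w u hv hw hu ?_
      rw [hue, hwe]
      exact fact2 y.c hyc v.1 v.2 hne
    · push Not at hW
      exfalso
      -- a nonzero vector
      let v : V := ⟨fun i => if i = 0 ∨ i = 1 then 1 else 0, by
        show ∑ i, _ = _
        decide +kernel⟩
      obtain ⟨k, hk1, hk, hk'⟩ := h (ofV v)
      have e0 : ∀ u : V, u ∈ inter H → u = 0 := fun u hu => by
        by_contra hu0
        exact hu0 (hW u hu)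
      have e1 : k = (ofV v)⁻¹ * k * ofV v := by
        let u : V := ⟨(k * ((ofV v)⁻¹ * k * ofV v)⁻¹).x, (k * ((ofV v)⁻¹ * k * ofV v)⁻¹).hx⟩
        have hu : ofV u = k * ((ofV v)⁻¹ * k * ofV v)⁻¹ := by
          ext i
          · rfl
          · simp [ofV]
        have hu' : u ∈ inter H := by
          show ofV u ∈ H
          rw [hu]
          exact H.mul_mem hk (H.inv_mem hk')
        have hu0 := e0 u hu'
        rw [hu0] at hu
        have : (ofV 0 : G80) = 1 := rfl
        rw [this] at hu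
        exact (mul_inv_eq_one.1 hu.symm)
      have e2 : ∀ i, v.1 i = v.1 (i - k.c) := by
        intro i
        have h2 := congrArg (fun g : G80 => g.x i) e1
        simp only [mul_x, mul_c, inv_x, inv_c, ofV, neg_zero, add_zero, sub_zero, zero_add] at h2
        linear_combination h2
      have e3 : k.c = 0 := by
        by_contra hkc
        have := fact1 k.c hkc v.1 v.2 e2 0
        simp [v] at this
      have e4 : (⟨k.x, k.hx⟩ : V) ∈ inter H := by
        show ofV _ ∈ H
        have : ofV ⟨k.x, k.hx⟩ = k := by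
          ext i
          · rfl
          · exact e3.symm
        rw [this]
        exact hk
      have e5 := e0 _ e4
      apply hk1
      ext i
      · exact congrFun (congrArg Subtype.val e5) i
      · exact e3
  · push Not at hH
    have key : ∀ d : ZMod 5, ∃ v w : V, v ∈ inter H ∧ w ∈ inter H ∧ (∃ i, v.1 i ≠ 0) ∧
        w.1 = rot d v.1 := by
      intro d
      obtain ⟨k, hk1, hk, hk'⟩ := h ⟨fun _ => 0, by simp, -d⟩
      have hkc := hH k hk
      refine ⟨⟨k.x, k.hx⟩, ⟨rot d k.x, ?_⟩, ?_, ?_, ?_, rfl⟩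
      · show ∑ i, k.x (i - d) = 0
        rw [shift_sum]
        exact k.hx
      · show ofV _ ∈ H
        have : ofV ⟨k.x, k.hx⟩ = k := by
          ext i
          · rfl
          · exact hkc.symm
        rw [this]
        exact hk
      · show ofV _ ∈ H
        convert hk' using 1
        ext i
        · simp [ofV, rot]
        · simp [ofV, hkc]
      · by_contra hcon
        push Not at hcon
        apply hk1
        ext i
        · exact hcon i
        · exact hkc
    obtain ⟨v, v', hv, hv', hv0, hv1⟩ := key 1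
    obtain ⟨w, w', hw, hw', hw0, hw1⟩ := key 2
    rcases fact3 v.1 v.2 hv0 w.1 w.2 hw0 with h1 | h1
    · exact card_of_ind (inter H) v v' w hv hv' hw (by rw [hv1]; exact h1)
    · exact card_of_ind (inter H) v v' w' hv hv' hw' (by rw [hv1, hw1]; exact h1)

/-- No faithful action has base size three. -/
theorem three_notMem : 3 ∉ baseSizeSet G80 := by
  rintro ⟨S, _, _, hfaith, h3⟩
  classical
  unfold baseSize at h3
  have hne : {n | ∃ B : Finset S, B.card = n ∧
      ∀ g : G80, (∀ x ∈ B, g • x = x) → g = 1}.Nonempty := by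
    by_contra hcon
    rw [Set.not_nonempty_iff_eq_empty] at hcon
    rw [hcon, Nat.sInf_empty] at h3
    omega
  obtain ⟨B, hB3, hB⟩ := Nat.sInf_mem hne
  rw [h3] at hB3
  have hsmall : ∀ B : Finset S, B.card < 3 → ∃ g : G80, (∀ x ∈ B, g • x = x) ∧ g ≠ 1 := by
    intro B' hB'
    by_contra hcon
    push Not at hcon
    have : sInf {n | ∃ B : Finset S, B.card = n ∧
      ∀ g : G80, (∀ x ∈ B, g • x = x) → g = 1} ≤ B'.card :=
      Nat.sInf_le ⟨B', rfl, hcon⟩
    omega
  have hst : ∀ s : S, 8 ≤ Nat.card (inter (MulAction.stabilizer G80 s)) := by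
    intro s
    refine claim _ fun g => ?_
    obtain ⟨k, hk, hk1⟩ := hsmall {s, g • s} (lt_of_le_of_lt Finset.card_le_two (by norm_num))
    refine ⟨k, hk1, hk s (by simp), ?_⟩
    rw [MulAction.mem_stabilizer_iff, mul_smul, mul_smul, hk (g • s) (by simp), inv_smul_smul]
  obtain ⟨s₁, s₂, s₃, -, -, -, rfl⟩ := Finset.card_eq_three.1 hB3
  obtain ⟨v, hv0, h1, h2, h3'⟩ := three _ _ _ (hst s₁) (hst s₂) (hst s₃)
  have : ofV v = 1 := by
    refine hB _ fun x hx => ?_
    rw [Finset.mem_insert, Finset.mem_insert, Finset.mem_singleton] at hx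
    rcases hx with rfl | rfl | rfl
    · exact h1
    · exact h2
    · exact h3'
  apply hv0
  refine Subtype.ext (funext fun i => ?_)
  exact congrArg (fun g : G80 => g.x i) this

/-- The points of the natural action. -/
abbrev Pt : Type := ZMod 5 × ZMod 2

instance : MulAction G80 Pt where
  smul g p := (p.1 + g.c, p.2 + g.x (p.1 + g.c))
  one_smul := by
    rintro ⟨i, e⟩
    show (i + 0, e + 0) = (i, e)
    simp
  mul_smul := by
    rintro g h ⟨i, e⟩
    show (i + (g.c + h.c), e + (g.x (i + (g.c + h.c)) + h.x (i + (g.c + h.c) - g.c))) =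
      (i + h.c + g.c, e + h.x (i + h.c) + g.x (i + h.c + g.c))
    have h1 : i + (g.c + h.c) = i + h.c + g.c := by ring
    have h2 : i + h.c + g.c - g.c = i + h.c := by ring
    rw [h1, h2]
    ext
    · rfl
    · show e + _ = _
      ring

theorem smul_def (g : G80) (i : ZMod 5) (e : ZMod 2) :
    g • ((i, e) : Pt) = ((i + g.c, e + g.x (i + g.c)) : Pt) := rfl

theorem four_mem : 4 ∈ baseSizeSet G80 := by
  classical
  have hbase : ∀ g : G80, (∀ x ∈ ({(0, 0), (1, 0), (2, 0), (3, 0)} : Finset Pt), g • x = x) →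
      g = 1 := by
    intro g hg
    have h0 := hg (0, 0) (by simp)
    have h1 := hg (1, 0) (by simp)
    have h2 := hg (2, 0) (by simp)
    have h3 := hg (3, 0) (by simp)
    rw [smul_def] at h0 h1 h2 h3
    have hc : g.c = 0 := by
      have : (0 : ZMod 5) + g.c = 0 := congrArg Prod.fst h0
      simpa using this
    have g0 : g.x 0 = 0 := by
      have : (0 : ZMod 2) + g.x (0 + g.c) = 0 := congrArg Prod.snd h0
      simpa [hc] using this
    have g1 : g.x 1 = 0 := by
      have : (0 : ZMod 2) + g.x (1 + g.c) = 0 := congrArg Prod.snd h1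
      simpa [hc] using this
    have g2 : g.x 2 = 0 := by
      have : (0 : ZMod 2) + g.x (2 + g.c) = 0 := congrArg Prod.snd h2
      simpa [hc] using this
    have g3 : g.x 3 = 0 := by
      have : (0 : ZMod 2) + g.x (3 + g.c) = 0 := congrArg Prod.snd h3
      simpa [hc] using this
    ext i
    · exact fact4 g.x ⟨g.hx, g0, g1, g2, g3⟩ i
    · exact hc
  refine ⟨Pt, inferInstance, inferInstance, ⟨?_⟩, ?_⟩
  · intro g h hgh
    have : h⁻¹ * g = 1 := by
      refine hbase _ fun x _ => ?_
      rw [mul_smul, hgh, inv_smul_smul]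
    rwa [inv_mul_eq_one, eq_comm] at this
  · unfold baseSize
    apply le_antisymm
    · exact Nat.sInf_le ⟨{(0, 0), (1, 0), (2, 0), (3, 0)}, by decide +kernel, hbase⟩
    · refine le_csInf ⟨4, {(0, 0), (1, 0), (2, 0), (3, 0)}, by decide +kernel, hbase⟩ ?_
      rintro n ⟨B, rfl, hB⟩
      by_contra hcard
      have h1 : (B.image Prod.fst : Finset (ZMod 5)).card ≤ 3 :=
        Finset.card_image_le.trans (by omega)
      have h2 : 1 < ((B.image Prod.fst : Finset (ZMod 5))ᶜ).card := by
        rw [Finset.card_compl, ZMod.card]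
        omega
      obtain ⟨a, ha, b, hb, hab⟩ := Finset.one_lt_card.1 h2
      let g : G80 := ⟨fun i => if i = a ∨ i = b then 1 else 0, by
        have : ∀ a b : ZMod 5, a ≠ b → ∑ i, (if i = a ∨ i = b then (1 : ZMod 2) else 0) = 0 := by
          decide +kernel
        exact this a b hab, 0⟩
      have hg : g = 1 := by
        refine hB g ?_
        rintro ⟨i, e⟩ hi
        have hi' : i ∈ (B.image Prod.fst : Finset (ZMod 5)) :=
          Finset.mem_image.2 ⟨(i, e), hi, rfl⟩
        have hia : i ≠ a := fun h => (Finset.mem_compl.1 ha) (h ▸ hi')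
        have hib : i ≠ b := fun h => (Finset.mem_compl.1 hb) (h ▸ hi')
        rw [smul_def]
        simp [g, hia, hib]
      have : g.x a = 0 := by rw [hg]; rfl
      simp [g] at this

end Pool.Agent.R650.BaseSize
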