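import Mathlib

/-!
# Congruence box spaces of `ℤ ≀ ℤ`: definitions
-/

set_option autoImplicit false

namespace Pool.Agent.R650.Box

open LaurentPolynomial

/-- The group `G = ℤ ≀ ℤ = A ⋊ ℤ`, `A = ℤ[X, X⁻¹]`: the pair `(n, P)` stands for the matrix
`[[X^n, P], [0, 1]]`. -/
@[ext] structure G where
  /-- the exponent `n` -/
  n : ℤ
  /-- the Laurent polynomial `P` -/
  P : ℤ[T;T⁻¹]

/-- The matrix `[[X^n, P], [0, 1]]`. -/
noncomputable def G.mat (g : G) : Matrix (Fin 2) (Fin 2) ℤ[T;T⁻¹] := !![T g.n, g.P; 0, 1]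

/-- `(n, P) (m, Q) = (n + m, P + X^n Q)` (matrix multiplication) -/
noncomputable instance : Mul G := ⟨fun a b => ⟨a.n + b.n, a.P + T a.n * b.P⟩⟩
noncomputable instance : One G := ⟨⟨0, 0⟩⟩
noncomputable instance : Inv G := ⟨fun a => ⟨-a.n, -(T (-a.n) * a.P)⟩⟩

@[simp] theorem mul_n (a b : G) : (a * b).n = a.n + b.n := rfl
@[simp] theorem mul_P (a b : G) : (a * b).P = a.P + T a.n * b.P := rfl
@[simp] theorem one_n : (1 : G).n = 0 := rfl
@[simp] theorem one_P : (1 : G).P = 0 := rfl
@[simp] theorem inv_n (a : G) : (a⁻¹).n = -a.n := rfl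
@[simp] theorem inv_P (a : G) : (a⁻¹).P = -(T (-a.n) * a.P) := rfl

noncomputable instance : Group G := Group.ofLeftAxioms
  (by
    intro a b c
    ext1
    · simp [add_assoc]
    · simp only [mul_P, mul_n, T_add]
      ring)
  (by
    intro a
    ext1
    · simp
    · simp)
  (by
    intro a
    ext1
    · simp
    · simp)

theorem mat_mul (a b : G) : (a * b).mat = a.mat * b.mat := by
  rw [G.mat, G.mat, G.mat, Matrix.mul_fin_two, mul_n, mul_P, T_add, mul_zero, add_zero, mul_one,
    zero_mul, zero_mul, zero_add, mul_zero, zero_add, mul_one, add_comm]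

/-- The congruence subgroup `G(I)`: the elements whose matrix is the identity modulo `I`. -/
def congr (I : Ideal ℤ[T;T⁻¹]) : Subgroup G where
  carrier := {g | ∀ i j, (g.mat - 1) i j ∈ I}
  one_mem' := by
    intro i j
    fin_cases i <;> fin_cases j <;> simp [G.mat]
  mul_mem' := by
    intro a b ha hb i j
    have e : (a * b).mat - 1 = (a.mat - 1) * b.mat + (b.mat - 1) := by
      rw [mat_mul, sub_mul, one_mul]
      abel
    rw [e, Matrix.add_apply, Matrix.mul_apply]
    exact I.add_mem (I.sum_mem fun k _ => I.mul_mem_right _ (ha i k)) (hb i j)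
  inv_mem' := by
    intro a ha i j
    have e : (a⁻¹).mat - 1 = -((a⁻¹).mat * (a.mat - 1)) := by
      have h1 : (a⁻¹).mat * a.mat = 1 := by
        rw [← mat_mul, inv_mul_cancel]
        ext i j
        fin_cases i <;> fin_cases j <;> simp [G.mat]
      rw [mul_sub, h1, mul_one]
      abel
    rw [e, Matrix.neg_apply, Matrix.mul_apply]
    exact I.neg_mem (I.sum_mem fun k _ => I.mul_mem_left _ (ha k j))

/-- The diameter of the Cayley graph of `G / N` with respect to the image of `S`: the least `m` such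
that every coset of `N` contains a product of at most `m` elements of `S ∪ S⁻¹`. -/
noncomputable def diam (S : Set G) (N : Subgroup G) : ℕ :=
  sInf {m | ∀ g : G, ∃ w : List G, w.length ≤ m ∧ (∀ s ∈ w, s ∈ S ∨ s⁻¹ ∈ S) ∧
    w.prod⁻¹ * g ∈ N}

/-- `(I_k)` is a decreasing sequence of ideals of finite index in `A` such that the congruence
subgroups `G(I_k)` are normal of finite index with trivial intersection: the data of a congruence
box space. -/
structure IsCongruenceFiltration (I : ℕ → Ideal ℤ[T;T⁻¹]) : Prop where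
  antitone : Antitone I
  finite : ∀ k, Finite (ℤ[T;T⁻¹] ⧸ I k)
  normal : ∀ k, (congr (I k)).Normal
  finiteIndex : ∀ k, (congr (I k)).FiniteIndex
  iInf : ⨅ k, congr (I k) = ⊥

/-- The congruence box space of `(I_k)` has property `D_α` (with respect to the generating set
`S`): there is `K > 0` with `diam (G / G(I_k)) ≥ K |G / G(I_k)| ^ α` for every `k`. -/
def HasD (S : Set G) (I : ℕ → Ideal ℤ[T;T⁻¹]) (α : ℝ) : Prop :=
  ∃ K : ℝ, 0 < K ∧ ∀ k, K * ((congr (I k)).index : ℝ) ^ α ≤ diam S (congr (I k))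

end Pool.Agent.R650.Box
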