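import Mathlib
import Pool.Agent.R650.BoxDefs

/-!
# Congruence box spaces of `ℤ ≀ ℤ` with and without property `D_α`
-/

set_option autoImplicit false

namespace Pool.Agent.R650.Box

open LaurentPolynomial

theorem mem_congr {I : Ideal ℤ[T;T⁻¹]} {g : G} : g ∈ congr I ↔ T g.n - 1 ∈ I ∧ g.P ∈ I := by
  constructor
  · intro h
    have h0 := h 0 0
    have h1 := h 0 1
    simp [G.mat] at h0 h1
    exact ⟨h0, h1⟩
  · rintro ⟨h0, h1⟩ i j
    fin_cases i <;> fin_cases j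
    · simpa [G.mat] using h0
    · simpa [G.mat] using h1
    · simp [G.mat]
    · simp [G.mat]

/-- Two elements are in the same coset of the congruence subgroup of the kernel of `h` iff they
have the same image. -/
theorem mem_congr_ker {R : Type*} [CommRing R] (h : ℤ[T;T⁻¹] →+* R) (a b : G) :
    a⁻¹ * b ∈ congr (RingHom.ker h) ↔ h (T a.n) = h (T b.n) ∧ h a.P = h b.P := by
  have hu : h (T (-a.n)) * h (T a.n) = 1 := by
    rw [← map_mul, ← T_add, neg_add_cancel, T_zero, map_one]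
  rw [mem_congr]
  simp only [mul_n, mul_P, inv_n, inv_P, RingHom.mem_ker, map_sub, map_one, map_add, map_neg,
    map_mul, T_add]
  constructor
  · rintro ⟨h1, h2⟩
    constructor
    · linear_combination (h (T b.n)) * hu - h (T a.n) * h1
    · linear_combination (h b.P - h a.P) * hu - h (T a.n) * h2
  · rintro ⟨h1, h2⟩
    constructor
    · rw [← h1]
      linear_combination hu
    · rw [← h2]
      ring

theorem normal_congr (I : Ideal ℤ[T;T⁻¹]) : (congr I).Normal := by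
  refine ⟨fun a ha g => ?_⟩
  rw [mem_congr] at ha ⊢
  obtain ⟨h1, h2⟩ := ha
  constructor
  · have : (g * a * g⁻¹).n = a.n := by simp
    rw [this]
    exact h1
  · have e : (g * a * g⁻¹).P = T g.n * a.P - (T a.n - 1) * g.P := by
      simp only [mul_P, mul_n, inv_P, T_add]
      have h3 : T g.n * T (-g.n) = (1 : ℤ[T;T⁻¹]) := by rw [← T_add, add_neg_cancel, T_zero]
      linear_combination (-(T a.n * g.P)) * h3
    rw [e]
    exact I.sub_mem (I.mul_mem_left _ h2) (I.mul_mem_right _ h1)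

/-- the index is at most the square of the size of the ring -/
theorem index_le {R : Type*} [CommRing R] [Finite R] (h : ℤ[T;T⁻¹] →+* R) :
    (congr (RingHom.ker h)).FiniteIndex ∧
      (congr (RingHom.ker h)).index ≤ Nat.card R * Nat.card R := by
  let f : G ⧸ congr (RingHom.ker h) → R × R := fun q => (h (T q.out.n), h q.out.P)
  have hf : Function.Injective f := by
    intro q q' hqq
    simp only [f, Prod.mk.injEq] at hqq
    rw [← QuotientGroup.out_eq' q, ← QuotientGroup.out_eq' q', QuotientGroup.eq]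
    exact (mem_congr_ker h _ _).2 hqq
  have : Finite (G ⧸ congr (RingHom.ker h)) := Finite.of_injective f hf
  refine ⟨Subgroup.finiteIndex_of_finite_quotient, ?_⟩
  have h2 := Nat.card_le_card_of_injective f hf
  rw [Nat.card_prod] at h2
  exact h2

/-- The set defining the diameter is not empty. -/
theorem diam_spec (S : Set G) (hS : Subgroup.closure S = ⊤) (N : Subgroup G) [N.FiniteIndex] :
    ∀ g : G, ∃ w : List G, w.length ≤ diam S N ∧ (∀ s ∈ w, s ∈ S ∨ s⁻¹ ∈ S) ∧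
      w.prod⁻¹ * g ∈ N := by
  have hne : {m | ∀ g : G, ∃ w : List G, w.length ≤ m ∧ (∀ s ∈ w, s ∈ S ∨ s⁻¹ ∈ S) ∧
      w.prod⁻¹ * g ∈ N}.Nonempty := by
    have hw : ∀ q : G ⧸ N, ∃ w : List G, (∀ s ∈ w, s ∈ S ∨ s⁻¹ ∈ S) ∧ w.prod = q.out := by
      intro q
      have h1 : q.out ∈ (Subgroup.closure S).toSubmonoid := by rw [hS]; trivial
      rw [Subgroup.closure_toSubmonoid] at h1
      obtain ⟨l, hl1, hl2⟩ := Submonoid.exists_list_of_mem_closure h1
      exact ⟨l, fun s hs => by simpa using hl1 s hs, hl2⟩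
    choose w hw1 hw2 using hw
    have hfin : Finite (G ⧸ N) := inferInstance
    obtain ⟨m, hm⟩ := (Set.finite_range fun q : G ⧸ N => (w q).length).bddAbove
    refine ⟨m, fun g => ⟨w (g : G ⧸ N), hm ⟨_, rfl⟩, hw1 _, ?_⟩⟩
    rw [hw2, ← QuotientGroup.eq]
    exact QuotientGroup.out_eq' _
  exact Nat.sInf_mem hne

theorem diam_le (S : Set G) (N : Subgroup G) (m : ℕ)
    (h : ∀ g : G, ∃ w : List G, w.length ≤ m ∧ (∀ s ∈ w, s ∈ S ∨ s⁻¹ ∈ S) ∧
      w.prod⁻¹ * g ∈ N) : diam S N ≤ m := Nat.sInf_le h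

/-! ### Question 1 -/

instance fact3 : Fact (Nat.Prime 3) := ⟨Nat.prime_three⟩

theorem exists_transcendental : ∃ x : ℤ_[3], PadicInt.toZModPow 2 x = 4 ∧ Transcendental ℤ x := by
  have hc : {y : ℚ_[3] | IsAlgebraic ℤ y}.Countable := Algebraic.countable ℤ ℚ_[3]
  have hd := hc.dense_compl ℚ_[3]
  obtain ⟨y, hy1, hy2⟩ := Metric.dense_iff.1 hd 4 (1 / 9) (by norm_num)
  have hy3 : ‖y - 4‖ < 1 / 9 := by rwa [Metric.mem_ball, dist_eq_norm] at hy1
  have h4 : ‖(4 : ℚ_[3])‖ ≤ 1 := by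
    have := Padic.norm_int_le_one (p := 3) 4
    exact_mod_cast this
  have hy4 : ‖y‖ ≤ 1 := by
    have := Padic.nonarchimedean (y - 4) (4 : ℚ_[3])
    rw [sub_add_cancel] at this
    exact this.trans (max_le (by linarith) h4)
  let x : ℤ_[3] := ⟨y, hy4⟩
  refine ⟨x, ?_, ?_⟩
  · have h1 : ‖x - 4‖ ≤ (3 : ℝ) ^ (-(2 : ℕ) : ℤ) := by
      have h2 : ‖x - 4‖ = ‖y - 4‖ := by
        rw [PadicInt.norm_def]
        push_cast
        rfl
      rw [h2]
      norm_num
      norm_num at hy3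
      exact hy3.le
    have h3 := (PadicInt.norm_le_pow_iff_mem_span_pow (p := 3) (x - 4) 2).1 (by exact_mod_cast h1)
    rw [← PadicInt.ker_toZModPow, RingHom.mem_ker, map_sub, sub_eq_zero] at h3
    rw [h3]
    exact map_ofNat _ 4
  · intro halg
    exact hy2 (halg.algebraMap : IsAlgebraic ℤ (algebraMap ℤ_[3] ℚ_[3] x))

theorem dvd_of_pow_eq_one (x : ℤ_[3]) (hx : PadicInt.toZModPow 2 x = 4) (e : ℕ) (he : 2 ≤ e)
    (n : ℕ) (h : PadicInt.toZModPow e x ^ n = 1) : 3 ^ (e - 1) ∣ n := by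
  set c : ℕ := (PadicInt.toZModPow e x).val with hc
  have hc1 : ((c : ℕ) : ZMod (3 ^ e)) = PadicInt.toZModPow e x := ZMod.natCast_zmod_val _
  have hc2 : ((c : ℕ) : ZMod (3 ^ 2)) = 4 := by
    rw [← hx, ← PadicInt.cast_toZModPow 2 e he x, ZMod.cast_eq_val]
  have hc3 : c % 9 = 4 := by
    have h1 : ((c : ℕ) : ZMod (3 ^ 2)) = ((4 : ℕ) : ZMod (3 ^ 2)) := by rw [hc2]; rfl
    rw [ZMod.natCast_eq_natCast_iff] at h1
    exact h1
  have h2 : 3 ^ e ∣ c ^ n - 1 := by
    have h3 : ((c ^ n : ℕ) : ZMod (3 ^ e)) = ((1 : ℕ) : ZMod (3 ^ e)) := by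
      push_cast
      rw [hc1, h]
    rw [ZMod.natCast_eq_natCast_iff] at h3
    exact (Nat.modEq_iff_dvd' (Nat.one_le_pow _ _ (by omega))).1 h3.symm
  have h4 := Nat.emultiplicity_pow_sub_pow Nat.prime_three (by decide : Odd 3) (x := c) (y := 1)
    (by omega) (by omega) n
  rw [one_pow] at h4
  have h5 : emultiplicity 3 (c - 1) = 1 := by
    have h6 : emultiplicity 3 (c - 1) = ((1 : ℕ) : ℕ∞) := by
      rw [emultiplicity_eq_coe]
      constructor <;> omega
    exact_mod_cast h6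
  have h6 := le_emultiplicity_of_pow_dvd h2
  rw [h4, h5] at h6
  apply pow_dvd_of_le_emultiplicity
  by_contra hcon
  push Not at hcon
  have h7 : emultiplicity 3 n + 1 ≤ ((e - 1 : ℕ) : ℕ∞) := Order.add_one_le_of_lt hcon
  have h8 : (e : ℕ∞) ≤ ((e - 1 : ℕ) : ℕ∞) := by
    rw [add_comm] at h6
    exact h6.trans h7
  have h9 : e ≤ e - 1 := by exact_mod_cast h8
  omega

theorem exists_unit : ∃ u : ℤ_[3]ˣ, PadicInt.toZModPow 2 (u : ℤ_[3]) = 4 ∧
    Transcendental ℤ (u : ℤ_[3]) := by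
  obtain ⟨x, hx, hx'⟩ := exists_transcendental
  have hu : IsUnit x := by
    rw [PadicInt.isUnit_iff]
    by_contra hne
    have h1 : ‖x‖ < 1 := lt_of_le_of_ne x.norm_le_one hne
    rw [PadicInt.norm_lt_one_iff_dvd] at h1
    obtain ⟨y, rfl⟩ := h1
    rw [map_mul] at hx
    have h2 : ∀ z : ZMod (3 ^ 2), 3 * z ≠ 4 := by decide +kernel
    apply h2 (PadicInt.toZModPow 2 y)
    rw [← hx]
    have h3 : PadicInt.toZModPow (p := 3) 2 ((3 : ℕ) : ℤ_[3]) = 3 := map_natCast _ 3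
    rw [h3]
  obtain ⟨u, rfl⟩ := hu
  exact ⟨u, hx, hx'⟩

/-- evaluation at a unit of the `3`-adic integers -/
noncomputable def ev (u : ℤ_[3]ˣ) : ℤ[T;T⁻¹] →+* ℤ_[3] := eval₂ (Int.castRingHom ℤ_[3]) u

theorem ev_inj (u : ℤ_[3]ˣ) (hu : Transcendental ℤ (u : ℤ_[3])) (P : ℤ[T;T⁻¹]) (h : ev u P = 0) :
    P = 0 := by
  obtain ⟨n, f, hf⟩ := exists_T_pow P
  have h1 : ev u (Polynomial.toLaurent f) = 0 := by rw [hf, map_mul, h, zero_mul]
  rw [ev, eval₂_toLaurent] at h1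
  have h2 : Polynomial.aeval (u : ℤ_[3]) f = 0 := by
    rw [Polynomial.aeval_def]
    exact h1
  have h3 : f = 0 := (transcendental_iff.1 hu) f h2
  rw [h3, map_zero] at hf
  have h4 : P * T n * T (-n) = P := by
    rw [mul_assoc, ← T_add, add_neg_cancel, T_zero, mul_one]
  rw [← h4, ← hf, zero_mul]

/-- the ideals for Question 1 -/
noncomputable def I1 (u : ℤ_[3]ˣ) (k : ℕ) : Ideal ℤ[T;T⁻¹] :=
  RingHom.ker ((PadicInt.toZModPow (k + 2)).comp (ev u))

theorem filtration1 (u : ℤ_[3]ˣ) (hu : Transcendental ℤ (u : ℤ_[3])) :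
    IsCongruenceFiltration (I1 u) := by
  refine ⟨?_, ?_, fun k => normal_congr _, ?_, ?_⟩
  · intro k l hkl P hP
    rw [I1, RingHom.mem_ker, RingHom.comp_apply] at hP ⊢
    rw [← PadicInt.cast_toZModPow (k + 2) (l + 2) (by omega), hP]
    exact ZMod.cast_zero
  · intro k
    exact Finite.of_injective _ (RingHom.kerLift_injective _)
  · intro k
    exact (index_le _).1
  · rw [eq_bot_iff]
    intro g hg
    rw [Subgroup.mem_iInf] at hg
    have h1 : ∀ P : ℤ[T;T⁻¹], (∀ k, P ∈ I1 u k) → P = 0 := by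
      intro P hP
      apply ev_inj u hu
      rw [← PadicInt.ext_of_toZModPow]
      intro n
      have h2 := hP n
      rw [I1, RingHom.mem_ker, RingHom.comp_apply] at h2
      rw [← PadicInt.cast_toZModPow n (n + 2) (by omega), h2, map_zero]
      exact ZMod.cast_zero
    have h2 : g.P = 0 := h1 _ fun k => (mem_congr.1 (hg k)).2
    have h3 : T g.n - 1 = (0 : ℤ[T;T⁻¹]) := h1 _ fun k => (mem_congr.1 (hg k)).1
    have h4 : g.n = 0 := by
      rw [sub_eq_zero, ← T_zero] at h3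
      have h5 : Finsupp.single g.n (1 : ℤ) = Finsupp.single 0 1 :=
        congrArg AddMonoidAlgebra.coeff h3
      exact Finsupp.single_left_injective one_ne_zero h5
    rw [Subgroup.mem_bot]
    ext1
    · exact h4
    · exact h2

theorem exists_bound (S : Finset G) : ∃ M : ℕ, 1 ≤ M ∧ ∀ w : List G,
    (∀ s ∈ w, s ∈ (S : Set G) ∨ s⁻¹ ∈ (S : Set G)) → w.prod.n.natAbs ≤ M * w.length := by
  refine ⟨S.sup (fun s => s.n.natAbs) + 1, by omega, ?_⟩
  intro w
  induction w with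
  | nil => intro _; simp
  | cons a w ih =>
    intro h
    have h1 := ih fun s hs => h s (List.mem_cons_of_mem a hs)
    have h2 : a.n.natAbs ≤ S.sup (fun s => s.n.natAbs) := by
      rcases h a (by simp) with h3 | h3
      · exact Finset.le_sup (f := fun s : G => s.n.natAbs) h3
      · have := Finset.le_sup (f := fun s : G => s.n.natAbs) h3
        simpa using this
    have h3 : (a :: w).prod.n = a.n + w.prod.n := by simp
    have h4 : (a.n + w.prod.n).natAbs ≤ a.n.natAbs + w.prod.n.natAbs := Int.natAbs_add_le _ _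
    rw [h3, List.length_cons]
    calc (a.n + w.prod.n).natAbs ≤ a.n.natAbs + w.prod.n.natAbs := h4
      _ ≤ (S.sup (fun s => s.n.natAbs) + 1) + (S.sup (fun s => s.n.natAbs) + 1) * w.length := by
        omega
      _ = _ := by ring

theorem diam_ge (u : ℤ_[3]ˣ) (hu : PadicInt.toZModPow 2 (u : ℤ_[3]) = 4) (S : Finset G)
    (hS : Subgroup.closure (S : Set G) = ⊤) : ∃ M : ℕ, 1 ≤ M ∧ ∀ k,
      3 ^ k ≤ M * diam (S : Set G) (congr (I1 u k)) := by
  obtain ⟨M, hM1, hM⟩ := exists_bound S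
  refine ⟨M, hM1, fun k => ?_⟩
  have hfi : (congr (I1 u k)).FiniteIndex := (index_le _).1
  let t : ℕ := 3 ^ (k + 1) / 2
  obtain ⟨w, hw1, hw2, hw3⟩ := diam_spec (S : Set G) hS (congr (I1 u k)) ⟨t, 0⟩
  have h1 := ((mem_congr_ker _ _ _).1 hw3).1
  have hT : ∀ n : ℤ, ((PadicInt.toZModPow (k + 2)).comp (ev u)) (T n) =
      ((Units.map (PadicInt.toZModPow (p := 3) (k + 2)).toMonoidHom u ^ n : (ZMod (3 ^ (k + 2)))ˣ) :
        ZMod (3 ^ (k + 2))) := by
    intro n
    rw [RingHom.comp_apply, ev, eval₂_T, ← map_zpow]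
    rfl
  rw [hT, hT] at h1
  have h2 := Units.ext h1
  have h3 : Units.map (PadicInt.toZModPow (p := 3) (k + 2)).toMonoidHom u ^ (w.prod.n - (t : ℤ)) =
      1 := by
    rw [zpow_sub, h2, mul_inv_cancel]
  have h4 : Units.map (PadicInt.toZModPow (p := 3) (k + 2)).toMonoidHom u ^
      (w.prod.n - (t : ℤ)).natAbs = 1 := by
    rcases Int.natAbs_eq (w.prod.n - (t : ℤ)) with h5 | h5
    · rw [h5, zpow_natCast] at h3
      exact h3
    · rw [h5, zpow_neg, zpow_natCast, inv_eq_one] at h3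
      exact h3
  have h5 : PadicInt.toZModPow (k + 2) (u : ℤ_[3]) ^ (w.prod.n - (t : ℤ)).natAbs = 1 := by
    have := congrArg Units.val h4
    simpa using this
  have h6 := dvd_of_pow_eq_one _ hu (k + 2) (by omega) _ h5
  have h7 : 3 ^ (k + 1) ∣ (w.prod.n - (t : ℤ)).natAbs := h6
  have h8 := hM w hw2
  have h9 : t ≤ w.prod.n.natAbs := by
    rcases Nat.eq_zero_or_pos (w.prod.n - (t : ℤ)).natAbs with h10 | h10
    · omega
    · have := Nat.le_of_dvd h10 h7
      omega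
  have h10 : 3 ^ k ≤ t := by
    have : 0 < 3 ^ k := by positivity
    simp only [t, pow_succ]
    omega
  calc 3 ^ k ≤ t := h10
    _ ≤ w.prod.n.natAbs := h9
    _ ≤ M * w.length := h8
    _ ≤ _ := Nat.mul_le_mul le_rfl hw1

theorem hasD_half (u : ℤ_[3]ˣ) (hu : PadicInt.toZModPow 2 (u : ℤ_[3]) = 4) (S : Finset G)
    (hS : Subgroup.closure (S : Set G) = ⊤) : HasD (S : Set G) (I1 u) (1 / 2) := by
  obtain ⟨M, hM1, hM⟩ := diam_ge u hu S hS
  have hM0 : (0 : ℝ) < M := by exact_mod_cast hM1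
  refine ⟨1 / (9 * M), by positivity, fun k => ?_⟩
  have h1 := (index_le ((PadicInt.toZModPow (k + 2)).comp (ev u))).2
  rw [Nat.card_eq_fintype_card, ZMod.card] at h1
  have h2 : ((congr (I1 u k)).index : ℝ) ≤ (3 ^ (k + 2)) ^ 2 := by
    rw [pow_two ((3 : ℝ) ^ (k + 2))]
    exact_mod_cast h1
  have h3 : ((congr (I1 u k)).index : ℝ) ^ (1 / 2 : ℝ) ≤ 3 ^ (k + 2) := by
    rw [← Real.sqrt_eq_rpow]
    exact Real.sqrt_le_iff.2 ⟨by positivity, h2⟩
  have h4 : (3 : ℝ) ^ k ≤ M * diam (S : Set G) (congr (I1 u k)) := by exact_mod_cast hM k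
  calc 1 / (9 * (M : ℝ)) * ((congr (I1 u k)).index : ℝ) ^ (1 / 2 : ℝ)
      ≤ 1 / (9 * (M : ℝ)) * 3 ^ (k + 2) := by gcongr
    _ = 3 ^ k / M := by
      rw [pow_add]
      field_simp
      norm_num
    _ ≤ diam (S : Set G) (congr (I1 u k)) := by
      rw [div_le_iff₀ hM0, mul_comm]
      exact h4

/-! ### Question 2 -/

/-- reduction of the coefficients modulo `2 ^ k` and of the exponents modulo `2 ^ k` -/
noncomputable def h2 (k : ℕ) : ℤ[T;T⁻¹] →+* AddMonoidAlgebra (ZMod (2 ^ k)) (ZMod (2 ^ k)) :=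
  (AddMonoidAlgebra.mapDomainRingHom (ZMod (2 ^ k)) (Int.castAddHom (ZMod (2 ^ k)))).comp
    (AddMonoidAlgebra.mapRingHom ℤ (Int.castRingHom (ZMod (2 ^ k))))

theorem h2_single (k : ℕ) (i : ℤ) (c : ℤ) : h2 k (AddMonoidAlgebra.single i c) =
    AddMonoidAlgebra.single (i : ZMod (2 ^ k)) (c : ZMod (2 ^ k)) := by
  rw [h2, RingHom.comp_apply, AddMonoidAlgebra.mapRingHom_single,
    AddMonoidAlgebra.mapDomainRingHom_apply, AddMonoidAlgebra.mapDomain_single]
  rfl

theorem h2_T (k : ℕ) (i : ℤ) : h2 k (T i) = AddMonoidAlgebra.single (i : ZMod (2 ^ k)) 1 := by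
  have := h2_single k i 1
  rw [Int.cast_one] at this
  exact this

theorem h2_coeff (k : ℕ) (P : ℤ[T;T⁻¹]) (i : ℤ)
    (hi : ∀ j ∈ P.coeff.support, (j : ZMod (2 ^ k)) = i → j = i) :
    (h2 k P).coeff (i : ZMod (2 ^ k)) = (P.coeff i : ZMod (2 ^ k)) := by
  have e : (h2 k P).coeff = Finsupp.mapDomain (fun j : ℤ => (j : ZMod (2 ^ k)))
      (AddMonoidAlgebra.mapRingHom ℤ (Int.castRingHom (ZMod (2 ^ k))) P).coeff := rfl
  have e2 : ∀ j, (AddMonoidAlgebra.mapRingHom ℤ (Int.castRingHom (ZMod (2 ^ k))) P).coeff j =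
      (P.coeff j : ZMod (2 ^ k)) := fun j => by
    rw [AddMonoidAlgebra.coeff_mapRingHom]
    rfl
  rw [e, Finsupp.mapDomain, Finsupp.sum_apply, Finsupp.sum, Finset.sum_eq_single i]
  · rw [Finsupp.single_apply, if_pos rfl, e2]
  · intro j hj hji
    rw [Finsupp.mem_support_iff, e2] at hj
    rw [Finsupp.single_apply, if_neg]
    intro h
    apply hji
    apply hi j _ h
    rw [Finsupp.mem_support_iff]
    intro h0
    rw [h0] at hj
    simp at hj
  · intro h
    rw [Finsupp.notMem_support_iff] at h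
    rw [h, Finsupp.single_zero]
    rfl

instance (k : ℕ) : Finite (AddMonoidAlgebra (ZMod (2 ^ k)) (ZMod (2 ^ k))) :=
  Finite.of_equiv (ZMod (2 ^ k) → ZMod (2 ^ k))
    (Finsupp.equivFunOnFinite.symm.trans AddMonoidAlgebra.coeffEquiv.symm)

theorem card_ring (k : ℕ) : Nat.card (AddMonoidAlgebra (ZMod (2 ^ k)) (ZMod (2 ^ k))) =
    (2 ^ k) ^ (2 ^ k) := by
  rw [Nat.card_congr (AddMonoidAlgebra.coeffEquiv.trans Finsupp.equivFunOnFinite), Nat.card_fun,
    Nat.card_zmod]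

/-- the ideals for Question 2 -/
noncomputable def I2 (k : ℕ) : Ideal ℤ[T;T⁻¹] := RingHom.ker (h2 k)

theorem h2_factor (k l : ℕ) (hkl : k ≤ l) : ∃ F : AddMonoidAlgebra (ZMod (2 ^ l)) (ZMod (2 ^ l)) →+*
    AddMonoidAlgebra (ZMod (2 ^ k)) (ZMod (2 ^ k)), F.comp (h2 l) = h2 k := by
  have hd : 2 ^ k ∣ 2 ^ l := pow_dvd_pow 2 hkl
  refine ⟨(AddMonoidAlgebra.mapDomainRingHom (ZMod (2 ^ k))
    (ZMod.castHom hd (ZMod (2 ^ k))).toAddMonoidHom).comp
    (AddMonoidAlgebra.mapRingHom (ZMod (2 ^ l)) (ZMod.castHom hd (ZMod (2 ^ k)))), ?_⟩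
  apply AddMonoidAlgebra.ringHom_ext
  · intro r
    rw [RingHom.comp_apply, h2_single, h2_single]
    simp
  · intro m
    rw [RingHom.comp_apply, h2_single, h2_single]
    simp [ZMod.cast_one hd]

theorem filtration2 : IsCongruenceFiltration I2 := by
  refine ⟨?_, ?_, fun k => normal_congr _, ?_, ?_⟩
  · intro k l hkl P hP
    obtain ⟨F, hF⟩ := h2_factor k l hkl
    rw [I2, RingHom.mem_ker] at hP ⊢
    rw [← hF, RingHom.comp_apply, hP, map_zero]
  · intro k
    exact Finite.of_injective _ (RingHom.kerLift_injective _)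
  · intro k
    exact (index_le _).1
  · rw [eq_bot_iff]
    intro g hg
    rw [Subgroup.mem_iInf] at hg
    have h1 : ∀ P : ℤ[T;T⁻¹], (∀ k, P ∈ I2 k) → P = 0 := by
      intro P hP
      by_contra hne
      have h0 : P.coeff ≠ 0 := fun h => hne (AddMonoidAlgebra.coeff_injective h)
      obtain ⟨i, hi⟩ := Finsupp.support_nonempty_iff.2 h0
      -- a large modulus
      obtain ⟨B, hB⟩ : ∃ B : ℕ, ∀ j ∈ P.coeff.support, (j - i).natAbs ≤ B :=
        ⟨P.coeff.support.sup (fun j => (j - i).natAbs), fun j hj =>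
          Finset.le_sup (f := fun j : ℤ => (j - i).natAbs) hj⟩
      let k := B + (P.coeff i).natAbs + 1
      have hk : B + (P.coeff i).natAbs < 2 ^ k := (Nat.lt_succ_self _).trans Nat.lt_two_pow_self
      have hPk := hP k
      rw [I2, RingHom.mem_ker] at hPk
      have h2 := h2_coeff k P i (by
        intro j hj hji
        have h3 : ((2 ^ k : ℕ) : ℤ) ∣ j - i := by
          rw [← ZMod.intCast_zmod_eq_zero_iff_dvd]
          push_cast
          rw [hji, sub_self]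
        by_contra hne
        have h4 := Int.natAbs_dvd_natAbs.2 h3
        have h5 := Nat.le_of_dvd (by omega) h4
        rw [Int.natAbs_natCast] at h5
        have := hB j hj
        omega)
      rw [hPk] at h2
      have h3 : ((P.coeff i : ℤ) : ZMod (2 ^ k)) = 0 := h2.symm
      rw [ZMod.intCast_zmod_eq_zero_iff_dvd] at h3
      have h4 := Int.natAbs_dvd_natAbs.2 h3
      have h6 : P.coeff i ≠ 0 := Finsupp.mem_support_iff.1 hi
      have h5 := Nat.le_of_dvd (by omega) h4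
      rw [Int.natAbs_natCast] at h5
      omega
    have h2 : g.P = 0 := h1 _ fun k => (mem_congr.1 (hg k)).2
    have h3 : T g.n - 1 = (0 : ℤ[T;T⁻¹]) := h1 _ fun k => (mem_congr.1 (hg k)).1
    have h4 : g.n = 0 := by
      rw [sub_eq_zero, ← T_zero] at h3
      have h5 : Finsupp.single g.n (1 : ℤ) = Finsupp.single 0 1 :=
        congrArg AddMonoidAlgebra.coeff h3
      exact Finsupp.single_left_injective one_ne_zero h5
    rw [Subgroup.mem_bot]
    ext1
    · exact h4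
    · exact h2

/-- the Laurent polynomial `∑_{i<m} c_i X^i` -/
noncomputable def poly (c : ℕ → ℕ) (m : ℕ) : ℤ[T;T⁻¹] :=
  ∑ i ∈ Finset.range m, AddMonoidAlgebra.single (i : ℤ) (c i : ℤ)

theorem h2_poly (k : ℕ) (r : AddMonoidAlgebra (ZMod (2 ^ k)) (ZMod (2 ^ k))) :
    h2 k (poly (fun i => (r.coeff (i : ZMod (2 ^ k))).val) (2 ^ k)) = r := by
  apply AddMonoidAlgebra.coeff_injective
  ext j
  have e : h2 k (poly (fun i => (r.coeff (i : ZMod (2 ^ k))).val) (2 ^ k)) =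
      ∑ i ∈ Finset.range (2 ^ k), AddMonoidAlgebra.single (i : ZMod (2 ^ k))
        (r.coeff (i : ZMod (2 ^ k))) := by
    rw [poly, map_sum]
    refine Finset.sum_congr rfl fun i _ => ?_
    rw [h2_single]
    simp
  rw [e, AddMonoidAlgebra.coeff_sum, Finsupp.finsetSum_apply, Finset.sum_eq_single j.val]
  · rw [ZMod.natCast_zmod_val]
    simp [AddMonoidAlgebra.coeff_single]
  · intro i hi hij
    rw [AddMonoidAlgebra.coeff_single, Finsupp.single_apply, if_neg]
    intro h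
    apply hij
    rw [← h, ZMod.val_natCast, Nat.mod_eq_of_lt (Finset.mem_range.1 hi)]
  · intro h
    exact absurd (Finset.mem_range.2 (ZMod.val_lt j)) h

theorem index_ge (k : ℕ) : (2 ^ k) ^ (2 ^ k) ≤ (congr (I2 k)).index := by
  have hfi : (congr (I2 k)).FiniteIndex := (index_le _).1
  rw [← card_ring k]
  have hfin : Finite (G ⧸ congr (I2 k)) := inferInstance
  refine Nat.card_le_card_of_injective (β := G ⧸ congr (I2 k)) (fun r =>
    ((⟨0, poly (fun i => (r.coeff (i : ZMod (2 ^ k))).val) (2 ^ k)⟩ : G) : G ⧸ congr (I2 k))) ?_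
  intro r r' hrr
  have h1 := QuotientGroup.eq.1 hrr
  have h3 := ((mem_congr_ker _ _ _).1 h1).2
  simp only at h3
  rwa [h2_poly, h2_poly] at h3

/-- `g` is a product of at most `m` elements of `S ∪ S⁻¹` -/
def Len (S : Set G) (m : ℕ) (g : G) : Prop :=
  ∃ w : List G, w.length ≤ m ∧ (∀ s ∈ w, s ∈ S ∨ s⁻¹ ∈ S) ∧ w.prod = g

theorem Len.mul {S : Set G} {m m' : ℕ} {g g' : G} (h : Len S m g) (h' : Len S m' g') :
    Len S (m + m') (g * g') := by
  obtain ⟨w, h1, h2, h3⟩ := h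
  obtain ⟨w', h1', h2', h3'⟩ := h'
  refine ⟨w ++ w', by rw [List.length_append]; omega, fun s hs => ?_, ?_⟩
  · rcases List.mem_append.1 hs with h4 | h4
    · exact h2 s h4
    · exact h2' s h4
  · rw [List.prod_append, h3, h3']

theorem Len.pow {S : Set G} {m : ℕ} {g : G} (h : Len S m g) (k : ℕ) : Len S (m * k) (g ^ k) := by
  induction k with
  | zero => exact ⟨[], by simp, by simp, by simp⟩
  | succ k ih =>
    rw [pow_succ, Nat.mul_succ]
    exact ih.mul h

theorem Len.mono {S : Set G} {m m' : ℕ} {g : G} (h : Len S m g) (hm : m ≤ m') : Len S m' g := by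
  obtain ⟨w, h1, h2, h3⟩ := h
  exact ⟨w, h1.trans hm, h2, h3⟩

theorem exists_len (S : Set G) (hS : Subgroup.closure S = ⊤) (g : G) : ∃ m, Len S m g := by
  have h1 : g ∈ (Subgroup.closure S).toSubmonoid := by rw [hS]; trivial
  rw [Subgroup.closure_toSubmonoid] at h1
  obtain ⟨l, hl1, hl2⟩ := Submonoid.exists_list_of_mem_closure h1
  exact ⟨l.length, l, le_rfl, fun s hs => by simpa using hl1 s hs, hl2⟩

theorem pow_x (n : ℕ) : (⟨1, 0⟩ : G) ^ n = ⟨n, 0⟩ := by
  induction n with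
  | zero => rfl
  | succ n ih =>
    rw [pow_succ, ih]
    ext1
    · simp
    · simp

theorem pow_a (c : ℕ) : (⟨0, 1⟩ : G) ^ c = ⟨0, AddMonoidAlgebra.single 0 (c : ℤ)⟩ := by
  induction c with
  | zero =>
    ext1
    · rfl
    · simp
  | succ c ih =>
    rw [pow_succ, ih]
    ext1
    · simp
    · have : (1 : ℤ[T;T⁻¹]) = AddMonoidAlgebra.single 0 1 := rfl
      rw [mul_P, T_zero, one_mul]
      push_cast
      rw [AddMonoidAlgebra.single_add]
      rfl

theorem len_poly {S : Set G} {L : ℕ} (hx : Len S L ⟨1, 0⟩) (ha : Len S L ⟨0, 1⟩) (c : ℕ → ℕ)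
    (B : ℕ) (hc : ∀ i, c i ≤ B) (m : ℕ) : Len S (m * (L * B + L)) ⟨m, poly c m⟩ := by
  induction m with
  | zero => exact ⟨[], by simp, by simp, by ext1 <;> simp [poly]⟩
  | succ m ih =>
    have h1 : Len S (L * B) ((⟨0, 1⟩ : G) ^ c m) :=
      (ha.pow (c m)).mono (Nat.mul_le_mul le_rfl (hc m))
    have h3 : (⟨((m + 1 : ℕ) : ℤ), poly c (m + 1)⟩ : G) =
        ⟨m, poly c m⟩ * ((⟨0, 1⟩ : G) ^ c m * ⟨1, 0⟩) := by
      rw [pow_a]
      ext1
      · simp
      · simp only [mul_P, poly, Finset.sum_range_succ, mul_zero, add_zero]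
        congr 1
        have : (T (m : ℤ) : ℤ[T;T⁻¹]) = AddMonoidAlgebra.single (m : ℤ) 1 := rfl
        rw [this, AddMonoidAlgebra.single_mul_single]
        simp
    rw [h3]
    exact (ih.mul (h1.mul hx)).mono (by ring_nf; rfl)

theorem diam_upper (S : Set G) (hS : Subgroup.closure S = ⊤) : ∃ L : ℕ, ∀ k,
    diam S (congr (I2 k)) ≤ L * (2 ^ k) ^ 2 := by
  obtain ⟨Lx, hx⟩ := exists_len S hS ⟨1, 0⟩
  obtain ⟨La, ha⟩ := exists_len S hS ⟨0, 1⟩
  set L := Lx + La with hL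
  have hx' : Len S L ⟨1, 0⟩ := hx.mono (by omega)
  have ha' : Len S L ⟨0, 1⟩ := ha.mono (by omega)
  refine ⟨3 * L, fun k => diam_le _ _ _ fun g => ?_⟩
  let c : ℕ → ℕ := fun i => ((h2 k g.P).coeff (i : ZMod (2 ^ k))).val
  have hc : ∀ i, c i ≤ 2 ^ k := fun i => (ZMod.val_lt _).le
  have h1 := len_poly hx' ha' c (2 ^ k) hc (2 ^ k)
  have h3 := hx'.pow (g.n : ZMod (2 ^ k)).val
  rw [pow_x] at h3
  have h4 := h1.mul h3
  obtain ⟨w, hw1, hw2, hw3⟩ := h4
  refine ⟨w, hw1.trans ?_, hw2, ?_⟩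
  · have h5 : (g.n : ZMod (2 ^ k)).val ≤ 2 ^ k := (ZMod.val_lt _).le
    have h6 : 1 ≤ 2 ^ k := Nat.one_le_two_pow
    calc 2 ^ k * (L * 2 ^ k + L) + L * (g.n : ZMod (2 ^ k)).val
        ≤ 2 ^ k * (L * 2 ^ k + L * 2 ^ k) + L * (2 ^ k * 2 ^ k) := by
          refine Nat.add_le_add (Nat.mul_le_mul le_rfl (Nat.add_le_add le_rfl ?_)) (Nat.mul_le_mul le_rfl ?_)
          · exact Nat.le_mul_of_pos_right _ (by omega)
          · exact h5.trans (Nat.le_mul_of_pos_right _ (by omega))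
      _ = 3 * L * (2 ^ k) ^ 2 := by ring
  · rw [hw3]
    refine (mem_congr_ker _ _ _).2 ⟨?_, ?_⟩
    · rw [h2_T, h2_T]
      congr 1
      rw [mul_n]
      simp only
      push_cast
      rw [ZMod.natCast_zmod_val]
      have : ((2 : ZMod (2 ^ k)) ^ k) = 0 := by
        have := ZMod.natCast_self (2 ^ k)
        push_cast at this
        exact this
      rw [this, zero_add]
    · rw [mul_P]
      simp only [mul_zero, add_zero]
      exact h2_poly k (h2 k g.P)

theorem not_hasD (S : Finset G) (hS : Subgroup.closure (S : Set G) = ⊤) (α : ℝ) (hα : 0 < α) :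
    ¬ HasD (S : Set G) I2 α := by
  rintro ⟨K, hK, h⟩
  obtain ⟨L, hL⟩ := diam_upper (S : Set G) hS
  have hr0 : (0 : ℝ) < (2 : ℝ) ^ α := by positivity
  have hr1 : (1 : ℝ) < (2 : ℝ) ^ α := Real.one_lt_rpow (by norm_num) hα
  have key : ∀ k : ℕ, 1 ≤ k → K * ((2 : ℝ) ^ α) ^ (2 ^ k : ℕ) ≤ L * ((2 ^ k : ℕ) : ℝ) ^ 2 := by
    intro k hk
    have h1 : ((2 : ℝ) ^ α) ^ (2 ^ k : ℕ) ≤ ((congr (I2 k)).index : ℝ) ^ α := by
      rw [← Real.rpow_natCast ((2 : ℝ) ^ α), ← Real.rpow_mul (by norm_num), mul_comm α,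
        Real.rpow_mul (by norm_num), Real.rpow_natCast]
      refine Real.rpow_le_rpow (by positivity) ?_ hα.le
      have h3 : 2 ^ (2 ^ k) ≤ (congr (I2 k)).index :=
        (Nat.pow_le_pow_left (by
          calc 2 = 2 ^ 1 := rfl
            _ ≤ 2 ^ k := Nat.pow_le_pow_right (by norm_num) hk) (2 ^ k)).trans (index_ge k)
      exact_mod_cast h3
    have h2' : (diam (S : Set G) (congr (I2 k)) : ℝ) ≤ L * ((2 ^ k : ℕ) : ℝ) ^ 2 := by
      exact_mod_cast hL k
    calc K * ((2 : ℝ) ^ α) ^ (2 ^ k : ℕ) ≤ K * ((congr (I2 k)).index : ℝ) ^ α := by gcongr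
      _ ≤ _ := (h k).trans h2'
  have hlim := tendsto_pow_const_mul_const_pow_of_abs_lt_one 2 (r := ((2 : ℝ) ^ α)⁻¹) (by
    rw [abs_of_pos (by positivity)]
    exact inv_lt_one_of_one_lt₀ hr1)
  have h3 : Filter.Tendsto (fun n : ℕ => (L : ℝ) * ((n : ℝ) ^ 2 * (((2 : ℝ) ^ α)⁻¹) ^ n))
      Filter.atTop (nhds 0) := by
    simpa using hlim.const_mul (L : ℝ)
  have h4 := (h3.eventually (gt_mem_nhds hK))
  obtain ⟨N, hN⟩ := Filter.eventually_atTop.1 h4
  have h5 := hN (2 ^ (N + 1)) ((Nat.le_succ N).trans Nat.lt_two_pow_self.le)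
  have h6 := key (N + 1) (by omega)
  have h7 : (0 : ℝ) < ((2 : ℝ) ^ α) ^ (2 ^ (N + 1) : ℕ) := by positivity
  rw [inv_pow, ← mul_assoc, ← div_eq_mul_inv, div_lt_iff₀ h7] at h5
  linarith

end Pool.Agent.R650.Box
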