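import Mathlib

/-!
# Cactus groups: definition
-/

set_option autoImplicit false

namespace Pool.Agent.R650.Cactus

/-- The generators `s_{p,q}`, `p < q`, of the cactus group `J_n`; the positions are `0, …, n - 1`.-/
abbrev Gen (n : ℕ) : Type := {I : Fin n × Fin n // I.1 < I.2}

/-- The relators of the cactus group. -/
def rels (n : ℕ) : Set (FreeGroup (Gen n)) :=
  {r | (∃ s : Gen n, r = FreeGroup.of s * FreeGroup.of s) ∨
    (∃ s t : Gen n, (s.1.2 < t.1.1 ∨ t.1.2 < s.1.1) ∧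
      r = FreeGroup.of s * FreeGroup.of t * (FreeGroup.of t * FreeGroup.of s)⁻¹) ∨
    (∃ s t u : Gen n, s.1.1 ≤ t.1.1 ∧ t.1.2 ≤ s.1.2 ∧
      (u.1.1 : ℕ) + t.1.2 = s.1.1 + s.1.2 ∧ (u.1.2 : ℕ) + t.1.1 = s.1.1 + s.1.2 ∧
      r = FreeGroup.of s * FreeGroup.of t * (FreeGroup.of u * FreeGroup.of s)⁻¹)}

/-- The cactus group `J_n`: generators `s_{p,q}` for `p < q`; relations `s_{p,q}² = 1`,
`s_{p,q} s_{m,r} = s_{m,r} s_{p,q}` if the intervals `[p,q]` and `[m,r]` are disjoint, and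
`s_{p,q} s_{m,r} = s_{p+q-r,p+q-m} s_{p,q}` if `[m,r]` is contained in `[p,q]`. -/
abbrev Cactus (n : ℕ) : Type := PresentedGroup (rels n)

/-- The group `G` contains a free abelian subgroup of rank `k`. -/
def ContainsZPow (G : Type) [Group G] (k : ℕ) : Prop :=
  ∃ f : Multiplicative (Fin k → ℤ) →* G, Function.Injective f


end Pool.Agent.R650.Cactus
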