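import Mathlib
import Pool.Agent.R650.CactusDefs

/-!
# The cactus group `J_5` contains a free abelian subgroup of rank two
-/

set_option autoImplicit false

namespace Pool.Agent.R650.Cactus

/-- Images of the generators in a linear representation. -/
def mat4 : ℕ → ℕ → Matrix (Fin 5) (Fin 5) ℤ
  | 0, 1 => !![1, 0, 0, 0, 0; 0, 1, 0, 0, 0; 0, 0, 1, 0, 0; 0, 0, 0, 0, 1; 0, 0, 0, 1, 0]
  | 0, 2 => !![1, 0, 0, 0, 0; 0, 1, 0, 0, 0; 0, 0, 0, 0, 1; 0, 0, 0, 1, 0; 0, 0, 1, 0, 0]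
  | 0, 3 => !![-1, -2, -2, -2, -2; 0, 0, 0, 0, 1; 0, 0, 0, 1, 0; 0, 0, 1, 0, 0; 0, 1, 0, 0, 0]
  | 0, 4 => !![0, 0, 0, 0, 1; 0, 0, 0, 1, 0; 0, 0, 1, 0, 0; 0, 1, 0, 0, 0; 1, 0, 0, 0, 0]
  | 1, 2 => !![1, 0, 0, 0, 0; 0, 1, 0, 0, 0; 0, 0, 0, 1, 0; 0, 0, 1, 0, 0; 0, 0, 0, 0, 1]
  | 1, 3 => !![1, 0, 0, 0, 0; 0, 0, 0, 1, 0; 0, 0, 1, 0, 0; 0, 1, 0, 0, 0; 0, 0, 0, 0, 1]
  | 1, 4 => !![0, 0, 0, 1, 0; 0, 0, 1, 0, 0; 0, 1, 0, 0, 0; 1, 0, 0, 0, 0; -2, -2, -2, -2, -1]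
  | 2, 3 => !![1, 0, 0, 0, 0; 0, 0, 1, 0, 0; 0, 1, 0, 0, 0; 0, 0, 0, 1, 0; 0, 0, 0, 0, 1]
  | 2, 4 => !![0, 0, 1, 0, 0; 0, 1, 0, 0, 0; 1, 0, 0, 0, 0; 0, 0, 0, 1, 0; 0, 0, 0, 0, 1]
  | 3, 4 => !![0, 1, 0, 0, 0; 1, 0, 0, 0, 0; 0, 0, 1, 0, 0; 0, 0, 0, 1, 0; 0, 0, 0, 0, 1]
  | _, _ => 1

/-- Images of the generators in a linear representation. -/
def mat2 : ℕ → ℕ → Matrix (Fin 10) (Fin 10) ℤ
  | 0, 1 => !![-1, -2, -2, -2, -2, -2, -2, 0, 0, 0; 0, 0, 0, 0, 1, 0, 0, 0, 0, 0; 0, 0, 0, 0, 0, 1, 0, 0, 0, 0; 0, 0, 0, 0, 0, 0, 1, 0, 0, 0; 0, 1, 0, 0, 0, 0, 0, 0, 0, 0; 0, 0, 1, 0, 0, 0, 0, 0, 0, 0; 0, 0, 0, 1, 0, 0, 0, 0, 0, 0; 0, 0, 0, 0, 0, 0, 0, 1, 0, 0; 0, 0, 0, 0, 0, 0, 0, 0, 1, 0; 0, 0, 0, 0, 0, 0, 0, 0, 0, 1]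
  | 0, 2 => !![0, 0, 0, 0, 1, 0, 0, 0, 0, 0; 0, 1, 0, 0, 0, 0, 0, 0, 0, 0; 0, 0, 0, 0, 0, 0, 0, 1, 0, 0; 0, 0, 0, 0, 0, 0, 0, 0, 1, 0; 1, 0, 0, 0, 0, 0, 0, 0, 0, 0; 0, 0, 0, 0, 0, 1, 0, 0, 0, 0; 0, 0, 0, 0, 0, 0, 1, 0, 0, 0; 0, 0, 1, 0, 0, 0, 0, 0, 0, 0; 0, 0, 0, 1, 0, 0, 0, 0, 0, 0; 0, 0, 0, 0, 0, 0, 0, 0, 0, 1]
  | 0, 3 => !![0, 0, 0, 0, 0, 0, 0, 1, 0, 0; 0, 0, 0, 0, 0, 1, 0, 0, 0, 0; 0, 0, 1, 0, 0, 0, 0, 0, 0, 0; 0, 0, 0, 0, 0, 0, 0, 0, 0, 1; 0, 0, 0, 0, 1, 0, 0, 0, 0, 0; 0, 1, 0, 0, 0, 0, 0, 0, 0, 0; 0, 0, 0, 0, 0, 0, 0, 0, 1, 0; 1, 0, 0, 0, 0, 0, 0, 0, 0, 0; 0, 0, 0, 0, 0, 0, 1, 0, 0, 0; 0, 0, 0, 1, 0, 0, 0, 0, 0, 0]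
  | 0, 4 => !![0, 0, 0, 0, 0, 0, 0, 0, 0, 1; 0, 0, 0, 0, 0, 0, 0, 0, 1, 0; 0, 0, 0, 0, 0, 0, 1, 0, 0, 0; 0, 0, 0, 1, 0, 0, 0, 0, 0, 0; 0, 0, 0, 0, 0, 0, 0, 1, 0, 0; 0, 0, 0, 0, 0, 1, 0, 0, 0, 0; 0, 0, 1, 0, 0, 0, 0, 0, 0, 0; 0, 0, 0, 0, 1, 0, 0, 0, 0, 0; 0, 1, 0, 0, 0, 0, 0, 0, 0, 0; 1, 0, 0, 0, 0, 0, 0, 0, 0, 0]
  | 1, 2 => !![0, 1, 0, 0, 0, 0, 0, 0, 0, 0; 1, 0, 0, 0, 0, 0, 0, 0, 0, 0; 0, 0, 1, 0, 0, 0, 0, 0, 0, 0; 0, 0, 0, 1, 0, 0, 0, 0, 0, 0; -2, -2, 0, 0, -1, -2, -2, -2, -2, 0; 0, 0, 0, 0, 0, 0, 0, 1, 0, 0; 0, 0, 0, 0, 0, 0, 0, 0, 1, 0; 0, 0, 0, 0, 0, 1, 0, 0, 0, 0; 0, 0, 0, 0, 0, 0, 1, 0, 0, 0; 0, 0, 0, 0, 0, 0, 0, 0, 0, 1]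
  | 1, 3 => !![0, 0, 1, 0, 0, 0, 0, 0, 0, 0; 0, 1, 0, 0, 0, 0, 0, 0, 0, 0; 1, 0, 0, 0, 0, 0, 0, 0, 0, 0; 0, 0, 0, 1, 0, 0, 0, 0, 0, 0; 0, 0, 0, 0, 0, 0, 0, 1, 0, 0; 0, 0, 0, 0, 0, 1, 0, 0, 0, 0; 0, 0, 0, 0, 0, 0, 0, 0, 0, 1; 0, 0, 0, 0, 1, 0, 0, 0, 0, 0; 0, 0, 0, 0, 0, 0, 0, 0, 1, 0; 0, 0, 0, 0, 0, 0, 1, 0, 0, 0]
  | 1, 4 => !![0, 0, 0, 1, 0, 0, 0, 0, 0, 0; 0, 0, 1, 0, 0, 0, 0, 0, 0, 0; 0, 1, 0, 0, 0, 0, 0, 0, 0, 0; 1, 0, 0, 0, 0, 0, 0, 0, 0, 0; 0, 0, 0, 0, 0, 0, 0, 0, 0, 1; 0, 0, 0, 0, 0, 0, 0, 0, 1, 0; 0, 0, 0, 0, 0, 0, 1, 0, 0, 0; 0, 0, 0, 0, 0, 0, 0, 1, 0, 0; 0, 0, 0, 0, 0, 1, 0, 0, 0, 0; 0, 0, 0, 0, 1, 0, 0, 0, 0, 0]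
  | 2, 3 => !![1, 0, 0, 0, 0, 0, 0, 0, 0, 0; 0, 0, 1, 0, 0, 0, 0, 0, 0, 0; 0, 1, 0, 0, 0, 0, 0, 0, 0, 0; 0, 0, 0, 1, 0, 0, 0, 0, 0, 0; 0, 0, 0, 0, 0, 1, 0, 0, 0, 0; 0, 0, 0, 0, 1, 0, 0, 0, 0, 0; 0, 0, 0, 0, 0, 0, 1, 0, 0, 0; 0, -2, -2, 0, -2, -2, 0, -1, -2, -2; 0, 0, 0, 0, 0, 0, 0, 0, 0, 1; 0, 0, 0, 0, 0, 0, 0, 0, 1, 0]
  | 2, 4 => !![1, 0, 0, 0, 0, 0, 0, 0, 0, 0; 0, 0, 0, 1, 0, 0, 0, 0, 0, 0; 0, 0, 1, 0, 0, 0, 0, 0, 0, 0; 0, 1, 0, 0, 0, 0, 0, 0, 0, 0; 0, 0, 0, 0, 0, 0, 1, 0, 0, 0; 0, 0, 0, 0, 0, 1, 0, 0, 0, 0; 0, 0, 0, 0, 1, 0, 0, 0, 0, 0; 0, 0, 0, 0, 0, 0, 0, 0, 0, 1; 0, 0, 0, 0, 0, 0, 0, 0, 1, 0; 0, 0, 0, 0, 0, 0, 0, 1, 0, 0]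
  | 3, 4 => !![1, 0, 0, 0, 0, 0, 0, 0, 0, 0; 0, 1, 0, 0, 0, 0, 0, 0, 0, 0; 0, 0, 0, 1, 0, 0, 0, 0, 0, 0; 0, 0, 1, 0, 0, 0, 0, 0, 0, 0; 0, 0, 0, 0, 1, 0, 0, 0, 0, 0; 0, 0, 0, 0, 0, 0, 1, 0, 0, 0; 0, 0, 0, 0, 0, 1, 0, 0, 0, 0; 0, 0, 0, 0, 0, 0, 0, 0, 1, 0; 0, 0, 0, 0, 0, 0, 0, 1, 0, 0; 0, 0, -2, -2, 0, -2, -2, -2, -2, -1]
  | _, _ => 1

/-- D4 -/
def D4 : Matrix (Fin 5) (Fin 5) ℤ := !![2, 2, 2, 2, 2; -2, -2, -2, -2, -2; 0, 0, 0, 0, 0; 0, 0, 0, 0, 0; 0, 0, 0, 0, 0]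
/-- D2 -/
def D2 : Matrix (Fin 10) (Fin 10) ℤ := !![0, 0, 4, 4, 0, -4, -4, 0, 0, 0; 0, 0, -4, -4, 0, 0, 0, 4, 4, 0; 0, 0, 0, 0, 0, 0, 0, 0, 0, 0; 0, 0, 0, 0, 0, 0, 0, 0, 0, 0; 0, 0, 0, 0, 0, 4, 4, -4, -4, 0; 0, 0, 0, 0, 0, 0, 0, 0, 0, 0; 0, 0, 0, 0, 0, 0, 0, 0, 0, 0; 0, 0, 0, 0, 0, 0, 0, 0, 0, 0; 0, 0, 0, 0, 0, 0, 0, 0, 0, 0; 0, 0, 0, 0, 0, 0, 0, 0, 0, 0]


theorem D4_sq : D4 * D4 = 0 := by decide +kernel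
theorem D2_sq : D2 * D2 = 0 := by decide +kernel

theorem sq4 : ∀ s : Gen 5, mat4 s.1.1 s.1.2 * mat4 s.1.1 s.1.2 = 1 := by decide +kernel
theorem sq2 : ∀ s : Gen 5, mat2 s.1.1 s.1.2 * mat2 s.1.1 s.1.2 = 1 := by decide +kernel

theorem disj4 : ∀ s t : Gen 5, (s.1.2 < t.1.1 ∨ t.1.2 < s.1.1) →
    mat4 s.1.1 s.1.2 * mat4 t.1.1 t.1.2 = mat4 t.1.1 t.1.2 * mat4 s.1.1 s.1.2 := by decide +kernel
theorem disj2 : ∀ s t : Gen 5, (s.1.2 < t.1.1 ∨ t.1.2 < s.1.1) →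
    mat2 s.1.1 s.1.2 * mat2 t.1.1 t.1.2 = mat2 t.1.1 t.1.2 * mat2 s.1.1 s.1.2 := by decide +kernel

theorem nest4 : ∀ s t : Gen 5, s.1.1 ≤ t.1.1 ∧ t.1.2 ≤ s.1.2 → ∀ u : Gen 5,
      (u.1.1 : ℕ) + t.1.2 = s.1.1 + s.1.2 ∧ (u.1.2 : ℕ) + t.1.1 = s.1.1 + s.1.2 →
    mat4 s.1.1 s.1.2 * mat4 t.1.1 t.1.2 = mat4 u.1.1 u.1.2 * mat4 s.1.1 s.1.2 := by decide +kernel
theorem nest2 : ∀ s t : Gen 5, s.1.1 ≤ t.1.1 ∧ t.1.2 ≤ s.1.2 → ∀ u : Gen 5,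
      (u.1.1 : ℕ) + t.1.2 = s.1.1 + s.1.2 ∧ (u.1.2 : ℕ) + t.1.1 = s.1.1 + s.1.2 →
    mat2 s.1.1 s.1.2 * mat2 t.1.1 t.1.2 = mat2 u.1.1 u.1.2 * mat2 s.1.1 s.1.2 := by decide +kernel

/-- The unit given by a generator. -/
def u4 (s : Gen 5) : (Matrix (Fin 5) (Fin 5) ℤ)ˣ :=
  ⟨mat4 s.1.1 s.1.2, mat4 s.1.1 s.1.2, sq4 s, sq4 s⟩

/-- The unit given by a generator. -/
def u2 (s : Gen 5) : (Matrix (Fin 10) (Fin 10) ℤ)ˣ :=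
  ⟨mat2 s.1.1 s.1.2, mat2 s.1.1 s.1.2, sq2 s, sq2 s⟩

theorem rel4 : ∀ r ∈ rels 5, FreeGroup.lift u4 r = 1 := by
  rintro r (⟨s, rfl⟩ | ⟨s, t, h, rfl⟩ | ⟨s, t, u, h1, h2, h3, h4, rfl⟩)
  · rw [map_mul, FreeGroup.lift_apply_of]
    exact Units.ext (sq4 s)
  · rw [map_mul, map_inv, map_mul, map_mul, FreeGroup.lift_apply_of, FreeGroup.lift_apply_of, mul_inv_eq_one]
    exact Units.ext (disj4 s t h)
  · rw [map_mul, map_inv, map_mul, map_mul, FreeGroup.lift_apply_of, FreeGroup.lift_apply_of, FreeGroup.lift_apply_of,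
      mul_inv_eq_one]
    exact Units.ext (nest4 s t ⟨h1, h2⟩ u ⟨h3, h4⟩)

theorem rel2 : ∀ r ∈ rels 5, FreeGroup.lift u2 r = 1 := by
  rintro r (⟨s, rfl⟩ | ⟨s, t, h, rfl⟩ | ⟨s, t, u, h1, h2, h3, h4, rfl⟩)
  · rw [map_mul, FreeGroup.lift_apply_of]
    exact Units.ext (sq2 s)
  · rw [map_mul, map_inv, map_mul, map_mul, FreeGroup.lift_apply_of, FreeGroup.lift_apply_of, mul_inv_eq_one]
    exact Units.ext (disj2 s t h)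
  · rw [map_mul, map_inv, map_mul, map_mul, FreeGroup.lift_apply_of, FreeGroup.lift_apply_of, FreeGroup.lift_apply_of,
      mul_inv_eq_one]
    exact Units.ext (nest2 s t ⟨h1, h2⟩ u ⟨h3, h4⟩)

/-- the first representation -/
def F4 : Cactus 5 →* (Matrix (Fin 5) (Fin 5) ℤ)ˣ := PresentedGroup.toGroup rel4
/-- the second representation -/
def F2 : Cactus 5 →* (Matrix (Fin 10) (Fin 10) ℤ)ˣ := PresentedGroup.toGroup rel2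

/-- a generator of `J_5` -/
def s (p q : Fin 5) (h : p < q) : Cactus 5 := PresentedGroup.of (⟨(p, q), h⟩ : Gen 5)

theorem F4_s (p q : Fin 5) (h : p < q) : ((F4 (s p q h) : (Matrix (Fin 5) (Fin 5) ℤ)ˣ) :
    Matrix (Fin 5) (Fin 5) ℤ) = mat4 p q := by
  have : F4 (s p q h) = u4 ⟨(p, q), h⟩ := PresentedGroup.toGroup.of rel4
  rw [this]; rfl

theorem F2_s (p q : Fin 5) (h : p < q) : ((F2 (s p q h) : (Matrix (Fin 10) (Fin 10) ℤ)ˣ) :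
    Matrix (Fin 10) (Fin 10) ℤ) = mat2 p q := by
  have : F2 (s p q h) = u2 ⟨(p, q), h⟩ := PresentedGroup.toGroup.of rel2
  rw [this]; rfl

theorem rel_disj (p q m r : Fin 5) (h : p < q) (h' : m < r) (hd : q < m ∨ r < p) :
    s p q h * s m r h' = s m r h' * s p q h := by
  have h1 : (FreeGroup.of (⟨(p, q), h⟩ : Gen 5) * FreeGroup.of ⟨(m, r), h'⟩ *
      (FreeGroup.of ⟨(m, r), h'⟩ * FreeGroup.of ⟨(p, q), h⟩)⁻¹) ∈ rels 5 :=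
    Or.inr (Or.inl ⟨_, _, hd, rfl⟩)
  have h2 := PresentedGroup.one_of_mem h1
  rw [map_mul, map_inv, mul_inv_eq_one, map_mul, map_mul] at h2
  exact h2

theorem rel_nest (p q m r m' r' : Fin 5) (h : p < q) (h' : m < r) (h'' : m' < r')
    (h1 : p ≤ m) (h2 : r ≤ q) (h3 : (m' : ℕ) + r = p + q) (h4 : (r' : ℕ) + m = p + q) :
    s p q h * s m r h' = s m' r' h'' * s p q h := by
  have h5 : (FreeGroup.of (⟨(p, q), h⟩ : Gen 5) * FreeGroup.of ⟨(m, r), h'⟩ *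
      (FreeGroup.of ⟨(m', r'), h''⟩ * FreeGroup.of ⟨(p, q), h⟩)⁻¹) ∈ rels 5 :=
    Or.inr (Or.inr ⟨_, _, _, h1, h2, h3, h4, rfl⟩)
  have h6 := PresentedGroup.one_of_mem h5
  rw [map_mul, map_inv, mul_inv_eq_one, map_mul, map_mul] at h6
  exact h6

/-- the first element -/
def α : Cactus 5 := s 0 1 (by decide) * s 1 2 (by decide)

/-- the second element -/
def β : Cactus 5 := s 0 2 (by decide) * (s 0 3 (by decide) * (s 0 4 (by decide) *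
  (s 0 3 (by decide) * (s 0 4 (by decide) * (s 0 1 (by decide) * s 0 4 (by decide))))))

theorem step (a x y b z : Cactus 5) (h1 : a * x = y * a) (h2 : b * y = z * b) :
    (b * a) * x = z * (b * a) := by
  rw [mul_assoc, h1, ← mul_assoc, h2, mul_assoc]

theorem β_01 : β * s 0 1 (by decide) = s 0 1 (by decide) * β := by
  unfold β
  refine step _ _ (s 1 2 (by decide)) _ _ ?_ (rel_nest 0 2 1 2 0 1 _ _ _ (by decide) (by decide) (by decide) (by decide))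
  refine step _ _ (s 1 2 (by decide)) _ _ ?_ (rel_nest 0 3 1 2 1 2 _ _ _ (by decide) (by decide) (by decide) (by decide))
  refine step _ _ (s 2 3 (by decide)) _ _ ?_ (rel_nest 0 4 2 3 1 2 _ _ _ (by decide) (by decide) (by decide) (by decide))
  refine step _ _ (s 0 1 (by decide)) _ _ ?_ (rel_nest 0 3 0 1 2 3 _ _ _ (by decide) (by decide) (by decide) (by decide))
  refine step _ _ (s 3 4 (by decide)) _ _ ?_ (rel_nest 0 4 3 4 0 1 _ _ _ (by decide) (by decide) (by decide) (by decide))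
  refine step _ _ (s 3 4 (by decide)) _ _ ?_ (rel_disj 0 1 3 4 _ _ (by decide))
  exact rel_nest 0 4 0 1 3 4 _ _ _ (by decide) (by decide) (by decide) (by decide)

theorem β_12 : β * s 1 2 (by decide) = s 1 2 (by decide) * β := by
  unfold β
  refine step _ _ (s 0 1 (by decide)) _ _ ?_ (rel_nest 0 2 0 1 1 2 _ _ _ (by decide) (by decide) (by decide) (by decide))
  refine step _ _ (s 2 3 (by decide)) _ _ ?_ (rel_nest 0 3 2 3 0 1 _ _ _ (by decide) (by decide) (by decide) (by decide))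
  refine step _ _ (s 1 2 (by decide)) _ _ ?_ (rel_nest 0 4 1 2 2 3 _ _ _ (by decide) (by decide) (by decide) (by decide))
  refine step _ _ (s 1 2 (by decide)) _ _ ?_ (rel_nest 0 3 1 2 1 2 _ _ _ (by decide) (by decide) (by decide) (by decide))
  refine step _ _ (s 2 3 (by decide)) _ _ ?_ (rel_nest 0 4 2 3 1 2 _ _ _ (by decide) (by decide) (by decide) (by decide))
  refine step _ _ (s 2 3 (by decide)) _ _ ?_ (rel_disj 0 1 2 3 _ _ (by decide))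
  exact rel_nest 0 4 1 2 2 3 _ _ _ (by decide) (by decide) (by decide) (by decide)

theorem comm : Commute β α := by
  have h1 : Commute β (s 0 1 (by decide)) := β_01
  have h2 : Commute β (s 1 2 (by decide)) := β_12
  exact h1.mul_right h2

theorem F4_α : F4 α ^ 3 = 1 := by
  apply Units.ext
  rw [Units.val_pow_eq_pow_val, α, map_mul, Units.val_mul, F4_s, F4_s, Units.val_one]
  decide +kernel

theorem F4_β : ((F4 β : (Matrix (Fin 5) (Fin 5) ℤ)ˣ) : Matrix (Fin 5) (Fin 5) ℤ) = 1 + D4 := by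
  rw [β]
  simp only [map_mul, Units.val_mul, F4_s]
  decide +kernel

theorem F2_α : ((F2 α ^ 3 : (Matrix (Fin 10) (Fin 10) ℤ)ˣ) : Matrix (Fin 10) (Fin 10) ℤ) =
    1 + D2 := by
  rw [Units.val_pow_eq_pow_val, α, map_mul, Units.val_mul, F2_s, F2_s]
  decide +kernel

theorem pow_one_add {N : ℕ} (D : Matrix (Fin N) (Fin N) ℤ) (hD : D * D = 0) (k : ℕ) :
    (1 + D) ^ k = 1 + (k : ℤ) • D := by
  induction k with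
  | zero => simp
  | succ k ih =>
    rw [pow_succ, ih, mul_add, mul_one, add_mul, one_mul, smul_mul_assoc, hD, smul_zero, add_zero]
    push_cast
    rw [add_smul, one_smul, add_assoc]

theorem unip {N : ℕ} (u : (Matrix (Fin N) (Fin N) ℤ)ˣ) (D : Matrix (Fin N) (Fin N) ℤ)
    (hu : (u : Matrix (Fin N) (Fin N) ℤ) = 1 + D) (hD : D * D = 0) (hD0 : D ≠ 0) (k : ℤ)
    (hk : u ^ k = 1) : k = 0 := by
  have key : ∀ n : ℕ, u ^ n = 1 → n = 0 := by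
    intro n hn
    by_contra hne
    have h1 : (1 + D) ^ n = 1 := by
      rw [← hu, ← Units.val_pow_eq_pow_val, hn, Units.val_one]
    rw [pow_one_add D hD] at h1
    have h2 : (n : ℤ) • D = 0 := by
      have := congrArg (fun M => M - 1) h1
      simpa using this
    rcases smul_eq_zero.1 h2 with h3 | h3
    · exact hne (by exact_mod_cast h3)
    · exact hD0 h3
  rcases Int.eq_nat_or_neg k with ⟨n, rfl | rfl⟩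
  · rw [zpow_natCast] at hk
    simp [key n hk]
  · rw [zpow_neg, zpow_natCast, inv_eq_one] at hk
    simp [key n hk]

theorem independent (i j : ℤ) (h : α ^ i * β ^ j = 1) : i = 0 ∧ j = 0 := by
  have hj : j = 0 := by
    have h1 : F4 (α ^ i * β ^ j) = 1 := by rw [h, map_one]
    rw [map_mul, map_zpow, map_zpow] at h1
    have hcomm : Commute (F4 α) (F4 β) := (comm.symm).map F4
    have h2 : ((F4 α) ^ i * (F4 β) ^ j) ^ (3 : ℤ) = 1 := by rw [h1, one_zpow]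
    rw [(hcomm.zpow_zpow i j).mul_zpow, ← zpow_mul, mul_comm i 3, zpow_mul] at h2
    have h3 : (F4 α) ^ (3 : ℤ) = 1 := by
      have := F4_α
      exact_mod_cast this
    rw [h3, one_zpow, one_mul, ← zpow_mul] at h2
    have h4 := unip (F4 β) D4 F4_β D4_sq (by decide +kernel) _ h2
    omega
  subst hj
  rw [zpow_zero, mul_one] at h
  have h1 : F2 (α ^ i) = 1 := by rw [h, map_one]
  rw [map_zpow] at h1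
  have h2 : (F2 α ^ 3) ^ i = 1 := by
    rw [← zpow_natCast, ← zpow_mul, mul_comm, zpow_mul, h1, one_zpow]
  exact ⟨unip (F2 α ^ 3) D2 F2_α D2_sq (by decide +kernel) i h2, rfl⟩

/-- The cactus group `J_5` contains a free abelian subgroup of rank two. -/
theorem cactus_five : ContainsZPow (Cactus 5) 2 := by
  refine ⟨{ toFun := fun v => α ^ (v.toAdd 0) * β ^ (v.toAdd 1)
            map_one' := by simp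
            map_mul' := ?_ }, ?_⟩
  · intro v w
    simp only [toAdd_mul, Pi.add_apply, zpow_add]
    have h := (comm.zpow_zpow (Multiplicative.toAdd v 1) (Multiplicative.toAdd w 0)).eq
    calc α ^ (v.toAdd 0) * α ^ (w.toAdd 0) * (β ^ (v.toAdd 1) * β ^ (w.toAdd 1))
        = α ^ (v.toAdd 0) * (α ^ (w.toAdd 0) * β ^ (v.toAdd 1)) * β ^ (w.toAdd 1) := by group
      _ = α ^ (v.toAdd 0) * (β ^ (v.toAdd 1) * α ^ (w.toAdd 0)) * β ^ (w.toAdd 1) := by rw [h]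
      _ = _ := by group
  · rw [injective_iff_map_eq_one]
    intro v hv
    have h := independent _ _ hv
    apply Multiplicative.toAdd.injective
    funext t
    fin_cases t
    · exact h.1
    · exact h.2

end Pool.Agent.R650.Cactus
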