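import Mathlib

set_option autoImplicit false

/-!
# The circle `ℝ ∪ {∞}` as a manifold modelled on the half line

`OnePoint ℝ` with the two coordinates `s` and `-1 / s`, both composed with `exp`, so that the charts
take values in `EuclideanHalfSpace 1`.
-/

open Set Filter Topology WithLp
open scoped Manifold

noncomputable section

namespace Pool.Agent.R650.Circ

/-- the point at infinity -/
abbrev pinf : OnePoint ℝ := OnePoint.infty

/-- the point of the half line with coordinate `exp s` -/
def J (s : ℝ) : EuclideanHalfSpace 1 := ⟨toLp 2 fun _ => Real.exp s, (Real.exp_pos s).le⟩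

@[simp] lemma J_val (s : ℝ) (i : Fin 1) : (J s).val i = Real.exp s := rfl

lemma continuous_val0 : Continuous fun y : EuclideanHalfSpace 1 => y.val 0 := by fun_prop

/-- the open embedding `J` of the line into the half line -/
def JH : OpenPartialHomeomorph ℝ (EuclideanHalfSpace 1) where
  toFun := J
  invFun y := Real.log (y.val 0)
  source := univ
  target := {y | 0 < y.val 0}
  map_source' s _ := Real.exp_pos s
  map_target' _ _ := mem_univ _
  left_inv' s _ := Real.log_exp s
  right_inv' y hy := by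
    apply Subtype.ext
    ext i
    rw [Subsingleton.elim i 0]
    exact Real.exp_log hy
  open_source := isOpen_univ
  open_target := isOpen_lt continuous_const continuous_val0
  continuousOn_toFun := by
    apply Continuous.continuousOn
    apply Continuous.subtype_mk
    fun_prop
  continuousOn_invFun := by
    intro y hy
    have h1 : ContinuousAt (fun y : EuclideanHalfSpace 1 => y.val 0) y :=
      continuous_val0.continuousAt
    exact (ContinuousAt.log h1 (ne_of_gt hy)).continuousWithinAt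

/-- `s ↦ -1 / s` on the circle -/
def inv (x : OnePoint ℝ) : OnePoint ℝ :=
  x.elim ((0 : ℝ) : OnePoint ℝ) (fun s => if s = 0 then pinf else ((-s⁻¹ : ℝ) : OnePoint ℝ))

lemma inv_infty : inv pinf = ((0 : ℝ) : OnePoint ℝ) := rfl

lemma inv_zero : inv ((0 : ℝ) : OnePoint ℝ) = pinf := by
  change (if (0 : ℝ) = 0 then pinf else _) = pinf
  rw [if_pos rfl]

lemma inv_coe {s : ℝ} (hs : s ≠ 0) : inv (s : OnePoint ℝ) = ((-s⁻¹ : ℝ) : OnePoint ℝ) := by
  change (if s = 0 then pinf else _) = _
  rw [if_neg hs]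

lemma inv_inv (x : OnePoint ℝ) : inv (inv x) = x := by
  induction x using OnePoint.rec with
  | infty => exact inv_zero
  | coe s =>
    by_cases hs : s = 0
    · subst hs; rw [inv_zero, inv_infty]
    · rw [inv_coe hs, inv_coe (by simpa using hs)]
      congr 1
      rw [inv_neg, _root_.inv_inv, neg_neg]

lemma coclosedCompact_real : coclosedCompact ℝ = Bornology.cobounded ℝ := by
  rw [coclosedCompact_eq_cocompact, Metric.cobounded_eq_cocompact]

lemma tendsto_coe_cobounded : Tendsto (fun s : ℝ => (s : OnePoint ℝ)) (Bornology.cobounded ℝ)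
    (𝓝 pinf) := by
  rw [← coclosedCompact_real]
  exact OnePoint.tendsto_coe_infty

lemma continuous_inv' : Continuous inv := by
  rw [OnePoint.continuous_iff]
  constructor
  · rw [coclosedCompact_real]
    have h1 : Tendsto (fun s : ℝ => ((-s⁻¹ : ℝ) : OnePoint ℝ)) (Bornology.cobounded ℝ)
        (𝓝 ((0 : ℝ) : OnePoint ℝ)) := by
      have h2 : Tendsto (fun s : ℝ => (-s⁻¹ : ℝ)) (Bornology.cobounded ℝ) (𝓝 0) := by
        simpa using (tendsto_inv₀_cobounded (α := ℝ)).neg
      exact (OnePoint.continuous_coe.tendsto 0).comp h2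
    refine h1.congr' ?_
    have h3 : ∀ᶠ s : ℝ in Bornology.cobounded ℝ, s ≠ 0 := Bornology.eventually_ne_cobounded 0
    filter_upwards [h3] with s hs
    rw [inv_coe hs]
  · rw [continuous_iff_continuousAt]
    intro s
    by_cases hs : s = 0
    · subst hs
      rw [← continuousWithinAt_compl_self]
      change Tendsto _ _ (𝓝 (inv ((0 : ℝ) : OnePoint ℝ)))
      rw [inv_zero]
      have h2 : Tendsto (fun s : ℝ => (-s⁻¹ : ℝ)) (𝓝[≠] 0) (Bornology.cobounded ℝ) := by
        exact (tendsto_neg_cobounded (E := ℝ)).comp (tendsto_inv₀_nhdsNE_zero (α := ℝ))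
      refine (tendsto_coe_cobounded.comp h2).congr' ?_
      filter_upwards [self_mem_nhdsWithin] with s hs
      rw [inv_coe hs]; rfl
    · have h1 : ContinuousAt (fun s : ℝ => ((-s⁻¹ : ℝ) : OnePoint ℝ)) s :=
        OnePoint.continuous_coe.continuousAt.comp ((continuousAt_inv₀ hs).neg)
      refine h1.congr ?_
      filter_upwards [isOpen_ne.mem_nhds hs] with t ht
      rw [inv_coe ht]

/-- `s ↦ -1 / s` as a homeomorphism of the circle -/
def invH : OnePoint ℝ ≃ₜ OnePoint ℝ where
  toFun := inv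
  invFun := inv
  left_inv := inv_inv
  right_inv := inv_inv
  continuous_toFun := continuous_inv'
  continuous_invFun := continuous_inv'

/-- the coordinate `s` -/
def c1 (x : OnePoint ℝ) : ℝ := x.elim 0 id

@[simp] lemma c1_coe (s : ℝ) : c1 (s : OnePoint ℝ) = s := rfl

/-- the chart `s` with values in the line -/
def C1 : OpenPartialHomeomorph (OnePoint ℝ) ℝ where
  toFun := c1
  invFun s := (s : OnePoint ℝ)
  source := {pinf}ᶜ
  target := univ
  map_source' s _ := mem_univ _
  map_target' s _ := OnePoint.coe_ne_infty s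
  left_inv' x hx := by
    obtain ⟨s, rfl⟩ := OnePoint.ne_infty_iff_exists.1 hx
    rfl
  right_inv' s _ := rfl
  open_source := isOpen_compl_singleton
  open_target := isOpen_univ
  continuousOn_toFun := by
    intro x hx
    obtain ⟨s, rfl⟩ := OnePoint.ne_infty_iff_exists.1 hx
    apply ContinuousAt.continuousWithinAt
    rw [OnePoint.continuousAt_coe]
    exact continuousAt_id
  continuousOn_invFun := OnePoint.continuous_coe.continuousOn

/-- the first chart -/
def Φ1 : OpenPartialHomeomorph (OnePoint ℝ) (EuclideanHalfSpace 1) := C1.trans JH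

/-- the second chart -/
def Φ2 : OpenPartialHomeomorph (OnePoint ℝ) (EuclideanHalfSpace 1) :=
  invH.toOpenPartialHomeomorph.trans (C1.trans JH)

lemma Φ1_source : Φ1.source = {pinf}ᶜ := by
  ext x; simp [Φ1, C1, JH]

lemma Φ2_source : Φ2.source = {((0 : ℝ) : OnePoint ℝ)}ᶜ := by
  ext x
  have : x ∈ Φ2.source ↔ inv x ≠ pinf := by
    simp [Φ2, C1, JH, invH]
  rw [this, mem_compl_iff, mem_singleton_iff, not_iff_not]
  constructor
  · intro h
    rw [← inv_inv x, h, inv_infty]
  · rintro rfl
    exact inv_zero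

lemma Φ1_apply (x : OnePoint ℝ) : Φ1 x = J (c1 x) := rfl
lemma Φ2_apply (x : OnePoint ℝ) : Φ2 x = J (c1 (inv x)) := rfl
lemma Φ1_symm_apply (y : EuclideanHalfSpace 1) :
    Φ1.symm y = ((Real.log (y.val 0) : ℝ) : OnePoint ℝ) := rfl
lemma Φ2_symm_apply (y : EuclideanHalfSpace 1) :
    Φ2.symm y = inv ((Real.log (y.val 0) : ℝ) : OnePoint ℝ) := rfl

open Classical in
instance : ChartedSpace (EuclideanHalfSpace 1) (OnePoint ℝ) where
  atlas := {Φ1, Φ2}
  chartAt x := if x = pinf then Φ2 else Φ1
  mem_chart_source x := by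
    by_cases h : x = pinf
    · rw [if_pos h, Φ2_source, h]
      exact (OnePoint.coe_ne_infty (0 : ℝ)).symm
    · rw [if_neg h, Φ1_source]
      exact h
  chart_mem_atlas x := by
    by_cases h : x = pinf
    · rw [if_pos h]; exact Or.inr rfl
    · rw [if_neg h]; exact Or.inl rfl

/-- the model with corners of the half line -/
abbrev I1 : ModelWithCorners ℝ (EuclideanSpace ℝ (Fin 1)) (EuclideanHalfSpace 1) :=
  modelWithCornersEuclideanHalfSpace 1

/-- the transition map in coordinates -/
def T (y : EuclideanSpace ℝ (Fin 1)) : EuclideanSpace ℝ (Fin 1) :=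
  toLp 2 fun _ => Real.exp (-(Real.log (y 0))⁻¹)

lemma contDiffOn_T : ContDiffOn ℝ (⊤ : ℕ∞) T {y | 0 < y 0 ∧ Real.log (y 0) ≠ 0} := by
  unfold T
  rw [contDiffOn_euclidean]
  intro i y hy
  apply ContDiffAt.contDiffWithinAt
  have h0 : ContDiffAt ℝ (⊤ : ℕ∞) (fun y : EuclideanSpace ℝ (Fin 1) => y 0) y := by fun_prop
  have h1 : ContDiffAt ℝ (⊤ : ℕ∞) (fun y : EuclideanSpace ℝ (Fin 1) => Real.log (y 0)) y :=
    h0.log hy.1.ne'
  exact (h1.inv hy.2).neg.exp

lemma val_I1_symm {y : EuclideanSpace ℝ (Fin 1)} (hy : 0 ≤ y 0) : (I1.symm y).val = y := by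
  rw [modelWithCornersEuclideanHalfSpace_symm_apply]
  ext i
  rw [Subsingleton.elim i 0]
  simp [hy]

instance : IsManifold I1 ((⊤ : ℕ∞) : WithTop ℕ∞) (OnePoint ℝ) := by
  apply isManifold_of_contDiffOn
  have hid : ∀ e : OpenPartialHomeomorph (OnePoint ℝ) (EuclideanHalfSpace 1),
      ContDiffOn ℝ ((⊤ : ℕ∞) : WithTop ℕ∞) (I1 ∘ (e.symm.trans e) ∘ I1.symm)
        (I1.symm ⁻¹' (e.symm.trans e).source ∩ range I1) := by
    intro e
    refine contDiffOn_id.congr ?_
    rintro y ⟨hy1, hy2⟩
    have h1 : I1.symm y ∈ e.target := by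
      have h3 : I1.symm y ∈ (e.symm.trans e).source := hy1
      rw [OpenPartialHomeomorph.trans_source] at h3
      exact h3.1
    have h2 : (e.symm.trans e) (I1.symm y) = I1.symm y := e.right_inv h1
    change I1 ((e.symm.trans e) (I1.symm y)) = y
    rw [h2]
    exact I1.right_inv hy2
  have hT : ∀ e e' : OpenPartialHomeomorph (OnePoint ℝ) (EuclideanHalfSpace 1),
      (∀ y, I1.symm y ∈ (e.symm.trans e').source → y ∈ range I1 →
        (0 < y 0 ∧ Real.log (y 0) ≠ 0) ∧ (e' (e.symm (I1.symm y))).val = T y) →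
      ContDiffOn ℝ ((⊤ : ℕ∞) : WithTop ℕ∞) (I1 ∘ (e.symm.trans e') ∘ I1.symm)
        (I1.symm ⁻¹' (e.symm.trans e').source ∩ range I1) := by
    intro e e' h
    refine (contDiffOn_T.mono ?_).congr ?_
    · rintro y ⟨hy1, hy2⟩
      exact (h y hy1 hy2).1
    · rintro y ⟨hy1, hy2⟩
      exact (h y hy1 hy2).2
  have key : ∀ y : EuclideanSpace ℝ (Fin 1), I1.symm y ∈ JH.target → y ∈ range I1 → 0 < y 0 := by
    intro y h1 h2
    rw [range_modelWithCornersEuclideanHalfSpace] at h2
    have h3 : 0 < (I1.symm y).val 0 := h1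
    rwa [val_I1_symm h2] at h3
  intro e e' he he'
  rcases he with rfl | rfl <;> rcases he' with rfl | rfl
  · exact hid _
  · apply hT
    intro y hy1 hy2
    rw [OpenPartialHomeomorph.trans_source, mem_inter_iff, mem_preimage, Φ2_source] at hy1
    obtain ⟨h1, h2⟩ := hy1
    have h3 : 0 < y 0 := by
      refine key y ?_ hy2
      have h4 : I1.symm y ∈ Φ1.target := h1
      simpa [Φ1, OpenPartialHomeomorph.trans_target] using h4.1
    have h5 : (I1.symm y).val = y := val_I1_symm h3.le
    have h6 : Φ1.symm (I1.symm y) = ((Real.log (y 0) : ℝ) : OnePoint ℝ) := by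
      rw [Φ1_symm_apply, h5]
    rw [h6] at h2
    have h7 : Real.log (y 0) ≠ 0 := by
      intro h; rw [h] at h2; exact h2 rfl
    refine ⟨⟨h3, h7⟩, ?_⟩
    rw [h6, Φ2_apply, inv_coe h7]
    rfl
  · apply hT
    intro y hy1 hy2
    rw [OpenPartialHomeomorph.trans_source, mem_inter_iff, mem_preimage, Φ1_source] at hy1
    obtain ⟨h1, h2⟩ := hy1
    have h3 : 0 < y 0 := by
      refine key y ?_ hy2
      have h4 : I1.symm y ∈ Φ2.target := h1
      simp only [Φ2, OpenPartialHomeomorph.trans_target] at h4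
      exact h4.1.1
    have h5 : (I1.symm y).val = y := val_I1_symm h3.le
    have h6 : Φ2.symm (I1.symm y) = inv ((Real.log (y 0) : ℝ) : OnePoint ℝ) := by
      rw [Φ2_symm_apply, h5]
    rw [h6] at h2
    have h7 : Real.log (y 0) ≠ 0 := by
      intro h; rw [h, inv_zero] at h2; exact h2 rfl
    refine ⟨⟨h3, h7⟩, ?_⟩
    rw [h6, Φ1_apply, inv_coe h7]
    rfl
  · exact hid _

end Pool.Agent.R650.Circ
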