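import Pool.Agent.R650.Circ

set_option autoImplicit false

/-! # Smooth maps of the circle `ℝ ∪ {∞}` in coordinates -/

open Set Filter Topology WithLp
open scoped Manifold

noncomputable section

namespace Pool.Agent.R650.Circ

variable {n : WithTop ℕ∞} (hn : n ≤ ((⊤ : ℕ∞) : WithTop ℕ∞))

include hn

lemma isManifold_n : IsManifold I1 n (OnePoint ℝ) := IsManifold.of_le hn

lemma contMDiffOn_c1 : ContMDiffOn I1 𝓘(ℝ, ℝ) n c1 {pinf}ᶜ := by
  have := isManifold_n hn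
  have h1 : ContMDiffOn I1 I1 n Φ1 Φ1.source := contMDiffOn_of_mem_maximalAtlas
    (IsManifold.subset_maximalAtlas (Or.inl rfl))
  have h2 : ContMDiffOn I1 𝓘(ℝ, EuclideanSpace ℝ (Fin 1)) n (I1 ∘ Φ1) Φ1.source :=
    (ModelWithCorners.contMDiff I1).comp_contMDiffOn h1
  have h3 : ContMDiffOn 𝓘(ℝ, EuclideanSpace ℝ (Fin 1)) 𝓘(ℝ, ℝ) n
      (fun y : EuclideanSpace ℝ (Fin 1) => Real.log (y 0)) {y | 0 < y 0} := by
    rw [contMDiffOn_iff_contDiffOn]
    intro y hy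
    have h0 : ContDiffAt ℝ n (fun y : EuclideanSpace ℝ (Fin 1) => y 0) y := by fun_prop
    exact (h0.log (ne_of_gt hy)).contDiffWithinAt
  rw [← Φ1_source]
  refine (h3.comp h2 ?_).congr ?_
  · intro x hx
    exact Real.exp_pos _
  · intro x hx
    change c1 x = Real.log (Real.exp (c1 x))
    rw [Real.log_exp]

lemma contMDiff_coe : ContMDiff 𝓘(ℝ, ℝ) I1 n (fun s : ℝ => (s : OnePoint ℝ)) := by
  have := isManifold_n hn
  have h1 : ContMDiffOn I1 I1 n Φ1.symm Φ1.target := contMDiffOn_symm_of_mem_maximalAtlas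
    (IsManifold.subset_maximalAtlas (Or.inl rfl))
  have h2 : ContMDiff 𝓘(ℝ, ℝ) I1 n J := by
    have h3 : ContMDiffOn 𝓘(ℝ, EuclideanSpace ℝ (Fin 1)) I1 n I1.symm (range I1) :=
      ModelWithCorners.contMDiffOn_symm I1
    have h4 : ContMDiff 𝓘(ℝ, ℝ) 𝓘(ℝ, EuclideanSpace ℝ (Fin 1)) n
        (fun s : ℝ => (toLp 2 fun _ => Real.exp s : EuclideanSpace ℝ (Fin 1))) := by
      rw [contMDiff_iff_contDiff, contDiff_euclidean]
      intro i
      exact Real.contDiff_exp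
    have h5 : ∀ s : ℝ, J s = I1.symm (toLp 2 fun _ => Real.exp s) := by
      intro s
      apply Subtype.ext
      rw [val_I1_symm]
      · rfl
      · exact (Real.exp_pos s).le
    have h6 := h3.comp_contMDiff h4 (fun s => by
      rw [range_modelWithCornersEuclideanHalfSpace]
      exact (Real.exp_pos s).le)
    have h7 : J = I1.symm ∘ (fun s : ℝ => (toLp 2 fun _ => Real.exp s : EuclideanSpace ℝ (Fin 1))) :=
      funext h5
    rw [h7]
    exact h6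
  have h3 := h1.comp_contMDiff h2 (fun s => by
    simp only [Φ1, OpenPartialHomeomorph.trans_target]
    exact ⟨Real.exp_pos s, mem_univ _⟩)
  have h4 : (fun s : ℝ => (s : OnePoint ℝ)) = Φ1.symm ∘ J := by
    funext s
    change (s : OnePoint ℝ) = ((Real.log (Real.exp s) : ℝ) : OnePoint ℝ)
    rw [Real.log_exp]
  rw [h4]
  exact h3

lemma contMDiffOn_c2 : ContMDiffOn I1 𝓘(ℝ, ℝ) n (c1 ∘ inv) {((0 : ℝ) : OnePoint ℝ)}ᶜ := by
  have := isManifold_n hn
  have h1 : ContMDiffOn I1 I1 n Φ2 Φ2.source := contMDiffOn_of_mem_maximalAtlas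
    (IsManifold.subset_maximalAtlas (Or.inr rfl))
  have h2 : ContMDiffOn I1 𝓘(ℝ, EuclideanSpace ℝ (Fin 1)) n (I1 ∘ Φ2) Φ2.source :=
    (ModelWithCorners.contMDiff I1).comp_contMDiffOn h1
  have h3 : ContMDiffOn 𝓘(ℝ, EuclideanSpace ℝ (Fin 1)) 𝓘(ℝ, ℝ) n
      (fun y : EuclideanSpace ℝ (Fin 1) => Real.log (y 0)) {y | 0 < y 0} := by
    rw [contMDiffOn_iff_contDiffOn]
    intro y hy
    have h0 : ContDiffAt ℝ n (fun y : EuclideanSpace ℝ (Fin 1) => y 0) y := by fun_prop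
    exact (h0.log (ne_of_gt hy)).contDiffWithinAt
  rw [← Φ2_source]
  refine (h3.comp h2 ?_).congr ?_
  · intro x hx
    exact Real.exp_pos _
  · intro x hx
    change c1 (inv x) = Real.log (Real.exp (c1 (inv x)))
    rw [Real.log_exp]

lemma contMDiff_inv_coe : ContMDiff 𝓘(ℝ, ℝ) I1 n (fun s : ℝ => inv (s : OnePoint ℝ)) := by
  have := isManifold_n hn
  have h1 : ContMDiffOn I1 I1 n Φ2.symm Φ2.target := contMDiffOn_symm_of_mem_maximalAtlas
    (IsManifold.subset_maximalAtlas (Or.inr rfl))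
  have h2 : ContMDiff 𝓘(ℝ, ℝ) I1 n J := by
    have h3 : ContMDiffOn 𝓘(ℝ, EuclideanSpace ℝ (Fin 1)) I1 n I1.symm (range I1) :=
      ModelWithCorners.contMDiffOn_symm I1
    have h4 : ContMDiff 𝓘(ℝ, ℝ) 𝓘(ℝ, EuclideanSpace ℝ (Fin 1)) n
        (fun s : ℝ => (toLp 2 fun _ => Real.exp s : EuclideanSpace ℝ (Fin 1))) := by
      rw [contMDiff_iff_contDiff, contDiff_euclidean]
      intro i
      exact Real.contDiff_exp
    have h5 : ∀ s : ℝ, J s = I1.symm (toLp 2 fun _ => Real.exp s) := by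
      intro s
      apply Subtype.ext
      rw [val_I1_symm]
      · rfl
      · exact (Real.exp_pos s).le
    have h6 := h3.comp_contMDiff h4 (fun s => by
      rw [range_modelWithCornersEuclideanHalfSpace]
      exact (Real.exp_pos s).le)
    have h7 : J = I1.symm ∘ (fun s : ℝ => (toLp 2 fun _ => Real.exp s : EuclideanSpace ℝ (Fin 1))) :=
      funext h5
    rw [h7]
    exact h6
  have h3 := h1.comp_contMDiff h2 (fun s => by
    simp only [Φ2, OpenPartialHomeomorph.trans_target]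
    exact ⟨⟨Real.exp_pos s, mem_univ _⟩, mem_univ _⟩)
  have h4 : (fun s : ℝ => inv (s : OnePoint ℝ)) = Φ2.symm ∘ J := by
    funext s
    change inv (s : OnePoint ℝ) = inv ((Real.log (Real.exp s) : ℝ) : OnePoint ℝ)
    rw [Real.log_exp]
  rw [h4]
  exact h3

/-- Criterion for smoothness of a map of the circle fixing `∞`. -/
theorem contMDiff_of_real (F G : ℝ → ℝ) (f : OnePoint ℝ → OnePoint ℝ)
    (hf : ∀ s : ℝ, f s = ((F s : ℝ) : OnePoint ℝ)) (hinf : f pinf = pinf)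
    (hF : ContDiff ℝ n F) (hG : ContDiffAt ℝ n G 0) (hG0 : G 0 = 0)
    (hGF : ∀ᶠ u in 𝓝 (0 : ℝ), u ≠ 0 → F (-u⁻¹) ≠ 0 ∧ G u = -(F (-u⁻¹))⁻¹) :
    ContMDiff I1 I1 n f := by
  intro x
  by_cases hx : x = pinf
  · subst hx
    have h1 : ContMDiffAt I1 𝓘(ℝ, ℝ) n (c1 ∘ inv) pinf :=
      (contMDiffOn_c2 hn).contMDiffAt (isOpen_compl_singleton.mem_nhds
        (OnePoint.coe_ne_infty (0 : ℝ)).symm)
    have h0 : (c1 ∘ inv) pinf = 0 := rfl
    have h2 : ContMDiffAt 𝓘(ℝ, ℝ) 𝓘(ℝ, ℝ) n G ((c1 ∘ inv) pinf) := by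
      rw [h0]
      exact contMDiffAt_iff_contDiffAt.2 hG
    have h3 := (contMDiff_inv_coe hn).contMDiffAt (x := G ((c1 ∘ inv) pinf))
    have h4 := h3.comp pinf (h2.comp pinf h1)
    refine h4.congr_of_eventuallyEq ?_
    have h5 : ContinuousAt (c1 ∘ inv) pinf := h1.continuousAt
    have h6 : ∀ᶠ x in 𝓝 pinf, (c1 ∘ inv) x ≠ 0 → F (-((c1 ∘ inv) x)⁻¹) ≠ 0 ∧
        G ((c1 ∘ inv) x) = -(F (-((c1 ∘ inv) x)⁻¹))⁻¹ := by
      have h7 : Tendsto (c1 ∘ inv) (𝓝 pinf) (𝓝 0) := by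
        have h8 : Tendsto (c1 ∘ inv) (𝓝 pinf) (𝓝 ((c1 ∘ inv) pinf)) := h5
        rwa [h0] at h8
      exact h7.eventually hGF
    have h9 : ∀ᶠ x in 𝓝 pinf, x ≠ ((0 : ℝ) : OnePoint ℝ) :=
      isOpen_ne.mem_nhds (OnePoint.coe_ne_infty (0 : ℝ)).symm
    filter_upwards [h6, h9] with x hx hx0
    by_cases hxi : x = pinf
    · subst hxi
      rw [hinf]
      change pinf = inv ((G 0 : ℝ) : OnePoint ℝ)
      rw [hG0, inv_zero]
    · obtain ⟨s, rfl⟩ := OnePoint.ne_infty_iff_exists.1 hxi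
      have hs : s ≠ 0 := fun h => hx0 (by rw [h])
      have hc : (c1 ∘ inv) (s : OnePoint ℝ) = -s⁻¹ := by
        change c1 (inv (s : OnePoint ℝ)) = _
        rw [inv_coe hs]; rfl
      rw [hc] at hx
      have hu : -(-s⁻¹)⁻¹ = s := by rw [_root_.inv_neg, _root_.inv_inv, neg_neg]
      rw [hu] at hx
      obtain ⟨h10, h11⟩ := hx (neg_ne_zero.2 (inv_ne_zero hs))
      rw [hf]
      change _ = inv ((G ((c1 ∘ inv) (s : OnePoint ℝ)) : ℝ) : OnePoint ℝ)
      rw [hc, h11, inv_coe (neg_ne_zero.2 (inv_ne_zero h10))]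
      congr 1
      rw [_root_.inv_neg, _root_.inv_inv, neg_neg]
  · have h1 : ContMDiffAt I1 𝓘(ℝ, ℝ) n c1 x :=
      (contMDiffOn_c1 hn).contMDiffAt (isOpen_compl_singleton.mem_nhds hx)
    have h2 : ContMDiffAt 𝓘(ℝ, ℝ) 𝓘(ℝ, ℝ) n F (c1 x) :=
      contMDiffAt_iff_contDiffAt.2 hF.contDiffAt
    have h3 := (contMDiff_coe hn).contMDiffAt (x := F (c1 x))
    have h4 := h3.comp x (h2.comp x h1)
    refine h4.congr_of_eventuallyEq ?_
    filter_upwards [isOpen_compl_singleton.mem_nhds hx] with y hy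
    obtain ⟨s, rfl⟩ := OnePoint.ne_infty_iff_exists.1 hy
    rw [hf]
    rfl

end Pool.Agent.R650.Circ
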