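import Pool.Agent.R650.Ext

set_option autoImplicit false

/-! # A `C¹` diffeomorphism of `[0,1]` in the coordinate `log (y / (1 - y))` -/

open Set Filter Topology

noncomputable section

namespace Pool.Agent.R650.Conj

/-- the inverse of the sigmoid function -/
def logit (y : ℝ) : ℝ := Real.log y - Real.log (1 - y)

lemma logit_sigmoid (s : ℝ) : logit (Real.sigmoid s) = s := by
  have h1 : 1 - Real.sigmoid s = Real.sigmoid s * Real.exp (-s) := by
    rw [Real.sigmoid_mul_rexp_neg, Real.sigmoid_neg]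
  rw [logit, h1, Real.log_mul (Real.sigmoid_pos s).ne' (Real.exp_pos _).ne', Real.log_exp]
  ring

lemma sigmoid_logit {y : ℝ} (hy : y ∈ Ioo (0 : ℝ) 1) : Real.sigmoid (logit y) = y := by
  have h0 : 0 < y := hy.1
  have h1 : 0 < 1 - y := by linarith [hy.2]
  rw [Real.sigmoid_def, logit, neg_sub, Real.exp_sub, Real.exp_log h0, Real.exp_log h1]
  field_simp
  ring

lemma sigmoid_mem (s : ℝ) : Real.sigmoid s ∈ Ioo (0 : ℝ) 1 :=
  ⟨Real.sigmoid_pos s, Real.sigmoid_lt_one s⟩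

/-- `φ` is a `C¹` diffeomorphism of `[0,1]` with derivative `D` -/
structure IsDiff (φ D : ℝ → ℝ) : Prop where
  der : ∀ x ∈ Icc (0 : ℝ) 1, HasDerivWithinAt φ (D x) (Icc 0 1) x
  cont : ContinuousOn D (Icc 0 1)
  ne : ∀ x ∈ Icc (0 : ℝ) 1, D x ≠ 0
  maps : ∀ x ∈ Ioo (0 : ℝ) 1, φ x ∈ Ioo (0 : ℝ) 1
  ends : (φ 0 = 0 ∧ φ 1 = 1) ∨ (φ 0 = 1 ∧ φ 1 = 0)

/-- the map in the coordinate `logit` -/
def Fr (φ : ℝ → ℝ) (s : ℝ) : ℝ := logit (φ (Real.sigmoid s))

/-- its derivative, in the coordinate `y` -/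
def R (φ D : ℝ → ℝ) (y : ℝ) : ℝ := D y * ((y * (1 - y)) / (φ y * (1 - φ y)))

lemma limR {φ D : ℝ → ℝ} (h : IsDiff φ D) (a : ℝ) (ha : a = 0 ∨ a = 1) :
    Tendsto (R φ D) (𝓝[Icc 0 1 \ {a}] a) (𝓝 ((1 - 2 * a) / (1 - 2 * φ a))) := by
  have haI : a ∈ Icc (0 : ℝ) 1 := by rcases ha with rfl | rfl <;> simp
  have hφa : φ a = 0 ∨ φ a = 1 := by
    rcases ha with rfl | rfl <;> rcases h.ends with ⟨h1, h2⟩ | ⟨h1, h2⟩ <;> simp [h1, h2]
  have hp0 : a * (1 - a) = 0 := by rcases ha with rfl | rfl <;> simp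
  have hq0 : φ a * (1 - φ a) = 0 := by rcases hφa with h1 | h1 <;> simp [h1]
  have hpne : (1 - 2 * φ a) ≠ 0 := by rcases hφa with h1 | h1 <;> rw [h1] <;> norm_num
  have hp : HasDerivWithinAt (fun y : ℝ => y * (1 - y)) (1 - 2 * a) (Icc 0 1) a := by
    have h1 : HasDerivAt (fun y : ℝ => y * (1 - y)) (1 * (1 - a) + a * (-1)) a :=
      (hasDerivAt_id' a).mul ((hasDerivAt_id' a).const_sub 1)
    have h2 : (1 * (1 - a) + a * (-1)) = 1 - 2 * a := by ring
    rw [h2] at h1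
    exact h1.hasDerivWithinAt
  have hq : HasDerivWithinAt (fun y : ℝ => φ y * (1 - φ y)) (D a * (1 - 2 * φ a)) (Icc 0 1) a := by
    have h0 := h.der a haI
    have h1 : HasDerivWithinAt (fun y : ℝ => φ y * (1 - φ y)) (D a * (1 - φ a) + φ a * (-(D a)))
        (Icc 0 1) a := h0.mul (h0.const_sub 1)
    have h2 : (D a * (1 - φ a) + φ a * (-(D a))) = D a * (1 - 2 * φ a) := by ring
    rwa [h2] at h1
  rw [hasDerivWithinAt_iff_tendsto_slope] at hp hq
  have hD : Tendsto D (𝓝[Icc 0 1 \ {a}] a) (𝓝 (D a)) :=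
    (h.cont a haI).mono_left (nhdsWithin_mono _ sdiff_subset)
  have h3 := hD.mul (hp.div hq (mul_ne_zero (h.ne a haI) hpne))
  have h4 : D a * ((1 - 2 * a) / (D a * (1 - 2 * φ a))) = (1 - 2 * a) / (1 - 2 * φ a) := by
    have := h.ne a haI
    field_simp
  rw [h4] at h3
  refine h3.congr' ?_
  filter_upwards [self_mem_nhdsWithin] with y hy
  have hya : y - a ≠ 0 := sub_ne_zero.2 hy.2
  simp only [R, slope_def_field, hp0, hq0, sub_zero, Pi.div_apply]
  congr 1
  rw [div_div_div_cancel_right₀ hya]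

theorem deriv_limit {φ D : ℝ → ℝ} (h : IsDiff φ D) : ∃ ε : ℝ, ε ≠ 0 ∧
    (∀ s, HasDerivAt (Fr φ) (R φ D (Real.sigmoid s)) s) ∧
    Continuous (fun s => R φ D (Real.sigmoid s)) ∧
    Tendsto (fun s => R φ D (Real.sigmoid s)) (Bornology.cobounded ℝ) (𝓝 ε) := by
  have hIcc : ∀ s, Real.sigmoid s ∈ Icc (0 : ℝ) 1 := fun s => Ioo_subset_Icc_self (sigmoid_mem s)
  have hder : ∀ s, HasDerivAt φ (D (Real.sigmoid s)) (Real.sigmoid s) := fun s =>
    (h.der _ (hIcc s)).hasDerivAt (Icc_mem_nhds (sigmoid_mem s).1 (sigmoid_mem s).2)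
  obtain ⟨ε, hε, hε0, hε1⟩ : ∃ ε : ℝ, ε ≠ 0 ∧ (1 - 2 * (0 : ℝ)) / (1 - 2 * φ 0) = ε ∧
      (1 - 2 * (1 : ℝ)) / (1 - 2 * φ 1) = ε := by
    rcases h.ends with ⟨h1, h2⟩ | ⟨h1, h2⟩
    · exact ⟨1, one_ne_zero, by rw [h1]; norm_num, by rw [h2]; norm_num⟩
    · exact ⟨-1, by norm_num, by rw [h1]; norm_num, by rw [h2]; norm_num⟩
  refine ⟨ε, hε, ?_, ?_, ?_⟩
  · intro s
    have hσ := Real.hasDerivAt_sigmoid s
    have h1 : HasDerivAt (fun s => φ (Real.sigmoid s))
        (D (Real.sigmoid s) * (Real.sigmoid s * (1 - Real.sigmoid s))) s := (hder s).comp s hσ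
    have hm := h.maps _ (sigmoid_mem s)
    have hm0 : φ (Real.sigmoid s) ≠ 0 := hm.1.ne'
    have hm1 : 1 - φ (Real.sigmoid s) ≠ 0 := by linarith [hm.2]
    have h2 := (h1.log hm0).fun_sub ((h1.const_sub 1).log hm1)
    have h3 : D (Real.sigmoid s) * (Real.sigmoid s * (1 - Real.sigmoid s)) / φ (Real.sigmoid s) -
        -(D (Real.sigmoid s) * (Real.sigmoid s * (1 - Real.sigmoid s))) /
          (1 - φ (Real.sigmoid s)) = R φ D (Real.sigmoid s) := by
      unfold R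
      field_simp
      ring
    rw [h3] at h2
    exact h2
  · have hc : Continuous (fun s => D (Real.sigmoid s)) := by
      exact h.cont.comp_continuous continuous_sigmoid hIcc
    have hφ : Continuous (fun s => φ (Real.sigmoid s)) :=
      continuous_iff_continuousAt.2 fun s =>
        ContinuousAt.comp (g := φ) (hder s).continuousAt continuous_sigmoid.continuousAt
    unfold R
    refine hc.mul (Continuous.div ?_ ?_ ?_)
    · exact continuous_sigmoid.mul (continuous_const.sub continuous_sigmoid)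
    · exact hφ.mul (continuous_const.sub hφ)
    · intro s
      have hm := h.maps _ (sigmoid_mem s)
      exact mul_ne_zero hm.1.ne' (by linarith [hm.2])
  · rw [IsOrderBornology.cobounded_eq, tendsto_sup]
    constructor
    · have h1 := limR h 0 (Or.inl rfl)
      rw [hε0] at h1
      refine h1.comp ?_
      rw [tendsto_nhdsWithin_iff]
      refine ⟨Real.tendsto_sigmoid_atBot, Eventually.of_forall fun s => ⟨hIcc s, ?_⟩⟩
      exact (Real.sigmoid_pos s).ne'
    · have h1 := limR h 1 (Or.inr rfl)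
      rw [hε1] at h1
      refine h1.comp ?_
      rw [tendsto_nhdsWithin_iff]
      refine ⟨Real.tendsto_sigmoid_atTop, Eventually.of_forall fun s => ⟨hIcc s, ?_⟩⟩
      exact (Real.sigmoid_lt_one s).ne

end Pool.Agent.R650.Conj
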