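import Pool.Agent.R650.Circ2
import Pool.Agent.R650.Conj

set_option autoImplicit false

/-! # Groups of `C¹` diffeomorphisms of `[0,1]` act on the circle -/

open Set Filter Topology
open scoped Manifold

noncomputable section

namespace Pool.Agent.R650.CircAct

open Circ Conj

/-- a map of `[0,1]` as a real function -/
def rl (f : Icc (0 : ℝ) 1 → Icc (0 : ℝ) 1) (x : ℝ) : ℝ := (f (projIcc 0 1 zero_le_one x) : ℝ)

lemma rl_apply (f : Icc (0 : ℝ) 1 → Icc (0 : ℝ) 1) {x : ℝ} (hx : x ∈ Icc (0 : ℝ) 1) :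
    rl f x = f ⟨x, hx⟩ := by
  rw [rl, projIcc_of_mem zero_le_one hx]

lemma rl_mem (f : Icc (0 : ℝ) 1 → Icc (0 : ℝ) 1) (x : ℝ) : rl f x ∈ Icc (0 : ℝ) 1 :=
  (f _).2

lemma rl_comp (f g : Icc (0 : ℝ) 1 → Icc (0 : ℝ) 1) (x : ℝ) :
    rl (f ∘ g) x = rl f (rl g x) := by
  rw [rl_apply f (rl_mem g x)]
  rfl

lemma contDiffOn_rl {n : WithTop ℕ∞} {f : Icc (0 : ℝ) 1 → Icc (0 : ℝ) 1}
    (hf : ContMDiff I1 I1 n f) : ContDiffOn ℝ n (rl f) (Icc 0 1) := by
  rw [← contMDiffOn_iff_contDiffOn]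
  have h1 : ContMDiffOn 𝓘(ℝ, ℝ) I1 n (projIcc (0 : ℝ) 1 zero_le_one) (Icc 0 1) :=
    contMDiffOn_projIcc
  have h2 : ContMDiff I1 𝓘(ℝ, ℝ) n (fun z : Icc (0 : ℝ) 1 => (z : ℝ)) := contMDiff_subtypeVal_Icc
  exact (h2.comp hf).comp_contMDiffOn h1

lemma isDiff_rl (f : Equiv.Perm (Icc (0 : ℝ) 1)) (h1 : ContMDiff I1 I1 1 f)
    (h2 : ContMDiff I1 I1 1 f.symm) :
    IsDiff (rl f) (derivWithin (rl f) (Icc 0 1)) := by
  have hφ := contDiffOn_rl h1
  have hθ := contDiffOn_rl h2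
  have hu : UniqueDiffOn ℝ (Icc (0 : ℝ) 1) := uniqueDiffOn_Icc zero_lt_one
  have hd : ∀ x ∈ Icc (0 : ℝ) 1, HasDerivWithinAt (rl f) (derivWithin (rl f) (Icc 0 1) x)
      (Icc 0 1) x := fun x hx => ((hφ.differentiableOn one_ne_zero) x hx).hasDerivWithinAt
  have hd' : ∀ x ∈ Icc (0 : ℝ) 1, HasDerivWithinAt (rl f.symm)
      (derivWithin (rl f.symm) (Icc 0 1) x) (Icc 0 1) x :=
    fun x hx => ((hθ.differentiableOn one_ne_zero) x hx).hasDerivWithinAt
  have hinv : ∀ x ∈ Icc (0 : ℝ) 1, rl f.symm (rl f x) = x := by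
    intro x hx
    rw [← rl_comp, rl_apply _ hx]
    simp
  have hinj : InjOn (rl f) (Icc 0 1) := fun x hx y hy h => by
    rw [← hinv x hx, ← hinv y hy, h]
  have hsurj : ∀ y ∈ Icc (0 : ℝ) 1, ∃ x ∈ Icc (0 : ℝ) 1, rl f x = y := by
    intro y hy
    refine ⟨rl f.symm y, rl_mem _ _, ?_⟩
    rw [← rl_comp, rl_apply _ hy]
    simp
  have h01 : (0 : ℝ) ∈ Icc (0 : ℝ) 1 := ⟨le_rfl, zero_le_one⟩
  have h11 : (1 : ℝ) ∈ Icc (0 : ℝ) 1 := ⟨zero_le_one, le_rfl⟩
  have hmono := hφ.continuousOn.strictMonoOn_of_injOn_Icc' zero_le_one hinj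
  have hcases : ((rl f 0 = 0 ∧ rl f 1 = 1) ∨ (rl f 0 = 1 ∧ rl f 1 = 0)) ∧
      ∀ x ∈ Ioo (0 : ℝ) 1, rl f x ∈ Ioo (0 : ℝ) 1 := by
    obtain ⟨x0, hx0, e0⟩ := hsurj 0 h01
    obtain ⟨x1, hx1, e1⟩ := hsurj 1 h11
    rcases hmono with hm | hm
    · have a0 : rl f 0 = 0 := by
        have h := hm.monotoneOn h01 hx0 hx0.1
        rw [e0] at h
        exact le_antisymm h (rl_mem _ _).1
      have a1 : rl f 1 = 1 := by
        have h := hm.monotoneOn hx1 h11 hx1.2
        rw [e1] at h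
        exact le_antisymm (rl_mem _ _).2 h
      refine ⟨Or.inl ⟨a0, a1⟩, fun x hx => ⟨?_, ?_⟩⟩
      · have h := hm h01 (Ioo_subset_Icc_self hx) hx.1
        rw [a0] at h
        exact h
      · have h := hm (Ioo_subset_Icc_self hx) h11 hx.2
        rw [a1] at h
        exact h
    · have a0 : rl f 0 = 1 := by
        have h := hm.antitoneOn h01 hx1 hx1.1
        rw [e1] at h
        exact le_antisymm (rl_mem _ _).2 h
      have a1 : rl f 1 = 0 := by
        have h := hm.antitoneOn hx0 h11 hx0.2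
        rw [e0] at h
        exact le_antisymm h (rl_mem _ _).1
      refine ⟨Or.inr ⟨a0, a1⟩, fun x hx => ⟨?_, ?_⟩⟩
      · have h := hm (Ioo_subset_Icc_self hx) h11 hx.2
        rw [a1] at h
        exact h
      · have h := hm h01 (Ioo_subset_Icc_self hx) hx.1
        rw [a0] at h
        exact h
  refine ⟨hd, hφ.continuousOn_derivWithin hu le_rfl, ?_, hcases.2, hcases.1⟩
  intro x hx h0
  have h3 : HasDerivWithinAt (rl f.symm ∘ rl f)
      (derivWithin (rl f.symm) (Icc 0 1) (rl f x) * derivWithin (rl f) (Icc 0 1) x) (Icc 0 1) x :=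
    HasDerivWithinAt.comp x (hd' _ (rl_mem f x)) (hd x hx) (fun y _ => rl_mem f y)
  have h4 : HasDerivWithinAt (rl f.symm ∘ rl f) 1 (Icc 0 1) x :=
    (hasDerivWithinAt_id x _).congr (fun y hy => hinv y hy) (hinv x hx)
  have h5 := (hu x hx).eq_deriv _ h3 h4
  rw [h0, mul_zero] at h5
  exact zero_ne_one h5

/-- the action on the circle -/
theorem exists_action (G : Type) [Group G] (ρ : G →* Equiv.Perm (Icc (0 : ℝ) 1))
    (hinj : Function.Injective ρ) (hρ : ∀ g, ContMDiff I1 I1 1 (ρ g)) :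
    ∃ τ : G →* Equiv.Perm (OnePoint ℝ), Function.Injective τ ∧
      ∀ g, ContMDiff I1 I1 1 (τ g) := by
  have hsymm : ∀ g, (ρ g).symm = ρ g⁻¹ := fun g => by rw [map_inv]; rfl
  have hD : ∀ g, IsDiff (rl (ρ g)) (derivWithin (rl (ρ g)) (Icc 0 1)) := fun g =>
    isDiff_rl (ρ g) (hρ g) (by rw [hsymm]; exact hρ g⁻¹)
  have hσ : ∀ s, Real.sigmoid s ∈ Icc (0 : ℝ) 1 := fun s => Ioo_subset_Icc_self (sigmoid_mem s)
  have hone : ∀ s, Fr (rl (ρ 1)) s = s := by
    intro s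
    rw [Fr, rl_apply _ (hσ s), map_one]
    exact logit_sigmoid s
  have hmul : ∀ g h s, Fr (rl (ρ (g * h))) s = Fr (rl (ρ g)) (Fr (rl (ρ h)) s) := by
    intro g h s
    have h1 : rl (ρ (g * h)) = fun x => rl (ρ g) (rl (ρ h) x) := by
      funext x
      rw [← rl_comp, map_mul]; rfl
    rw [Fr, h1, Fr, Fr, sigmoid_logit ((hD h).maps _ (sigmoid_mem s))]
  let A : G →* Function.End (OnePoint ℝ) :=
    { toFun := fun g => OnePoint.map (Fr (rl (ρ g)))
      map_one' := by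
        have : Fr (rl (ρ 1)) = id := funext hone
        rw [this, OnePoint.map_id]; rfl
      map_mul' := fun g h => by
        have : Fr (rl (ρ (g * h))) = Fr (rl (ρ g)) ∘ Fr (rl (ρ h)) := funext (hmul g h)
        rw [this, OnePoint.map_comp]; rfl }
  refine ⟨A.toHomPerm, ?_, ?_⟩
  · intro g h hgh
    apply hinj
    have h1 : ∀ s : ℝ, Fr (rl (ρ g)) s = Fr (rl (ρ h)) s := by
      intro s
      have h2 : A.toHomPerm g (s : OnePoint ℝ) = A.toHomPerm h (s : OnePoint ℝ) := by rw [hgh]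
      exact OnePoint.coe_eq_coe.1 h2
    have h2 : EqOn (rl (ρ g)) (rl (ρ h)) (Ioo 0 1) := by
      intro x hx
      have h3 := h1 (logit x)
      rw [Fr, Fr, sigmoid_logit hx] at h3
      have h4 := congrArg Real.sigmoid h3
      rwa [sigmoid_logit ((hD g).maps x hx), sigmoid_logit ((hD h).maps x hx)] at h4
    have hc : ∀ g, Continuous (rl (ρ g)) := fun g =>
      continuous_subtype_val.comp ((hρ g).continuous.comp continuous_projIcc)
    have h3 := h2.closure (hc g) (hc h)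
    rw [closure_Ioo zero_ne_one] at h3
    ext x
    have h4 := h3 x.2
    rw [rl_apply _ x.2, rl_apply _ x.2] at h4
    exact h4
  · intro g
    obtain ⟨ε, hε, hder, hcont, hlim⟩ := deriv_limit (hD g)
    obtain ⟨h1, h2⟩ := Ext.main (Fr (rl (ρ g))) _ ε hε hder hcont hlim
    have hF : ContDiff ℝ 1 (Fr (rl (ρ g))) := by
      rw [contDiff_one_iff_deriv]
      refine ⟨fun s => (hder s).differentiableAt, ?_⟩
      have : deriv (Fr (rl (ρ g))) = fun s => R (rl (ρ g)) (derivWithin (rl (ρ g)) (Icc 0 1))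
          (Real.sigmoid s) := funext fun s => (hder s).deriv
      rw [this]
      exact hcont
    refine contMDiff_of_real (n := 1) ?_ (Fr (rl (ρ g))) (Ext.Gf (Fr (rl (ρ g)))) _
      (fun s => rfl) rfl hF h1 (if_pos rfl) h2
    exact_mod_cast le_top

/-- the circle is not homeomorphic to the interval -/
theorem not_homeo : IsEmpty (Icc (0 : ℝ) 1 ≃ₜ OnePoint ℝ) := by
  refine ⟨fun e => ?_⟩
  let h : OnePoint ℝ → ℝ := fun x => (e.symm x : ℝ)
  have hc : Continuous h := continuous_subtype_val.comp e.symm.continuous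
  have hi : Function.Injective h := Subtype.val_injective.comp e.symm.injective
  let k : ℝ → ℝ := fun s => h (s : OnePoint ℝ)
  have hkc : Continuous k := hc.comp OnePoint.continuous_coe
  have hki : Function.Injective k := hi.comp OnePoint.coe_injective
  have hlim : Tendsto k (Bornology.cobounded ℝ) (𝓝 (h pinf)) :=
    (hc.tendsto pinf).comp tendsto_coe_cobounded
  rw [IsOrderBornology.cobounded_eq, tendsto_sup] at hlim
  rcases hkc.strictMono_of_inj hki with hm | hm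
  · have h1 : k 1 ≤ h pinf := ge_of_tendsto hlim.2
      (eventually_atTop.2 ⟨1, fun s hs => hm.monotone hs⟩)
    have h2 : h pinf ≤ k 0 := le_of_tendsto hlim.1
      (eventually_atBot.2 ⟨0, fun s hs => hm.monotone hs⟩)
    have h3 := hm zero_lt_one
    linarith
  · have h1 : h pinf ≤ k 1 := le_of_tendsto hlim.2
      (eventually_atTop.2 ⟨1, fun s hs => hm.antitone hs⟩)
    have h2 : k 0 ≤ h pinf := ge_of_tendsto hlim.1
      (eventually_atBot.2 ⟨0, fun s hs => hm.antitone hs⟩)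
    have h3 := hm zero_lt_one
    linarith

end Pool.Agent.R650.CircAct
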