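import Mathlib

/-!
# Algebraic entropy of amenable group actions on abelian groups: definitions
-/

set_option autoImplicit false

namespace Pool.Agent.R650.Ent

open Filter Topology

universe u v w

variable {G : Type u} [Group G] {A : Type v} [AddCommGroup A] [DistribMulAction G A]

/-- The trajectory `T_F(X)`: the set of the sums `∑ g ∈ F, g • x g` with all `x g` in `X`. -/
def traj (F : Finset G) (X : Set A) : Set A :=
  {a | ∃ x : G → A, (∀ g ∈ F, x g ∈ X) ∧ a = ∑ g ∈ F, g • x g}

/-- `F` is a right Folner net of `G`: the `F i` are non-empty finite sets and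
`|F_i g Δ F_i| / |F_i|` tends to `0` for every `g`. -/
def IsRightFolner {I : Type w} [Preorder I] (F : I → Finset G) : Prop :=
  (∀ i, (F i).Nonempty) ∧ ∀ g : G, Tendsto
    (fun i => ((symmDiff ((fun x => x * g) '' (F i : Set G)) (F i : Set G)).ncard : ℝ) / (F i).card)
    atTop (𝓝 0)

/-- The entropy `H_alg(α, X)` of the set `X`, computed along `F`: the limit superior of
`log |T_{F_i}(X)| / |F_i|`.  (For a right Folner net of an amenable group this is a limit, and it
does not depend on the net, see `tendsto_Halg` in `Pool/Agent/R650/Ent.lean`.) -/
noncomputable def Halg {I : Type w} [Preorder I] (F : I → Finset G) (X : Set A) : ENNReal :=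
  limsup (fun i => ENNReal.ofReal (Real.log (traj (F i) X).ncard / (F i).card)) atTop

/-- The algebraic entropy `h_alg(α)` of the action on `A`, computed along `F`: the supremum of
`H_alg(α, X)` over the finite non-empty subsets `X` of `A`. -/
noncomputable def halg (A : Type v) [AddCommGroup A] [DistribMulAction G A] {I : Type w}
    [Preorder I] (F : I → Finset G) : ENNReal :=
  ⨆ X : {X : Set A // X.Finite ∧ X.Nonempty}, Halg F X.1

/-- The entropy `ent(α)` of the action on `A`, computed along `F`: the supremum of `H_alg(α, X)`
over the finite subgroups `X` of `A`. -/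
noncomputable def ent (A : Type v) [AddCommGroup A] [DistribMulAction G A] {I : Type w}
    [Preorder I] (F : I → Finset G) : ENNReal :=
  ⨆ X : {X : AddSubgroup A // (X : Set A).Finite}, Halg F (X.1 : Set A)

end Pool.Agent.R650.Ent
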