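import Mathlib
import Pool.Agent.R650.EntDefs
import Pool.Agent.Helper948.Ent.A1

/-!
# Algebraic entropy of amenable group actions on abelian groups

The definitions are in `Pool/Agent/R650/EntDefs.lean`. The infimum rule: along a right Folner net the entropy of a
finite set is at most `log |T_K(X)| / |K|`, for every finite non-empty `K`.
-/

set_option autoImplicit false

namespace Pool.Agent.R650.Ent

open Filter Topology

universe u v w


section rep

variable {G : Type u} [Group G] {A : Type v} [AddCommGroup A] [DistribMulAction G A]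

theorem traj_finite (F : Finset G) {X : Set A} (hX : X.Finite) : (traj F X).Finite := by
  classical
  have h1 : (Set.pi Set.univ (fun _ : F => X)).Finite := Set.Finite.pi (fun _ => hX)
  refine (h1.image (fun x : F → A => ∑ g : F, (g : G) • x g)).subset ?_
  rintro a ⟨x, hx, rfl⟩
  refine ⟨fun g => x g, fun g _ => hx g g.2, ?_⟩
  exact Finset.sum_coe_sort F (fun g => g • x g)

theorem traj_nonempty (F : Finset G) {X : Set A} (hX : X.Nonempty) : (traj F X).Nonempty := by
  obtain ⟨x, hx⟩ := hX
  exact ⟨∑ g ∈ F, g • x, fun _ => x, fun _ _ => hx, rfl⟩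

theorem traj_ncard_pos (F : Finset G) {X : Set A} (hX : X.Finite) (hX' : X.Nonempty) :
    1 ≤ (traj F X).ncard :=
  (Set.ncard_pos (traj_finite F hX)).2 (traj_nonempty F hX')

theorem traj_mono (F S : Finset G) (hS : S ⊆ F) {X : Set A} (hX : X.Finite) (hX' : X.Nonempty) :
    (traj S X).ncard ≤ (traj F X).ncard := by
  classical
  obtain ⟨x0, hx0⟩ := hX'
  have hsub : (fun a => a + ∑ g ∈ F \ S, g • x0) '' (traj S X) ⊆ traj F X := by
    rintro _ ⟨a, ⟨x, hx, rfl⟩, rfl⟩
    refine ⟨fun g => if g ∈ S then x g else x0, fun g _ => ?_, ?_⟩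
    · by_cases h : g ∈ S
      · simp only [if_pos h]; exact hx g h
      · simp only [if_neg h]; exact hx0
    · have e1 : ∑ g ∈ F \ S, g • (if g ∈ S then x g else x0) = ∑ g ∈ F \ S, g • x0 :=
        Finset.sum_congr rfl fun g hg => by rw [if_neg (Finset.mem_sdiff.1 hg).2]
      have e2 : ∑ g ∈ S, g • (if g ∈ S then x g else x0) = ∑ g ∈ S, g • x g :=
        Finset.sum_congr rfl fun g hg => by rw [if_pos hg]
      show ∑ g ∈ S, g • x g + ∑ g ∈ F \ S, g • x0 = _
      rw [← Finset.sum_sdiff hS, e1, e2, add_comm]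
  calc (traj S X).ncard = ((fun a => a + ∑ g ∈ F \ S, g • x0) '' (traj S X)).ncard :=
        (Set.ncard_image_of_injective _ (add_left_injective _)).symm
    _ ≤ (traj F X).ncard := Set.ncard_le_ncard hsub (traj_finite F hX)

open scoped Pointwise in
theorem traj_image (g : G) (K L : Finset G) (hL : (L : Set G) = (fun k => g * k) '' (K : Set G))
    (X : Set A) : (traj L X).ncard = (traj K X).ncard := by
  classical
  have hL' : L = K.image (fun k => g * k) := by
    apply Finset.coe_injective
    rw [hL, Finset.coe_image]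
  have hinj : Set.InjOn (fun k => g * k) (K : Set G) := fun a _ b _ h => mul_left_cancel h
  have h : traj L X = (fun a => g • a) '' (traj K X) := by
    ext a
    constructor
    · rintro ⟨x, hx, rfl⟩
      refine ⟨∑ k ∈ K, k • x (g * k), ⟨fun k => x (g * k), fun k hk => hx _ ?_, rfl⟩, ?_⟩
      · rw [hL']; exact Finset.mem_image_of_mem _ hk
      · rw [hL', Finset.sum_image hinj]
        simp only [Finset.smul_sum, mul_smul]
    · rintro ⟨_, ⟨x, hx, rfl⟩, rfl⟩
      refine ⟨fun k => x (g⁻¹ * k), fun k hk => ?_, ?_⟩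
      · rw [hL'] at hk
        obtain ⟨k', hk', rfl⟩ := Finset.mem_image.1 hk
        simpa using hx k' hk'
      · rw [hL', Finset.sum_image hinj]
        simp only [Finset.smul_sum, mul_smul, inv_mul_cancel_left]
  rw [h, Set.ncard_image_of_injective _ (MulAction.injective g)]

omit [Group G] [AddCommGroup A] [DistribMulAction G A] in
open Classical in
theorem sum_split {B : Type*} [AddCommMonoid B] (F S : Finset G) (hS : S ⊆ F) (x y : G → A)
    (c : G → A → B) : ∑ g ∈ F, c g (if g ∈ S then y g else x g) =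
      ∑ g ∈ F \ S, c g (x g) + ∑ g ∈ S, c g (y g) := by
  rw [← Finset.sum_sdiff hS]
  congr 1
  · refine Finset.sum_congr rfl fun g hg => ?_
    rw [if_neg (Finset.mem_sdiff.1 hg).2]
  · refine Finset.sum_congr rfl fun g hg => ?_
    rw [if_pos hg]

open Classical in
/-- A finite family of representations from which the summands over any subset can be recovered
from their sum. -/
theorem exists_rep (F : Finset G) {X : Set A} (hX : X.Finite) (hX' : X.Nonempty) :
    ∃ Z : Finset (G → A), Z.Nonempty ∧ (∀ z ∈ Z, ∀ g ∈ F, z g ∈ X) ∧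
      (∀ t ∈ traj F X, ∃ z ∈ Z, t = ∑ g ∈ F, g • z g) ∧
      ∀ S ⊆ F, ∀ z ∈ Z, ∀ z' ∈ Z, ∑ g ∈ S, g • z g = ∑ g ∈ S, g • z' g → ∀ g ∈ S, z g = z' g := by
  -- an injective numbering of the pairs
  obtain ⟨φ, hφ⟩ : ∃ φ : G × A → ℕ, Set.InjOn φ ((F : Set G) ×ˢ X) := by
    have hf : ((F : Set G) ×ˢ X).Finite := F.finite_toSet.prod hX
    obtain ⟨n, f, hf'⟩ := hf.fin_param
    have hbij := hf'.1
    have hrange := hf'.2
    refine ⟨fun p => if h : ∃ i, f i = p then (h.choose : ℕ) else 0, ?_⟩
    intro p hp q hq hpq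
    have h1 : ∃ i, f i = p := by rw [← hrange] at hp; exact hp
    have h2 : ∃ i, f i = q := by rw [← hrange] at hq; exact hq
    simp only [dif_pos h1, dif_pos h2] at hpq
    have h3 : h1.choose = h2.choose := Fin.ext hpq
    rw [← h1.choose_spec, ← h2.choose_spec, h3]
  set W : Finset G → (G → A) → ℕ := fun S x => ∑ g ∈ S, 2 ^ φ (g, x g) with hW
  have hWinj : ∀ S ⊆ F, ∀ x y : G → A, (∀ g ∈ F, x g ∈ X) → (∀ g ∈ F, y g ∈ X) →
      W S x = W S y → ∀ g ∈ S, x g = y g := by
    intro S hS x y hx hy hxy g hg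
    have hinj : ∀ z : G → A, (∀ g ∈ F, z g ∈ X) → Set.InjOn (fun g => φ (g, z g)) (S : Set G) := by
      intro z hz a ha b hb hab
      have := hφ (show (a, z a) ∈ (F : Set G) ×ˢ X from ⟨hS ha, hz a (hS ha)⟩)
        (show (b, z b) ∈ (F : Set G) ×ˢ X from ⟨hS hb, hz b (hS hb)⟩) hab
      exact (Prod.ext_iff.1 this).1
    have h1 : ∀ z : G → A, (∀ g ∈ F, z g ∈ X) →
        W S z = ∑ i ∈ S.image (fun g => φ (g, z g)), 2 ^ i := by
      intro z hz
      rw [Finset.sum_image (hinj z hz)]
    rw [h1 x hx, h1 y hy] at hxy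
    have h2 := Finset.geomSum_injective (n := 2) le_rfl hxy
    have h3 : φ (g, x g) ∈ S.image (fun g => φ (g, y g)) := by
      rw [← h2]; exact Finset.mem_image_of_mem _ hg
    obtain ⟨g', hg', h4⟩ := Finset.mem_image.1 h3
    have h5 := hφ (show (g', y g') ∈ (F : Set G) ×ˢ X from ⟨hS hg', hy g' (hS hg')⟩)
        (show (g, x g) ∈ (F : Set G) ×ˢ X from ⟨hS hg, hx g (hS hg)⟩) h4
    have h6 := Prod.ext_iff.1 h5
    simp only at h6
    rw [← h6.2, h6.1]
  -- minimal representations
  have hmin : ∀ t : A, t ∈ traj F X → ∃ z : G → A, ((∀ g ∈ F, z g ∈ X) ∧ t = ∑ g ∈ F, g • z g) ∧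
      ∀ y : G → A, (∀ g ∈ F, y g ∈ X) → t = ∑ g ∈ F, g • y g → W F z ≤ W F y := by
    intro t ht
    have hne : ∃ n : ℕ, ∃ z : G → A, ((∀ g ∈ F, z g ∈ X) ∧ t = ∑ g ∈ F, g • z g) ∧ W F z = n := by
      obtain ⟨z, hz, hzt⟩ := ht
      exact ⟨_, z, ⟨hz, hzt⟩, rfl⟩
    obtain ⟨z, hz, hzn⟩ := Nat.find_spec hne
    refine ⟨z, hz, fun y hy hyt => ?_⟩
    rw [hzn]
    exact Nat.find_min' hne ⟨y, ⟨hy, hyt⟩, rfl⟩
  choose! ζ hζ hζmin using hmin
  have hfin := traj_finite F hX
  refine ⟨hfin.toFinset.image ζ, ?_, ?_, ?_, ?_⟩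
  · obtain ⟨t, ht⟩ := traj_nonempty F hX'
    exact ⟨ζ t, Finset.mem_image_of_mem _ (hfin.mem_toFinset.2 ht)⟩
  · intro z hz
    obtain ⟨t, ht, rfl⟩ := Finset.mem_image.1 hz
    exact (hζ t (hfin.mem_toFinset.1 ht)).1
  · intro t ht
    exact ⟨ζ t, Finset.mem_image_of_mem _ (hfin.mem_toFinset.2 ht), (hζ t ht).2⟩
  · -- one direction of the exchange
    have key : ∀ S ⊆ F, ∀ t ∈ traj F X, ∀ t' ∈ traj F X,
        ∑ g ∈ S, g • ζ t g = ∑ g ∈ S, g • ζ t' g → W S (ζ t) ≤ W S (ζ t') := by
      intro S hS t ht t' ht' heq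
      set y : G → A := fun g => if g ∈ S then ζ t' g else ζ t g with hy
      have hyX : ∀ g ∈ F, y g ∈ X := by
        intro g hg
        by_cases h : g ∈ S
        · simp only [hy, if_pos h]; exact (hζ t' ht').1 g hg
        · simp only [hy, if_neg h]; exact (hζ t ht).1 g hg
      have hyt : t = ∑ g ∈ F, g • y g := by
        have e := sum_split F S hS (ζ t) (ζ t') (fun (g : G) (a : A) => g • a)
        rw [← heq, Finset.sum_sdiff hS] at e
        rw [hy, e]
        exact (hζ t ht).2
      have h1 := hζmin t ht y hyX hyt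
      have h2 : W F y = ∑ g ∈ F \ S, 2 ^ φ (g, ζ t g) + W S (ζ t') :=
        sum_split F S hS (ζ t) (ζ t') (fun (g : G) (a : A) => 2 ^ φ (g, a))
      have h3 : W F (ζ t) = ∑ g ∈ F \ S, 2 ^ φ (g, ζ t g) + W S (ζ t) :=
        (Finset.sum_sdiff hS).symm
      rw [h2, h3] at h1
      exact Nat.le_of_add_le_add_left h1
    intro S hS z hz z' hz' heq
    obtain ⟨t, ht, rfl⟩ := Finset.mem_image.1 hz
    obtain ⟨t', ht', rfl⟩ := Finset.mem_image.1 hz'
    have ht := hfin.mem_toFinset.1 ht
    have ht' := hfin.mem_toFinset.1 ht'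
    exact hWinj S hS _ _ (hζ t ht).1 (hζ t' ht').1
      (le_antisymm (key S hS t ht t' ht' heq) (key S hS t' ht' t ht heq.symm))

open Classical in
/-- Shearer's inequality for trajectories. -/
theorem traj_shearer {J : Type*} [Fintype J] (F : Finset G) {X : Set A} (hX : X.Finite)
    (hX' : X.Nonempty) (r : ℕ) (hr : 0 < r) (S : J → Finset G) (hS : ∀ j, S j ⊆ F)
    (hc : ∀ g ∈ F, r ≤ (Finset.univ.filter (fun j => g ∈ S j)).card) :
    (traj F X).ncard ^ r ≤ ∏ j, (traj (S j) X).ncard := by
  obtain ⟨Z, hZ0, hZX, hZ1, hZ2⟩ := exists_rep F hX hX'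
  have h := Pool.Agent.Helper948.Ent.A1.shearer_main F r hr Z hZ0 S hS hc
  have h1 : (traj F X).ncard ≤ (Z.image (fun x => fun t : {t // t ∈ F} => x t.1)).card := by
    have hsub : traj F X ⊆ ((Z.image (fun x => fun t : {t // t ∈ F} => x t.1)).image
        (fun y : F → A => ∑ g : F, (g : G) • y g) : Finset A) := by
      intro t ht
      obtain ⟨z, hz, rfl⟩ := hZ1 t ht
      rw [Finset.mem_coe, Finset.mem_image]
      refine ⟨_, Finset.mem_image_of_mem _ hz, ?_⟩
      exact Finset.sum_coe_sort F (fun g => g • z g)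
    calc (traj F X).ncard ≤ _ := Set.ncard_le_ncard hsub (Finset.finite_toSet _)
      _ = _ := Set.ncard_coe_finset _
      _ ≤ _ := Finset.card_image_le
  have h2 : ∀ j, (Z.image (fun x => fun t : {t // t ∈ S j} => x t.1)).card ≤
      (traj (S j) X).ncard := by
    intro j
    rw [← Set.ncard_coe_finset]
    refine Set.ncard_le_ncard_of_injOn (fun y : S j → A => ∑ g : S j, (g : G) • y g) ?_ ?_
      (traj_finite _ hX)
    · intro y hy
      rw [Finset.mem_coe, Finset.mem_image] at hy
      obtain ⟨z, hz, rfl⟩ := hy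
      refine ⟨z, fun g hg => hZX z hz g (hS j hg), ?_⟩
      exact Finset.sum_coe_sort (S j) (fun g => g • z g)
    · intro y hy y' hy' heq
      rw [Finset.mem_coe, Finset.mem_image] at hy hy'
      obtain ⟨z, hz, rfl⟩ := hy
      obtain ⟨z', hz', rfl⟩ := hy'
      funext g
      refine hZ2 (S j) (hS j) z hz z' hz' ?_ g.1 g.2
      have e1 := Finset.sum_coe_sort (S j) (fun g => g • z g)
      have e2 := Finset.sum_coe_sort (S j) (fun g => g • z' g)
      rw [← e1, ← e2]
      exact heq
  exact (Nat.pow_le_pow_left h1 r).trans (h.trans (Finset.prod_le_prod' fun j _ => h2 j))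

open Classical in
/-- The finitary form of the infimum rule. -/
theorem log_traj_le (F K : Finset G) (hK : K.Nonempty) {X : Set A} (hX : X.Finite)
    (hX' : X.Nonempty) :
    (K.card : ℝ) * Real.log (traj F X).ncard ≤
      (((F ×ˢ K).image (fun p => p.1 * p.2⁻¹)).card : ℝ) * Real.log (traj K X).ncard := by
  set P : Finset G := (F ×ˢ K).image (fun p => p.1 * p.2⁻¹) with hP
  have h := traj_shearer (J := {g // g ∈ P}) F hX hX' K.card hK.card_pos
    (fun g => K.image (fun k => g.1 * k) ∩ F) (fun g => Finset.inter_subset_right) (by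
      intro x hx
      have hinj : Set.InjOn (fun k : G => x * k⁻¹) (K : Set G) := by
        intro a _ b _ hab
        exact inv_injective (mul_left_cancel hab)
      calc K.card = (K.image (fun k => x * k⁻¹)).card := (Finset.card_image_of_injOn hinj).symm
        _ = ((K.image (fun k => x * k⁻¹)).attach).card := (Finset.card_attach).symm
        _ ≤ _ := by
          refine Finset.card_le_card_of_injOn (fun g => (⟨g.1, ?_⟩ : {g // g ∈ P})) ?_ ?_
          · obtain ⟨k, hk, hk'⟩ := Finset.mem_image.1 g.2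
            rw [← hk', hP]
            exact Finset.mem_image.2 ⟨(x, k), Finset.mem_product.2 ⟨hx, hk⟩, rfl⟩
          · intro g _
            obtain ⟨k, hk, hk'⟩ := Finset.mem_image.1 g.2
            simp only [Finset.coe_filter, Finset.mem_univ, true_and, Finset.mem_inter, hx, and_true]
            refine Finset.mem_image.2 ⟨k, hk, ?_⟩
            rw [← hk']
            simp
          · intro g _ g' _ hgg
            have h5 := Subtype.ext_iff.1 hgg
            exact Subtype.ext h5)
  have h2 : ∏ g : {g // g ∈ P}, (traj (K.image (fun k => g.1 * k) ∩ F) X).ncard ≤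
      (traj K X).ncard ^ P.card := by
    calc ∏ g : {g // g ∈ P}, (traj (K.image (fun k => g.1 * k) ∩ F) X).ncard
        ≤ ∏ g : {g // g ∈ P}, (traj K X).ncard := by
          refine Finset.prod_le_prod' fun g _ => ?_
          refine (traj_mono _ _ Finset.inter_subset_left hX hX').trans (le_of_eq ?_)
          exact traj_image g.1 K _ (Finset.coe_image) X
      _ = (traj K X).ncard ^ P.card := by
          rw [Finset.prod_const, Finset.card_univ, Fintype.card_coe]
  have h3 : ((traj F X).ncard : ℝ) ^ K.card ≤ ((traj K X).ncard : ℝ) ^ P.card := by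
    exact_mod_cast h.trans h2
  have hpos : (0 : ℝ) < (traj F X).ncard := by exact_mod_cast traj_ncard_pos F hX hX'
  have h4 := Real.log_le_log (pow_pos hpos _) h3
  rwa [Real.log_pow, Real.log_pow] at h4

open Classical in
theorem card_mul_inv_le (F K : Finset G) :
    (((F ×ˢ K).image (fun p => p.1 * p.2⁻¹)).card : ℝ) ≤ F.card +
      ∑ k ∈ K, ((symmDiff ((fun x => x * k⁻¹) '' (F : Set G)) (F : Set G)).ncard : ℝ) := by
  have h1 : (F ×ˢ K).image (fun p => p.1 * p.2⁻¹) ⊆
      F ∪ K.biUnion (fun k => F.image (fun x => x * k⁻¹) \ F) := by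
    intro y hy
    obtain ⟨⟨x, k⟩, hxk, rfl⟩ := Finset.mem_image.1 hy
    rw [Finset.mem_product] at hxk
    by_cases h : x * k⁻¹ ∈ F
    · exact Finset.mem_union_left _ h
    · exact Finset.mem_union_right _ (Finset.mem_biUnion.2
        ⟨k, hxk.2, Finset.mem_sdiff.2 ⟨Finset.mem_image_of_mem _ hxk.1, h⟩⟩)
  have h2 : ∀ k : G, (F.image (fun x => x * k⁻¹) \ F).card ≤
      (symmDiff ((fun x => x * k⁻¹) '' (F : Set G)) (F : Set G)).ncard := by
    intro k
    rw [← Set.ncard_coe_finset]
    refine Set.ncard_le_ncard ?_ ?_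
    · intro y hy
      rw [Finset.mem_coe, Finset.mem_sdiff, Finset.mem_image] at hy
      left
      exact ⟨hy.1, hy.2⟩
    · exact Set.Finite.subset ((F.finite_toSet.image _).union F.finite_toSet)
        Set.symmDiff_subset_union
  have h3 := (Finset.card_le_card h1).trans ((Finset.card_union_le _ _).trans
    (Nat.add_le_add_left (Finset.card_biUnion_le.trans (Finset.sum_le_sum fun k _ => h2 k)) _))
  exact_mod_cast h3

/-- The infimum rule, upper bound along a right Folner net. -/
theorem limsup_le {I : Type w} [Preorder I] {F : I → Finset G} (hF : IsRightFolner F)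
    (K : Finset G) (hK : K.Nonempty) {X : Set A} (hX : X.Finite) (hX' : X.Nonempty) :
    limsup (fun i => ENNReal.ofReal (Real.log (traj (F i) X).ncard / (F i).card)) atTop ≤
      ENNReal.ofReal (Real.log (traj K X).ncard / K.card) := by
  classical
  set c : ℝ := Real.log (traj K X).ncard / K.card with hc
  set δ : I → ℝ := fun i => ∑ k ∈ K,
    ((symmDiff ((fun x => x * k⁻¹) '' (F i : Set G)) (F i : Set G)).ncard : ℝ) / (F i).card with hδ
  have hδ0 : Tendsto δ atTop (𝓝 0) := by
    have := tendsto_finsetSum K (fun k _ => hF.2 k⁻¹)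
    rw [Finset.sum_const_zero] at this
    exact this
  have hlim : Tendsto (fun i => ENNReal.ofReal ((1 + δ i) * c)) atTop (𝓝 (ENNReal.ofReal c)) := by
    have h1 : Tendsto (fun i => (1 + δ i) * c) atTop (𝓝 ((1 + 0) * c)) :=
      (tendsto_const_nhds.add hδ0).mul_const c
    rw [add_zero, one_mul] at h1
    exact ENNReal.tendsto_ofReal h1
  have hKpos : (0 : ℝ) < K.card := by exact_mod_cast hK.card_pos
  have hlogK : 0 ≤ Real.log (traj K X).ncard :=
    Real.log_nonneg (by exact_mod_cast traj_ncard_pos K hX hX')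
  have hle : ∀ i, ENNReal.ofReal (Real.log (traj (F i) X).ncard / (F i).card) ≤
      ENNReal.ofReal ((1 + δ i) * c) := by
    intro i
    apply ENNReal.ofReal_le_ofReal
    have hFpos : (0 : ℝ) < (F i).card := by exact_mod_cast (hF.1 i).card_pos
    have h1 := log_traj_le (F i) K hK hX hX'
    have h2 := card_mul_inv_le (F i) K
    have h3 := h1.trans (mul_le_mul_of_nonneg_right h2 hlogK)
    rw [div_le_iff₀ hFpos]
    have h4 : Real.log (traj (F i) X).ncard ≤ ((F i).card + ∑ k ∈ K,
        ((symmDiff ((fun x => x * k⁻¹) '' (F i : Set G)) (F i : Set G)).ncard : ℝ)) *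
          Real.log (traj K X).ncard / K.card := by
      rw [le_div_iff₀ hKpos, mul_comm]
      exact h3
    refine h4.trans (le_of_eq ?_)
    rw [hc, hδ]
    simp only
    rw [← Finset.sum_div]
    field_simp
  rcases eq_or_neBot (atTop : Filter I) with hbot | hne
  · rw [hbot, limsup_bot]; exact bot_le
  · calc limsup (fun i => ENNReal.ofReal (Real.log (traj (F i) X).ncard / (F i).card)) atTop
        ≤ limsup (fun i => ENNReal.ofReal ((1 + δ i) * c)) atTop :=
          limsup_le_limsup (Eventually.of_forall hle)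
      _ = ENNReal.ofReal c := hlim.limsup_eq

end rep

section main

variable {G : Type u} [Group G] {A : Type v} [AddCommGroup A] [DistribMulAction G A]

theorem traj_subgroup (H : Subgroup G) (E : Finset H) (X : Set A) :
    traj (E.map (Function.Embedding.subtype _)) X = traj E X := by
  classical
  ext a
  constructor
  · rintro ⟨x, hx, rfl⟩
    refine ⟨fun h => x h, fun h hh => hx _ (Finset.mem_map_of_mem _ hh), ?_⟩
    rw [Finset.sum_map]
    rfl
  · rintro ⟨x, hx, rfl⟩
    refine ⟨fun g => if h : g ∈ H then x ⟨g, h⟩ else 0, fun g hg => ?_, ?_⟩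
    · obtain ⟨h, hh, rfl⟩ := Finset.mem_map.1 hg
      have h3 : (h : G) ∈ H := h.2
      show (if h' : (h : G) ∈ H then x ⟨h, h'⟩ else 0) ∈ X
      rw [dif_pos h3]
      exact hx h hh
    · rw [Finset.sum_map]
      refine Finset.sum_congr rfl fun h _ => ?_
      have h3 : (h : G) ∈ H := h.2
      show h • x h = (h : G) • (if h' : (h : G) ∈ H then x ⟨h, h'⟩ else 0)
      rw [dif_pos h3]
      rfl

open Classical in
/-- The trajectory over a product set. -/
theorem traj_mul (E C : Finset G) (hinj : ∀ e ∈ E, ∀ c ∈ C, ∀ e' ∈ E, ∀ c' ∈ C,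
    e * c = e' * c' → e = e' ∧ c = c') (X : Set A) :
    traj ((E ×ˢ C).image (fun p => p.1 * p.2)) X = traj E (traj C X) := by
  have hinj' : Set.InjOn (fun p : G × G => p.1 * p.2) ((E ×ˢ C : Finset (G × G)) : Set (G × G)) := by
    rintro ⟨e, c⟩ h ⟨e', c'⟩ h' heq
    rw [Finset.mem_coe, Finset.mem_product] at h h'
    have := hinj e h.1 c h.2 e' h'.1 c' h'.2 heq
    rw [this.1, this.2]
  ext a
  constructor
  · rintro ⟨x, hx, rfl⟩
    refine ⟨fun e => ∑ c ∈ C, c • x (e * c), fun e he => ⟨fun c => x (e * c), fun c hc => ?_, rfl⟩, ?_⟩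
    · exact hx _ (Finset.mem_image.2 ⟨(e, c), Finset.mem_product.2 ⟨he, hc⟩, rfl⟩)
    · rw [Finset.sum_image hinj', Finset.sum_product]
      refine Finset.sum_congr rfl fun e _ => ?_
      rw [Finset.smul_sum]
      refine Finset.sum_congr rfl fun c _ => ?_
      rw [mul_smul]
  · rintro ⟨y, hy, rfl⟩
    choose! z hz hyz using hy
    -- pick the pair of a product
    have hex : ∀ g : G, g ∈ (E ×ˢ C).image (fun p => p.1 * p.2) → ∃ p ∈ E ×ˢ C, p.1 * p.2 = g :=
      fun g hg => Finset.mem_image.1 hg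
    choose! pr hpr hpr' using hex
    have hp : ∀ e ∈ E, ∀ c ∈ C, pr (e * c) = (e, c) := by
      intro e he c hc
      have h1 : e * c ∈ (E ×ˢ C).image (fun p => p.1 * p.2) :=
        Finset.mem_image.2 ⟨(e, c), Finset.mem_product.2 ⟨he, hc⟩, rfl⟩
      exact hinj' (hpr _ h1) (Finset.mem_product.2 ⟨he, hc⟩) (hpr' _ h1)
    refine ⟨fun g => z (pr g).1 (pr g).2, fun g hg => ?_, ?_⟩
    · have := Finset.mem_product.1 (hpr g hg)
      exact hz _ this.1 _ this.2
    · rw [Finset.sum_image hinj', Finset.sum_product]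
      refine Finset.sum_congr rfl fun e he => ?_
      rw [hyz e he, Finset.smul_sum]
      refine Finset.sum_congr rfl fun c hc => ?_
      simp only [hp e he c hc]
      rw [mul_smul]

/-- Restriction to a subgroup, pointwise form. -/
theorem limsup_le_liminf (H : Subgroup G) {I : Type w} [Preorder I] {F : I → Finset G}
    (hF : IsRightFolner F) (E : Finset H) (hE : E.Nonempty) {X : Set A} (hX : X.Finite)
    (hX' : X.Nonempty) :
    limsup (fun i => ENNReal.ofReal (Real.log (traj (F i) X).ncard / (F i).card)) atTop ≤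
      ENNReal.ofReal (Real.log (traj E X).ncard / E.card) := by
  have h := limsup_le hF (E.map (Function.Embedding.subtype _)) (hE.map) hX hX'
  rwa [traj_subgroup, Finset.card_map] at h

/-- Subgroups of infinite index, pointwise form. -/
theorem limsup_le_div (H : Subgroup G) (hH : H.index = 0) (n : ℕ) (hn : 0 < n) :
    ∃ C : Finset G, C.Nonempty ∧ ∀ {I : Type w} [Preorder I] {F : I → Finset G},
    IsRightFolner F → ∀ (E : Finset H), E.Nonempty → ∀ {X : Set A}, X.Finite → X.Nonempty →
    limsup (fun i => ENNReal.ofReal (Real.log (traj (F i) X).ncard / (F i).card)) atTop ≤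
      ENNReal.ofReal (Real.log (traj E (traj C X)).ncard / E.card) / n := by
  classical
  -- `n` distinct right cosets
  have hinf : Infinite (Quotient (QuotientGroup.rightRel H)) := by
    have h1 : Infinite (G ⧸ H) := by
      rw [Subgroup.index_eq_zero_iff_infinite] at hH
      exact hH
    exact Infinite.of_injective (QuotientGroup.quotientRightRelEquivQuotientLeftRel H).symm
      (Equiv.injective _)
  obtain ⟨D, hD⟩ := Infinite.exists_subset_card_eq (Quotient (QuotientGroup.rightRel H)) n
  set C : Finset G := D.image Quotient.out with hC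
  have hCcard : C.card = n := by
    rw [hC, Finset.card_image_of_injective _ Quotient.out_injective, hD]
  have hCne : C.Nonempty := by
    rw [← Finset.card_pos, hCcard]; exact hn
  refine ⟨C, hCne, ?_⟩
  intro I _ F hF E hE X hX hX'
  set E' : Finset G := E.map (Function.Embedding.subtype _) with hE'
  have hinj : ∀ e ∈ E', ∀ c ∈ C, ∀ e' ∈ E', ∀ c' ∈ C, e * c = e' * c' → e = e' ∧ c = c' := by
    intro e he c hc e' he' c' hc' heq
    obtain ⟨h, hh, rfl⟩ := Finset.mem_map.1 he
    obtain ⟨h', hh', rfl⟩ := Finset.mem_map.1 he'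
    obtain ⟨d, hd, rfl⟩ := Finset.mem_image.1 hc
    obtain ⟨d', hd', rfl⟩ := Finset.mem_image.1 hc'
    have h1 : d = d' := by
      rw [← Quotient.out_eq d, ← Quotient.out_eq d']
      apply Quotient.sound
      rw [← Quotient.eq_iff_equiv, Quotient.eq]
      rw [QuotientGroup.rightRel_apply]
      have : d'.out * d.out⁻¹ = (h' : G)⁻¹ * h := by
        rw [mul_inv_eq_iff_eq_mul, mul_assoc, eq_inv_mul_iff_mul_eq]
        exact heq.symm
      rw [this]
      exact H.mul_mem (H.inv_mem h'.2) h.2
    subst h1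
    exact ⟨mul_right_cancel heq, rfl⟩
  have h1 := limsup_le hF ((E' ×ˢ C).image (fun p => p.1 * p.2))
    (((hE.map).product hCne).image _) hX hX'
  rw [traj_mul E' C hinj, traj_subgroup] at h1
  have hcard : (((E' ×ˢ C).image (fun p => p.1 * p.2)).card : ℝ) = E.card * n := by
    rw [Finset.card_image_of_injOn, Finset.card_product, hE', Finset.card_map, hCcard]
    · push_cast; ring
    · rintro ⟨e, c⟩ h ⟨e', c'⟩ h' heq
      rw [Finset.mem_coe, Finset.mem_product] at h h'
      have := hinj e h.1 c h.2 e' h'.1 c' h'.2 heq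
      rw [this.1, this.2]
  rw [hcard] at h1
  refine h1.trans (le_of_eq ?_)
  rw [← div_div, ENNReal.ofReal_div_of_pos (by exact_mod_cast hn), ENNReal.ofReal_natCast]

/-- For every right Folner net `H_alg(α, X)` is a limit, namely the infimum of
`log |T_K(X)| / |K|` over the finite non-empty subsets `K` of `G`; in particular it does not
depend on the net. -/
theorem tendsto_Halg {I : Type w} [Preorder I] [IsDirected I (· ≤ ·)] [Nonempty I]
    {F : I → Finset G} (hF : IsRightFolner F) {X : Set A} (hX : X.Finite) (hX' : X.Nonempty) :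
    Tendsto (fun i => ENNReal.ofReal (Real.log (traj (F i) X).ncard / (F i).card)) atTop
      (𝓝 (⨅ K : {K : Finset G // K.Nonempty},
        ENNReal.ofReal (Real.log (traj K.1 X).ncard / K.1.card))) := by
  refine tendsto_of_le_liminf_of_limsup_le ?_ ?_
  · refine le_liminf_of_le (by isBoundedDefault) (Eventually.of_forall fun i => ?_)
    exact iInf_le (fun K : {K : Finset G // K.Nonempty} =>
        ENNReal.ofReal (Real.log (traj K.1 X).ncard / K.1.card)) ⟨F i, hF.1 i⟩
  · exact le_iInf fun K => limsup_le hF K.1 K.2 hX hX'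

theorem Halg_le (H : Subgroup G) {I : Type*} [Preorder I] {F : I → Finset G}
    (hF : IsRightFolner F) {J : Type*} [Preorder J] [IsDirected J (· ≤ ·)] [Nonempty J]
    {E : J → Finset H} (hE : ∀ j, (E j).Nonempty) {X : Set A} (hX : X.Finite)
    (hX' : X.Nonempty) : Halg F X ≤ Halg E X := by
  refine le_trans ?_ (liminf_le_limsup (by isBoundedDefault) (by isBoundedDefault))
  refine le_liminf_of_le (by isBoundedDefault) (Eventually.of_forall fun j => ?_)
  exact limsup_le_liminf H hF (E j) (hE j) hX hX'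

theorem Halg_le_div (H : Subgroup G) (hH : Infinite (G ⧸ H)) (n : ℕ) (hn : 0 < n) :
    ∃ C : Finset G, ∀ {I : Type w} [Preorder I] {F : I → Finset G}, IsRightFolner F →
      ∀ {J : Type*} [Preorder J] [IsDirected J (· ≤ ·)] [Nonempty J] {E : J → Finset H},
      (∀ j, (E j).Nonempty) → ∀ {X : Set A}, X.Finite → X.Nonempty →
      Halg F X ≤ Halg E (traj C X) / n := by
  obtain ⟨C, -, hC⟩ := limsup_le_div.{u, v, w} (A := A) H
    (Subgroup.index_eq_zero_iff_infinite.2 hH) n hn
  refine ⟨C, ?_⟩
  intro I _ F hF J _ _ _ E hE X hX hX'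
  have h1 : Halg F X * n ≤ Halg E (traj C X) := by
    refine le_trans ?_ (liminf_le_limsup (by isBoundedDefault) (by isBoundedDefault))
    refine le_liminf_of_le (by isBoundedDefault) (Eventually.of_forall fun j => ?_)
    have h2 := hC hF (E j) (hE j) hX hX'
    calc Halg F X * n ≤ (ENNReal.ofReal (Real.log (traj (E j) (traj C X)).ncard / (E j).card) / n)
          * n := by gcongr; exact h2
      _ = _ := ENNReal.div_mul_cancel (by exact_mod_cast hn.ne') (ENNReal.natCast_ne_top n)
  exact (ENNReal.le_div_iff_mul_le (Or.inl (by exact_mod_cast hn.ne'))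
    (Or.inl (ENNReal.natCast_ne_top n))).2 h1

theorem eq_zero_of_le_div {a M : ENNReal} (hM : M < ⊤) (h : ∀ n : ℕ, 0 < n → a ≤ M / n) :
    a = 0 := by
  have h1 : Tendsto (fun n : ℕ => M / (n : ENNReal)) atTop (𝓝 0) := by
    have := ENNReal.Tendsto.const_mul (a := M) ENNReal.tendsto_inv_nat_nhds_zero (Or.inr hM.ne)
    simpa [div_eq_mul_inv] using this
  have h2 : a ≤ 0 := by
    refine ge_of_tendsto h1 ?_
    filter_upwards [eventually_gt_atTop 0] with n hn
    exact h n hn
  exact le_antisymm h2 bot_le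

/-- The trajectory of a finite subgroup is a finite subgroup. -/
def trajSub (C : Finset G) (X : AddSubgroup A) : AddSubgroup A where
  carrier := traj C (X : Set A)
  zero_mem' := ⟨fun _ => 0, fun _ _ => X.zero_mem, by simp⟩
  add_mem' := by
    rintro _ _ ⟨x, hx, rfl⟩ ⟨y, hy, rfl⟩
    refine ⟨fun g => x g + y g, fun g hg => X.add_mem (hx g hg) (hy g hg), ?_⟩
    simp only [smul_add, Finset.sum_add_distrib]
  neg_mem' := by
    rintro _ ⟨x, hx, rfl⟩
    refine ⟨fun g => -x g, fun g hg => X.neg_mem (hx g hg), ?_⟩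
    simp only [smul_neg, Finset.sum_neg_distrib]

theorem halg_le (H : Subgroup G) {I : Type*} [Preorder I] {F : I → Finset G}
    (hF : IsRightFolner F) {J : Type*} [Preorder J] [IsDirected J (· ≤ ·)] [Nonempty J]
    {E : J → Finset H} (hE : ∀ j, (E j).Nonempty) : halg A F ≤ halg A E :=
  iSup_mono fun X => Halg_le H hF hE X.2.1 X.2.2

theorem ent_le (H : Subgroup G) {I : Type*} [Preorder I] {F : I → Finset G}
    (hF : IsRightFolner F) {J : Type*} [Preorder J] [IsDirected J (· ≤ ·)] [Nonempty J]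
    {E : J → Finset H} (hE : ∀ j, (E j).Nonempty) : ent A F ≤ ent A E :=
  iSup_mono fun X => Halg_le H hF hE X.2 ⟨0, X.1.zero_mem⟩

theorem halg_eq_zero (H : Subgroup G) (hH : Infinite (G ⧸ H)) {I : Type*} [Preorder I]
    {F : I → Finset G} (hF : IsRightFolner F) {J : Type*} [Preorder J] [IsDirected J (· ≤ ·)]
    [Nonempty J] {E : J → Finset H} (hE : ∀ j, (E j).Nonempty) (h : halg A E < ⊤) :
    halg A F = 0 := by
  refine (iSup_eq_bot.2 fun X => ?_)
  refine eq_zero_of_le_div h fun n hn => ?_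
  obtain ⟨C, hC⟩ := Halg_le_div (A := A) H hH n hn
  refine (hC hF hE X.2.1 X.2.2).trans ?_
  gcongr
  exact le_iSup (fun X : {X : Set A // X.Finite ∧ X.Nonempty} => Halg E X.1)
    ⟨traj C X.1, traj_finite C X.2.1, traj_nonempty C X.2.2⟩

theorem ent_eq_zero (H : Subgroup G) (hH : Infinite (G ⧸ H)) {I : Type*} [Preorder I]
    {F : I → Finset G} (hF : IsRightFolner F) {J : Type*} [Preorder J] [IsDirected J (· ≤ ·)]
    [Nonempty J] {E : J → Finset H} (hE : ∀ j, (E j).Nonempty) (h : ent A E < ⊤) :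
    ent A F = 0 := by
  refine (iSup_eq_bot.2 fun X => ?_)
  refine eq_zero_of_le_div h fun n hn => ?_
  obtain ⟨C, hC⟩ := Halg_le_div (A := A) H hH n hn
  refine (hC hF hE X.2 ⟨0, X.1.zero_mem⟩).trans ?_
  gcongr
  exact le_iSup (fun X : {X : AddSubgroup A // (X : Set A).Finite} => Halg E (X.1 : Set A))
    ⟨trajSub C X.1, traj_finite C X.2⟩

end main

end Pool.Agent.R650.Ent
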