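import Mathlib

/-!
# Algebraic entropy `ent` of an endomorphism of an abelian group: definitions
-/

set_option autoImplicit false

namespace Pool.Agent.R650.EntZ

open Filter

universe u

variable {G : Type u} [AddCommGroup G]

/-- The trajectory `T_n(φ, F) = F + φ(F) + ⋯ + φ^{n-1}(F)`. -/
def traj (φ : AddMonoid.End G) (F : AddSubgroup G) (n : ℕ) : AddSubgroup G :=
  ⨆ i : Fin n, F.map (φ ^ (i : ℕ))

/-- The limit `H(φ, F)` of `log |T_n(φ, F)| / n`. -/
noncomputable def H (φ : AddMonoid.End G) (F : AddSubgroup G) : ℝ :=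
  limUnder atTop (fun n : ℕ => Real.log (Nat.card (traj φ F n)) / n)

/-- The algebraic entropy `ent(φ)`: the supremum of `H(φ, F)` over all finite subgroups `F`. -/
noncomputable def ent (φ : AddMonoid.End G) : EReal :=
  ⨆ F : {F : AddSubgroup G // Finite F}, (H φ F.1 : EReal)

end Pool.Agent.R650.EntZ
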