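import Mathlib
import Pool.Agent.R650.EntZDefs

/-!
# Continuous endomorphisms of compact torsion abelian groups have entropy `0` or `∞`
-/

set_option autoImplicit false

namespace Pool.Agent.R650.EntZ

open Filter Topology

universe u

variable {G : Type u} [AddCommGroup G]

theorem finite_sup (A B : AddSubgroup G) [hA : Finite A] [hB : Finite B] :
    Finite (A ⊔ B : AddSubgroup G) := by
  have : ((A ⊔ B : AddSubgroup G) : Set G).Finite := by
    have h : ((A ⊔ B : AddSubgroup G) : Set G) ⊆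
        Set.image2 (fun a b => a + b) (A : Set G) (B : Set G) := by
      intro x hx
      obtain ⟨a, ha, b, hb, rfl⟩ := AddSubgroup.mem_sup.1 hx
      exact ⟨a, ha, b, hb, rfl⟩
    exact (Set.Finite.image2 _ (Set.toFinite _) (Set.toFinite _)).subset h
  exact this.to_subtype

theorem traj_zero (φ : AddMonoid.End G) (F : AddSubgroup G) : traj φ F 0 = ⊥ := by
  simp [traj]

theorem mem_traj (φ : AddMonoid.End G) (F : AddSubgroup G) {n i : ℕ} (hi : i < n) {x : G}
    (hx : x ∈ F) : (φ ^ i) x ∈ traj φ F n :=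
  (le_iSup (fun i : Fin n => F.map (φ ^ (i : ℕ))) ⟨i, hi⟩) ⟨x, hx, rfl⟩

theorem traj_le {φ : AddMonoid.End G} {F L : AddSubgroup G} {n : ℕ}
    (h : ∀ i < n, ∀ x ∈ F, (φ ^ i) x ∈ L) : traj φ F n ≤ L := by
  refine iSup_le fun i => ?_
  rintro _ ⟨x, hx, rfl⟩
  exact h i i.2 x hx

theorem traj_succ (φ : AddMonoid.End G) (F : AddSubgroup G) (n : ℕ) :
    traj φ F (n + 1) = traj φ F n ⊔ F.map (φ ^ n) := by
  apply le_antisymm
  · refine traj_le fun i hi x hx => ?_
    rcases Nat.lt_succ_iff_lt_or_eq.1 hi with h | rfl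
    · exact (le_sup_left : traj φ F n ≤ _) (mem_traj φ F h hx)
    · exact (le_sup_right : F.map (φ ^ i) ≤ _) ⟨x, hx, rfl⟩
  · refine sup_le (traj_le fun i hi x hx => mem_traj φ F (by omega) hx) ?_
    rintro _ ⟨x, hx, rfl⟩
    exact mem_traj φ F (Nat.lt_succ_self n) hx

instance finite_map (φ : AddMonoid.End G) (F : AddSubgroup G) [Finite F] :
    Finite (F.map φ : AddSubgroup G) := by
  refine Finite.of_surjective
    (fun x : F => (⟨φ x.1, ⟨x.1, x.2, rfl⟩⟩ : (F.map φ : AddSubgroup G))) ?_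
  rintro ⟨_, x, hx, rfl⟩
  exact ⟨⟨x, hx⟩, rfl⟩

instance finite_traj (φ : AddMonoid.End G) (F : AddSubgroup G) [Finite F] (n : ℕ) :
    Finite (traj φ F n) := by
  induction n with
  | zero => rw [traj_zero]; infer_instance
  | succ n ih => rw [traj_succ]; exact finite_sup _ _

theorem traj_mono (φ : AddMonoid.End G) {F F' : AddSubgroup G} (h : F ≤ F') (n : ℕ) :
    traj φ F n ≤ traj φ F' n :=
  traj_le fun _ hi _ hx => mem_traj φ F' hi (h hx)

theorem card_mono {A B : AddSubgroup G} [Finite B] (h : A ≤ B) : Nat.card A ≤ Nat.card B :=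
  Nat.card_le_card_of_injective (AddSubgroup.inclusion h) (AddSubgroup.inclusion_injective h)

theorem card_sup_le (A B : AddSubgroup G) [Finite A] [Finite B] :
    Nat.card (A ⊔ B : AddSubgroup G) ≤ Nat.card A * Nat.card B := by
  rw [← Nat.card_prod]
  refine Nat.card_le_card_of_surjective
    (fun p : A × B => (⟨p.1.1 + p.2.1, AddSubgroup.add_mem_sup p.1.2 p.2.2⟩ :
      (A ⊔ B : AddSubgroup G))) ?_
  rintro ⟨x, hx⟩
  obtain ⟨a, ha, b, hb, rfl⟩ := AddSubgroup.mem_sup.1 hx
  exact ⟨⟨⟨a, ha⟩, ⟨b, hb⟩⟩, rfl⟩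

theorem card_map_le (φ : AddMonoid.End G) (F : AddSubgroup G) [Finite F] :
    Nat.card (F.map φ : AddSubgroup G) ≤ Nat.card F := by
  refine Nat.card_le_card_of_surjective
    (fun x : F => (⟨φ x.1, ⟨x.1, x.2, rfl⟩⟩ : (F.map φ : AddSubgroup G))) ?_
  rintro ⟨_, x, hx, rfl⟩
  exact ⟨⟨x, hx⟩, rfl⟩

theorem traj_add (φ : AddMonoid.End G) (F : AddSubgroup G) (m n : ℕ) :
    traj φ F (m + n) ≤ traj φ F m ⊔ (traj φ F n).map (φ ^ m) := by
  refine traj_le fun i hi x hx => ?_
  rcases lt_or_ge i m with h | h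
  · exact (le_sup_left : traj φ F m ≤ _) (mem_traj φ F h hx)
  · refine (le_sup_right : (traj φ F n).map (φ ^ m) ≤ _)
      ⟨(φ ^ (i - m)) x, mem_traj φ F (by omega) hx, ?_⟩
    obtain ⟨j, rfl⟩ := Nat.exists_eq_add_of_le h
    rw [Nat.add_sub_cancel_left, pow_add]
    rfl

theorem subadd (φ : AddMonoid.End G) (F : AddSubgroup G) [Finite F] :
    Subadditive (fun n : ℕ => Real.log (Nat.card (traj φ F n))) := by
  intro m n
  have h1 : Nat.card (traj φ F (m + n)) ≤ Nat.card (traj φ F m) * Nat.card (traj φ F n) :=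
    haveI := finite_sup (traj φ F m) ((traj φ F n).map (φ ^ m))
    ((card_mono (traj_add φ F m n)).trans (card_sup_le _ _)).trans
      (Nat.mul_le_mul le_rfl (card_map_le _ _))
  have p1 : (0 : ℝ) < Nat.card (traj φ F m) := by exact_mod_cast Nat.card_pos
  have p2 : (0 : ℝ) < Nat.card (traj φ F n) := by exact_mod_cast Nat.card_pos
  have p3 : (0 : ℝ) < Nat.card (traj φ F (m + n)) := by exact_mod_cast Nat.card_pos
  simp only
  rw [← Real.log_mul p1.ne' p2.ne']
  exact Real.log_le_log p3 (by exact_mod_cast h1)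

/-- The limit defining `H(φ, F)` exists. -/
theorem tendsto_H (φ : AddMonoid.End G) (F : AddSubgroup G) [Finite F] :
    Tendsto (fun n : ℕ => Real.log (Nat.card (traj φ F n)) / n) atTop (𝓝 (H φ F)) := by
  have h := (subadd φ F).tendsto_lim ⟨0, by
    rintro _ ⟨n, rfl⟩
    have : (0 : ℝ) ≤ Real.log (Nat.card (traj φ F n)) := Real.log_natCast_nonneg _
    positivity⟩
  have h2 : H φ F = (subadd φ F).lim := h.limUnder_eq
  rw [h2]
  exact h

theorem H_nonneg (φ : AddMonoid.End G) (F : AddSubgroup G) [Finite F] : 0 ≤ H φ F := by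
  refine ge_of_tendsto' (tendsto_H φ F) fun n => ?_
  have : (0 : ℝ) ≤ Real.log (Nat.card (traj φ F n)) := Real.log_natCast_nonneg _
  positivity

theorem H_eq_zero (φ : AddMonoid.End G) (F L : AddSubgroup G) [Finite F] [Finite L]
    (h : ∀ n, traj φ F n ≤ L) : H φ F = 0 := by
  refine tendsto_nhds_unique (tendsto_H φ F) ?_
  have h1 : Tendsto (fun n : ℕ => Real.log (Nat.card L) / (n : ℝ)) atTop (𝓝 0) :=
    tendsto_const_div_atTop_nhds_zero_nat _
  refine squeeze_zero (fun n => ?_) (fun n => ?_) h1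
  · have : (0 : ℝ) ≤ Real.log (Nat.card (traj φ F n)) := Real.log_natCast_nonneg _
    positivity
  · refine div_le_div_of_nonneg_right ?_ (Nat.cast_nonneg n)
    refine Real.log_le_log (by exact_mod_cast Nat.card_pos) ?_
    exact_mod_cast card_mono (h n)

/-- If `φ^n(v) ∉ T_n(⟨v⟩) + T_m(F)` for all `n, m`, then small combinations in `T_m(F)` are
trivial. -/
theorem coeff_zero (φ : AddMonoid.End G) (F : AddSubgroup G) (v : G)
    (h : ∀ n m, (φ ^ n) v ∉ traj φ (AddSubgroup.zmultiples v) n ⊔ traj φ F m) (m : ℕ)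
    (c : ℕ → ℤ) (hc : ∀ i, c i = -1 ∨ c i = 0 ∨ c i = 1) (n : ℕ)
    (hs : ∑ i ∈ Finset.range n, c i • (φ ^ i) v ∈ traj φ F m) : ∀ i < n, c i = 0 := by
  induction n with
  | zero => intro i hi; omega
  | succ n ih =>
    rw [Finset.sum_range_succ] at hs
    have hV : ∑ i ∈ Finset.range n, c i • (φ ^ i) v ∈ traj φ (AddSubgroup.zmultiples v) n := by
      refine AddSubgroup.sum_mem _ fun i hi => AddSubgroup.zsmul_mem _ ?_ _
      exact mem_traj φ _ (Finset.mem_range.1 hi) (AddSubgroup.mem_zmultiples v)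
    have h1 : c n • (φ ^ n) v ∈ traj φ (AddSubgroup.zmultiples v) n ⊔ traj φ F m := by
      have := AddSubgroup.sub_mem _
        ((le_sup_right : traj φ F m ≤ traj φ (AddSubgroup.zmultiples v) n ⊔ traj φ F m) hs)
        ((le_sup_left : traj φ (AddSubgroup.zmultiples v) n ≤ _ ⊔ traj φ F m) hV)
      simpa using this
    have hcn : c n = 0 := by
      rcases hc n with h2 | h2 | h2
      · exfalso
        rw [h2, neg_one_zsmul] at h1
        exact h n m ((AddSubgroup.neg_mem_iff _).1 h1)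
      · exact h2
      · exfalso
        rw [h2, one_zsmul] at h1
        exact h n m h1
    rw [hcn, zero_smul, add_zero] at hs
    intro i hi
    rcases Nat.lt_succ_iff_lt_or_eq.1 hi with h2 | rfl
    · exact ih hs i h2
    · exact hcn

theorem card_ge (φ : AddMonoid.End G) (F : AddSubgroup G) [Finite F] (v : G)
    [Finite (AddSubgroup.zmultiples v)]
    (h : ∀ n m, (φ ^ n) v ∉ traj φ (AddSubgroup.zmultiples v) n ⊔ traj φ F m) (n : ℕ) :
    2 ^ n * Nat.card (traj φ F n) ≤ Nat.card (traj φ (F ⊔ AddSubgroup.zmultiples v) n) := by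
  have := finite_sup F (AddSubgroup.zmultiples v)
  have e : 2 ^ n * Nat.card (traj φ F n) = Nat.card ((Fin n → Bool) × traj φ F n) := by
    rw [Nat.card_prod]
    simp
  rw [e]
  have hmem : ∀ p : (Fin n → Bool) × traj φ F n,
      (∑ i : Fin n, (if p.1 i then (φ ^ (i : ℕ)) v else 0)) + p.2.1 ∈
        traj φ (F ⊔ AddSubgroup.zmultiples v) n := by
    intro p
    refine AddSubgroup.add_mem _ (AddSubgroup.sum_mem _ fun i _ => ?_)
      (traj_mono φ le_sup_left n p.2.2)
    split_ifs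
    · exact mem_traj φ _ i.2
        ((le_sup_right : AddSubgroup.zmultiples v ≤ _) (AddSubgroup.mem_zmultiples v))
    · exact AddSubgroup.zero_mem _
  refine Nat.card_le_card_of_injective
    (fun p : (Fin n → Bool) × traj φ F n =>
      (⟨_, hmem p⟩ : traj φ (F ⊔ AddSubgroup.zmultiples v) n)) ?_
  rintro ⟨ε, t⟩ ⟨ε', t'⟩ he
  have he' : (∑ i : Fin n, (if ε i then (φ ^ (i : ℕ)) v else 0)) + t.1 =
      (∑ i : Fin n, (if ε' i then (φ ^ (i : ℕ)) v else 0)) + t'.1 := congrArg Subtype.val he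
  let c : ℕ → ℤ := fun i => if hi : i < n then
    ((if ε ⟨i, hi⟩ then 1 else 0) - (if ε' ⟨i, hi⟩ then 1 else 0)) else 0
  have hc : ∀ i, c i = -1 ∨ c i = 0 ∨ c i = 1 := by
    intro i
    simp only [c]
    split_ifs <;> simp
  have hsum : ∑ i ∈ Finset.range n, c i • (φ ^ i) v = t'.1 - t.1 := by
    rw [Finset.sum_range]
    have : ∀ i : Fin n, c i • (φ ^ (i : ℕ)) v =
        (if ε i then (φ ^ (i : ℕ)) v else 0) - (if ε' i then (φ ^ (i : ℕ)) v else 0) := by
      intro i
      simp only [c, i.2, dif_pos, Fin.eta]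
      cases ε i <;> cases ε' i <;> simp
    rw [Finset.sum_congr rfl fun i _ => this i, Finset.sum_sub_distrib]
    rw [sub_eq_sub_iff_add_eq_add, he', add_comm]
  have hz := coeff_zero φ F v h n c hc n (by
    rw [hsum]
    exact AddSubgroup.sub_mem _ t'.2 t.2)
  have hε : ε = ε' := by
    funext i
    have h1 := hz i i.2
    simp only [c, i.2, dif_pos, Fin.eta] at h1
    cases h2 : ε i <;> cases h3 : ε' i <;> simp_all
  subst hε
  have ht : t.1 = t'.1 := add_left_cancel he'
  rw [Subtype.ext ht]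

theorem H_ge (φ : AddMonoid.End G) (F : AddSubgroup G) [Finite F] (v : G)
    [Finite (AddSubgroup.zmultiples v)]
    (h : ∀ n m, (φ ^ n) v ∉ traj φ (AddSubgroup.zmultiples v) n ⊔ traj φ F m) :
    Real.log 2 + H φ F ≤ H φ (F ⊔ AddSubgroup.zmultiples v) := by
  have := finite_sup F (AddSubgroup.zmultiples v)
  refine le_of_tendsto_of_tendsto ((tendsto_const_nhds (x := Real.log 2)).add (tendsto_H φ F))
    (tendsto_H φ (F ⊔ AddSubgroup.zmultiples v)) ?_
  filter_upwards [eventually_gt_atTop 0] with n hn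
  have hn' : (0 : ℝ) < n := by exact_mod_cast hn
  have p1 : (0 : ℝ) < Nat.card (traj φ F n) := by exact_mod_cast Nat.card_pos
  rw [le_div_iff₀ hn', add_mul, div_mul_cancel₀ _ hn'.ne', mul_comm (Real.log 2), ← Real.log_pow,
    ← Real.log_mul (by positivity) p1.ne']
  refine Real.log_le_log (by positivity) ?_
  exact_mod_cast card_ge φ F v h n

/-- A continuous endomorphism of a compact Hausdorff torsion abelian group has algebraic entropy
`0` or `∞`. -/
theorem ent_zero_or_top [TopologicalSpace G] [IsTopologicalAddGroup G] [CompactSpace G]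
    [T2Space G] (htors : ∀ x : G, IsOfFinAddOrder x) (φ : AddMonoid.End G)
    (hφ : Continuous φ) : ent φ = 0 ∨ ent φ = ⊤ := by
  by_cases htop : ent φ = ⊤
  · exact Or.inr htop
  left
  have hfz : ∀ v : G, Finite (AddSubgroup.zmultiples v) := fun v =>
    (htors v).finite_zmultiples
  have hle : ∀ F : AddSubgroup G, Finite F → (H φ F : EReal) ≤ ent φ := fun F hF =>
    le_iSup (fun F : {F : AddSubgroup G // Finite F} => (H φ F.1 : EReal)) ⟨F, hF⟩
  have hnn : (0 : EReal) ≤ ent φ := by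
    refine le_trans ?_ (hle ⊥ inferInstance)
    exact_mod_cast H_nonneg φ ⊥
  -- choose `F`
  obtain ⟨F, hF, hFe⟩ : ∃ F : AddSubgroup G, ∃ _ : Finite F,
      ent φ < ((Real.log 2 + H φ F : ℝ) : EReal) := by
    by_contra hcon
    push Not at hcon
    obtain ⟨e, he⟩ : ∃ e : ℝ, (e : EReal) = ent φ :=
      ⟨(ent φ).toReal, EReal.coe_toReal htop (lt_of_lt_of_le (by simp) hnn).ne'⟩
    have h1 : ent φ ≤ ((e - Real.log 2 : ℝ) : EReal) := by
      refine iSup_le ?_
      rintro ⟨F, hF⟩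
      have h2 := hcon F hF
      rw [← he, EReal.coe_le_coe_iff] at h2
      rw [EReal.coe_le_coe_iff]
      linarith
    rw [← he, EReal.coe_le_coe_iff] at h1
    have := Real.log_pos one_lt_two
    linarith
  -- every `v` satisfies a monic relation
  have key : ∀ v : G, ∃ n m, (φ ^ n) v ∈ traj φ (AddSubgroup.zmultiples v) n ⊔ traj φ F m := by
    intro v
    by_contra hcon
    push Not at hcon
    have hv := hfz v
    have h1 := H_ge φ F v hcon
    have h2 := hle (F ⊔ AddSubgroup.zmultiples v) (finite_sup _ _)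
    have h3 := lt_of_lt_of_le hFe ((EReal.coe_le_coe_iff.2 h1).trans h2)
    exact lt_irrefl _ h3
  have hcomb : ∀ (v : G) (n : ℕ) (x : G), x ∈ traj φ (AddSubgroup.zmultiples v) n →
      ∃ c : Fin n → ℤ, x = ∑ i, c i • (φ ^ (i : ℕ)) v := by
    intro v n
    induction n with
    | zero =>
      intro x hx
      rw [traj_zero, AddSubgroup.mem_bot] at hx
      exact ⟨fun _ => 0, by simp [hx]⟩
    | succ n ih =>
      intro x hx
      rw [traj_succ] at hx
      obtain ⟨a, ha, b, ⟨y, hy, rfl⟩, rfl⟩ := AddSubgroup.mem_sup.1 hx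
      obtain ⟨c, rfl⟩ := ih a ha
      obtain ⟨k, rfl⟩ := AddSubgroup.mem_zmultiples_iff.1 hy
      refine ⟨Fin.snoc c k, ?_⟩
      rw [Fin.sum_univ_castSucc]
      have h1 : (φ ^ n) (k • v) = k • (φ ^ n) v := map_zsmul (φ ^ n) k v
      simp only [Fin.snoc_castSucc, Fin.val_castSucc, Fin.snoc_last, Fin.val_last]
      rw [← h1]
      rfl
  -- Baire
  let ι : Type u := Σ n : ℕ, Σ m : ℕ, (Fin n → ℤ) × traj φ F m
  let q : (n : ℕ) → (Fin n → ℤ) → (G →+ G) := fun n c =>
    { toFun := fun v => (φ ^ n) v - ∑ i, c i • (φ ^ (i : ℕ)) v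
      map_zero' := by simp
      map_add' := fun x y => by
        simp only [map_add, smul_add, Finset.sum_add_distrib]
        abel }
  have hφn : ∀ n : ℕ, Continuous (fun v => (φ ^ n) v) := by
    intro n
    induction n with
    | zero => exact continuous_id
    | succ n ih =>
      have : (fun v => (φ ^ (n + 1)) v) = fun v => (φ ^ n) (φ v) := by
        funext v
        rw [pow_succ]
        rfl
      rw [this]
      exact ih.comp hφ
  have hq : ∀ n c, Continuous (q n c) := by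
    intro n c
    exact (hφn n).sub (continuous_finsetSum _ fun i _ => (hφn i).zsmul _)
  have hcover : (⋃ j : ι, {v : G | q j.1 j.2.2.1 v = j.2.2.2}) = Set.univ := by
    refine Set.eq_univ_of_forall fun v => ?_
    obtain ⟨n, m, h⟩ := key v
    obtain ⟨a, ha, w, hw, haw⟩ := AddSubgroup.mem_sup.1 h
    obtain ⟨c, rfl⟩ := hcomb v n a ha
    refine Set.mem_iUnion.2 ⟨⟨n, m, c, ⟨w, hw⟩⟩, ?_⟩
    show (φ ^ n) v - ∑ i, c i • (φ ^ (i : ℕ)) v = w
    rw [← haw]
    abel
  obtain ⟨j, hj⟩ := nonempty_interior_of_iUnion_of_closed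
    (f := fun j : ι => {v : G | q j.1 j.2.2.1 v = j.2.2.2})
    (fun j => isClosed_eq (hq _ _) continuous_const) hcover
  obtain ⟨n, m, c, w⟩ := j
  obtain ⟨v₀, hv₀⟩ := hj
  have hker : ((q n c).ker : Set G) ∈ 𝓝 (0 : G) := by
    have h1 : {v : G | q n c v = w.1} ∈ 𝓝 (0 + v₀) := by
      rw [zero_add]
      exact mem_interior_iff_mem_nhds.1 hv₀
    have h2 : Continuous (fun x : G => x + v₀) := by fun_prop
    have h3 := h2.continuousAt.preimage_mem_nhds h1
    filter_upwards [h3] with x hx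
    have h4 : q n c v₀ = w.1 :=
      (interior_subset : interior {v : G | q n c v = w.1} ⊆ {v : G | q n c v = w.1}) hv₀
    have h5 : q n c (x + v₀) = w.1 := hx
    rw [map_add, h4] at h5
    exact (AddMonoidHom.mem_ker).2 (by simpa using h5)
  have hopen : IsOpen ((q n c).ker : Set G) := AddSubgroup.isOpen_of_mem_nhds _ hker
  have hfq : Finite (G ⧸ (q n c).ker) := AddSubgroup.quotient_finite_of_isOpen _ hopen
  have hfr : Finite (q n c).range :=
    Finite.of_equiv _ (QuotientAddGroup.quotientKerEquivRange (q n c)).toEquiv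
  have hcommq : ∀ x, φ (q n c x) = q n c (φ x) := by
    intro x
    show φ ((φ ^ n) x - ∑ i, c i • (φ ^ (i : ℕ)) x) =
      (φ ^ n) (φ x) - ∑ i, c i • (φ ^ (i : ℕ)) (φ x)
    have h1 : ∀ k : ℕ, φ ((φ ^ k) x) = (φ ^ k) (φ x) := by
      intro k
      have : φ * φ ^ k = φ ^ k * φ := (Commute.self_pow φ k).eq
      exact DFunLike.congr_fun this x
    rw [map_sub, map_sum, h1]
    congr 1
    refine Finset.sum_congr rfl fun i _ => ?_
    rw [map_zsmul, h1]
  -- conclusion
  apply le_antisymm _ hnn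
  refine iSup_le ?_
  rintro ⟨F', hF'⟩
  have hL : Finite (traj φ F' n ⊔ (q n c).range : AddSubgroup G) := finite_sup _ _
  have hinv : ∀ x ∈ (traj φ F' n ⊔ (q n c).range : AddSubgroup G),
      φ x ∈ (traj φ F' n ⊔ (q n c).range : AddSubgroup G) := by
    intro x hx
    obtain ⟨a, ha, b, ⟨y, rfl⟩, rfl⟩ := AddSubgroup.mem_sup.1 hx
    rw [map_add]
    refine AddSubgroup.add_mem _ ?_ ((le_sup_right : (q n c).range ≤ _) ⟨φ y, (hcommq y).symm⟩)
    have : traj φ F' n ≤ (traj φ F' n ⊔ (q n c).range : AddSubgroup G).comap φ := by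
      refine traj_le fun i hi z hz => ?_
      show φ ((φ ^ i) z) ∈ (traj φ F' n ⊔ (q n c).range : AddSubgroup G)
      have h1 : φ ((φ ^ i) z) = (φ ^ (i + 1)) z := by
        rw [pow_succ']
        rfl
      rw [h1]
      rcases Nat.lt_or_ge (i + 1) n with h2 | h2
      · exact (le_sup_left : traj φ F' n ≤ _) (mem_traj φ F' h2 hz)
      · obtain rfl : n = i + 1 := by omega
        have h3 : (φ ^ (i + 1)) z = (∑ j, c j • (φ ^ (j : ℕ)) z) + q (i + 1) c z := by
          show _ = (∑ j, c j • (φ ^ (j : ℕ)) z) + ((φ ^ (i + 1)) z - ∑ j, c j • (φ ^ (j : ℕ)) z)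
          abel
        rw [h3]
        exact AddSubgroup.add_mem_sup
          (AddSubgroup.sum_mem _ fun j _ => AddSubgroup.zsmul_mem _ (mem_traj φ F' j.2 hz) _)
          ⟨z, rfl⟩
    exact this ha
  have hall : ∀ k, ∀ x ∈ F', (φ ^ k) x ∈ (traj φ F' n ⊔ (q n c).range : AddSubgroup G) := by
    intro k
    induction k with
    | zero =>
      intro x hx
      rcases Nat.eq_zero_or_pos n with h0 | h0
      · subst h0
        have : (φ ^ 0) x = q 0 c x := by
          show _ = (φ ^ 0) x - ∑ i : Fin 0, c i • (φ ^ (i : ℕ)) x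
          simp
        rw [this]
        exact (le_sup_right : (q 0 c).range ≤ _) ⟨x, rfl⟩
      · exact (le_sup_left : traj φ F' n ≤ _) (mem_traj φ F' h0 hx)
    | succ k ih =>
      intro x hx
      have h1 : (φ ^ (k + 1)) x = φ ((φ ^ k) x) := by
        rw [pow_succ']
        rfl
      rw [h1]
      exact hinv _ (ih x hx)
  have := H_eq_zero φ F' (traj φ F' n ⊔ (q n c).range : AddSubgroup G)
    (fun k => traj_le fun i _ x hx => hall i x hx)
  simp [this]

end Pool.Agent.R650.EntZ
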