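import Mathlib

set_option autoImplicit false

/-! # `-1 / F(-1/u)` is `C¹` at `0` if `F'` has a nonzero limit at `±∞` -/

open Set Filter Topology

noncomputable section

namespace Pool.Agent.R650.Ext

lemma div_tendsto_atTop (F F' : ℝ → ℝ) (ε : ℝ) (hF : ∀ s, HasDerivAt F (F' s) s)
    (hF' : Tendsto F' atTop (𝓝 ε)) : Tendsto (fun s => F s / s) atTop (𝓝 ε) := by
  rw [Metric.tendsto_atTop]
  intro δ hδ
  obtain ⟨A, hA⟩ := (Metric.tendsto_atTop.1 hF') (δ / 2) (by linarith)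
  set B := max A 1 with hB
  have hB1 : 1 ≤ B := le_max_right _ _
  have hBA : A ≤ B := le_max_left _ _
  have hmv : ∀ s, B ≤ s → |F s - ε * s - (F B - ε * B)| ≤ δ / 2 * |s - B| := by
    intro s hs
    have h := (convex_Ici B).norm_image_sub_le_of_norm_hasDerivWithin_le
      (f := fun s => F s - ε * s) (f' := fun s => F' s - ε) (C := δ / 2) (x := B) (y := s)
      (fun x hx => by
        have h1 : HasDerivAt (fun s : ℝ => ε * s) ε x := by
          simpa using (hasDerivAt_id x).const_mul ε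
        exact ((hF x).sub h1).hasDerivWithinAt)
      (fun x hx => by
        have h1 := hA x (hBA.trans hx)
        rw [Real.dist_eq] at h1
        rw [Real.norm_eq_abs]
        exact h1.le) self_mem_Ici hs
    simpa [Real.norm_eq_abs] using h
  refine ⟨max B (2 * (|F B - ε * B| + 1) / δ + 1), fun s hs => ?_⟩
  have hs1 : B ≤ s := (le_max_left _ _).trans hs
  have hs2 : 2 * (|F B - ε * B| + 1) / δ + 1 ≤ s := (le_max_right _ _).trans hs
  have hs0 : 0 < s := by linarith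
  have h1 := hmv s hs1
  rw [Real.dist_eq]
  have h2 : F s / s - ε = (F s - ε * s) / s := by field_simp
  rw [h2, abs_div, abs_of_pos hs0, div_lt_iff₀ hs0]
  have h3 : |s - B| = s - B := abs_of_nonneg (by linarith)
  rw [h3] at h1
  have h4 : |F s - ε * s| ≤ |F s - ε * s - (F B - ε * B)| + |F B - ε * B| := by
    have := abs_add_le (F s - ε * s - (F B - ε * B)) (F B - ε * B)
    simpa using this
  have h5 : |F B - ε * B| + 1 ≤ δ / 2 * (s - 1) := by
    have h6 : 2 * (|F B - ε * B| + 1) / δ ≤ s - 1 := by linarith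
    rw [div_le_iff₀ hδ] at h6
    linarith
  nlinarith

lemma div_tendsto (F F' : ℝ → ℝ) (ε : ℝ) (hF : ∀ s, HasDerivAt F (F' s) s)
    (hF' : Tendsto F' (Bornology.cobounded ℝ) (𝓝 ε)) :
    Tendsto (fun s => F s / s) (Bornology.cobounded ℝ) (𝓝 ε) := by
  rw [IsOrderBornology.cobounded_eq, tendsto_sup] at hF' ⊢
  constructor
  · have h := div_tendsto_atTop (fun s => -F (-s)) (fun s => F' (-s)) ε (fun s => by
      have h1 : HasDerivAt (fun s => F (-s)) (F' (-s) * (-1)) s :=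
        (hF (-s)).comp s (hasDerivAt_neg s)
      have h2 := h1.fun_neg
      rwa [mul_neg_one, neg_neg] at h2) (hF'.1.comp tendsto_neg_atTop_atBot)
    have h2 := h.comp tendsto_neg_atBot_atTop
    refine h2.congr fun s => ?_
    simp [neg_div_neg_eq]
  · exact div_tendsto_atTop F F' ε hF hF'.2

/-- the map `u ↦ -1 / F(-1/u)`, `0 ↦ 0` -/
def Gf (F : ℝ → ℝ) (u : ℝ) : ℝ := if u = 0 then 0 else -(F (-u⁻¹))⁻¹

lemma tendsto_cob : Tendsto (fun u : ℝ => -u⁻¹) (𝓝[≠] 0) (Bornology.cobounded ℝ) :=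
  (tendsto_neg_cobounded (E := ℝ)).comp (tendsto_inv₀_nhdsNE_zero (α := ℝ))

theorem main (F F' : ℝ → ℝ) (ε : ℝ) (hε : ε ≠ 0) (hF : ∀ s, HasDerivAt F (F' s) s)
    (hcont : Continuous F') (hF' : Tendsto F' (Bornology.cobounded ℝ) (𝓝 ε)) :
    ContDiffAt ℝ 1 (Gf F) 0 ∧
      ∀ᶠ u in 𝓝 (0 : ℝ), u ≠ 0 → F (-u⁻¹) ≠ 0 ∧ Gf F u = -(F (-u⁻¹))⁻¹ := by
  have h1 := div_tendsto F F' ε hF hF'
  -- nonvanishing
  have hne : ∀ᶠ s in Bornology.cobounded ℝ, F s ≠ 0 := by
    filter_upwards [h1.eventually_ne hε] with s hs h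
    rw [h, zero_div] at hs
    exact hs rfl
  have hne' : ∀ᶠ u in 𝓝[≠] (0 : ℝ), F (-u⁻¹) ≠ 0 := tendsto_cob.eventually hne
  have hne'' : ∀ᶠ u in 𝓝 (0 : ℝ), u ≠ 0 → F (-u⁻¹) ≠ 0 := by
    rw [eventually_nhdsWithin_iff] at hne'
    exact hne'
  refine ⟨?_, ?_⟩
  swap
  · filter_upwards [hne''] with u hu h0
    exact ⟨hu h0, if_neg h0⟩
  -- the derivative
  let g : ℝ → ℝ := fun u => if u = 0 then ε⁻¹ else F' (-u⁻¹) * (u⁻¹ ^ 2 * ((F (-u⁻¹)) ^ 2)⁻¹)
  have hg : ContinuousAt g 0 := by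
    rw [← continuousWithinAt_compl_self]
    have hg0 : g 0 = ε⁻¹ := if_pos rfl
    change Tendsto g _ (𝓝 (g 0))
    rw [hg0]
    have h2 : Tendsto (fun s => F' s * ((F s / s)⁻¹ ^ 2)) (Bornology.cobounded ℝ) (𝓝 (ε⁻¹)) := by
      have := hF'.mul ((h1.inv₀ hε).pow 2)
      have h3 : ε * ε⁻¹ ^ 2 = ε⁻¹ := by field_simp
      rwa [h3] at this
    refine (h2.comp tendsto_cob).congr' ?_
    filter_upwards [self_mem_nhdsWithin] with u hu
    have hu0 : u ≠ 0 := hu
    simp only [Function.comp_apply, g, if_neg hu0]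
    congr 1
    rw [inv_div, div_pow, neg_sq, inv_pow, div_eq_mul_inv]
  obtain ⟨U, hU1, hU2, hU3⟩ := mem_nhds_iff.1 hne''
  have hder : ∀ u ∈ U, u ≠ 0 → HasDerivAt (Gf F) (g u) u := by
    intro u hu hu0
    have hFu : F (-u⁻¹) ≠ 0 := hU1 hu hu0
    have h2 : HasDerivAt (fun u : ℝ => -u⁻¹) ((u ^ 2)⁻¹) u := by
      have := (hasDerivAt_inv hu0).fun_neg
      rwa [neg_neg] at this
    have h3 : HasDerivAt (fun u : ℝ => F (-u⁻¹)) (F' (-u⁻¹) * (u ^ 2)⁻¹) u :=
      (hF (-u⁻¹)).comp u h2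
    have h4 := (h3.fun_inv hFu).fun_neg
    have h5 : HasDerivAt (fun u : ℝ => -(F (-u⁻¹))⁻¹) (g u) u := by
      have h6 : -(-(F' (-u⁻¹) * (u ^ 2)⁻¹) / F (-u⁻¹) ^ 2) = g u := by
        simp only [g, if_neg hu0]
        rw [inv_pow]
        ring
      rwa [h6] at h4
    refine h5.congr_of_eventuallyEq ?_
    filter_upwards [isOpen_ne.mem_nhds hu0] with v hv
    exact if_neg hv
  have hGc : ContinuousAt (Gf F) 0 := by
    rw [← continuousWithinAt_compl_self]
    have hG0 : Gf F 0 = 0 := if_pos rfl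
    change Tendsto (Gf F) _ (𝓝 (Gf F 0))
    rw [hG0]
    have h2 : Tendsto (fun u : ℝ => u * ((F (-u⁻¹)) / (-u⁻¹))⁻¹) (𝓝[≠] 0) (𝓝 0) := by
      have h3 : Tendsto (fun u : ℝ => u) (𝓝[≠] 0) (𝓝 0) := tendsto_id.mono_left nhdsWithin_le_nhds
      have := h3.mul ((h1.inv₀ hε).comp tendsto_cob)
      simpa using this
    refine h2.congr' ?_
    filter_upwards [self_mem_nhdsWithin, hne'] with u hu hFu
    have hu0 : u ≠ 0 := hu
    simp only [Gf, if_neg hu0]
    field_simp
  have hder0 : HasDerivAt (Gf F) (g 0) 0 := by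
    have hdiff : ∀ S : Set ℝ, DifferentiableOn ℝ (Gf F) (U \ {0} ∩ S) := fun S x hx =>
      (hder x hx.1.1 hx.1.2).differentiableAt.differentiableWithinAt
    have hlim : Tendsto (fun x => deriv (Gf F) x) (𝓝[≠] 0) (𝓝 (g 0)) := by
      have h2 : Tendsto g (𝓝[≠] 0) (𝓝 (g 0)) := hg.tendsto.mono_left nhdsWithin_le_nhds
      refine h2.congr' ?_
      filter_upwards [self_mem_nhdsWithin, mem_nhdsWithin_of_mem_nhds (hU2.mem_nhds hU3)]
        with u hu hu'
      exact (hder u hu' hu).deriv.symm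
    have hr : HasDerivWithinAt (Gf F) (g 0) (Ici 0) 0 := by
      refine hasDerivWithinAt_Ici_of_tendsto_deriv (hdiff univ) hGc.continuousWithinAt ?_
        (hlim.mono_left (nhdsWithin_mono _ fun x hx => ne_of_gt hx))
      rw [inter_univ]
      exact sdiff_mem (mem_nhdsWithin_of_mem_nhds (hU2.mem_nhds hU3))
        (by filter_upwards [self_mem_nhdsWithin] with x hx; exact ne_of_gt hx)
    have hl : HasDerivWithinAt (Gf F) (g 0) (Iic 0) 0 := by
      refine hasDerivWithinAt_Iic_of_tendsto_deriv (hdiff univ) hGc.continuousWithinAt ?_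
        (hlim.mono_left (nhdsWithin_mono _ fun x hx => ne_of_lt hx))
      rw [inter_univ]
      exact sdiff_mem (mem_nhdsWithin_of_mem_nhds (hU2.mem_nhds hU3))
        (by filter_upwards [self_mem_nhdsWithin] with x hx; exact ne_of_lt hx)
    simpa using hr.union hl
  rw [contDiffAt_one_iff]
  refine ⟨fun u => ContinuousLinearMap.toSpanSingleton ℝ (g u), U, hU2.mem_nhds hU3, ?_, ?_⟩
  · have hgc : ContinuousOn g U := by
      intro u hu
      by_cases hu0 : u = 0
      · subst hu0; exact hg.continuousWithinAt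
      · apply ContinuousAt.continuousWithinAt
        have hFu : F (-u⁻¹) ≠ 0 := hU1 hu hu0
        have hFc : Continuous F := continuous_iff_continuousAt.2 fun s => (hF s).continuousAt
        have hi : ContinuousAt (fun u : ℝ => u⁻¹) u := continuousAt_inv₀ hu0
        have h2 : ContinuousAt (fun u : ℝ => F' (-u⁻¹) * (u⁻¹ ^ 2 * ((F (-u⁻¹)) ^ 2)⁻¹)) u := by
          refine ContinuousAt.mul ?_ (ContinuousAt.mul (hi.pow 2) (ContinuousAt.inv₀ ?_ ?_))
          · exact hcont.continuousAt.comp hi.neg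
          · exact (ContinuousAt.comp (g := F) hFc.continuousAt hi.neg).pow 2
          · exact pow_ne_zero 2 hFu
        refine h2.congr ?_
        filter_upwards [isOpen_ne.mem_nhds hu0] with v hv
        exact (if_neg hv).symm
    exact (ContinuousLinearMap.toSpanSingletonCLE (𝕜 := ℝ) (E := ℝ)).continuous.comp_continuousOn hgc
  · intro u hu
    have h2 : HasDerivAt (Gf F) (g u) u := by
      by_cases hu0 : u = 0
      · subst hu0; exact hder0
      · exact hder u hu hu0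
    exact h2.hasFDerivAt

end Pool.Agent.R650.Ext
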