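import Pool.Agent.W331.CR.All

/-!
# Finitely generated groups of class `C^{k,Lip}` with an element killed in class `C^{k+1}`

Built on the library `W331.CR`. For every `k ≥ 1` one finitely generated group which embeds into
the `C^{k,Lip}` diffeomorphisms of the interval and of the circle and which has a non-trivial
element killed by every homomorphism to the `C^{k+1}` diffeomorphisms of the interval or of the
circle.
-/

set_option autoImplicit false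

open Set Filter Topology Function
open scoped ContDiff

namespace Pool.Agent.R650.Lip02

open Pool.Agent.W331.CR Pool.Agent.W331.CR.NoS

theorem kill_I (hr : S_rigid02) (hs : S_setupI) (k : ℕ) (hk : 1 ≤ k) (G : Type) [Group G]
    (t v h y f : G) (hrel : Rel02 k t v h y f) (φ : G →* DiffI (k + 1 : ℕ)) : φ y = 1 := by
  obtain ⟨H, ψ, hψ, hset, hsm⟩ := hs (k + 1 : ℕ) (by exact_mod_cast Nat.succ_le_succ hk)
  have h1 := NoI.map02 (H.subtype.comp (ψ.comp φ)) hrel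
  have h2 := hr k hk _ H hset (fun F hF t ht => hsm F hF t ht)
    _ _ _ _ _ (ψ (φ t)).2 (ψ (φ v)).2 (ψ (φ h)).2 (ψ (φ y)).2 (ψ (φ f)).2 h1
  apply hψ
  rw [map_one]
  exact Subtype.ext h2

lemma LL_map_one {G : Type} [Group G] {r : WithTop ℕ∞} {φ : G →* DiffS r} {g : G}
    (h : LL φ 1 g) : φ g = 1 := by
  apply Subtype.ext
  apply Equiv.ext
  intro z
  obtain ⟨x, rfl⟩ := QuotientAddGroup.mk_surjective z
  exact h.eq x

theorem kill_S (hrig : S_rigid02) (hlc : S_liftcomm) (hbs : S_liftbs) (hset : S_setupS)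
    (k : ℕ) (hk : 1 ≤ k) (G : Type) [Group G]
    (t v h y f : G) (hR : Rel02 k t v h y f) (φ : G →* DiffS (k + 1 : ℕ)) : φ y = 1 := by
  obtain ⟨T0, hT0⟩ := LL.exists φ t
  obtain ⟨V, hV⟩ := LL.exists φ v
  obtain ⟨H, hH⟩ := LL.exists φ h
  obtain ⟨Y0, hY0⟩ := LL.exists φ y
  obtain ⟨F, hF⟩ := LL.exists φ f
  obtain ⟨m, hm⟩ := hH.bs hbs hY0 hR.r0
  have hY := hY0.tr_mul m
  generalize tr ^ m * Y0 = Y at hm hY
  obtain ⟨n, hn⟩ := hV.inv.bs hbs hT0 (by rw [inv_inv]; exact hR.r1)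
  have hT := hT0.tr_mul n
  generalize tr ^ n * T0 = T at hn hT
  rw [inv_inv] at hn
  have h2 : (2 : WithTop ℕ∞) ≤ ((k + 1 : ℕ) : WithTop ℕ∞) := by
    exact_mod_cast (by omega : 2 ≤ k + 1)
  have hone : Y = 1 := by
    refine hrig k hk univ (Lifts ((k + 1 : ℕ) : WithTop ℕ∞)) (hset _ h2) ?_ T V H Y F
      hT.mem hV.mem hH.mem hY.mem hF.mem ?_
    · intro K hK t _
      exact (show IsLift _ K from hK).sm.contDiffAt
    · refine ⟨hm, hn, ?_, ?_, ?_⟩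
      · intro j hj
        have hw := ((hT.pow j).mul hY).mul (hT.pow j).inv
        exact ⟨hw.comm hlc hH (hR.wt j hj).1, hw.comm hlc hY (hR.wt j hj).2⟩
      · intro i hi
        have hw := ((hV.pow i).mul hY).mul (hV.pow i).inv
        exact ⟨hw.comm hlc hH (hR.wv i hi).1, hw.comm hlc hY (hR.wv i hi).2⟩
      · rintro i hi F' rfl
        have hv := hV.pow i
        have hF' := (hv.inv.mul hF).mul hv
        have hw := (hF'.pow (2 ^ (k * i))).mul hY.inv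
        have hr := hR.rf i hi _ rfl
        exact ⟨hw.comm hlc hH hr.1, hw.comm hlc hY hr.2.1, hF'.comm hlc hY hr.2.2⟩
  rw [hone] at hY
  exact LL_map_one hY

/-- the main theorem -/
theorem main (k : ℕ) (hk : 1 ≤ k) : ∃ (G : Type) (_ : Group G), Group.FG G ∧
    (∃ φ : G →* (Icc (0:ℝ) 1 ≃o Icc (0:ℝ) 1), Injective φ ∧ ∀ g, φ g ∈ LipI k) ∧
    (∃ φ : G →* Equiv.Perm (AddCircle (1:ℝ)), Injective φ ∧ ∀ g, φ g ∈ LipS k) ∧
    ∃ y : G, y ≠ 1 ∧ (∀ φ : G →* DiffI (k + 1 : ℕ), φ y = 1) ∧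
      ∀ φ : G →* DiffS (k + 1 : ℕ), φ y = 1 := by
  obtain ⟨t, v, h, y, f, R, hy1, hS⟩ := (s_exist02 s_flataff s_conj s_conjlip s_f02) k hk
  set S : Set (ℝ ≃o ℝ) := {t, v, h, y, f} with hSdef
  have hcl := lipcs_closure s_lipmul k hk S hS
  have hsub : ∀ F ∈ S, F ∈ Sup := fun F hF => (hS F hF).1.1.1
  set T : Sup := ⟨t, hsub t (by simp [hSdef])⟩ with hT
  set V : Sup := ⟨v, hsub v (by simp [hSdef])⟩ with hV
  set Hh : Sup := ⟨h, hsub h (by simp [hSdef])⟩ with hHh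
  set Y : Sup := ⟨y, hsub y (by simp [hSdef])⟩ with hY
  set Ff : Sup := ⟨f, hsub f (by simp [hSdef])⟩ with hFf
  set N := Subgroup.closure ({T, V, Hh, Y, Ff} : Set Sup) with hN
  have hNS : ∀ F ∈ N, (F : ℝ ≃o ℝ) ∈ LipCS k ∧ ((F : ℝ ≃o ℝ)⁻¹ : ℝ ≃o ℝ) ∈ LipCS k := by
    intro F hF
    apply hcl
    have h6 : Sup.subtype F ∈ N.map Sup.subtype := Subgroup.mem_map_of_mem _ hF
    rw [hN, MonoidHom.map_closure] at h6
    refine Subgroup.closure_mono ?_ h6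
    rintro _ ⟨Z, hZ, rfl⟩
    simp only [mem_insert_iff, mem_singleton_iff] at hZ
    rcases hZ with rfl | rfl | rfl | rfl | rfl <;> simp [hSdef, T, V, Hh, Y, Ff]
  have hfin : ({T, V, Hh, Y, Ff} : Set Sup).Finite := by
    simp
  have mem : ∀ F ∈ ({T, V, Hh, Y, Ff} : Set Sup), F ∈ N := fun F hF =>
    Subgroup.subset_closure hF
  have R1 : Rel02 k T V Hh Y Ff := Rel02.of_map (Sup.subtype) Subtype.coe_injective R
  have R2 : Rel02 k (⟨T, mem _ (by simp)⟩ : N) ⟨V, mem _ (by simp)⟩ ⟨Hh, mem _ (by simp)⟩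
      ⟨Y, mem _ (by simp)⟩ ⟨Ff, mem _ (by simp)⟩ :=
    Rel02.of_map N.subtype Subtype.coe_injective R1
  refine ⟨N, inferInstance, ?_, ?_, ?_, ⟨Y, mem _ (by simp)⟩, ?_, ?_, ?_⟩
  · rw [Group.fg_iff_subgroup_fg, Subgroup.fg_iff]
    exact ⟨_, rfl, hfin⟩
  · obtain ⟨φ, hφ, hφ2⟩ := s_toI
    refine ⟨φ.comp N.subtype, hφ.comp Subtype.coe_injective, ?_⟩
    rintro ⟨F, hF⟩
    have hext : ∀ (F : Sup), ∀ x ∈ Icc (0:ℝ) 1, ext01 (φ F) x = (F : ℝ ≃o ℝ) x := by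
      intro F x hx
      rw [← hφ2 F ⟨x, hx⟩]
      exact ext01_coe (φ F) ⟨x, hx⟩
    obtain ⟨⟨⟨g1, g2, g3⟩, K, hK⟩, -⟩ := hNS F hF
    change φ F ∈ LipI k
    refine ⟨⟨?_, ?_⟩, K, ?_⟩
    · exact g2.contDiffOn.congr (hext F)
    · rw [← map_inv]
      exact ContDiffOn.congr (f := ((F : ℝ ≃o ℝ)⁻¹ : ℝ ≃o ℝ)) g3.contDiffOn (hext F⁻¹)
    · have e : EqOn (iteratedDerivWithin k (ext01 (φ F)) (Icc 0 1))
          (iteratedDeriv k (F : ℝ ≃o ℝ)) (Icc 0 1) := by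
        intro x hx
        rw [iteratedDerivWithin_congr (hext F) hx]
        exact iteratedDerivWithin_eq_iteratedDeriv (uniqueDiffOn_Icc zero_lt_one)
          g2.contDiffAt hx
      intro a ha b hb
      rw [e ha, e hb]
      exact hK a b
  · obtain ⟨φ, hφ, hφ2⟩ := s_toS
    refine ⟨φ.comp N.subtype, hφ.comp Subtype.coe_injective, ?_⟩
    rintro ⟨F, hF⟩
    obtain ⟨P, p1, p2, p3, p4, p5⟩ := hφ2 F
    obtain ⟨⟨⟨g1, g2, g3⟩, hK⟩, -⟩ := hNS F hF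
    exact ⟨P, ⟨p1, p3 _ g2, p4 _ g3⟩, p5 k g2 hK, p2⟩
  · intro hcon
    have h1 : Y = 1 := congrArg Subtype.val hcon
    apply hy1
    have h2 : ((Y : Sup) : ℝ ≃o ℝ) = 1 := by rw [h1]; rfl
    exact h2
  · exact kill_I t_rigid02 s_setupI k hk _ _ _ _ _ _ R2
  · exact kill_S t_rigid02 s_liftcomm s_liftbs s_setupS k hk _ _ _ _ _ _ R2

end Pool.Agent.R650.Lip02
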