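import Mathlib

/-!
# Profinite coarse structures on the integers are not given by word metrics
-/

set_option autoImplicit false

open Set Filter Topology

namespace Pool.Agent.R650.Profin

/-- the positive integers all of whose prime factors lie in `Q` -/
def Qstar (Q : Set ℕ) : Set ℕ := {m | 0 < m ∧ ∀ p : ℕ, p.Prime → p ∣ m → p ∈ Q}

/-- the residues of an integer modulo the elements of `Q^*` -/
def resid (Q : Set ℕ) : ℤ →+ (∀ m : Qstar Q, ZMod m) :=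
  AddMonoidHom.mk' (fun x m => (x : ZMod m)) (fun x y => by ext m; simp)

/-- the topology `τ_Q`, induced by the map to the product of the discrete groups `ℤ/m`, `m ∈ Q^*` -/
@[reducible] def tau (Q : Set ℕ) : TopologicalSpace ℤ :=
  TopologicalSpace.induced (resid Q) Pi.topologicalSpace

/-- the uniformly bounded families of `𝓔_Q`: all members lie in translates of one compact set -/
def UBQ (Q : Set ℕ) (𝒜 : Set (Set ℤ)) : Prop :=
  ∃ K : Set ℤ, @IsCompact ℤ (tau Q) K ∧ ∀ A ∈ 𝒜, ∃ k : ℤ, A ⊆ (fun x => k + x) '' K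

/-- the word metric of `S`, with values in `ℕ ∪ {∞}` -/
noncomputable def d (S : Set ℤ) (n m : ℤ) : ℕ∞ :=
  ⨅ l ∈ {l : List ℤ | (∀ s ∈ l, s ∈ S ∨ -s ∈ S) ∧ l.sum = n - m}, (l.length : ℕ∞)

/-- the diameter -/
noncomputable def diam (S : Set ℤ) (A : Set ℤ) : ℕ∞ := ⨆ x ∈ A, ⨆ y ∈ A, d S x y

/-- the uniformly bounded families of `𝓔_{Cay(S)}` -/
def UBS (S : Set ℤ) (𝒜 : Set (Set ℤ)) : Prop := ∃ n : ℕ, ∀ A ∈ 𝒜, diam S A ≤ n

/-- `f` maps `B`-uniformly bounded families to `B'`-uniformly bounded families -/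
def Controlled (B B' : Set (Set ℤ) → Prop) (f : ℤ → ℤ) : Prop :=
  ∀ 𝒜, B 𝒜 → B' ((fun A => f '' A) '' 𝒜)

/-- `f` and `f'` are close -/
def Close (B' : Set (Set ℤ) → Prop) (f f' : ℤ → ℤ) : Prop :=
  B' (range fun x => ({f x, f' x} : Set ℤ))

/-- coarse isomorphism of the coarse groups `(ℤ, B)` and `(ℤ, B')` -/
def CoarselyIso (B B' : Set (Set ℤ) → Prop) : Prop :=
  ∃ f : ℤ → ℤ, Controlled B B' f ∧
    B' (range fun p : ℤ × ℤ => ({f (p.1 + p.2), f p.1 + f p.2} : Set ℤ)) ∧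
    ∃ g : ℤ → ℤ, Controlled B' B g ∧ Close B (g ∘ f) id ∧ Close B' (f ∘ g) id

section
variable {Q : Set ℕ}

lemma one_mem : 1 ∈ Qstar Q := ⟨one_pos, fun _ hp h => absurd (Nat.dvd_one.1 h) hp.one_lt.ne'⟩

lemma mul_mem {a b : ℕ} (ha : a ∈ Qstar Q) (hb : b ∈ Qstar Q) : a * b ∈ Qstar Q :=
  ⟨Nat.mul_pos ha.1 hb.1, fun p hp h => ((hp.dvd_mul).1 h).elim (ha.2 p hp) (hb.2 p hp)⟩

lemma pow_mem {a : ℕ} (ha : a ∈ Qstar Q) (n : ℕ) : a ^ n ∈ Qstar Q := by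
  induction n with
  | zero => exact one_mem
  | succ n ih => rw [pow_succ]; exact mul_mem ih ha

lemma prime_mem {p : ℕ} (hp : p.Prime) (h : p ∈ Q) : p ∈ Qstar Q :=
  ⟨hp.pos, fun q hq hqp => by rwa [(Nat.prime_dvd_prime_iff_eq hq hp).1 hqp]⟩

/-- a copy of the integers with the topology `τ_Q` -/
def ZQ (_ : Set ℕ) : Type := ℤ

instance : AddCommGroup (ZQ Q) := inferInstanceAs (AddCommGroup ℤ)
instance : TopologicalSpace (ZQ Q) := tau Q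

/-- the map to the product -/
def rs (Q : Set ℕ) : ZQ Q →+ (∀ m : Qstar Q, ZMod m) := resid Q

instance : IsTopologicalAddGroup (ZQ Q) := topologicalAddGroup_induced (rs Q)

lemma continuous_rs (Q : Set ℕ) : Continuous (rs Q) := continuous_induced_dom

lemma continuous_res (m : Qstar Q) : Continuous fun x : ZQ Q => rs Q x m :=
  (continuous_apply m).comp (continuous_rs Q)

/-- the underlying integer -/
def ofQ (x : ZQ Q) : ℤ := x
/-- an integer as a point of the copy -/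
def toQ (Q : Set ℕ) (x : ℤ) : ZQ Q := x

lemma rs_eq_iff (m : Qstar Q) (x y : ZQ Q) :
    rs Q x m = rs Q y m ↔ ((m : ℕ) : ℤ) ∣ ofQ x - ofQ y := by
  change ((ofQ x : ℤ) : ZMod m) = ((ofQ y : ℤ) : ZMod m) ↔ _
  rw [eq_comm, ZMod.intCast_eq_intCast_iff_dvd_sub]

/-- the coset `a + m ℤ` -/
def coset (Q : Set ℕ) (m : ℕ) (a : ℤ) : Set (ZQ Q) := {x | (m : ℤ) ∣ ofQ x - a}

lemma coset_eq {m : ℕ} (hm : m ∈ Qstar Q) (a : ℤ) :
    coset Q m a = (fun x : ZQ Q => rs Q x ⟨m, hm⟩) ⁻¹' {rs Q (toQ Q a) ⟨m, hm⟩} := by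
  ext x
  exact (rs_eq_iff ⟨m, hm⟩ x (toQ Q a)).symm

lemma isOpen_coset {m : ℕ} (hm : m ∈ Qstar Q) (a : ℤ) : IsOpen (coset Q m a) := by
  rw [coset_eq hm]
  exact (isOpen_discrete _).preimage (continuous_res ⟨m, hm⟩)

lemma isClosed_coset {m : ℕ} (hm : m ∈ Qstar Q) (a : ℤ) : IsClosed (coset Q m a) := by
  rw [coset_eq hm]
  exact (isClosed_discrete _).preimage (continuous_res ⟨m, hm⟩)

/-- avoiding one class modulo each power of `p` -/
lemma avoid {p : ℕ} (hp : 2 ≤ p) (e : ℕ → ℤ) (N : ℕ) :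
    ∃ t : ℤ, ∀ i ≤ N, ¬ ((p : ℤ) ^ (i + 1) ∣ t - e i) := by
  have hp' : (2 : ℤ) ≤ p := by exact_mod_cast hp
  have two : ∀ (t : ℤ) (i : ℕ), ¬ ((p : ℤ) ^ (i + 1) ∣ t - e i) ∨
      ¬ ((p : ℤ) ^ (i + 1) ∣ t + (p : ℤ) ^ i - e i) := by
    intro t i
    by_contra hcon
    push Not at hcon
    obtain ⟨h1, h2⟩ := hcon
    have h3 := dvd_sub h2 h1
    have h4 : t + (p : ℤ) ^ i - e i - (t - e i) = (p : ℤ) ^ i := by ring
    rw [h4] at h3
    have h5 : (0 : ℤ) < (p : ℤ) ^ i := by positivity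
    have h6 := Int.le_of_dvd h5 h3
    rw [pow_succ] at h6
    nlinarith
  induction N with
  | zero =>
    rcases two 0 0 with h | h
    · exact ⟨_, fun i hi => by rw [Nat.le_zero.1 hi]; exact h⟩
    · exact ⟨_, fun i hi => by rw [Nat.le_zero.1 hi]; exact h⟩
  | succ N ih =>
    obtain ⟨t, ht⟩ := ih
    rcases two t (N + 1) with h | h
    · refine ⟨t, fun i hi => ?_⟩
      rcases Nat.lt_or_ge i (N + 1) with h1 | h1
      · exact ht i (by omega)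
      · rw [le_antisymm hi h1]; exact h
    · refine ⟨t + (p : ℤ) ^ (N + 1), fun i hi => ?_⟩
      rcases Nat.lt_or_ge i (N + 1) with h1 | h1
      · intro h2
        apply ht i (by omega)
        have h3 : (p : ℤ) ^ (i + 1) ∣ (p : ℤ) ^ (N + 1) := pow_dvd_pow _ (by omega)
        have h4 := dvd_sub h2 h3
        have h5 : t + (p : ℤ) ^ (N + 1) - e i - (p : ℤ) ^ (N + 1) = t - e i := by ring
        rwa [h5] at h4
      · rw [le_antisymm hi h1]; exact h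

/-- compact sets have empty interior -/
lemma exists_notMem {p : ℕ} (hp : p.Prime) (hpQ : p ∈ Q) {C : Set (ZQ Q)} (hC : IsCompact C)
    {m : ℕ} (hm : m ∈ Qstar Q) : ∃ z : ℤ, (m : ℤ) ∣ z ∧ toQ Q z ∉ C := by
  by_contra hcon
  push Not at hcon
  have hsub : coset Q m 0 ⊆ C := fun z hz => hcon (ofQ z) (by
    have h : (m : ℤ) ∣ ofQ z - 0 := hz
    rwa [sub_zero] at h)
  have hK : IsCompact (coset Q m 0) := hC.of_isClosed_subset (isClosed_coset hm 0) hsub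
  obtain ⟨e, he⟩ := exists_surjective_nat ℤ
  have hmem : ∀ j : ℕ, m * p ^ (j + 1) ∈ Qstar Q := fun j =>
    mul_mem hm (pow_mem (prime_mem hp hpQ) _)
  obtain ⟨F, hF⟩ := hK.elim_finite_subcover
    (fun j : ℕ => coset Q (m * p ^ (j + 1)) (m * e j))
    (fun j => isOpen_coset (hmem j) _) (by
      intro z hz
      have h : (m : ℤ) ∣ ofQ z - 0 := hz
      rw [sub_zero] at h
      obtain ⟨t, ht⟩ := h
      obtain ⟨j, hj⟩ := he t
      refine mem_iUnion.2 ⟨j, ?_⟩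
      change ((m * p ^ (j + 1) : ℕ) : ℤ) ∣ ofQ z - m * e j
      rw [hj, ht, sub_self]
      exact dvd_zero _)
  obtain ⟨t, ht⟩ := avoid hp.two_le e (F.sup id)
  have h1 : toQ Q (m * t : ℤ) ∈ coset Q m 0 := by
    change (m : ℤ) ∣ (m * t : ℤ) - 0
    rw [sub_zero]
    exact dvd_mul_right _ _
  have h2 := hF h1
  simp only [mem_iUnion] at h2
  obtain ⟨j, hj, h3⟩ := h2
  have h4 : ((m * p ^ (j + 1) : ℕ) : ℤ) ∣ (m * t : ℤ) - m * e j := h3
  apply ht j (Finset.le_sup (f := id) hj)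
  push_cast at h4
  rw [← mul_sub] at h4
  have hm0 : (m : ℤ) ≠ 0 := by exact_mod_cast hm.1.ne'
  exact (mul_dvd_mul_iff_left hm0).1 h4

end

open Classical in
/-- a product of elements of `Q^*` -/
noncomputable def Mi (Q : Set ℕ) (i : ℕ) : ℕ := ∏ m ∈ (Finset.range (i + 1)).filter (· ∈ Qstar Q), m

lemma Mi_mem (Q : Set ℕ) (i : ℕ) : Mi Q i ∈ Qstar Q := by
  classical
  unfold Mi
  refine Finset.prod_induction _ (· ∈ Qstar Q) (fun a b ha hb => mul_mem ha hb) one_mem ?_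
  intro m hm
  exact (Finset.mem_filter.1 hm).2

lemma dvd_Mi {Q : Set ℕ} {m i : ℕ} (hm : m ∈ Qstar Q) (hi : m ≤ i) : m ∣ Mi Q i := by
  classical
  exact Finset.dvd_prod_of_mem _ (Finset.mem_filter.2 ⟨Finset.mem_range.2 (by omega), hm⟩)

/-- the main argument, for an arbitrary coarse structure with countably many generators -/
theorem main {Q : Set ℕ} (hQ : Q.Nonempty) (hp : ∀ p ∈ Q, p.Prime) (R : ℕ → Set ℤ → Prop)
    (f g : ℤ → ℤ) (hf : Controlled (UBQ Q) (fun 𝒜 => ∃ n, ∀ A ∈ 𝒜, R n A) f)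
    (hg : Controlled (fun 𝒜 => ∃ n, ∀ A ∈ 𝒜, R n A) (UBQ Q) g)
    (hgf : Close (UBQ Q) (g ∘ f) id) : False := by
  obtain ⟨p, hpQ⟩ := hQ
  -- (1)
  have h1 : ∀ n : ℕ, ∃ K : Set (ZQ Q), IsCompact K ∧ ∀ A : Set ℤ, R n A →
      ∃ k : ℤ, ∀ y ∈ A, ∃ c ∈ K, k + ofQ c = g y := by
    intro n
    obtain ⟨K, hK, h⟩ := hg {A | R n A} ⟨n, fun A hA => hA⟩
    refine ⟨K, hK, fun A hA => ?_⟩
    obtain ⟨k, hk⟩ := h _ ⟨A, hA, rfl⟩
    refine ⟨k, fun y hy => ?_⟩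
    obtain ⟨c, hc, ec⟩ := hk ⟨y, hy, rfl⟩
    exact ⟨c, hc, ec⟩
  choose K hK hKg using h1
  -- (2)
  obtain ⟨L, hL, h2⟩ : ∃ L : Set (ZQ Q), IsCompact L ∧ ∀ x : ℤ, ∃ a ∈ L, ∃ b ∈ L,
      x - g (f x) = ofQ a - ofQ b := by
    obtain ⟨L, hL, h2⟩ := hgf
    refine ⟨L, hL, fun x => ?_⟩
    obtain ⟨k, hk⟩ := h2 _ ⟨x, rfl⟩
    obtain ⟨a, ha, ea⟩ := hk (Or.inr rfl : id x ∈ ({(g ∘ f) x, id x} : Set ℤ))
    obtain ⟨b, hb, eb⟩ := hk (Or.inl rfl : (g ∘ f) x ∈ ({(g ∘ f) x, id x} : Set ℤ))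
    refine ⟨a, ha, b, hb, ?_⟩
    have ea' : k + a = x := ea
    have eb' : k + b = g (f x) := eb
    change x - g (f x) = a - b
    linarith
  -- the compact sets `k + K_n + L - L`
  let Cn : ℤ × ℕ → Set (ZQ Q) := fun q =>
    (fun z : ZQ Q × ZQ Q × ZQ Q => toQ Q q.1 + (z.1 + (z.2.1 - z.2.2))) ''
      ((K q.2) ×ˢ (L ×ˢ L))
  have hC : ∀ q, IsCompact (Cn q) := fun q =>
    ((hK q.2).prod (hL.prod hL)).image (by fun_prop)
  -- (3)
  have h3 : ∀ S : Set (ZQ Q), IsCompact S → ∃ q : ℤ × ℕ, S ⊆ Cn q := by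
    intro S hS
    obtain ⟨n, hn⟩ := hf {S} ⟨S, hS, fun A hA => ⟨0, by
      rw [mem_singleton_iff.1 hA]
      intro x hx
      exact ⟨x, hx, zero_add x⟩⟩⟩
    have hn' : R n (f '' S) := hn _ ⟨S, rfl, rfl⟩
    obtain ⟨k, hk⟩ := hKg n _ hn'
    refine ⟨(k, n), fun x hx => ?_⟩
    obtain ⟨c, hc, ec⟩ := hk (f (ofQ x)) ⟨x, hx, rfl⟩
    obtain ⟨a, ha, b, hb, e⟩ := h2 (ofQ x)
    refine ⟨(c, a, b), ⟨hc, ha, hb⟩, ?_⟩
    change k + (ofQ c + (ofQ a - ofQ b)) = ofQ x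
    linarith
  -- enumeration
  obtain ⟨q, hq⟩ := exists_surjective_nat (ℤ × ℕ)
  have h4 : ∀ i : ℕ, ∃ z : ℤ, ((Mi Q i : ℕ) : ℤ) ∣ z ∧ toQ Q z ∉ Cn (q i) := fun i =>
    exists_notMem (hp p hpQ) hpQ (hC (q i)) (Mi_mem Q i)
  choose x hx hxC using h4
  have hlim : Tendsto (fun i => toQ Q (x i)) atTop (𝓝 (toQ Q 0)) := by
    have h5 : Topology.IsInducing (rs Q) := ⟨rfl⟩
    rw [h5.tendsto_nhds_iff, tendsto_pi_nhds]
    intro m
    refine tendsto_nhds_of_eventually_eq ?_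
    filter_upwards [eventually_ge_atTop (m : ℕ)] with i hi
    rw [Function.comp, rs_eq_iff]
    change ((m : ℕ) : ℤ) ∣ x i - 0
    rw [sub_zero]
    exact (Int.natCast_dvd_natCast.2 (dvd_Mi m.2 hi)).trans (hx i)
  obtain ⟨q0, hq0⟩ := h3 _ hlim.isCompact_insert_range
  obtain ⟨i, rfl⟩ := hq q0
  exact hxC i (hq0 (Or.inr ⟨i, rfl⟩))

theorem not_iso {Q : Set ℕ} (hQ : Q.Nonempty) (hp : ∀ p ∈ Q, p.Prime) (S : Set ℤ) :
    ¬ CoarselyIso (UBQ Q) (UBS S) := by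
  rintro ⟨f, hf, -, g, hg, hgf, -⟩
  exact main hQ hp (fun n A => diam S A ≤ n) f g hf hg hgf

end Pool.Agent.R650.Profin
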