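import Mathlib

/-!
# Smooth quandles: definitions
-/

set_option autoImplicit false

namespace Pool.Agent.R650.Quandle

universe u

/-- `op x y = x ▷ y` is a quandle operation on `X`. -/
structure IsQuandle {X : Type u} (op : X → X → X) : Prop where
  idem : ∀ x, op x x = x
  bij : ∀ y, Function.Bijective (fun x => op x y)
  distrib : ∀ x y z, op (op x y) z = op (op x z) (op y z)

/-- The bijection `S_y : x ↦ x ▷ y`. -/
noncomputable def IsQuandle.S {X : Type u} {op : X → X → X} (h : IsQuandle op) (y : X) :
    Equiv.Perm X := Equiv.ofBijective (fun x => op x y) (h.bij y)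

/-- The group `Inn(X)` generated by the bijections `S_y`. -/
noncomputable def IsQuandle.Inn {X : Type u} {op : X → X → X} (h : IsQuandle op) :
    Subgroup (Equiv.Perm X) := Subgroup.closure (Set.range h.S)

/-- The quandle is algebraically connected: `Inn(X)` acts transitively on `X`. -/
def IsQuandle.AlgConnected {X : Type u} {op : X → X → X} (h : IsQuandle op) : Prop :=
  ∀ x x' : X, ∃ φ ∈ h.Inn, φ x = x'

open Quaternion in
/-- The quaternions have dimension four, so that the sphere of unit quaternions has Mathlib's
structure of a smooth three-dimensional manifold. -/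
instance factFinrank : Fact (Module.finrank ℝ ℍ[ℝ] = 3 + 1) := ⟨Quaternion.finrank_eq_four⟩

end Pool.Agent.R650.Quandle
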