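import Mathlib
import Pool.Agent.R650.QuandleDefs

/-!
# A smooth quandle structure on the three-sphere
-/

set_option autoImplicit false

namespace Pool.Agent.R650.Quandle

universe u v

/-! ### Group theory -/

section Group

variable {Q : Type u} [Group Q]

/-- the operation `x ▷ y = y g y⁻¹ x g⁻¹` -/
def opg (g x y : Q) : Q := y * g * y⁻¹ * x * g⁻¹

theorem isQuandle_opg (g : Q) : IsQuandle (opg g) := by
  refine ⟨fun x => ?_, fun y => ⟨fun a b hab => ?_, fun b => ⟨y * g⁻¹ * y⁻¹ * b * g, ?_⟩⟩,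
    fun x y z => ?_⟩
  · simp only [opg]; group
  · simp only [opg] at hab
    exact mul_left_cancel (mul_right_cancel hab)
  · simp only [opg]; group
  · simp only [opg]; group

variable {G : Type v} [Group G]

/-- `γ` acts on the points `e x` as the left multiplication by `a`. -/
def Lifts (e : Q → G) (γ : G) (a : Q) : Prop := ∀ x, γ * e x * γ⁻¹ = e (a * x)

theorem Lifts.mul {e : Q → G} {γ δ : G} {a b : Q} (h : Lifts e γ a) (h' : Lifts e δ b) :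
    Lifts e (γ * δ) (a * b) := by
  intro x
  calc γ * δ * e x * (γ * δ)⁻¹ = γ * (δ * e x * δ⁻¹) * γ⁻¹ := by group
    _ = _ := by rw [h', h, mul_assoc]

theorem Lifts.inv {e : Q → G} {γ : G} {a : Q} (h : Lifts e γ a) : Lifts e γ⁻¹ a⁻¹ := by
  intro x
  have h1 := h (a⁻¹ * x)
  rw [mul_inv_cancel_left] at h1
  rw [← h1]
  group

/-- The main group theoretic argument: if `g = i`, `j` are elements with the relations of unit
quaternions, then a quandle homomorphism to a group identifies `1` and `i ^ 2`. -/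
theorem identify (i j y₁ y₂ : Q) (hij : i * j * i⁻¹ * j⁻¹ = i * i)
    (hji : i⁻¹ * j * i = i * i * j)
    (hy₁ : (y₁ * i⁻¹ * y₁⁻¹ * i) * (y₂ * i⁻¹ * y₂⁻¹ * i) = i)
    (hy₂ : y₂ * i⁻¹ * y₂⁻¹ * i = j)
    (e : Q → G) (he : ∀ x y, e (opg i x y) = (e y)⁻¹ * e x * e y) : e (i * i) = e 1 := by
  have hback : ∀ x y, e y * e x * (e y)⁻¹ = e (y * i⁻¹ * y⁻¹ * x * i) := by
    intro x y
    have h1 := he (y * i⁻¹ * y⁻¹ * x * i) y
    have h2 : opg i (y * i⁻¹ * y⁻¹ * x * i) y = x := by simp only [opg]; group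
    rw [h2] at h1
    rw [h1]
    group
  have hγ : ∀ y, Lifts e (e y * (e 1)⁻¹) (y * i⁻¹ * y⁻¹ * i) := by
    intro y x
    have h1 := he x 1
    have h2 : opg i x 1 = i * x * i⁻¹ := by simp only [opg]; group
    rw [h2] at h1
    calc e y * (e 1)⁻¹ * e x * (e y * (e 1)⁻¹)⁻¹ = e y * ((e 1)⁻¹ * e x * e 1) * (e y)⁻¹ := by group
      _ = e y * e (i * x * i⁻¹) * (e y)⁻¹ := by rw [h1]
      _ = e (y * i⁻¹ * y⁻¹ * (i * x * i⁻¹) * i) := hback _ _
      _ = _ := by congr 1; group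
  -- the group generated by the image, and its centralizer
  set Γ : Subgroup G := Subgroup.closure (Set.range e) with hΓ
  have hmem : ∀ x, e x ∈ Γ := fun x => Subgroup.subset_closure ⟨x, rfl⟩
  have hcent : ∀ z : G, (∀ x, z * e x = e x * z) → ∀ w ∈ Γ, z * w = w * z := by
    intro z hz w hw
    have h1 : z ∈ Subgroup.centralizer (Set.range e) := by
      rw [Subgroup.mem_centralizer_iff]
      rintro _ ⟨x, rfl⟩
      exact (hz x).symm
    rw [← Subgroup.centralizer_closure, Subgroup.mem_centralizer_iff] at h1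
    exact (h1 w hw).symm
  have hdiff : ∀ γ δ : G, ∀ a : Q, Lifts e γ a → Lifts e δ a →
      ∀ x, (γ⁻¹ * δ) * e x = e x * (γ⁻¹ * δ) := by
    intro γ δ a h1 h2 x
    have h3 := (h1.inv.mul h2) x
    rw [inv_mul_cancel, one_mul] at h3
    calc (γ⁻¹ * δ) * e x = ((γ⁻¹ * δ) * e x * (γ⁻¹ * δ)⁻¹) * (γ⁻¹ * δ) := by group
      _ = _ := by rw [h3]
  set γj : G := e y₂ * (e 1)⁻¹ with hγj
  set γi : G := (e y₁ * (e 1)⁻¹) * γj with hγi
  have Lj : Lifts e γj j := by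
    have := hγ y₂
    rwa [hy₂] at this
  have Li : Lifts e γi i := by
    have := (hγ y₁).mul (hγ y₂)
    rwa [hy₁] at this
  have mj : γj ∈ Γ := Γ.mul_mem (hmem _) (Γ.inv_mem (hmem _))
  have mi : γi ∈ Γ := Γ.mul_mem (Γ.mul_mem (hmem _) (Γ.inv_mem (hmem _))) mj
  set c : G := γi * γj * γi⁻¹ * γj⁻¹ with hc
  have Lc : Lifts e c (i * i) := by
    have := ((Li.mul Lj).mul Li.inv).mul Lj.inv
    rwa [hij] at this
  have mc : c ∈ Γ := Γ.mul_mem (Γ.mul_mem (Γ.mul_mem mi mj) (Γ.inv_mem mi)) (Γ.inv_mem mj)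
  -- `γi` commutes with `c`
  have hic : γi * c = c * γi := by
    have h1 := hdiff _ _ _ (Li.mul Li) Lc
    have h2 := hcent _ h1 γi mi
    calc γi * c = γi * (γi * γi) * ((γi * γi)⁻¹ * c) := by group
      _ = (γi * γi) * (γi * ((γi * γi)⁻¹ * c)) := by group
      _ = (γi * γi) * (((γi * γi)⁻¹ * c) * γi) := by rw [h2]
      _ = c * γi := by group
  -- conjugation by `e 1`
  have hconj : ∀ γ : G, ∀ a : Q, Lifts e γ a → Lifts e (e 1 * γ * (e 1)⁻¹) (i⁻¹ * a * i) := by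
    intro γ a h x
    have h1 := he x 1
    have h2 : opg i x 1 = i * x * i⁻¹ := by simp only [opg]; group
    rw [h2] at h1
    calc e 1 * γ * (e 1)⁻¹ * e x * (e 1 * γ * (e 1)⁻¹)⁻¹
        = e 1 * (γ * ((e 1)⁻¹ * e x * e 1) * γ⁻¹) * (e 1)⁻¹ := by group
      _ = e 1 * e (a * (i * x * i⁻¹)) * (e 1)⁻¹ := by rw [← h1, h]
      _ = e (1 * i⁻¹ * 1⁻¹ * (a * (i * x * i⁻¹)) * i) := hback _ _
      _ = _ := by congr 1; group
  set z₁ : G := γi⁻¹ * (e 1 * γi * (e 1)⁻¹) with hz₁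
  have Z1 : ∀ w ∈ Γ, z₁ * w = w * z₁ := by
    apply hcent
    have h1 := hconj _ _ Li
    have h2 : i⁻¹ * i * i = i := by group
    rw [h2] at h1
    exact hdiff _ _ _ Li h1
  set z₂ : G := (c * γj)⁻¹ * (e 1 * γj * (e 1)⁻¹) with hz₂
  have Z2 : ∀ w ∈ Γ, z₂ * w = w * z₂ := by
    apply hcent
    have h1 := hconj _ _ Lj
    rw [hji] at h1
    exact hdiff _ _ _ (Lc.mul Lj) h1
  have mz₁ : z₁ ∈ Γ := Γ.mul_mem (Γ.inv_mem mi) (Γ.mul_mem (Γ.mul_mem (hmem _) mi)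
    (Γ.inv_mem (hmem _)))
  have mcj : c * γj ∈ Γ := Γ.mul_mem mc mj
  have e1 : e 1 * γi * (e 1)⁻¹ = γi * z₁ := by rw [hz₁]; group
  have e2 : e 1 * γj * (e 1)⁻¹ = c * γj * z₂ := by rw [hz₂]; group
  have hfin : e 1 * c * (e 1)⁻¹ = c := by
    have h1 : e 1 * c * (e 1)⁻¹ = (e 1 * γi * (e 1)⁻¹) * (e 1 * γj * (e 1)⁻¹) *
        (e 1 * γi * (e 1)⁻¹)⁻¹ * (e 1 * γj * (e 1)⁻¹)⁻¹ := by
      rw [hc]; group
    rw [h1, e1, e2]
    calc γi * z₁ * (c * γj * z₂) * (γi * z₁)⁻¹ * (c * γj * z₂)⁻¹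
        = γi * (z₁ * (c * γj)) * (z₂ * (z₁⁻¹ * γi⁻¹)) * z₂⁻¹ * (c * γj)⁻¹ := by group
      _ = γi * ((c * γj) * z₁) * ((z₁⁻¹ * γi⁻¹) * z₂) * z₂⁻¹ * (c * γj)⁻¹ := by
          rw [Z1 _ mcj, Z2 _ (Γ.mul_mem (Γ.inv_mem mz₁) (Γ.inv_mem mi))]
      _ = (γi * c) * γj * γi⁻¹ * γj⁻¹ * c⁻¹ := by group
      _ = (c * γi) * γj * γi⁻¹ * γj⁻¹ * c⁻¹ := by rw [hic]
      _ = c * (γi * γj * γi⁻¹ * γj⁻¹) * c⁻¹ := by group
      _ = c := by rw [← hc]; group
  have h1 := Lc 1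
  rw [mul_one] at h1
  rw [← h1]
  calc c * e 1 * c⁻¹ = (e 1 * c * (e 1)⁻¹) * e 1 * c⁻¹ := by rw [hfin]
    _ = e 1 := by group

end Group

/-! ### The three-sphere -/

open Quaternion Metric
open scoped Manifold ContDiff

/-- The three-sphere of unit quaternions. -/
abbrev S3 : Type := sphere (0 : ℍ[ℝ]) 1

theorem normSq_eq_one_iff (a : ℍ[ℝ]) : a ∈ sphere (0 : ℍ[ℝ]) 1 ↔ Quaternion.normSq a = 1 := by
  rw [mem_sphere_zero_iff_norm, Quaternion.normSq_eq_norm_mul_self]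
  constructor
  · intro h
    rw [h, one_mul]
  · intro h
    have h0 := norm_nonneg a
    nlinarith

/-- the quaternion `a + b i + c j + d k` -/
def mk4 (a b c d : ℝ) : ℍ[ℝ] := ⟨a, b, c, d⟩

@[simp] theorem mk4_re (a b c d : ℝ) : (mk4 a b c d).re = a := rfl
@[simp] theorem mk4_imI (a b c d : ℝ) : (mk4 a b c d).imI = b := rfl
@[simp] theorem mk4_imJ (a b c d : ℝ) : (mk4 a b c d).imJ = c := rfl
@[simp] theorem mk4_imK (a b c d : ℝ) : (mk4 a b c d).imK = d := rfl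

/-- the unit quaternion `i` -/
noncomputable def qi : S3 := ⟨mk4 0 1 0 0, by
  rw [normSq_eq_one_iff, Quaternion.normSq_def']
  simp⟩

/-- the unit quaternion `j` -/
noncomputable def qj : S3 := ⟨mk4 0 0 1 0, by
  rw [normSq_eq_one_iff, Quaternion.normSq_def']
  simp⟩

/-- the unit quaternion `k` -/
noncomputable def qk : S3 := ⟨mk4 0 0 0 1, by
  rw [normSq_eq_one_iff, Quaternion.normSq_def']
  simp⟩

theorem coe_qi : (qi : ℍ[ℝ]) = mk4 0 1 0 0 := rfl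
theorem coe_qj : (qj : ℍ[ℝ]) = mk4 0 0 1 0 := rfl
theorem coe_qk : (qk : ℍ[ℝ]) = mk4 0 0 0 1 := rfl

theorem coe_inv_eq_star (y : S3) : ((y⁻¹ : S3) : ℍ[ℝ]) = star (y : ℍ[ℝ]) := by
  rw [Metric.unitSphere.coe_inv]
  have h1 : Quaternion.normSq (y : ℍ[ℝ]) = 1 := (normSq_eq_one_iff _).1 y.2
  rw [Quaternion.inv_def, h1]
  simp

theorem pure_sq (v : S3) (hv : (v : ℍ[ℝ]).re = 0) : (v : ℍ[ℝ]) * v = -1 := by
  have h1 : Quaternion.normSq (v : ℍ[ℝ]) = 1 := (normSq_eq_one_iff _).1 v.2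
  rw [Quaternion.normSq_def', hv] at h1
  ext
  · simp [hv]
    nlinarith
  · simp [hv]
    ring
  · simp [hv]
    ring
  · simp [hv]
    ring

/-- Every pure unit quaternion is conjugate to `i`. -/
theorem exists_conj (v : S3) (hv : (v : ℍ[ℝ]).re = 0) : ∃ y : S3, y * qi * y⁻¹ = v := by
  by_cases hs : (v : ℍ[ℝ]) + qi = 0
  · refine ⟨qj, ?_⟩
    rw [mul_inv_eq_iff_eq_mul]
    apply Subtype.ext
    rw [Metric.unitSphere.coe_mul, Metric.unitSphere.coe_mul, eq_neg_of_add_eq_zero_left hs]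
    rw [coe_qi, coe_qj]
    ext <;> simp
  · set s : ℍ[ℝ] := (v : ℍ[ℝ]) + qi with hsdef
    have hn : ‖s‖ ≠ 0 := norm_ne_zero_iff.2 hs
    refine ⟨⟨‖s‖⁻¹ • s, ?_⟩, ?_⟩
    · rw [mem_sphere_zero_iff_norm, norm_smul, norm_inv, norm_norm, inv_mul_cancel₀ hn]
    · rw [mul_inv_eq_iff_eq_mul]
      apply Subtype.ext
      rw [Metric.unitSphere.coe_mul, Metric.unitSphere.coe_mul]
      show ‖s‖⁻¹ • s * (qi : ℍ[ℝ]) = (v : ℍ[ℝ]) * (‖s‖⁻¹ • s)
      rw [smul_mul_assoc, mul_smul_comm]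
      congr 1
      rw [hsdef, add_mul, mul_add, pure_sq v hv, pure_sq qi rfl, add_comm]

/-- Every unit quaternion is a product of two pure unit quaternions. -/
theorem exists_pure_mul (q : S3) : ∃ v w : S3, (v : ℍ[ℝ]).re = 0 ∧ (w : ℍ[ℝ]).re = 0 ∧
    q = v * w := by
  obtain ⟨v, hv, hvq⟩ : ∃ v : S3, (v : ℍ[ℝ]).re = 0 ∧
      (v : ℍ[ℝ]).imI * (q : ℍ[ℝ]).imI + (v : ℍ[ℝ]).imJ * (q : ℍ[ℝ]).imJ +
        (v : ℍ[ℝ]).imK * (q : ℍ[ℝ]).imK = 0 := by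
    by_cases h : (q : ℍ[ℝ]).imI = 0 ∧ (q : ℍ[ℝ]).imJ = 0
    · exact ⟨qi, rfl, by rw [h.1, h.2, coe_qi]; simp⟩
    · set s : ℍ[ℝ] := mk4 0 (-(q : ℍ[ℝ]).imJ) (q : ℍ[ℝ]).imI 0 with hs
      have hs0 : s ≠ 0 := by
        intro h0
        apply h
        have h1 := congrArg QuaternionAlgebra.imI h0
        have h2 := congrArg QuaternionAlgebra.imJ h0
        simp [hs] at h1 h2
        exact ⟨h2, h1⟩
      have hn : ‖s‖ ≠ 0 := norm_ne_zero_iff.2 hs0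
      refine ⟨⟨‖s‖⁻¹ • s, ?_⟩, ?_, ?_⟩
      · rw [mem_sphere_zero_iff_norm, norm_smul, norm_inv, norm_norm, inv_mul_cancel₀ hn]
      · simp [hs]
      · simp [hs]
        ring
  refine ⟨v, v⁻¹ * q, hv, ?_, by group⟩
  rw [Metric.unitSphere.coe_mul, coe_inv_eq_star]
  simp [hv]
  linarith

/-- The operation `x ▷ y = y i y⁻¹ x i⁻¹` on the three-sphere. -/
noncomputable def op3 : S3 → S3 → S3 := opg qi

theorem isQuandle_op3 : IsQuandle op3 := isQuandle_opg qi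

theorem algConnected_op3 : (isQuandle_op3).AlgConnected := by
  intro x x'
  obtain ⟨v, w, hv, hw, hq⟩ := exists_pure_mul (x' * x⁻¹ * qi * qi)
  obtain ⟨y, hy⟩ := exists_conj v hv
  obtain ⟨z, hz⟩ := exists_conj w hw
  have hS1 : ∀ a : S3, (isQuandle_op3.S 1)⁻¹ a = qi⁻¹ * a * qi := by
    intro a
    rw [Equiv.Perm.inv_eq_iff_eq]
    show a = opg qi (qi⁻¹ * a * qi) 1
    simp only [opg]
    group
  have hSy : ∀ y a : S3, isQuandle_op3.S y a = y * qi * y⁻¹ * a * qi⁻¹ := fun _ _ => rfl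
  have mS : ∀ y : S3, isQuandle_op3.S y ∈ isQuandle_op3.Inn := fun y =>
    Subgroup.subset_closure ⟨y, rfl⟩
  refine ⟨isQuandle_op3.S y * (isQuandle_op3.S 1)⁻¹ * isQuandle_op3.S (qi * z) *
    (isQuandle_op3.S 1)⁻¹, ?_, ?_⟩
  · exact Subgroup.mul_mem _ (Subgroup.mul_mem _ (Subgroup.mul_mem _ (mS y)
      (Subgroup.inv_mem _ (mS 1))) (mS _)) (Subgroup.inv_mem _ (mS 1))
  · rw [Equiv.Perm.mul_apply, Equiv.Perm.mul_apply, Equiv.Perm.mul_apply, hS1, hSy, hS1, hSy]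
    have h1 : y * qi * y⁻¹ * (qi⁻¹ * (qi * z * qi * (qi * z)⁻¹ * (qi⁻¹ * x * qi) * qi⁻¹) * qi) *
        qi⁻¹ = (y * qi * y⁻¹) * (z * qi * z⁻¹) * qi⁻¹ * qi⁻¹ * x := by group
    rw [h1, hy, hz, ← hq]
    group

theorem contDiff_star : ContDiff ℝ ∞ (fun a : ℍ[ℝ] => star a) := by
  let L : ℍ[ℝ] →ₗ[ℝ] ℍ[ℝ] :=
    { toFun := fun a => star a
      map_add' := fun a b => star_add a b
      map_smul' := fun c a => by ext <;> simp }
  exact (L.toContinuousLinearMap).contDiff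

/-- the polynomial map giving the operation -/
noncomputable def pol (p : ℍ[ℝ] × ℍ[ℝ]) : ℍ[ℝ] :=
  p.2 * (qi : ℍ[ℝ]) * star p.2 * p.1 * star (qi : ℍ[ℝ])

theorem contDiff_pol : ContDiff ℝ ∞ pol :=
  (((contDiff_snd.mul contDiff_const).mul (contDiff_star.comp contDiff_snd)).mul contDiff_fst).mul
    contDiff_const

theorem contMDiff_coe_pair : ContMDiff ((𝓡 3).prod (𝓡 3)) (𝓘(ℝ, ℍ[ℝ] × ℍ[ℝ])) ∞
      (fun p : S3 × S3 => ((p.1 : ℍ[ℝ]), (p.2 : ℍ[ℝ]))) :=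
    (contMDiff_coe_sphere.comp contMDiff_fst).prodMk_space
      (contMDiff_coe_sphere.comp contMDiff_snd)

theorem pol_coe (p : S3 × S3) : pol ((p.1 : ℍ[ℝ]), (p.2 : ℍ[ℝ])) = (op3 p.1 p.2 : S3) := by
  rw [op3, opg, Metric.unitSphere.coe_mul, Metric.unitSphere.coe_mul, Metric.unitSphere.coe_mul,
    Metric.unitSphere.coe_mul, coe_inv_eq_star, coe_inv_eq_star]
  rfl

theorem contMDiff_pol : ContMDiff ((𝓡 3).prod (𝓡 3)) 𝓘(ℝ, ℍ[ℝ]) ∞
    (fun p : S3 × S3 => pol ((p.1 : ℍ[ℝ]), (p.2 : ℍ[ℝ]))) :=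
  contDiff_pol.contMDiff.comp contMDiff_coe_pair

theorem pol_mem (p : S3 × S3) : pol ((p.1 : ℍ[ℝ]), (p.2 : ℍ[ℝ])) ∈ sphere (0 : ℍ[ℝ]) 1 := by
  rw [pol_coe]
  exact (op3 p.1 p.2).2

theorem contMDiff_op3 : ContMDiff ((𝓡 3).prod (𝓡 3)) (𝓡 3) ∞
    (fun p : S3 × S3 => op3 p.1 p.2) := by
  have h := ContMDiff.codRestrict_sphere (n := 3) contMDiff_pol pol_mem
  have e : (fun p : S3 × S3 => op3 p.1 p.2) =
      Set.codRestrict (fun p : S3 × S3 => pol ((p.1 : ℍ[ℝ]), (p.2 : ℍ[ℝ]))) _ pol_mem := by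
    funext p
    exact Subtype.ext (pol_coe p).symm
  rw [e]
  exact h

instance connectedSpace_S3 : ConnectedSpace S3 := by
  apply isConnected_iff_connectedSpace.1
  apply isConnected_sphere _ _ (by norm_num)
  rw [← Module.finrank_eq_rank, Quaternion.finrank_eq_four]
  norm_num

/-- Every quandle homomorphism from the three-sphere to a group identifies `1` and `-1`. -/
theorem not_injective {G : Type v} [Group G] (e : S3 → G)
    (he : ∀ x y, e (op3 x y) = (e y)⁻¹ * e x * e y) : ¬ Function.Injective e := by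
  intro hinj
  have hre : ∀ a : S3, (a⁻¹ : S3).1.re = a.1.re := by
    intro a
    rw [coe_inv_eq_star]
    simp
  obtain ⟨y₁, hy₁⟩ := exists_conj qj⁻¹ (by rw [hre]; rfl)
  obtain ⟨y₂, hy₂⟩ := exists_conj qk⁻¹ (by rw [hre]; rfl)
  have h1' : y₁ * qi⁻¹ * y₁⁻¹ = qj := by
    rw [← inv_inj, ← hy₁]
    group
  have h2' : y₂ * qi⁻¹ * y₂⁻¹ = qk := by
    rw [← inv_inj, ← hy₂]
    group
  have hij : qi * qj * qi⁻¹ * qj⁻¹ = qi * qi := by
    apply Subtype.ext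
    simp only [Metric.unitSphere.coe_mul, coe_inv_eq_star, coe_qi, coe_qj]
    ext <;> simp
  have hji : qi⁻¹ * qj * qi = qi * qi * qj := by
    apply Subtype.ext
    simp only [Metric.unitSphere.coe_mul, coe_inv_eq_star, coe_qi, coe_qj]
    ext <;> simp
  have hki : qk * qi = qj := by
    apply Subtype.ext
    simp only [Metric.unitSphere.coe_mul, coe_qi, coe_qj, coe_qk]
    ext <;> simp
  have hjij : qj * qi * qj = qi := by
    apply Subtype.ext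
    simp only [Metric.unitSphere.coe_mul, coe_qi, coe_qj]
    ext <;> simp
  have h := identify qi qj y₁ y₂ hij hji (by rw [h1', h2', hki, hjij]) (by rw [h2', hki]) e he
  have h3 := hinj h
  have h4 : ((qi * qi : S3) : ℍ[ℝ]).re = ((1 : S3) : ℍ[ℝ]).re := by rw [h3]
  rw [Metric.unitSphere.coe_mul, coe_qi, Metric.unitSphere.coe_one] at h4
  simp at h4
  norm_num at h4

end Pool.Agent.R650.Quandle
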