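import Mathlib

/-!
# Monoids of restrictions to a finite subgroup: definitions
-/

set_option autoImplicit false

namespace Pool.Agent.R650.Rest

/-- An object of setting (R): a homomorphism `G → U(X)`, where `X = ℂ^ι` is a finite-dimensional
complex Hilbert space. -/
structure URep (G : Type) [Group G] where
  ι : Type
  [fin : Fintype ι]
  [dec : DecidableEq ι]
  hom : G →* Matrix.unitaryGroup ι ℂ

attribute [instance] URep.fin URep.dec

/-- the action of `g` on `X = ℂ^ι` -/
def URep.act {G : Type} [Group G] (W : URep G) (g : G) (v : W.ι → ℂ) : W.ι → ℂ :=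
  (W.hom g : Matrix W.ι W.ι ℂ).mulVec v

/-- An object of setting (A): a homomorphism `G → Sym(X)` with `X` a finite set. -/
structure FAct (G : Type) [Group G] where
  X : Type
  [fin : Finite X]
  hom : G →* Equiv.Perm X

attribute [instance] FAct.fin

/-- The restriction of `W` to `H` is isomorphic to the direct sum of `m i` copies of the
restriction of `V i` to `H`, `i < k`. -/
def RepSum {G : Type} [Group G] (H : Subgroup G) (W : URep G) {k : ℕ} (V : Fin k → URep G)
    (m : Fin k → ℕ) : Prop :=
  ∃ e : (W.ι → ℂ) → (i : Fin k) → Fin (m i) → (V i).ι → ℂ, Function.Bijective e ∧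
    IsLinearMap ℂ e ∧ ∀ h ∈ H, ∀ v i j, e (W.act h v) i j = (V i).act h (e v i j)

/-- The restriction of `W` to `H` is isomorphic to the disjoint union of `m i` copies of the
restriction of `V i` to `H`, `i < k`. -/
def ActSum {G : Type} [Group G] (H : Subgroup G) (W : FAct G) {k : ℕ} (V : Fin k → FAct G)
    (m : Fin k → ℕ) : Prop :=
  ∃ e : W.X → (i : Fin k) × Fin (m i) × (V i).X, Function.Bijective e ∧
    ∀ h ∈ H, ∀ y, e (W.hom h y) = ⟨(e y).1, (e y).2.1, (V (e y).1).hom h (e y).2.2⟩

/-- Setting (R): the monoid `i^*(Λ⁺(G))` of classes of restrictions to `H` of finite-dimensional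
unitary representations of `G` is finitely generated: there are finitely many `V i` such that the
restriction to `H` of every `W` is isomorphic to a direct sum of copies of the restrictions of the
`V i`. -/
def RepMonoidFG {G : Type} [Group G] (H : Subgroup G) : Prop :=
  ∃ (k : ℕ) (V : Fin k → URep G), ∀ W : URep G, ∃ m : Fin k → ℕ, RepSum H W V m

/-- Setting (A): the monoid `i^*(Λ⁺(G))` of classes of restrictions to `H` of finite actions of `G`
is finitely generated: there are finitely many `V i` such that the restriction to `H` of every `W`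
is isomorphic to a disjoint union of copies of the restrictions of the `V i`. -/
def ActMonoidFG {G : Type} [Group G] (H : Subgroup G) : Prop :=
  ∃ (k : ℕ) (V : Fin k → FAct G), ∀ W : FAct G, ∃ m : Fin k → ℕ, ActSum H W V m

end Pool.Agent.R650.Rest
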