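import Mathlib
import Pool.Agent.R650.RestDefs

/-!
# Restriction monoids that are not finitely generated
-/

set_option autoImplicit false

namespace Pool.Agent.R650.Rest

/-! ### The group -/

/-- the generators -/
inductive Gen
  | s
  | a
  | t

open Gen

/-- the relators `s²`, `[s, a s a⁻¹]` and `t a t⁻¹ a⁻²` -/
def rels : Set (FreeGroup Gen) :=
  {FreeGroup.of s * FreeGroup.of s,
    FreeGroup.of s * (FreeGroup.of a * FreeGroup.of s * (FreeGroup.of a)⁻¹) *
      (FreeGroup.of s)⁻¹ * (FreeGroup.of a * FreeGroup.of s * (FreeGroup.of a)⁻¹)⁻¹,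
    FreeGroup.of t * FreeGroup.of a * (FreeGroup.of t)⁻¹ *
      (FreeGroup.of a * FreeGroup.of a)⁻¹}

/-- the group `⟨s, a, t | s², [s, a s a⁻¹], t a t⁻¹ = a²⟩` -/
abbrev G : Type := PresentedGroup rels

def gs : G := PresentedGroup.of s
def ga : G := PresentedGroup.of a
def gt : G := PresentedGroup.of t

/-- the conjugate of `s` by `a` -/
def gs' : G := ga * gs * ga⁻¹

theorem rel1 : gs * gs = 1 := by
  have h : FreeGroup.of s * FreeGroup.of s ∈ rels := by simp [rels]
  have := PresentedGroup.one_of_mem h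
  rw [map_mul] at this
  exact this

theorem rel2 : gs * gs' = gs' * gs := by
  have h : FreeGroup.of s * (FreeGroup.of a * FreeGroup.of s * (FreeGroup.of a)⁻¹) *
      (FreeGroup.of s)⁻¹ * (FreeGroup.of a * FreeGroup.of s * (FreeGroup.of a)⁻¹)⁻¹ ∈ rels := by
    simp [rels]
  have := PresentedGroup.one_of_mem h
  simp only [map_mul, map_inv] at this
  rw [mul_inv_eq_one, mul_inv_eq_iff_eq_mul] at this
  exact this

theorem rel3 : gt * ga * gt⁻¹ = ga * ga := by
  have h : FreeGroup.of t * FreeGroup.of a * (FreeGroup.of t)⁻¹ *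
      (FreeGroup.of a * FreeGroup.of a)⁻¹ ∈ rels := by simp [rels]
  have := PresentedGroup.one_of_mem h
  simp only [map_mul, map_inv] at this
  rw [mul_inv_eq_one] at this
  exact this

theorem rel1' : gs' * gs' = 1 := by
  have : gs' * gs' = ga * (gs * gs) * ga⁻¹ := by
    rw [gs']
    group
  rw [this, rel1]
  group

/-- A homomorphism out of `G`. -/
def lift {K : Type*} [Group K] (S A T : K) (h1 : S * S = 1)
    (h2 : S * (A * S * A⁻¹) = (A * S * A⁻¹) * S) (h3 : T * A * T⁻¹ = A * A) : G →* K :=
  PresentedGroup.toGroup (f := fun g => match g with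
    | s => S
    | a => A
    | t => T) (by
      intro r hr
      rcases hr with rfl | rfl | rfl
      · simpa using h1
      · simp only [map_mul, map_inv, FreeGroup.lift_apply_of]
        rw [mul_inv_eq_one, mul_inv_eq_iff_eq_mul]
        exact h2
      · simp only [map_mul, map_inv, FreeGroup.lift_apply_of]
        rw [mul_inv_eq_one]
        exact h3)

section
variable {K : Type*} [Group K] (S A T : K) (h1 : S * S = 1)
    (h2 : S * (A * S * A⁻¹) = (A * S * A⁻¹) * S) (h3 : T * A * T⁻¹ = A * A)

theorem lift_s : lift S A T h1 h2 h3 gs = S := PresentedGroup.toGroup.of _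
theorem lift_a : lift S A T h1 h2 h3 ga = A := PresentedGroup.toGroup.of _
theorem lift_t : lift S A T h1 h2 h3 gt = T := PresentedGroup.toGroup.of _

theorem lift_s' : lift S A T h1 h2 h3 gs' = A * S * A⁻¹ := by
  rw [gs', map_mul, map_mul, map_inv, lift_s, lift_a]

end

theorem fg : Group.FG G := by
  rw [Group.fg_iff]
  refine ⟨Set.range (PresentedGroup.of (rels := rels)), PresentedGroup.closure_range_of rels, ?_⟩
  have : Set.range (PresentedGroup.of (rels := rels)) = {gs, ga, gt} := by
    ext x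
    constructor
    · rintro ⟨g, rfl⟩
      cases g
      · exact Or.inl rfl
      · exact Or.inr (Or.inl rfl)
      · exact Or.inr (Or.inr rfl)
    · rintro (rfl | rfl | rfl)
      · exact ⟨s, rfl⟩
      · exact ⟨a, rfl⟩
      · exact ⟨t, rfl⟩
  rw [this]
  simp

/-- the subgroup `{1, s, s', s s'}` -/
def H : Subgroup G where
  carrier := {1, gs, gs', gs * gs'}
  one_mem' := Or.inl rfl
  mul_mem' := by
    have e1 := rel1
    have e2 := rel1'
    have e3 := rel2
    have e4 : gs' * (gs * gs') = gs := by rw [e3, ← mul_assoc, e2, one_mul]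
    have e5 : gs * (gs * gs') = gs' := by rw [← mul_assoc, e1, one_mul]
    have e6 : gs * gs' * gs = gs' := by rw [e3, mul_assoc, e1, mul_one]
    have e7 : gs * gs' * gs' = gs := by rw [mul_assoc, e2, mul_one]
    have e8 : gs * gs' * (gs * gs') = 1 := by rw [← mul_assoc, e6, e2]
    rintro x y (rfl | rfl | rfl | rfl) (rfl | rfl | rfl | rfl) <;>
      simp [e1, e2, e4, e5, e6, e7, e8, ← e3]
  inv_mem' := by
    have e1 : gs⁻¹ = gs := inv_eq_of_mul_eq_one_left rel1
    have e2 : gs'⁻¹ = gs' := inv_eq_of_mul_eq_one_left rel1'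
    rintro x (rfl | rfl | rfl | rfl)
    · simp
    · simp [e1]
    · simp [e2]
    · right; right; right
      rw [mul_inv_rev, e1, e2, rel2]
      rfl

theorem finite_H : Finite H := by
  have : (H : Set G).Finite := (Set.finite_singleton (gs * gs')).insert _ |>.insert _ |>.insert _
  exact this.to_subtype

theorem gs_mem : gs ∈ H := Or.inr (Or.inl rfl)
theorem gs'_mem : gs' ∈ H := Or.inr (Or.inr (Or.inl rfl))
theorem gss'_mem : gs * gs' ∈ H := Or.inr (Or.inr (Or.inr rfl))

/-! ### Every nonzero representation contains a vector fixed by `s s'` -/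

section Rep

variable {V : Type*} [AddCommGroup V] [Module ℂ V] [FiniteDimensional ℂ V]

/-- If `A` and `A²` are conjugate then `A` is a polynomial in `A²`. -/
theorem mem_adjoin_sq (A T T' : Module.End ℂ V) (hT : T * T' = 1) (hT' : T' * T = 1)
    (h : T * A * T' = A * A) : A ∈ Algebra.adjoin ℂ {A * A} := by
  -- conjugation by `T` as a linear equivalence
  let c : Module.End ℂ V →ₐ[ℂ] Module.End ℂ V :=
    { toFun := fun X => T * X * T'
      map_one' := by rw [mul_one, hT]
      map_mul' := fun X Y => by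
        calc T * (X * Y) * T' = T * X * 1 * Y * T' := by noncomm_ring
          _ = T * X * (T' * T) * Y * T' := by rw [hT']
          _ = _ := by noncomm_ring
      map_zero' := by noncomm_ring
      map_add' := fun X Y => by noncomm_ring
      commutes' := fun r => by
        rw [← Algebra.commutes r T, mul_assoc, hT, mul_one] }
  have hc : Function.Injective c := by
    intro X Y hXY
    have h1 : T * X * T' = T * Y * T' := hXY
    calc X = (T' * T) * X * (T' * T) := by rw [hT', one_mul, mul_one]
      _ = T' * (T * X * T') * T := by noncomm_ring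
      _ = T' * (T * Y * T') * T := by rw [h1]
      _ = (T' * T) * Y * (T' * T) := by noncomm_ring
      _ = Y := by rw [hT', one_mul, mul_one]
  have h1 : (Algebra.adjoin ℂ {A}).map c = Algebra.adjoin ℂ {A * A} := by
    rw [AlgHom.map_adjoin, Set.image_singleton]
    congr 2
  have h2 : Algebra.adjoin ℂ {A * A} ≤ Algebra.adjoin ℂ {A} := by
    refine Algebra.adjoin_le ?_
    rintro _ rfl
    exact mul_mem (Algebra.self_mem_adjoin_singleton ℂ A) (Algebra.self_mem_adjoin_singleton ℂ A)
  have h3 : Subalgebra.toSubmodule (Algebra.adjoin ℂ {A * A}) =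
      Subalgebra.toSubmodule (Algebra.adjoin ℂ {A}) := by
    refine Submodule.eq_of_le_of_finrank_le h2 ?_
    rw [← h1]
    have h4 : Subalgebra.toSubmodule ((Algebra.adjoin ℂ {A}).map c) =
        (Subalgebra.toSubmodule (Algebra.adjoin ℂ {A})).map c.toLinearMap := rfl
    rw [h4]
    exact ((Submodule.equivMapOfInjective c.toLinearMap hc _).finrank_eq).le
  have h5 := Algebra.self_mem_adjoin_singleton ℂ A
  have h6 : A ∈ Subalgebra.toSubmodule (Algebra.adjoin ℂ {A}) := h5
  rw [← h3] at h6
  exact h6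

theorem exists_fixed_end [Nontrivial V] (S A A' T T' : Module.End ℂ V) (hA : A * A' = 1)
    (hA' : A' * A = 1) (hT : T * T' = 1) (hT' : T' * T = 1) (h1 : S * S = 1)
    (h2 : S * (A * S * A') = (A * S * A') * S) (h3 : T * A * T' = A * A) :
    ∃ v : V, v ≠ 0 ∧ (S * (A * S * A')) v = v := by
  by_contra hcon
  push Not at hcon
  set P := S * (A * S * A') with hP
  have hPP : P * P = 1 := by
    calc P * P = S * ((A * S * A') * S) * (A * S * A') := by rw [hP]; noncomm_ring
      _ = S * (S * (A * S * A')) * (A * S * A') := by rw [← h2]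
      _ = (S * S) * (A * S * (A' * A) * S * A') := by noncomm_ring
      _ = 1 * (A * S * 1 * S * A') := by rw [h1, hA']
      _ = A * (S * S) * A' := by noncomm_ring
      _ = 1 := by rw [h1, mul_one, hA]
  have hP1 : P = -1 := by
    ext v
    have h4 : P (P v + v) = P v + v := by
      rw [map_add]
      have : P (P v) = v := by
        rw [← Module.End.mul_apply, hPP]
        rfl
      rw [this, add_comm]
    by_contra h5
    refine hcon (P v + v) (fun h6 => h5 ?_) h4
    rw [LinearMap.neg_apply, Module.End.one_apply]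
    exact eq_neg_of_add_eq_zero_left h6
  -- `A` anticommutes with `S`
  have h4 : A * S = -(S * A) := by
    have h5 : A * S * A' = -S := by
      calc A * S * A' = (S * S) * (A * S * A') := by rw [h1, one_mul]
        _ = S * P := by rw [hP]; noncomm_ring
        _ = -S := by rw [hP1]; noncomm_ring
    calc A * S = A * S * (A' * A) := by rw [hA', mul_one]
      _ = (A * S * A') * A := by noncomm_ring
      _ = _ := by rw [h5]; noncomm_ring
  have h5 : A * A ∈ Subalgebra.centralizer ℂ {S} := by
    rw [Subalgebra.mem_centralizer_iff]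
    intro x hx
    rw [Set.mem_singleton_iff.1 hx]
    calc S * (A * A) = -(-(S * A) * A) := by noncomm_ring
      _ = -(A * S * A) := by rw [← h4]
      _ = A * (-(S * A)) := by noncomm_ring
      _ = A * (A * S) := by rw [← h4]
      _ = A * A * S := by noncomm_ring
  have h6 : A ∈ Subalgebra.centralizer ℂ {S} :=
    Algebra.adjoin_le (Set.singleton_subset_iff.2 h5) (mem_adjoin_sq A T T' hT hT' h3)
  rw [Subalgebra.mem_centralizer_iff] at h6
  have h7 := h6 S rfl
  rw [h4] at h7
  have h8 : S * A = 0 := by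
    have h9 : (2 : ℂ) • (S * A) = 0 := by
      rw [two_smul]
      nth_rewrite 1 [h7]
      exact neg_add_cancel _
    exact (smul_eq_zero.1 h9).resolve_left two_ne_zero
  have h10 : (1 : Module.End ℂ V) = 0 := by
    calc (1 : Module.End ℂ V) = S * S := h1.symm
      _ = S * (A * A') * S := by rw [hA, mul_one]
      _ = (S * A) * A' * S := by noncomm_ring
      _ = 0 := by rw [h8]; noncomm_ring
  obtain ⟨v, hv⟩ := exists_ne (0 : V)
  apply hv
  have := congrArg (fun f : Module.End ℂ V => f v) h10
  simpa using this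

end Rep

theorem exists_fixed (W : URep G) [Nonempty W.ι] :
    ∃ v : W.ι → ℂ, v ≠ 0 ∧ W.act (gs * gs') v = v := by
  let F : G →* Module.End ℂ (W.ι → ℂ) :=
    { toFun := fun g => Matrix.toLin' (W.hom g : Matrix W.ι W.ι ℂ)
      map_one' := by
        rw [map_one]
        exact Matrix.toLin'_one
      map_mul' := fun g h => by
        rw [map_mul]
        exact Matrix.toLin'_mul _ _ }
  have := exists_fixed_end (F gs) (F ga) (F ga⁻¹) (F gt) (F gt⁻¹)
    (by rw [← map_mul, mul_inv_cancel, map_one]) (by rw [← map_mul, inv_mul_cancel, map_one])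
    (by rw [← map_mul, mul_inv_cancel, map_one]) (by rw [← map_mul, inv_mul_cancel, map_one])
    (by rw [← map_mul, rel1, map_one])
    (by
      simp only [← map_mul]
      exact congrArg F rel2)
    (by
      simp only [← map_mul]
      exact congrArg F rel3)
  obtain ⟨v, hv, hv'⟩ := this
  refine ⟨v, hv, ?_⟩
  simp only [← map_mul] at hv'
  exact hv'

/-! ### Every nonempty finite action has a point at which the fixed point sets agree -/

theorem mem_zpowers_sq {K : Type*} [Group K] [Finite K] (A T : K) (h : T * A * T⁻¹ = A * A) :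
    A ∈ Subgroup.zpowers (A * A) := by
  have h1 : orderOf A = orderOf (A * A) := by
    have : SemiconjBy T A (A * A) := by
      rw [SemiconjBy, ← h]
      group
    exact this.orderOf_eq
  have h2 : Subgroup.zpowers (A * A) ≤ Subgroup.zpowers A := by
    rw [Subgroup.zpowers_le]
    exact mul_mem (Subgroup.mem_zpowers A) (Subgroup.mem_zpowers A)
  have h3 : Subgroup.zpowers (A * A) = Subgroup.zpowers A := by
    refine Subgroup.eq_of_le_of_card_ge h2 ?_
    rw [Nat.card_zpowers, Nat.card_zpowers, h1]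
  rw [h3]
  exact Subgroup.mem_zpowers A

theorem exists_bad_perm {X : Type*} [Finite X] [Nonempty X] (S A T : Equiv.Perm X)
    (h : T * A * T⁻¹ = A * A) : ∃ x, S x = x ↔ (A * S * A⁻¹) x = x := by
  by_contra hcon
  push Not at hcon
  have h1 : ∀ x, (S (A⁻¹ x) = A⁻¹ x) ↔ ¬ (S x = x) := by
    intro x
    have h2 : (A * S * A⁻¹) x = x ↔ S (A⁻¹ x) = A⁻¹ x := by
      rw [Equiv.Perm.mul_apply, Equiv.Perm.mul_apply]
      constructor
      · intro h3
        apply A.injective
        rw [h3]
        simp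
      · intro h3
        rw [h3]
        simp
    rcases hcon x with ⟨h3, h4⟩ | ⟨h3, h4⟩
    · rw [ne_eq, h2] at h4
      exact ⟨fun h5 => absurd h5 h4, fun h5 => absurd h3 h5⟩
    · rw [h2] at h4
      exact ⟨fun _ => h3, fun _ => h4⟩
  let Stab : Subgroup (Equiv.Perm X) :=
    { carrier := {g | ∀ x, (S (g x) = g x) ↔ (S x = x)}
      one_mem' := fun x => Iff.rfl
      mul_mem' := fun {g g'} hg hg' x => (hg (g' x)).trans (hg' x)
      inv_mem' := fun {g} hg x => by
        have h3 := hg (g⁻¹ x)
        have e : g (g⁻¹ x) = x := by simp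
        rw [e] at h3
        exact h3.symm }
  have h2 : A * A ∈ Stab := by
    intro x
    have h3 := h1 ((A * A) x)
    have h4 := h1 (A x)
    have e1 : A⁻¹ ((A * A) x) = A x := by simp [Equiv.Perm.mul_apply]
    have e2 : A⁻¹ (A x) = x := by simp
    rw [e1] at h3
    rw [e2] at h4
    rw [h4, h3, not_not]
  have h3 : A ∈ Stab := (Subgroup.zpowers_le.2 h2) (mem_zpowers_sq A T h)
  obtain ⟨x⟩ := (inferInstance : Nonempty X)
  have h4 := h3 x
  have h5 := h1 (A x)
  have e2 : A⁻¹ (A x) = x := by simp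
  rw [e2] at h5
  rw [h4] at h5
  tauto

theorem exists_bad (W : FAct G) [Nonempty W.X] :
    ∃ x : W.X, W.hom gs x = x ↔ W.hom gs' x = x := by
  have := exists_bad_perm (W.hom gs) (W.hom ga) (W.hom gt)
    (by rw [← map_mul, ← map_inv, ← map_mul, ← map_mul, rel3])
  rw [← map_mul, ← map_inv, ← map_mul] at this
  exact this

/-! ### The representations and actions on cycles of odd length -/

section Cycle

variable (m : ℕ)

/-- `ℤ/(2m+1)` -/
abbrev C : Type := ZMod (2 * m + 1)

instance : NeZero (2 * m + 1) := ⟨by omega⟩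

/-- the residues with odd representative -/
def odd (x : C m) : Prop := x.val % 2 = 1

instance : DecidablePred (odd m) := fun x => inferInstanceAs (Decidable (x.val % 2 = 1))

theorem odd_sub_one (x : C m) (hx : x ≠ 0) : odd m (x - 1) ↔ ¬ odd m x := by
  have h1 : x.val ≠ 0 := fun h => hx ((ZMod.val_eq_zero x).1 h)
  have hm : 0 < m := by
    have := ZMod.val_lt x
    omega
  have : Fact (1 < 2 * m + 1) := ⟨by omega⟩
  have h2 : (x - 1).val = x.val - 1 := by
    rw [ZMod.val_sub]
    · rw [ZMod.val_one]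
    · rw [ZMod.val_one]
      omega
  rw [odd, odd, h2]
  omega

theorem odd_zero : ¬ odd m 0 := by
  rw [odd, ZMod.val_zero]
  omega

theorem odd_neg_one : ¬ odd m (0 - 1) := by
  rw [odd, zero_sub, ZMod.val_neg_one]
  omega

/-- rotation -/
def rot : Equiv.Perm (C m) := Equiv.addRight 1

/-- doubling -/
def dbl : Equiv.Perm (C m) where
  toFun x := x + x
  invFun x := (m + 1) * x
  left_inv x := by
    have h : ((2 * m + 1 : ℕ) : C m) = 0 := ZMod.natCast_self _
    push_cast at h
    linear_combination x * h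
  right_inv x := by
    have h : ((2 * m + 1 : ℕ) : C m) = 0 := ZMod.natCast_self _
    push_cast at h
    linear_combination x * h

theorem dbl_rot : dbl m * rot m * (dbl m)⁻¹ = rot m * rot m := by
  rw [mul_inv_eq_iff_eq_mul]
  ext1 x
  simp only [Equiv.Perm.mul_apply]
  change (x + 1) + (x + 1) = x + x + 1 + 1
  ring

theorem rot_symm_apply (x : C m) : (rot m).symm x = x - 1 := by
  rw [Equiv.symm_apply_eq]
  change x = x - 1 + 1
  ring

/-- The action on `ℤ/(2m+1) × ℤ/2`: `a` rotates, `t` doubles and `s` flips the second coordinate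
over the odd residues. -/
def flip : Equiv.Perm (C m × ZMod 2) where
  toFun p := (p.1, if odd m p.1 then p.2 + 1 else p.2)
  invFun p := (p.1, if odd m p.1 then p.2 + 1 else p.2)
  left_inv p := by
    have h2 : ∀ b : ZMod 2, b + 1 + 1 = b := by decide
    by_cases h : odd m p.1
    · simp [h, h2]
    · simp [h]
  right_inv p := by
    have h2 : ∀ b : ZMod 2, b + 1 + 1 = b := by decide
    by_cases h : odd m p.1
    · simp [h, h2]
    · simp [h]

theorem flip_apply (p : C m × ZMod 2) : flip m p = (p.1, if odd m p.1 then p.2 + 1 else p.2) := rfl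

def rot2 : Equiv.Perm (C m × ZMod 2) := Equiv.prodCongr (rot m) (Equiv.refl _)

def dbl2 : Equiv.Perm (C m × ZMod 2) := Equiv.prodCongr (dbl m) (Equiv.refl _)

theorem rot2_apply (p : C m × ZMod 2) : rot2 m p = (p.1 + 1, p.2) := rfl

theorem rot2_inv_apply (p : C m × ZMod 2) : (rot2 m)⁻¹ p = (p.1 - 1, p.2) := by
  rw [Equiv.Perm.inv_eq_iff_eq, rot2_apply]
  simp

theorem conj_flip_apply (p : C m × ZMod 2) :
    (rot2 m * flip m * (rot2 m)⁻¹) p = (p.1, if odd m (p.1 - 1) then p.2 + 1 else p.2) := by
  rw [Equiv.Perm.mul_apply, Equiv.Perm.mul_apply, rot2_inv_apply, flip_apply, rot2_apply]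
  simp

theorem r1 : flip m * flip m = 1 := by
  ext1 p
  rw [Equiv.Perm.mul_apply]
  exact (flip m).left_inv p

theorem r2 : flip m * (rot2 m * flip m * (rot2 m)⁻¹) = rot2 m * flip m * (rot2 m)⁻¹ * flip m := by
  ext1 p
  change flip m ((rot2 m * flip m * (rot2 m)⁻¹) p) = (rot2 m * flip m * (rot2 m)⁻¹) (flip m p)
  rw [conj_flip_apply, flip_apply, flip_apply, conj_flip_apply]
  by_cases h : odd m p.1 <;> by_cases h' : odd m (p.1 - 1) <;> simp [h, h']

theorem r3 : dbl2 m * rot2 m * (dbl2 m)⁻¹ = rot2 m * rot2 m := by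
  rw [mul_inv_eq_iff_eq_mul]
  ext1 p
  simp only [Equiv.Perm.mul_apply]
  change ((p.1 + 1) + (p.1 + 1), p.2) = (p.1 + p.1 + 1 + 1, p.2)
  congr 1
  ring

/-- the action of `G` -/
def act : FAct G where
  X := C m × ZMod 2
  hom := lift (flip m) (rot2 m) (dbl2 m) (r1 m) (r2 m) (r3 m)

theorem act_s : (act m).hom gs = flip m := lift_s _ _ _ (r1 m) (r2 m) (r3 m)

theorem act_s' : (act m).hom gs' = rot2 m * flip m * (rot2 m)⁻¹ :=
  lift_s' _ _ _ (r1 m) (r2 m) (r3 m)

theorem act_bad (p : C m × ZMod 2) (h : (act m).hom gs p = p ↔ (act m).hom gs' p = p) :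
    p.1 = 0 := by
  by_contra hp
  have e1 : (act m).hom gs p = flip m p :=
    congrArg (fun f : Equiv.Perm (C m × ZMod 2) => f p) (act_s m)
  have e2 : (act m).hom gs' p = (rot2 m * flip m * (rot2 m)⁻¹) p :=
    congrArg (fun f : Equiv.Perm (C m × ZMod 2) => f p) (act_s' m)
  have h1 : flip m p = p ↔ ¬ odd m p.1 := by
    rw [flip_apply]
    by_cases h' : odd m p.1
    · simp only [h', if_true, not_true_eq_false, iff_false]
      intro h2
      have h3 := congrArg Prod.snd h2
      simp at h3
    · simp [h']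
  have h2 : (rot2 m * flip m * (rot2 m)⁻¹) p = p ↔ ¬ odd m (p.1 - 1) := by
    rw [conj_flip_apply]
    by_cases h' : odd m (p.1 - 1)
    · simp only [h', if_true, not_true_eq_false, iff_false]
      intro h2
      have h3 := congrArg Prod.snd h2
      simp at h3
    · simp [h']
  have h3 : flip m p = p ↔ (rot2 m * flip m * (rot2 m)⁻¹) p = p := by
    rw [← e1, ← e2]
    exact h
  rw [h1, h2, odd_sub_one m p.1 hp] at h3
  tauto

/-! ### The representation on `ℂ^(2m+1)` -/

/-- the space -/
abbrev E : Type := C m → ℂ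

/-- monomial matrices: `(M v) x = σ x * v (e⁻¹ x)` -/
def mono (e : Equiv.Perm (C m)) (σ : C m → ℂ) : Matrix (C m) (C m) ℂ :=
  fun x y => if e⁻¹ x = y then σ x else 0

theorem mono_mul (e f : Equiv.Perm (C m)) (σ τ : C m → ℂ) :
    mono m e σ * mono m f τ = mono m (e * f) (fun x => σ x * τ (e⁻¹ x)) := by
  ext x z
  rw [Matrix.mul_apply, Finset.sum_eq_single (e⁻¹ x)]
  · simp only [mono, mul_inv_rev, Equiv.Perm.mul_apply, if_true]
    by_cases h : f⁻¹ (e⁻¹ x) = z
    · rw [if_pos h, if_pos h]
    · rw [if_neg h, if_neg h, mul_zero]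
  · intro y _ hy
    rw [mono, if_neg (Ne.symm hy), zero_mul]
  · intro h
    exact absurd (Finset.mem_univ _) h

theorem mono_one : mono m 1 (fun _ => 1) = 1 := by
  ext x y
  rw [mono, Matrix.one_apply]
  simp

theorem mono_mulVec (e : Equiv.Perm (C m)) (σ : C m → ℂ) (v : E m) (x : C m) :
    (mono m e σ).mulVec v x = σ x * v (e⁻¹ x) := by
  rw [Matrix.mulVec, dotProduct, Finset.sum_eq_single (e⁻¹ x)]
  · simp [mono]
  · intro y _ hy
    rw [mono, if_neg (Ne.symm hy), zero_mul]
  · intro h
    exact absurd (Finset.mem_univ _) h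

/-- monomial matrices with entries `±1` are unitary -/
def um (e : Equiv.Perm (C m)) (σ : C m → ℂ) (hσ : ∀ x, σ x = 1 ∨ σ x = -1) :
    Matrix.unitaryGroup (C m) ℂ :=
  ⟨mono m e σ, by
    have h1 : star (mono m e σ) = mono m e⁻¹ (fun x => σ (e x)) := by
      ext x y
      rw [Matrix.star_apply]
      simp only [mono, inv_inv]
      by_cases h : e⁻¹ y = x
      · have h' : e x = y := by rw [← h]; simp
        rw [if_pos h, if_pos h', h']
        rcases hσ y with h2 | h2 <;> simp [h2]
      · have h' : ¬ e x = y := fun h2 => h (by rw [← h2]; simp)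
        rw [if_neg h, if_neg h', star_zero]
    rw [Matrix.mem_unitaryGroup_iff, h1, mono_mul, mul_inv_cancel, ← mono_one]
    congr 1
    funext x
    have : e (e⁻¹ x) = x := by simp
    rw [this]
    rcases hσ x with h2 | h2 <;> simp [h2]⟩

/-- the signs -/
def sg (x : C m) : ℂ := if odd m x then -1 else 1

theorem sg_cases (x : C m) : sg m x = 1 ∨ sg m x = -1 := by
  rw [sg]
  by_cases h : odd m x <;> simp [h]

theorem sg_sq (x : C m) : sg m x * sg m x = 1 := by
  rcases sg_cases m x with h | h <;> simp [h]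

/-- `s`: the sign at odd residues -/
def sgn : Matrix.unitaryGroup (C m) ℂ := um m 1 (sg m) (sg_cases m)

/-- permutation matrices -/
def pm (e : Equiv.Perm (C m)) : Matrix.unitaryGroup (C m) ℂ :=
  um m e (fun _ => 1) (fun _ => Or.inl rfl)

theorem pm_mul (e f : Equiv.Perm (C m)) : pm m (e * f) = pm m e * pm m f := by
  apply Subtype.ext
  change mono m (e * f) _ = mono m e _ * mono m f _
  rw [mono_mul, mul_one]

theorem pm_one : pm m 1 = 1 := Subtype.ext (mono_one m)

theorem pm_inv (e : Equiv.Perm (C m)) : pm m e⁻¹ = (pm m e)⁻¹ := by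
  rw [eq_inv_iff_mul_eq_one, ← pm_mul, inv_mul_cancel, pm_one]

theorem conj_sgn : ((pm m (rot m) * sgn m * (pm m (rot m))⁻¹ : Matrix.unitaryGroup (C m) ℂ) :
    Matrix (C m) (C m) ℂ) = mono m 1 (fun x => sg m (x - 1)) := by
  rw [← pm_inv]
  change mono m (rot m) _ * mono m 1 _ * mono m (rot m)⁻¹ _ = _
  rw [mono_mul, mono_mul, mul_one, mul_inv_cancel]
  congr 1
  funext x
  rw [one_mul, mul_one]
  congr 1
  exact rot_symm_apply m x

theorem q1 : sgn m * sgn m = 1 := by
  apply Subtype.ext
  change mono m 1 _ * mono m 1 _ = 1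
  rw [mono_mul, mul_one, ← mono_one]
  congr 1
  funext x
  exact sg_sq m x

theorem q2 : sgn m * (pm m (rot m) * sgn m * (pm m (rot m))⁻¹) =
    (pm m (rot m) * sgn m * (pm m (rot m))⁻¹) * sgn m := by
  apply Subtype.ext
  change ((sgn m : Matrix.unitaryGroup (C m) ℂ) : Matrix (C m) (C m) ℂ) *
    ((pm m (rot m) * sgn m * (pm m (rot m))⁻¹ : Matrix.unitaryGroup (C m) ℂ) :
      Matrix (C m) (C m) ℂ) =
    ((pm m (rot m) * sgn m * (pm m (rot m))⁻¹ : Matrix.unitaryGroup (C m) ℂ) :
      Matrix (C m) (C m) ℂ) * ((sgn m : Matrix.unitaryGroup (C m) ℂ) : Matrix (C m) (C m) ℂ)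
  rw [conj_sgn]
  change mono m 1 _ * mono m 1 _ = mono m 1 _ * mono m 1 _
  rw [mono_mul, mono_mul]
  congr 1
  funext x
  exact mul_comm _ _

theorem q3 : pm m (dbl m) * pm m (rot m) * (pm m (dbl m))⁻¹ = pm m (rot m) * pm m (rot m) := by
  rw [← pm_inv, ← pm_mul, ← pm_mul, ← pm_mul, dbl_rot]

/-- the representation of `G` -/
def rep : URep G where
  ι := C m
  hom := lift (sgn m) (pm m (rot m)) (pm m (dbl m)) (q1 m) (q2 m) (q3 m)

theorem rep_s : (rep m).hom gs = sgn m := lift_s _ _ _ (q1 m) (q2 m) (q3 m)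

theorem rep_s' : (rep m).hom gs' = pm m (rot m) * sgn m * (pm m (rot m))⁻¹ :=
  lift_s' _ _ _ (q1 m) (q2 m) (q3 m)

theorem rep_fixed (v : E m) (h : (rep m).act (gs * gs') v = v) (x : C m) (hx : x ≠ 0) :
    v x = 0 := by
  have h0 : (rep m).hom (gs * gs') = sgn m * (pm m (rot m) * sgn m * (pm m (rot m))⁻¹) := by
    rw [map_mul, rep_s, rep_s']
    rfl
  have h1 : ((sgn m * (pm m (rot m) * sgn m * (pm m (rot m))⁻¹) :
      Matrix.unitaryGroup (C m) ℂ) : Matrix (C m) (C m) ℂ) =
      mono m 1 (fun x => sg m x * sg m (x - 1)) := by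
    rw [Submonoid.coe_mul, conj_sgn]
    change mono m 1 _ * mono m 1 _ = _
    rw [mono_mul, mul_one]
    rfl
  have h2 : (mono m 1 (fun x => sg m x * sg m (x - 1))).mulVec v x = v x := by
    rw [← h1]
    have h3 : (((rep m).hom (gs * gs')).1).mulVec v x = v x := congrFun h x
    rw [h0] at h3
    exact h3
  rw [mono_mulVec] at h2
  have h3 := odd_sub_one m x hx
  have h4 : sg m x * sg m (x - 1) = -1 := by
    rw [sg, sg]
    by_cases h4 : odd m x
    · have h5 : ¬ odd m (x - 1) := by rw [h3]; exact not_not.2 h4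
      rw [if_pos h4, if_neg h5, mul_one]
    · have h5 : odd m (x - 1) := h3.2 h4
      rw [if_neg h4, if_pos h5, one_mul]
  rw [h4] at h2
  have h5 : -1 * v x = v x := h2
  rw [neg_one_mul] at h5
  exact self_eq_neg.1 h5.symm

end Cycle

/-! ### The main results -/

theorem not_actMonoidFG : ¬ ActMonoidFG H := by
  rintro ⟨k, V, hV⟩
  set D : ℕ := ∑ i, Nat.card (V i).X with hD
  obtain ⟨c, e₀, he₀, he⟩ := hV (act D)
  let e : (act D).X ≃ ((i : Fin k) × Fin (c i) × (V i).X) := Equiv.ofBijective e₀ he₀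
  replace he : ∀ h ∈ H, ∀ y, e ((act D).hom h y) =
    ⟨(e y).1, (e y).2.1, (V (e y).1).hom h (e y).2.2⟩ := he
  have hc : ∀ i, Nonempty (V i).X → c i ≤ 2 := by
    intro i hi
    obtain ⟨x, hx⟩ := exists_bad (V i)
    have key : ∀ (g : G), g ∈ H → ∀ j : Fin (c i),
        ((act D).hom g (e.symm ⟨i, j, x⟩) = e.symm ⟨i, j, x⟩ ↔ (V i).hom g x = x) := by
      intro g hg j
      rw [← e.injective.eq_iff, he g hg, Equiv.apply_symm_apply]
      constructor
      · intro h
        simpa using h
      · intro h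
        simp only [h]
    have h1 : ∀ j : Fin (c i), (e.symm ⟨i, j, x⟩ : C D × ZMod 2).1 = 0 := by
      intro j
      refine act_bad D _ ?_
      exact (key gs gs_mem j).trans (hx.trans (key gs' gs'_mem j).symm)
    have h2 : Function.Injective fun j : Fin (c i) => (e.symm ⟨i, j, x⟩ : C D × ZMod 2).2 := by
      intro j j' hjj
      have h3 : (e.symm ⟨i, j, x⟩ : C D × ZMod 2) = e.symm ⟨i, j', x⟩ :=
        Prod.ext ((h1 j).trans (h1 j').symm) hjj
      have h4 := e.symm.injective h3
      simpa using h4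
    have h5 := Fintype.card_le_of_injective _ h2
    simpa using h5
  have h1 : Nat.card (C D × ZMod 2) = ∑ i, c i * Nat.card (V i).X := by
    have h0 : Nat.card (C D × ZMod 2) = Nat.card ((i : Fin k) × Fin (c i) × (V i).X) :=
      Nat.card_congr e
    rw [h0, Nat.card_sigma]
    refine Finset.sum_congr rfl fun i _ => ?_
    rw [Nat.card_prod, Nat.card_fin]
  have h2 : ∑ i, c i * Nat.card (V i).X ≤ ∑ i, 2 * Nat.card (V i).X := by
    refine Finset.sum_le_sum fun i _ => ?_
    rcases isEmpty_or_nonempty (V i).X with hi | hi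
    · rw [Nat.card_of_isEmpty]
      simp
    · exact Nat.mul_le_mul_right _ (hc i hi)
  rw [← Finset.mul_sum, ← hD, ← h1, Nat.card_prod, Nat.card_zmod, Nat.card_zmod] at h2
  omega

theorem not_repMonoidFG : ¬ RepMonoidFG H := by
  rintro ⟨k, V, hV⟩
  set D : ℕ := ∑ i, Fintype.card (V i).ι with hD
  obtain ⟨c, e₀, he₀, hlin, he⟩ := hV (rep D)
  let e : E D ≃ₗ[ℂ] ((i : Fin k) → Fin (c i) → (V i).ι → ℂ) :=
    LinearEquiv.ofBijective (IsLinearMap.mk' e₀ hlin) he₀
  replace he : ∀ h ∈ H, ∀ (v : E D) i j, e ((rep D).act h v) i j = (V i).act h (e v i j) := he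
  have hact0 : ∀ i (g : G), (V i).act g 0 = 0 := fun i g => Matrix.mulVec_zero _
  have hc : ∀ i, Nonempty (V i).ι → c i ≤ 1 := by
    intro i hi
    obtain ⟨w, hw, hw'⟩ := exists_fixed (V i)
    let f : Fin (c i) → ((i : Fin k) → Fin (c i) → (V i).ι → ℂ) := fun j =>
      Pi.single i (Pi.single j w)
    let u : Fin (c i) → E D := fun j => e.symm (f j)
    have hu : ∀ j, (rep D).act (gs * gs') (u j) = u j := by
      intro j
      apply e.injective
      funext i' j'
      rw [he _ gss'_mem]
      have e1 : e (u j) = f j := e.apply_symm_apply _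
      rw [e1]
      by_cases hi' : i' = i
      · subst hi'
        simp only [f, Pi.single_eq_same]
        by_cases hj : j' = j
        · subst hj
          rw [Pi.single_eq_same, hw']
        · rw [Pi.single_eq_of_ne hj, hact0]
      · simp only [f]
        rw [Pi.single_eq_of_ne hi', Pi.zero_apply, hact0]
    have hu0 : ∀ j x, x ≠ 0 → u j x = 0 := fun j x hx => rep_fixed D (u j) (hu j) x hx
    by_contra hcon
    push Not at hcon
    let j₀ : Fin (c i) := ⟨0, by omega⟩
    let j₁ : Fin (c i) := ⟨1, by omega⟩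
    have hne : j₁ ≠ j₀ := by
      intro h
      have := congrArg Fin.val h
      simp [j₀, j₁] at this
    have h1 : (u j₀ 0) • u j₁ = (u j₁ 0) • u j₀ := by
      ext x
      by_cases hx : x = 0
      · subst hx
        simp only [Pi.smul_apply, smul_eq_mul]
        ring
      · simp only [Pi.smul_apply, smul_eq_mul, hu0 _ x hx, mul_zero]
    have h2 : (u j₀ 0) • f j₁ = (u j₁ 0) • f j₀ := by
      have h3 : e ((u j₀ 0) • u j₁) = e ((u j₁ 0) • u j₀) := congrArg e h1
      rw [map_smul, map_smul] at h3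
      have e1 : ∀ j, e (u j) = f j := fun j => e.apply_symm_apply _
      rwa [e1, e1] at h3
    have h3 := congrFun (congrFun h2 i) j₁
    simp only [f, Pi.smul_apply, Pi.single_eq_same, Pi.single_eq_of_ne hne, smul_zero] at h3
    have h4 : u j₀ 0 = 0 := (smul_eq_zero.1 h3).resolve_right hw
    have h5 : u j₀ = 0 := by
      ext x
      by_cases hx : x = 0
      · subst hx
        exact h4
      · exact hu0 _ x hx
    have h6 : f j₀ = 0 := by
      have e1 : e (u j₀) = f j₀ := e.apply_symm_apply _
      rw [← e1, h5]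
      exact map_zero e
    have h7 := congrFun (congrFun h6 i) j₀
    simp only [f, Pi.single_eq_same, Pi.zero_apply] at h7
    exact hw h7
  have h1 : Module.finrank ℂ (E D) = ∑ i, c i * Fintype.card (V i).ι := by
    rw [LinearEquiv.finrank_eq e, Module.finrank_pi_fintype]
    refine Finset.sum_congr rfl fun i _ => ?_
    rw [Module.finrank_pi_fintype]
    simp
  have h2 : ∑ i, c i * Fintype.card (V i).ι ≤ ∑ i, Fintype.card (V i).ι := by
    refine Finset.sum_le_sum fun i _ => ?_
    rcases isEmpty_or_nonempty (V i).ι with hi | hi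
    · rw [Fintype.card_of_isEmpty]
      simp
    · calc c i * Fintype.card (V i).ι ≤ 1 * Fintype.card (V i).ι :=
          Nat.mul_le_mul_right _ (hc i hi)
        _ = _ := one_mul _
  rw [← hD, ← h1, Module.finrank_fintype_fun_eq_card, ZMod.card] at h2
  omega

end Pool.Agent.R650.Rest
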