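import Pool.Agent.R650.SoBo

/-!
# The group generated by the elementary matrices over `ℝ[X]` is not bo-bounded
-/

set_option autoImplicit false

open Set Polynomial Matrix

namespace Pool.Agent.R650.SL2

open SoBo

noncomputable section

/-- `SL₂(ℝ[X])` -/
abbrev SL : Type := Matrix.SpecialLinearGroup (Fin 2) ℝ[X]

/-- upper unipotent matrices -/
def up (p : ℝ[X]) : SL := ⟨!![1, p; 0, 1], by simp⟩
/-- lower unipotent matrices -/
def lo (p : ℝ[X]) : SL := ⟨!![1, 0; p, 1], by simp⟩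
/-- diagonal matrices -/
def dg (a : ℝˣ) : SL := ⟨!![C (a : ℝ), 0; 0, C ((a⁻¹ : ℝˣ) : ℝ)], by
  rw [Matrix.det_fin_two_of, ← C_mul]; simp⟩
/-- the matrices of the continued fraction algorithm -/
def Em (q : ℝ[X]) : SL := ⟨!![q, -1; 1, 0], by simp⟩

lemma up_val (p : ℝ[X]) : (up p : Matrix (Fin 2) (Fin 2) ℝ[X]) = !![1, p; 0, 1] := rfl
lemma lo_val (p : ℝ[X]) : (lo p : Matrix (Fin 2) (Fin 2) ℝ[X]) = !![1, 0; p, 1] := rfl
lemma dg_val (a : ℝˣ) : (dg a : Matrix (Fin 2) (Fin 2) ℝ[X]) =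
  !![C (a : ℝ), 0; 0, C ((a⁻¹ : ℝˣ) : ℝ)] := rfl
lemma Em_val (q : ℝ[X]) : (Em q : Matrix (Fin 2) (Fin 2) ℝ[X]) = !![q, -1; 1, 0] := rfl

lemma up_mul (p q : ℝ[X]) : up p * up q = up (p + q) := by
  apply Subtype.ext
  rw [Matrix.SpecialLinearGroup.coe_mul, up_val, up_val, up_val, Matrix.mul_fin_two]
  simp [add_comm]

lemma lo_mul (p q : ℝ[X]) : lo p * lo q = lo (p + q) := by
  apply Subtype.ext
  rw [Matrix.SpecialLinearGroup.coe_mul, lo_val, lo_val, lo_val, Matrix.mul_fin_two]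
  simp

lemma up_zero : up 0 = 1 := by
  apply Subtype.ext
  rw [up_val, Matrix.SpecialLinearGroup.coe_one, Matrix.one_fin_two]

lemma lo_zero : lo 0 = 1 := by
  apply Subtype.ext
  rw [lo_val, Matrix.SpecialLinearGroup.coe_one, Matrix.one_fin_two]

/-- a homomorphism from `ℝ[X]` -/
def upH : Multiplicative ℝ[X] →* SL where
  toFun p := up p.toAdd
  map_one' := up_zero
  map_mul' _ _ := (up_mul _ _).symm

/-- a homomorphism from `ℝ[X]` -/
def loH : Multiplicative ℝ[X] →* SL where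
  toFun p := lo p.toAdd
  map_one' := lo_zero
  map_mul' _ _ := (lo_mul _ _).symm

lemma dg_mul (a b : ℝˣ) : dg a * dg b = dg (a * b) := by
  apply Subtype.ext
  rw [Matrix.SpecialLinearGroup.coe_mul, dg_val, dg_val, dg_val, Matrix.mul_fin_two]
  simp [mul_comm]

lemma dg_one : dg 1 = 1 := by
  apply Subtype.ext
  rw [dg_val, Matrix.SpecialLinearGroup.coe_one, Matrix.one_fin_two]
  simp

/-- a homomorphism from the units -/
def dgH : ℝˣ →* SL where
  toFun := dg
  map_one' := dg_one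
  map_mul' _ _ := (dg_mul _ _).symm

/-- the second row -/
def c1 (x : SL) : ℝ[X] := x.1 1 0
/-- the second row -/
def c2 (x : SL) : ℝ[X] := x.1 1 1

/-- the cone: the first entry of the second row has larger degree than the second one -/
def Cone (x : SL) : Prop := (c2 x).degree < (c1 x).degree

lemma c1_mul (x y : SL) : c1 (x * y) = x.1 1 0 * y.1 0 0 + x.1 1 1 * y.1 1 0 := by
  simp [c1, Matrix.SpecialLinearGroup.coe_mul, Matrix.mul_apply, Fin.sum_univ_two]

lemma c2_mul (x y : SL) : c2 (x * y) = x.1 1 0 * y.1 0 1 + x.1 1 1 * y.1 1 1 := by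
  simp [c2, Matrix.SpecialLinearGroup.coe_mul, Matrix.mul_apply, Fin.sum_univ_two]

lemma c1_Em (x : SL) (q : ℝ[X]) : c1 (x * Em q) = c1 x * q + c2 x := by
  rw [c1_mul]; simp [Em, c1, c2]

lemma c2_Em (x : SL) (q : ℝ[X]) : c2 (x * Em q) = - c1 x := by
  rw [c2_mul]; simp [Em, c1]

lemma det_eq (x : SL) : x.1 0 0 * x.1 1 1 - x.1 0 1 * x.1 1 0 = 1 := by
  have := x.2
  rwa [Matrix.det_fin_two] at this

lemma Cone.ne {y : SL} (h : Cone y) : c1 y ≠ 0 := by
  intro h0
  rw [Cone, h0, degree_zero] at h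
  exact not_lt_bot h

/-- multiplication by a polynomial of positive degree -/
lemma degree_lt_mul {p q : ℝ[X]} (hp : p ≠ 0) (hq : 0 < q.degree) : p.degree < (p * q).degree := by
  have hq0 : q ≠ 0 := by rintro rfl; simp at hq
  rw [degree_mul, degree_eq_natDegree hp, degree_eq_natDegree hq0] at *
  norm_cast at *
  omega

lemma cone_step {y : SL} (h : Cone y) {q : ℝ[X]} (hq : 0 < q.degree) :
    Cone (y * Em q) ∧ (c1 (y * Em q)).natDegree = (c1 y).natDegree + q.natDegree := by
  have h1 := degree_lt_mul h.ne hq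
  have h2 : (c2 y).degree < (c1 y * q).degree := lt_trans h h1
  have h3 : (c1 (y * Em q)).degree = (c1 y * q).degree := by
    rw [c1_Em, degree_add_eq_left_of_degree_lt h2]
  have hq0 : q ≠ 0 := by rintro rfl; simp at hq
  refine ⟨?_, ?_⟩
  · rw [Cone, c2_Em, degree_neg, h3]
    exact h1
  · rw [natDegree_eq_of_degree_eq h3, natDegree_mul h.ne hq0]

/-- the elements `γ n = E(X ^ n) ... E(X)` -/
def gam : ℕ → SL
  | 0 => 1
  | n + 1 => Em (X ^ (n + 1)) * gam n

lemma deg_pow (n : ℕ) : 0 < ((X : ℝ[X]) ^ (n + 1)).degree := by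
  rw [degree_X_pow]
  exact_mod_cast Nat.succ_pos n

/-- the nested sets -/
def P (x : SL) (n : ℕ) : Prop := Cone (x * (gam n)⁻¹)

lemma P_step {x : SL} {n : ℕ} (h : P x (n + 1)) : P x n := by
  have h1 := (cone_step h (deg_pow n)).1
  have h2 : x * (gam (n + 1))⁻¹ * Em (X ^ (n + 1)) = x * (gam n)⁻¹ := by
    rw [gam, _root_.mul_inv_rev]; group
  rw [h2] at h1
  exact h1

lemma deg_gam (n : ℕ) : ∀ y : SL, Cone y → n + (c1 y).natDegree ≤ (c1 (y * gam n)).natDegree := by
  induction n with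
  | zero => intro y _; rw [gam, mul_one]; omega
  | succ n ih =>
    intro y hy
    obtain ⟨h1, h2⟩ := cone_step hy (deg_pow n)
    have h3 := ih _ h1
    rw [h2, natDegree_X_pow] at h3
    have h4 : y * gam (n + 1) = y * Em (X ^ (n + 1)) * gam n := by rw [gam]; group
    rw [h4]
    omega

lemma P_le {x : SL} {n : ℕ} (h : P x n) : n ≤ (c1 x).natDegree := by
  have h1 := deg_gam n _ h
  rw [inv_mul_cancel_right] at h1
  omega

open Classical in
/-- the function -/
def ff (x : SL) : ℕ := Nat.findGreatest (P x) (c1 x).natDegree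

lemma le_ff {x : SL} {n : ℕ} (h : P x n) : n ≤ ff x := by
  classical
  exact Nat.le_findGreatest (P_le h) h

lemma ff_spec {x : SL} (h : ff x ≠ 0) : P x (ff x) := by
  classical
  exact Nat.findGreatest_of_ne_zero rfl h

lemma P_gam (n : ℕ) : P (Em 0 * gam n) n := by
  rw [P, mul_inv_cancel_right, Cone]
  simp [c1, c2, Em]

/-- the situation of a jump -/
lemma jump {g y : SL} {n : ℕ} (hy : Cone y) (hg : ¬ Cone (g * y * Em (X ^ (n + 1)))) :
    c1 (g * y) ≠ 0 ∧ c2 (g * y) ≠ 0 ∧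
      (c2 (g * y)).natDegree = (c1 (g * y)).natDegree + (n + 1) ∧ g.1 1 0 ≠ 0 ∧
      (g.1 1 0).natDegree = (c1 (g * y)).natDegree + (n + 1) + (c1 y).natDegree ∧
      (c1 (g * y) * X ^ (n + 1) + c2 (g * y)).degree ≤ (c1 (g * y)).degree := by
  set q : ℝ[X] := X ^ (n + 1) with hq
  have hqd : 0 < q.degree := deg_pow n
  have hq0 : q ≠ 0 := by rintro h; rw [h] at hqd; simp at hqd
  rw [Cone, c1_Em, c2_Em, degree_neg, not_lt] at hg
  have hdet := det_eq (g * y)
  have h1 : c1 (g * y) ≠ 0 := by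
    intro h0
    rw [h0, zero_mul, zero_add, degree_zero, le_bot_iff, degree_eq_bot] at hg
    have e1 : (g * y).1 1 0 = 0 := h0
    have e2 : (g * y).1 1 1 = 0 := hg
    rw [e1, e2] at hdet
    simp at hdet
  have h2 := degree_lt_mul h1 hqd
  have h3 : (c2 (g * y)).degree = (c1 (g * y) * q).degree := by
    rcases lt_trichotomy (c2 (g * y)).degree (c1 (g * y) * q).degree with h | h | h
    · rw [degree_add_eq_left_of_degree_lt h] at hg
      exact absurd h2 (not_lt.2 hg)
    · exact h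
    · rw [degree_add_eq_right_of_degree_lt h] at hg
      exact absurd (h2.trans h) (not_lt.2 hg)
  have h4 : c2 (g * y) ≠ 0 := by
    intro h0
    rw [h0, degree_zero, eq_comm, degree_eq_bot] at h3
    exact (mul_ne_zero h1 hq0) h3
  have h5 : (c2 (g * y)).natDegree = (c1 (g * y)).natDegree + (n + 1) := by
    rw [natDegree_eq_of_degree_eq h3, natDegree_mul h1 hq0, hq, natDegree_X_pow]
  -- the identity
  have hI : g.1 1 0 = c1 (g * y) * c2 y - c2 (g * y) * c1 y := by
    rw [c1_mul, c2_mul, c1, c2]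
    have := det_eq y
    linear_combination (-(g.1 1 0)) * this
  have h6 : (c1 (g * y) * c2 y).degree < (c2 (g * y) * c1 y).degree := by
    by_cases hd : c2 y = 0
    · rw [hd, mul_zero, degree_zero, bot_lt_iff_ne_bot, Ne, degree_eq_bot]
      exact mul_ne_zero h4 hy.ne
    · have h7 := hy
      rw [Cone] at h7
      rw [degree_mul, degree_mul, degree_eq_natDegree h1, degree_eq_natDegree h4,
        degree_eq_natDegree hd, degree_eq_natDegree hy.ne] at *
      norm_cast at *
      omega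
  have h7 : (g.1 1 0).degree = (c2 (g * y) * c1 y).degree := by
    rw [hI, degree_sub_eq_right_of_degree_lt h6]
  have h8 : g.1 1 0 ≠ 0 := by
    intro h0
    rw [h0, degree_zero, eq_comm, degree_eq_bot] at h7
    exact mul_ne_zero h4 hy.ne h7
  refine ⟨h1, h4, h5, h8, ?_, hg⟩
  rw [natDegree_eq_of_degree_eq h7, natDegree_mul h4 hy.ne, h5]

/-- uniqueness of the jump -/
lemma jump_unique {g y y' : SL} {n : ℕ} (hy : Cone y) (hy' : Cone y')
    (hg : ¬ Cone (g * y * Em (X ^ (n + 1)))) (hg' : ¬ Cone (g * y' * Em (X ^ (n + 1))))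
    (hm : (c1 y).natDegree = (c1 y').natDegree) :
    y'.1 = y.1 ∨ y'.1 = - y.1 := by
  obtain ⟨h1, h2, h3, h4, h5, h6⟩ := jump hy hg
  obtain ⟨h1', h2', h3', h4', h5', h6'⟩ := jump hy' hg'
  have hdet := det_eq y
  have hdet' := det_eq y'
  -- the columns are proportional
  have hprop : y.1 0 0 * y'.1 1 0 - y'.1 0 0 * y.1 1 0 = 0 := by
    by_contra hne
    have e1 : g.1 1 0 * (y.1 0 0 * y'.1 1 0 - y'.1 0 0 * y.1 1 0) =
        c1 (g * y) * c1 y' - c1 (g * y') * c1 y := by
      rw [c1_mul, c1_mul, c1, c1]; ring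
    have e2 := natDegree_mul h4 hne
    rw [e1] at e2
    have e3 := natDegree_sub_le (c1 (g * y) * c1 y') (c1 (g * y') * c1 y)
    rw [natDegree_mul h1 hy'.ne, natDegree_mul h1' hy.ne] at e3
    rcases le_max_iff.1 e3 with h | h <;> omega
  -- the transition matrix
  obtain ⟨M00, hM00⟩ : ∃ M, M = y.1 1 1 * y'.1 0 0 - y.1 0 1 * y'.1 1 0 := ⟨_, rfl⟩
  obtain ⟨M01, hM01⟩ : ∃ M, M = y.1 1 1 * y'.1 0 1 - y.1 0 1 * y'.1 1 1 := ⟨_, rfl⟩
  obtain ⟨M11, hM11⟩ : ∃ M, M = - y.1 1 0 * y'.1 0 1 + y.1 0 0 * y'.1 1 1 := ⟨_, rfl⟩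
  have ea : y'.1 0 0 = M00 * y.1 0 0 := by
    rw [hM00]; linear_combination (-(y'.1 0 0)) * hdet + (y.1 0 1) * hprop
  have ec : y'.1 1 0 = M00 * y.1 1 0 := by
    rw [hM00]; linear_combination (-(y'.1 1 0)) * hdet + (y.1 1 1) * hprop
  have eb : y'.1 0 1 = M01 * y.1 0 0 + M11 * y.1 0 1 := by
    rw [hM01, hM11]; linear_combination (-(y'.1 0 1)) * hdet
  have ed : y'.1 1 1 = M01 * y.1 1 0 + M11 * y.1 1 1 := by
    rw [hM01, hM11]; linear_combination (-(y'.1 1 1)) * hdet
  have hu : M00 * M11 = 1 := by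
    rw [ea, ec, eb, ed] at hdet'
    linear_combination hdet' - M00 * M11 * hdet
  have hM11u : IsUnit M11 := IsUnit.of_mul_eq_one_right M00 hu
  have hM01 : M01 = 0 := by
    by_contra hne
    have e1 : (M11 * c2 y).degree < (M01 * c1 y).degree := by
      rw [degree_mul, degree_eq_zero_of_isUnit hM11u, zero_add, degree_mul]
      refine lt_of_lt_of_le hy ?_
      rw [degree_eq_natDegree hne, degree_eq_natDegree hy.ne]
      norm_cast
      omega
    have e2 : (c2 y').degree = (M01 * c1 y).degree := by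
      rw [show c2 y' = M01 * c1 y + M11 * c2 y from ed, degree_add_eq_left_of_degree_lt e1]
    have e3 := hy'
    rw [Cone, e2, degree_mul, degree_eq_natDegree hne, degree_eq_natDegree hy.ne,
      degree_eq_natDegree hy'.ne] at e3
    norm_cast at e3
    omega
  rw [hM01, zero_mul, zero_add] at eb ed
  -- the rows
  have f1 : c1 (g * y') = M00 * c1 (g * y) := by
    rw [c1_mul, c1_mul, ea, ec]; ring
  have f2 : c2 (g * y') = M11 * c2 (g * y) := by
    rw [c2_mul, c2_mul, eb, ed]; ring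
  have hM00u : IsUnit M00 := IsUnit.of_mul_eq_one M11 hu
  have hMM : M11 = M00 := by
    by_contra hne
    have hne' : M11 - M00 ≠ 0 := sub_ne_zero.2 hne
    have e1 : (M11 - M00) * (c1 (g * y) * X ^ (n + 1)) =
        M11 * (c1 (g * y) * X ^ (n + 1) + c2 (g * y)) -
          (c1 (g * y') * X ^ (n + 1) + c2 (g * y')) := by
      rw [f1, f2]; ring
    have e2 : (M11 * (c1 (g * y) * X ^ (n + 1) + c2 (g * y))).degree ≤ (c1 (g * y)).degree := by
      rw [degree_mul, degree_eq_zero_of_isUnit hM11u, zero_add]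
      exact h6
    have e3 : (c1 (g * y') * X ^ (n + 1) + c2 (g * y')).degree ≤ (c1 (g * y)).degree := by
      refine h6'.trans ?_
      rw [f1, degree_mul, degree_eq_zero_of_isUnit hM00u, zero_add]
    have e4 := (degree_sub_le _ _).trans (max_le e2 e3)
    rw [← e1, degree_mul] at e4
    have e5 := degree_lt_mul h1 (deg_pow n)
    rw [degree_eq_natDegree hne'] at e4
    have e6 : (c1 (g * y) * X ^ (n + 1)).degree ≤
        ((M11 - M00).natDegree : WithBot ℕ) + (c1 (g * y) * X ^ (n + 1)).degree := by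
      have h0 : (0 : WithBot ℕ) ≤ ((M11 - M00).natDegree : WithBot ℕ) := by
        exact_mod_cast Nat.zero_le _
      have h9 := add_le_add_left h0 (c1 (g * y) * X ^ (n + 1)).degree
      rwa [zero_add] at h9
    exact absurd (lt_of_lt_of_le e5 (e6.trans e4)) (lt_irrefl _)
  rw [hMM] at hu eb ed
  rcases mul_self_eq_one_iff.1 hu with h | h
  · left
    rw [h] at ea ec eb ed
    refine Matrix.ext fun i j => ?_
    fin_cases i <;> fin_cases j
    · simpa using ea
    · simpa using eb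
    · simpa using ec
    · simpa using ed
  · right
    rw [h] at ea ec eb ed
    refine Matrix.ext fun i j => ?_
    fin_cases i <;> fin_cases j
    · simpa using ea
    · simpa using eb
    · simpa using ec
    · simpa using ed

/-- finiteness of the set of jumps -/
lemma jump_finite (g : SL) : {x | ∃ n, P x (n + 1) ∧ ¬ P (g * x) n}.Finite := by
  set N := (g.1 1 0).natDegree with hN
  let B : ℕ → ℕ → Set SL := fun n m =>
    {y | Cone y ∧ ¬ Cone (g * y * Em (X ^ (n + 1))) ∧ (c1 y).natDegree = m}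
  have hB : ∀ n m, (B n m).Finite := by
    intro n m
    rcases (B n m).eq_empty_or_nonempty with h | ⟨y0, h0⟩
    · rw [h]; exact finite_empty
    · have h1 : B n m ⊆ Subtype.val ⁻¹' {y0.1, - y0.1} := by
        rintro y ⟨h1, h2, h3⟩
        exact jump_unique h0.1 h1 h0.2.1 h2 (h0.2.2.trans h3.symm)
      exact ((toFinite {y0.1, - y0.1}).preimage Subtype.val_injective.injOn).subset h1
  have hfin : (⋃ n ∈ Finset.range N, ⋃ m ∈ Finset.range (N + 1),
      (fun y => y * gam (n + 1)) '' B n m).Finite :=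
    (Finset.range N).finite_toSet.biUnion fun n _ =>
      (Finset.range (N + 1)).finite_toSet.biUnion fun m _ => (hB n m).image _
  refine hfin.subset ?_
  rintro x ⟨n, h1, h2⟩
  set y := x * (gam (n + 1))⁻¹ with hy
  have h3 : ¬ Cone (g * y * Em (X ^ (n + 1))) := by
    rw [P] at h2
    have e : g * y * Em (X ^ (n + 1)) = g * x * (gam n)⁻¹ := by
      rw [hy, gam, _root_.mul_inv_rev]; group
    rwa [e]
  obtain ⟨j1, j2, j3, j4, j5, j6⟩ := jump (show Cone y from h1) h3
  simp only [mem_iUnion, Finset.mem_range]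
  exact ⟨n, by omega, (c1 y).natDegree, by omega, y, ⟨h1, h3, rfl⟩, by rw [hy]; simp⟩

end

end Pool.Agent.R650.SL2
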