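import Mathlib

/-!
# So-bounded and bo-bounded finitary balleans: definitions and the slowly oscillating part
-/

set_option autoImplicit false

open Set

namespace Pool.Agent.R650.SoBo

variable {G : Type} [Group G]

/-- the ball `E_F[x] = {x} ∪ F x` of the finitary ballean -/
def ball (F : Finset G) (x : G) : Set G := insert x ((fun g => g * x) '' (F : Set G))

/-- boundedly oscillating functions -/
def BoundedlyOscillating (f : G → ℝ) : Prop :=
  ∃ C : ℝ, 0 < C ∧ ∀ F : Finset G, ∃ B : Finset G, ∀ x, x ∉ B → Metric.diam (f '' ball F x) < C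

/-- slowly oscillating functions -/
def SlowlyOscillating (f : G → ℝ) : Prop :=
  ∀ F : Finset G, ∀ ε : ℝ, 0 < ε → ∃ B : Finset G, ∀ x, x ∉ B → Metric.diam (f '' ball F x) < ε

variable (G) in
/-- every boundedly oscillating function is bounded outside a finite set -/
def BoBounded : Prop := ∀ f : G → ℝ, BoundedlyOscillating f →
  ∃ B : Finset G, ∃ M : ℝ, ∀ x, x ∉ B → |f x| ≤ M

variable (G) in
/-- every slowly oscillating function is bounded outside a finite set -/
def SoBounded : Prop := ∀ f : G → ℝ, SlowlyOscillating f →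
  ∃ B : Finset G, ∃ M : ℝ, ∀ x, x ∉ B → |f x| ≤ M

lemma ball_finite (F : Finset G) (x : G) : (ball F x).Finite :=
  (F.finite_toSet.image _).insert x

lemma so_finite {f : G → ℝ} (hf : SlowlyOscillating f) (g : G) (ε : ℝ) (hε : 0 < ε) :
    {x | ε ≤ |f (g * x) - f x|}.Finite := by
  obtain ⟨B, hB⟩ := hf {g} ε hε
  refine B.finite_toSet.subset fun x hx => ?_
  by_contra hxB
  have h1 := hB x hxB
  have hb : Bornology.IsBounded (f '' ball {g} x) := ((ball_finite {g} x).image f).isBounded
  have h2 := Metric.dist_le_diam_of_mem hb (x := f (g * x)) (y := f x)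
    ⟨g * x, Or.inr ⟨g, by simp, rfl⟩, rfl⟩ ⟨x, Or.inl rfl, rfl⟩
  rw [Real.dist_eq] at h2
  have h3 : ε ≤ |f (g * x) - f x| := hx
  linarith

/-- for an uncountable commutative subgroup `V`, the function `v ↦ f (v x)` is constant up to
countable sets -/
lemma exists_limit {f : G → ℝ} (hf : SlowlyOscillating f) (V : Subgroup G)
    (hV : ∀ a ∈ V, ∀ b ∈ V, a * b = b * a) (hVu : ¬ (V : Set G).Countable) :
    ∃ (E : Set G) (L : G → ℝ), E.Countable ∧ ∀ x, ∀ v ∈ V, v * x ∉ E → f (v * x) = L x := by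
  have hinf : (V : Set G).Infinite := fun h => hVu h.countable
  obtain ⟨d, hd⟩ : ∃ d : ℕ ↪ G, ∀ n, d n ∈ V := by
    have := hinf.to_subtype
    exact ⟨(Infinite.natEmbedding V).trans (Function.Embedding.subtype _),
      fun n => (Infinite.natEmbedding V n).2⟩
  -- the exceptional set
  set E : Set G := ⋃ n : ℕ, ⋃ m : ℕ, {x | 1 / ((m : ℝ) + 1) ≤ |f (d n * x) - f x|} with hE
  have hEc : E.Countable := countable_iUnion fun n => countable_iUnion fun m =>
    (so_finite hf (d n) _ (by positivity)).countable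
  have hEx : ∀ x, x ∉ E → ∀ n, f (d n * x) = f x := by
    intro x hx n
    by_contra hne
    have hpos : 0 < |f (d n * x) - f x| := abs_pos.2 (sub_ne_zero.2 hne)
    obtain ⟨m, hm⟩ := exists_nat_one_div_lt hpos
    exact hx (mem_iUnion.2 ⟨n, mem_iUnion.2 ⟨m, hm.le⟩⟩)
  -- two points of the same orbit outside `E` have the same value
  have key : ∀ x, x ∉ E → ∀ v ∈ V, v * x ∉ E → f (v * x) = f x := by
    intro x hx v hv hvx
    by_contra hne
    have hpos : 0 < |f (v * x) - f x| := abs_pos.2 (sub_ne_zero.2 hne)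
    have hfin := so_finite hf v _ hpos
    have hsub : range (fun n => d n * x) ⊆ {y | |f (v * x) - f x| ≤ |f (v * y) - f y|} := by
      rintro _ ⟨n, rfl⟩
      have e1 : v * (d n * x) = d n * (v * x) := by
        rw [← mul_assoc, ← mul_assoc, hV v hv _ (hd n)]
      change |f (v * x) - f x| ≤ |f (v * (d n * x)) - f (d n * x)|
      rw [e1, hEx _ hvx n, hEx _ hx n]
    have hinj : Function.Injective fun n => d n * x := fun a b hab =>
      d.injective (mul_right_cancel hab)
    exact (infinite_range_of_injective hinj) (hfin.subset hsub)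
  classical
  refine ⟨E, fun x => if h : ∃ v ∈ V, v * x ∉ E then f (h.choose * x) else 0, hEc, ?_⟩
  intro x v hv hvx
  have h : ∃ v ∈ V, v * x ∉ E := ⟨v, hv, hvx⟩
  simp only [dif_pos h]
  obtain ⟨h1, h2⟩ := h.choose_spec
  have h3 := key _ h2 (v * h.choose⁻¹) (V.mul_mem hv (V.inv_mem h1)) (by simpa using hvx)
  simpa using h3

/-- the exceptional translates are countable -/
lemma countable_exc {E : Set G} (hE : E.Countable) (x : G) : {v | v * x ∈ E}.Countable :=
  hE.preimage (f := fun v => v * x) (mul_left_injective x)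

lemma exists_good (V : Subgroup G) (hVu : ¬ (V : Set G).Countable) (C : Set G)
    (hC : C.Countable) : ∃ v ∈ V, v ∉ C := by
  by_contra hcon
  push Not at hcon
  exact hVu (hC.mono hcon)

/-- the limit is a limit at infinity -/
lemma limit_close {f : G → ℝ} (hf : SlowlyOscillating f) (V : Subgroup G)
    (hVu : ¬ (V : Set G).Countable) {E : Set G} {L : G → ℝ} (hE : E.Countable)
    (hL : ∀ x, ∀ v ∈ V, v * x ∉ E → f (v * x) = L x) (ε : ℝ) (hε : 0 < ε) :
    {x | ε ≤ |L x - f x|}.Finite := by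
  by_contra hinf
  have hinf' : {x | ε ≤ |L x - f x|}.Infinite := hinf
  obtain ⟨s, hs⟩ : ∃ s : ℕ ↪ G, ∀ n, ε ≤ |L (s n) - f (s n)| := by
    have := hinf'.to_subtype
    exact ⟨(Infinite.natEmbedding {x | ε ≤ |L x - f x|}).trans (Function.Embedding.subtype _),
      fun n => (Infinite.natEmbedding {x | ε ≤ |L x - f x|} n).2⟩
  obtain ⟨v, hv, hv'⟩ := exists_good V hVu (⋃ n, {v | v * s n ∈ E})
    (countable_iUnion fun n => countable_exc hE (s n))
  have h1 : ∀ n, v * s n ∉ E := fun n hn => hv' (mem_iUnion.2 ⟨n, hn⟩)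
  have h2 : range s ⊆ {x | ε ≤ |f (v * x) - f x|} := by
    rintro _ ⟨n, rfl⟩
    change ε ≤ |f (v * s n) - f (s n)|
    rw [hL _ v hv (h1 n)]
    exact hs n
  exact (infinite_range_of_injective s.injective) ((so_finite hf v ε hε).subset h2)

/-- the limit is invariant under the normalizer -/
lemma limit_norm {f : G → ℝ} (hf : SlowlyOscillating f) (V : Subgroup G)
    (hVu : ¬ (V : Set G).Countable) {E : Set G} {L : G → ℝ} (hE : E.Countable)
    (hL : ∀ x, ∀ v ∈ V, v * x ∉ E → f (v * x) = L x) (n : G)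
    (hn : ∀ v ∈ V, n * v * n⁻¹ ∈ V) (x : G) : L (n * x) = L x := by
  by_contra hne
  have hpos : 0 < |L (n * x) - L x| := abs_pos.2 (sub_ne_zero.2 hne)
  have hfin := so_finite hf n _ hpos
  obtain ⟨v, hv, hv'⟩ := exists_good V hVu
    ({v | v * x ∈ E} ∪ {v | n * v * x ∈ E} ∪ {v | v * x ∈ {y | |L (n * x) - L x| ≤
      |f (n * y) - f y|}})
    (((countable_exc hE x).union
      (hE.preimage (f := fun v => n * v * x) (fun a b hab => by
        simpa using hab))).union (countable_exc hfin.countable x))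
  simp only [mem_union, not_or] at hv'
  obtain ⟨⟨h1, h2⟩, h3⟩ := hv'
  have e1 : f (v * x) = L x := hL x v hv h1
  have e2 : f (n * (v * x)) = L (n * x) := by
    have h4 := hL (n * x) (n * v * n⁻¹) (hn v hv)
    have e3 : n * v * n⁻¹ * (n * x) = n * (v * x) := by group
    rw [e3] at h4
    apply h4
    rw [← mul_assoc]
    exact h2
  apply h3
  change |L (n * x) - L x| ≤ |f (n * (v * x)) - f (v * x)|
  rw [e1, e2]

/-- slowly oscillating functions are constant at infinity -/
theorem const_at_infinity (U V T : Subgroup G)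
    (hU : ∀ a ∈ U, ∀ b ∈ U, a * b = b * a) (hUu : ¬ (U : Set G).Countable)
    (hV : ∀ a ∈ V, ∀ b ∈ V, a * b = b * a) (hVu : ¬ (V : Set G).Countable)
    (hT : (T : Set G).Infinite) (hTU : ∀ t ∈ T, ∀ u ∈ U, t * u * t⁻¹ ∈ U)
    (hTV : ∀ t ∈ T, ∀ v ∈ V, t * v * t⁻¹ ∈ V)
    (hgen : Subgroup.closure ((U : Set G) ∪ V) = ⊤) (f : G → ℝ) (hf : SlowlyOscillating f) :
    ∃ c : ℝ, ∀ ε : ℝ, 0 < ε → {x | ε ≤ |f x - c|}.Finite := by
  obtain ⟨E, L, hE, hL⟩ := exists_limit hf U hU hUu
  obtain ⟨E', L', hE', hL'⟩ := exists_limit hf V hV hVu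
  have hLL : ∀ x, L x = L' x := by
    intro x
    by_contra hne
    have hpos : 0 < |L x - L' x| := abs_pos.2 (sub_ne_zero.2 hne)
    have h1 := limit_close hf U hUu hE hL (|L x - L' x| / 2) (by positivity)
    have h2 := limit_close hf V hVu hE' hL' (|L x - L' x| / 2) (by positivity)
    have hsub : (fun t => t * x) '' (T : Set G) ⊆
        {y | |L x - L' x| / 2 ≤ |L y - f y|} ∪ {y | |L x - L' x| / 2 ≤ |L' y - f y|} := by
      rintro _ ⟨t, ht, rfl⟩
      by_contra hcon
      simp only [mem_union, not_or] at hcon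
      obtain ⟨h3, h4⟩ := hcon
      have h3' : |L (t * x) - f (t * x)| < |L x - L' x| / 2 := not_le.1 h3
      have h4' : |L' (t * x) - f (t * x)| < |L x - L' x| / 2 := not_le.1 h4
      rw [limit_norm hf U hUu hE hL t (hTU t ht)] at h3'
      rw [limit_norm hf V hVu hE' hL' t (hTV t ht)] at h4'
      have h5 : |L x - L' x| ≤ |L x - f (t * x)| + |L' x - f (t * x)| := by
        have : L x - L' x = (L x - f (t * x)) - (L' x - f (t * x)) := by ring
        rw [this]
        exact abs_sub _ _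
      linarith
    have hinj : ((fun t => t * x) '' (T : Set G)).Infinite :=
      hT.image (mul_left_injective x).injOn
    exact hinj ((h1.union h2).subset hsub)
  have hinv : ∀ g x, L (g * x) = L x := by
    intro g
    have hg : g ∈ Subgroup.closure ((U : Set G) ∪ V) := by rw [hgen]; trivial
    induction hg using Subgroup.closure_induction with
    | mem g hg =>
      intro x
      rcases hg with hg | hg
      · exact limit_norm hf U hUu hE hL g
          (fun v hv => U.mul_mem (U.mul_mem hg hv) (U.inv_mem hg)) x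
      · rw [hLL, hLL x]
        exact limit_norm hf V hVu hE' hL' g
          (fun v hv => V.mul_mem (V.mul_mem hg hv) (V.inv_mem hg)) x
    | one => intro x; rw [one_mul]
    | mul a b _ _ ha hb => intro x; rw [mul_assoc, ha, hb]
    | inv a _ ha => intro x; rw [← ha (a⁻¹ * x), mul_inv_cancel_left]
  refine ⟨L 1, fun ε hε => ?_⟩
  refine (limit_close hf U hUu hE hL ε hε).subset fun x hx => ?_
  have h1 : L x = L 1 := by have := hinv x 1; rwa [mul_one] at this
  change ε ≤ |L x - f x|
  rw [h1, abs_sub_comm]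
  exact hx

theorem soBounded (U V T : Subgroup G)
    (hU : ∀ a ∈ U, ∀ b ∈ U, a * b = b * a) (hUu : ¬ (U : Set G).Countable)
    (hV : ∀ a ∈ V, ∀ b ∈ V, a * b = b * a) (hVu : ¬ (V : Set G).Countable)
    (hT : (T : Set G).Infinite) (hTU : ∀ t ∈ T, ∀ u ∈ U, t * u * t⁻¹ ∈ U)
    (hTV : ∀ t ∈ T, ∀ v ∈ V, t * v * t⁻¹ ∈ V)
    (hgen : Subgroup.closure ((U : Set G) ∪ V) = ⊤) : SoBounded G := by
  intro f hf
  obtain ⟨c, hc⟩ := const_at_infinity U V T hU hUu hV hVu hT hTU hTV hgen f hf
  refine ⟨(hc 1 one_pos).toFinset, 1 + |c|, fun x hx => ?_⟩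
  have h1 : |f x - c| < 1 := by
    by_contra hcon
    exact hx ((hc 1 one_pos).mem_toFinset.2 (not_lt.1 hcon))
  have h2 : |f x| ≤ |f x - c| + |c| := by
    have : f x = (f x - c) + c := by ring
    calc |f x| = |(f x - c) + c| := by rw [← this]
      _ ≤ _ := abs_add_le _ _
  linarith

/-- a criterion for bounded oscillation -/
lemma bo_of_finite {f : G → ℝ} (h : ∀ g, {x | 1 < |f (g * x) - f x|}.Finite) :
    BoundedlyOscillating f := by
  refine ⟨3, by norm_num, fun F => ?_⟩
  classical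
  refine ⟨F.biUnion fun g => (h g).toFinset, fun x hx => ?_⟩
  have h1 : ∀ y ∈ ball F x, |f y - f x| ≤ 1 := by
    rintro y (rfl | ⟨g, hg, rfl⟩)
    · simp
    · by_contra hcon
      exact hx (Finset.mem_biUnion.2 ⟨g, hg, (h g).mem_toFinset.2 (not_le.1 hcon)⟩)
  refine lt_of_le_of_lt (Metric.diam_le_of_forall_dist_le (C := 2) (by norm_num) ?_) (by norm_num)
  rintro _ ⟨y, hy, rfl⟩ _ ⟨z, hz, rfl⟩
  rw [Real.dist_eq]
  have h2 := h1 y hy
  have h3 := h1 z hz
  rw [abs_le] at h2 h3 ⊢
  constructor <;> linarith [h2.1, h2.2, h3.1, h3.2]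

end Pool.Agent.R650.SoBo
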