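import Pool.Agent.R650.SL2

/-!
# The group generated by the elementary matrices over `ℝ[X]` is so-bounded, not bo-bounded
-/

set_option autoImplicit false

open Set Polynomial Matrix

namespace Pool.Agent.R650.SL2

open SoBo

noncomputable section

/-- the group generated by the elementary matrices -/
def H : Subgroup SL := Subgroup.closure (range up ∪ range lo)

lemma up_mem (p : ℝ[X]) : up p ∈ H := Subgroup.subset_closure (Or.inl ⟨p, rfl⟩)
lemma lo_mem (p : ℝ[X]) : lo p ∈ H := Subgroup.subset_closure (Or.inr ⟨p, rfl⟩)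

lemma Em_zero : Em 0 = up (-1) * lo 1 * up (-1) := by
  apply Subtype.ext
  rw [Matrix.SpecialLinearGroup.coe_mul, Matrix.SpecialLinearGroup.coe_mul, up_val, lo_val,
    Em_val, Matrix.mul_fin_two, Matrix.mul_fin_two]
  simp

lemma Em_eq (q : ℝ[X]) : Em q = up q * Em 0 := by
  apply Subtype.ext
  rw [Matrix.SpecialLinearGroup.coe_mul, up_val, Em_val, Em_val, Matrix.mul_fin_two]
  simp

lemma Em_mem (q : ℝ[X]) : Em q ∈ H := by
  rw [Em_eq, Em_zero]
  exact H.mul_mem (up_mem _) (H.mul_mem (H.mul_mem (up_mem _) (lo_mem _)) (up_mem _))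

lemma gam_mem (n : ℕ) : gam n ∈ H := by
  induction n with
  | zero => exact H.one_mem
  | succ n ih => exact H.mul_mem (Em_mem _) ih

lemma dg_eq (a : ℝˣ) : dg a = up (C (a : ℝ)) * lo (- C ((a⁻¹ : ℝˣ) : ℝ)) * up (C (a : ℝ)) * Em 0 := by
  have h1 : C (a : ℝ) * C ((a⁻¹ : ℝˣ) : ℝ) = 1 := by rw [← C_mul]; simp
  have h2 : C ((a⁻¹ : ℝˣ) : ℝ) * C (a : ℝ) = 1 := by rw [← C_mul]; simp
  apply Subtype.ext
  rw [Matrix.SpecialLinearGroup.coe_mul, Matrix.SpecialLinearGroup.coe_mul,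
    Matrix.SpecialLinearGroup.coe_mul, up_val, lo_val, Em_val, dg_val, Matrix.mul_fin_two,
    Matrix.mul_fin_two, Matrix.mul_fin_two]
  simp only [one_mul, mul_zero, add_zero, zero_add, mul_one, mul_neg, neg_mul, h1, h2]
  simp

lemma dg_mem (a : ℝˣ) : dg a ∈ H := by
  rw [dg_eq]
  exact H.mul_mem (H.mul_mem (H.mul_mem (up_mem _) (lo_mem _)) (up_mem _)) (Em_mem _)

lemma dg_up (a : ℝˣ) (p : ℝ[X]) : dg a * up p = up (C ((a : ℝ) * a) * p) * dg a := by
  have h1 : C (a : ℝ) * C ((a⁻¹ : ℝˣ) : ℝ) = 1 := by rw [← C_mul]; simp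
  apply Subtype.ext
  rw [Matrix.SpecialLinearGroup.coe_mul, Matrix.SpecialLinearGroup.coe_mul, up_val, up_val,
    dg_val, Matrix.mul_fin_two, Matrix.mul_fin_two, C_mul]
  have h2 : C (a : ℝ) * C (a : ℝ) * p * C ((a⁻¹ : ℝˣ) : ℝ) = C (a : ℝ) * p := by
    linear_combination C (a : ℝ) * p * h1
  simp only [one_mul, zero_mul, mul_zero, add_zero, zero_add, mul_one, h2]

lemma dg_lo (a : ℝˣ) (p : ℝ[X]) :
    dg a * lo p = lo (C (((a⁻¹ : ℝˣ) : ℝ) * ((a⁻¹ : ℝˣ) : ℝ)) * p) * dg a := by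
  have h1 : C (a : ℝ) * C ((a⁻¹ : ℝˣ) : ℝ) = 1 := by rw [← C_mul]; simp
  apply Subtype.ext
  rw [Matrix.SpecialLinearGroup.coe_mul, Matrix.SpecialLinearGroup.coe_mul, lo_val, lo_val,
    dg_val, Matrix.mul_fin_two, Matrix.mul_fin_two, C_mul]
  have h2 : C ((a⁻¹ : ℝˣ) : ℝ) * C ((a⁻¹ : ℝˣ) : ℝ) * p * C (a : ℝ) =
      C ((a⁻¹ : ℝˣ) : ℝ) * p := by
    linear_combination C ((a⁻¹ : ℝˣ) : ℝ) * p * h1
  simp only [one_mul, zero_mul, mul_zero, add_zero, zero_add, mul_one, h2]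

/-- the subgroups -/
def U : Subgroup H := upH.range.subgroupOf H
/-- the subgroups -/
def V : Subgroup H := loH.range.subgroupOf H
/-- the subgroups -/
def T : Subgroup H := dgH.range.subgroupOf H

lemma mem_U {x : H} : x ∈ U ↔ ∃ p, up p = x.1 := by
  rw [U, Subgroup.mem_subgroupOf, MonoidHom.mem_range]
  rfl

lemma mem_V {x : H} : x ∈ V ↔ ∃ p, lo p = x.1 := by
  rw [V, Subgroup.mem_subgroupOf, MonoidHom.mem_range]
  rfl

lemma mem_T {x : H} : x ∈ T ↔ ∃ a, dg a = x.1 := by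
  rw [T, Subgroup.mem_subgroupOf, MonoidHom.mem_range]
  rfl

lemma up_inj {p q : ℝ[X]} (h : up p = up q) : p = q := by
  have := congrArg (fun x : SL => x.1 0 1) h
  simpa [up] using this

lemma lo_inj {p q : ℝ[X]} (h : lo p = lo q) : p = q := by
  have := congrArg (fun x : SL => x.1 1 0) h
  simpa [lo] using this

lemma unc (S : Subgroup H) (ι : ℝ → H) (hι : Function.Injective ι) (hS : ∀ r, ι r ∈ S) :
    ¬ (S : Set H).Countable := by
  intro hc
  have h1 : (ι ⁻¹' (S : Set H)).Countable := hc.preimage hι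
  have h2 : ι ⁻¹' (S : Set H) = univ := eq_univ_of_forall hS
  rw [h2] at h1
  exact not_countable_univ h1

theorem so : SoBounded H := by
  refine soBounded U V T ?_ ?_ ?_ ?_ ?_ ?_ ?_ ?_
  · intro a ha b hb
    obtain ⟨p, hp⟩ := mem_U.1 ha
    obtain ⟨q, hq⟩ := mem_U.1 hb
    apply Subtype.ext
    rw [Subgroup.coe_mul, Subgroup.coe_mul, ← hp, ← hq, up_mul, up_mul, add_comm]
  · refine unc U (fun r => ⟨up (C r), up_mem _⟩) (fun r s h => ?_) (fun r => mem_U.2 ⟨C r, rfl⟩)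
    exact C_injective (up_inj (congrArg Subtype.val h))
  · intro a ha b hb
    obtain ⟨p, hp⟩ := mem_V.1 ha
    obtain ⟨q, hq⟩ := mem_V.1 hb
    apply Subtype.ext
    rw [Subgroup.coe_mul, Subgroup.coe_mul, ← hp, ← hq, lo_mul, lo_mul, add_comm]
  · refine unc V (fun r => ⟨lo (C r), lo_mem _⟩) (fun r s h => ?_) (fun r => mem_V.2 ⟨C r, rfl⟩)
    exact C_injective (lo_inj (congrArg Subtype.val h))
  · have hu : ∀ n : ℕ, ((n : ℝ) + 1) ≠ 0 := fun n => by positivity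
    refine infinite_of_injective_forall_mem (f := fun n : ℕ =>
      (⟨dg (Units.mk0 ((n : ℝ) + 1) (hu n)), dg_mem _⟩ : H)) (fun n m h => ?_)
      (fun n => mem_T.2 ⟨_, rfl⟩)
    have h1 : dg (Units.mk0 ((n : ℝ) + 1) (hu n)) = dg (Units.mk0 ((m : ℝ) + 1) (hu m)) :=
      congrArg Subtype.val h
    have h2 := congrArg (fun x : SL => x.1 0 0) h1
    have h3 : C ((n : ℝ) + 1) = C ((m : ℝ) + 1) := by simpa [dg] using h2
    have h4 := C_injective h3
    exact_mod_cast add_right_cancel h4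
  · intro t ht u hu
    obtain ⟨a, ha⟩ := mem_T.1 ht
    obtain ⟨p, hp⟩ := mem_U.1 hu
    refine mem_U.2 ⟨C ((a : ℝ) * a) * p, ?_⟩
    rw [Subgroup.coe_mul, Subgroup.coe_mul, Subgroup.coe_inv, ← ha, ← hp, dg_up,
      mul_inv_cancel_right]
  · intro t ht u hu
    obtain ⟨a, ha⟩ := mem_T.1 ht
    obtain ⟨p, hp⟩ := mem_V.1 hu
    refine mem_V.2 ⟨C (((a⁻¹ : ℝˣ) : ℝ) * ((a⁻¹ : ℝˣ) : ℝ)) * p, ?_⟩
    rw [Subgroup.coe_mul, Subgroup.coe_mul, Subgroup.coe_inv, ← ha, ← hp, dg_lo,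
      mul_inv_cancel_right]
  · have h := Subgroup.closure_closure_coe_preimage (k := (range up ∪ range lo : Set SL))
    have h' : Subgroup.closure ((fun x : H => (x : SL)) ⁻¹' (range up ∪ range lo)) = ⊤ := h
    rw [eq_top_iff, ← h']
    apply Subgroup.closure_mono
    rintro x (⟨p, hp⟩ | ⟨p, hp⟩)
    · exact Or.inl (mem_U.2 ⟨p, hp⟩)
    · exact Or.inr (mem_V.2 ⟨p, hp⟩)

lemma ff_le {g x : SL} (h : ¬ ∃ n, P x (n + 1) ∧ ¬ P (g * x) n) : ff x ≤ ff (g * x) + 1 := by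
  rcases Nat.eq_zero_or_pos (ff x) with h0 | h0
  · omega
  · obtain ⟨n, hn⟩ : ∃ n, ff x = n + 1 := ⟨ff x - 1, by omega⟩
    have h1 := ff_spec (x := x) (by omega)
    rw [hn] at h1
    by_contra hcon
    apply h
    refine ⟨n, h1, fun h2 => ?_⟩
    have := le_ff h2
    omega

theorem bo : ¬ BoBounded H := by
  intro hb
  obtain ⟨B, M, hBM⟩ := hb (fun x => (ff x.1 : ℝ)) (by
    apply bo_of_finite
    intro g
    have h1 := (jump_finite g.1).preimage (f := fun x : H => x.1) Subtype.val_injective.injOn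
    have h2 := (jump_finite (g.1)⁻¹).preimage (f := fun x : H => g.1 * x.1)
      (fun a _ b _ hab => Subtype.val_injective (mul_left_cancel hab))
    refine (h1.union h2).subset fun x hx => ?_
    by_contra hcon
    rw [mem_union, not_or] at hcon
    obtain ⟨h3, h4⟩ := hcon
    have h5 := ff_le (g := g.1) (x := x.1) h3
    have h6 := ff_le (g := (g.1)⁻¹) (x := g.1 * x.1) h4
    rw [inv_mul_cancel_left] at h6
    have hx' : 1 < |(ff (g * x).1 : ℝ) - ff x.1| := hx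
    rw [Subgroup.coe_mul] at hx'
    have h5' : (ff x.1 : ℝ) ≤ ff (g.1 * x.1) + 1 := by exact_mod_cast h5
    have h6' : (ff (g.1 * x.1) : ℝ) ≤ ff x.1 + 1 := by exact_mod_cast h6
    have h7 : |(ff (g.1 * x.1) : ℝ) - ff x.1| ≤ 1 := by
      rw [abs_le]; constructor <;> linarith
    linarith)
  set K : ℕ := ⌈M⌉₊ + ∑ b ∈ B, ff b.1 + 1 with hK
  set x : H := ⟨Em 0 * gam K, H.mul_mem (Em_mem _) (gam_mem _)⟩ with hx
  have h1 : K ≤ ff x.1 := le_ff (P_gam K)
  by_cases hxB : x ∈ B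
  · have h2 : ff x.1 ≤ ∑ b ∈ B, ff b.1 :=
      Finset.single_le_sum (f := fun b : H => ff b.1) (fun _ _ => Nat.zero_le _) hxB
    omega
  · have h2 := hBM x hxB
    have h3 : (K : ℝ) ≤ ff x.1 := by exact_mod_cast h1
    have h4 : M ≤ (⌈M⌉₊ : ℝ) := Nat.le_ceil M
    have h5 : ((⌈M⌉₊ + 1 : ℕ) : ℝ) ≤ K := by
      have : ⌈M⌉₊ + 1 ≤ K := by omega
      exact_mod_cast this
    push_cast at h5
    have h6 := le_abs_self ((ff x.1 : ℕ) : ℝ)
    linarith

theorem main : ∃ (G : Type) (_ : Group G), SoBounded G ∧ ¬ BoBounded G :=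
  ⟨H, inferInstance, so, bo⟩

end

end Pool.Agent.R650.SL2
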