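import Mathlib

/-!
# Slowly oscillating functions on permutation groups are constant at infinity
-/

set_option autoImplicit false

open Set Topology

namespace Pool.Agent.R650.SoPerm

universe u

section General
variable {G : Type u} [Group G]

/-- the ball `E_F[x] = {x} ∪ F x` of the finitary ballean -/
def ball (F : Finset G) (x : G) : Set G := insert x ((fun g => g * x) '' (F : Set G))

/-- slowly oscillating functions -/
def SlowlyOscillating (f : G → ℝ) : Prop :=
  ∀ F : Finset G, ∀ ε : ℝ, 0 < ε → ∃ B : Finset G, ∀ x, x ∉ B → Metric.diam (f '' ball F x) < ε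

/-- functions constant at infinity -/
def ConstantAtInfinity (f : G → ℝ) : Prop := ∃ c : ℝ, ∀ O ∈ 𝓝 c, {x | f x ∉ O}.Finite

lemma ball_finite (F : Finset G) (x : G) : (ball F x).Finite :=
  (F.finite_toSet.image _).insert x

lemma so_finite {f : G → ℝ} (hf : SlowlyOscillating f) (g : G) (ε : ℝ) (hε : 0 < ε) :
    {x | ε ≤ |f (g * x) - f x|}.Finite := by
  obtain ⟨B, hB⟩ := hf {g} ε hε
  refine B.finite_toSet.subset fun x hx => ?_
  by_contra hxB
  have h1 := hB x hxB
  have hb : Bornology.IsBounded (f '' ball {g} x) := ((ball_finite {g} x).image f).isBounded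
  have h2 := Metric.dist_le_diam_of_mem hb (x := f (g * x)) (y := f x)
    ⟨g * x, Or.inr ⟨g, by simp, rfl⟩, rfl⟩ ⟨x, Or.inl rfl, rfl⟩
  rw [Real.dist_eq] at h2
  have h3 : ε ≤ |f (g * x) - f x| := hx
  linarith

/-- for an uncountable subgroup `V` commuting with an infinite set, the function `v ↦ f (v x)` is
constant up to countable sets -/
lemma exists_limit {f : G → ℝ} (hf : SlowlyOscillating f) (V : Subgroup G) (D : Set G)
    (hD : D.Infinite) (hV : ∀ a ∈ V, ∀ b ∈ D, a * b = b * a) :
    ∃ (E : Set G) (L : G → ℝ), E.Countable ∧ ∀ x, ∀ v ∈ V, v * x ∉ E → f (v * x) = L x := by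
  obtain ⟨d, hd⟩ : ∃ d : ℕ ↪ G, ∀ n, d n ∈ D := by
    have := hD.to_subtype
    exact ⟨(Infinite.natEmbedding D).trans (Function.Embedding.subtype _),
      fun n => (Infinite.natEmbedding D n).2⟩
  -- the exceptional set
  set E : Set G := ⋃ n : ℕ, ⋃ m : ℕ, {x | 1 / ((m : ℝ) + 1) ≤ |f (d n * x) - f x|} with hE
  have hEc : E.Countable := countable_iUnion fun n => countable_iUnion fun m =>
    (so_finite hf (d n) _ (by positivity)).countable
  have hEx : ∀ x, x ∉ E → ∀ n, f (d n * x) = f x := by
    intro x hx n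
    by_contra hne
    have hpos : 0 < |f (d n * x) - f x| := abs_pos.2 (sub_ne_zero.2 hne)
    obtain ⟨m, hm⟩ := exists_nat_one_div_lt hpos
    exact hx (mem_iUnion.2 ⟨n, mem_iUnion.2 ⟨m, hm.le⟩⟩)
  -- two points of the same orbit outside `E` have the same value
  have key : ∀ x, x ∉ E → ∀ v ∈ V, v * x ∉ E → f (v * x) = f x := by
    intro x hx v hv hvx
    by_contra hne
    have hpos : 0 < |f (v * x) - f x| := abs_pos.2 (sub_ne_zero.2 hne)
    have hfin := so_finite hf v _ hpos
    have hsub : range (fun n => d n * x) ⊆ {y | |f (v * x) - f x| ≤ |f (v * y) - f y|} := by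
      rintro _ ⟨n, rfl⟩
      have e1 : v * (d n * x) = d n * (v * x) := by
        rw [← mul_assoc, ← mul_assoc, hV v hv _ (hd n)]
      change |f (v * x) - f x| ≤ |f (v * (d n * x)) - f (d n * x)|
      rw [e1, hEx _ hvx n, hEx _ hx n]
    have hinj : Function.Injective fun n => d n * x := fun a b hab =>
      d.injective (mul_right_cancel hab)
    exact (infinite_range_of_injective hinj) (hfin.subset hsub)
  classical
  refine ⟨E, fun x => if h : ∃ v ∈ V, v * x ∉ E then f (h.choose * x) else 0, hEc, ?_⟩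
  intro x v hv hvx
  have h : ∃ v ∈ V, v * x ∉ E := ⟨v, hv, hvx⟩
  simp only [dif_pos h]
  obtain ⟨h1, h2⟩ := h.choose_spec
  have h3 := key _ h2 (v * h.choose⁻¹) (V.mul_mem hv (V.inv_mem h1)) (by simpa using hvx)
  simpa using h3

/-- the exceptional translates are countable -/
lemma countable_exc {E : Set G} (hE : E.Countable) (x : G) : {v | v * x ∈ E}.Countable :=
  hE.preimage (f := fun v => v * x) (mul_left_injective x)

lemma exists_good (V : Subgroup G) (hVu : ¬ (V : Set G).Countable) (C : Set G)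
    (hC : C.Countable) : ∃ v ∈ V, v ∉ C := by
  by_contra hcon
  push Not at hcon
  exact hVu (hC.mono hcon)

/-- the limit is a limit at infinity -/
lemma limit_close {f : G → ℝ} (hf : SlowlyOscillating f) (V : Subgroup G)
    (hVu : ¬ (V : Set G).Countable) {E : Set G} {L : G → ℝ} (hE : E.Countable)
    (hL : ∀ x, ∀ v ∈ V, v * x ∉ E → f (v * x) = L x) (ε : ℝ) (hε : 0 < ε) :
    {x | ε ≤ |L x - f x|}.Finite := by
  by_contra hinf
  have hinf' : {x | ε ≤ |L x - f x|}.Infinite := hinf
  obtain ⟨s, hs⟩ : ∃ s : ℕ ↪ G, ∀ n, ε ≤ |L (s n) - f (s n)| := by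
    have := hinf'.to_subtype
    exact ⟨(Infinite.natEmbedding {x | ε ≤ |L x - f x|}).trans (Function.Embedding.subtype _),
      fun n => (Infinite.natEmbedding {x | ε ≤ |L x - f x|} n).2⟩
  obtain ⟨v, hv, hv'⟩ := exists_good V hVu (⋃ n, {v | v * s n ∈ E})
    (countable_iUnion fun n => countable_exc hE (s n))
  have h1 : ∀ n, v * s n ∉ E := fun n hn => hv' (mem_iUnion.2 ⟨n, hn⟩)
  have h2 : range s ⊆ {x | ε ≤ |f (v * x) - f x|} := by
    rintro _ ⟨n, rfl⟩
    change ε ≤ |f (v * s n) - f (s n)|
    rw [hL _ v hv (h1 n)]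
    exact hs n
  exact (infinite_range_of_injective s.injective) ((so_finite hf v ε hε).subset h2)

/-- the limit is invariant under the normalizer -/
lemma limit_norm {f : G → ℝ} (hf : SlowlyOscillating f) (V : Subgroup G)
    (hVu : ¬ (V : Set G).Countable) {E : Set G} {L : G → ℝ} (hE : E.Countable)
    (hL : ∀ x, ∀ v ∈ V, v * x ∉ E → f (v * x) = L x) (n : G)
    (hn : ∀ v ∈ V, n * v * n⁻¹ ∈ V) (x : G) : L (n * x) = L x := by
  by_contra hne
  have hpos : 0 < |L (n * x) - L x| := abs_pos.2 (sub_ne_zero.2 hne)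
  have hfin := so_finite hf n _ hpos
  obtain ⟨v, hv, hv'⟩ := exists_good V hVu
    ({v | v * x ∈ E} ∪ {v | n * v * x ∈ E} ∪ {v | v * x ∈ {y | |L (n * x) - L x| ≤
      |f (n * y) - f y|}})
    (((countable_exc hE x).union
      (hE.preimage (f := fun v => n * v * x) (fun a b hab => by
        simpa using hab))).union (countable_exc hfin.countable x))
  simp only [mem_union, not_or] at hv'
  obtain ⟨⟨h1, h2⟩, h3⟩ := hv'
  have e1 : f (v * x) = L x := hL x v hv h1
  have e2 : f (n * (v * x)) = L (n * x) := by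
    have h4 := hL (n * x) (n * v * n⁻¹) (hn v hv)
    have e3 : n * v * n⁻¹ * (n * x) = n * (v * x) := by group
    rw [e3] at h4
    apply h4
    rw [← mul_assoc]
    exact h2
  apply h3
  change |L (n * x) - L x| ≤ |f (n * (v * x)) - f (v * x)|
  rw [e1, e2]

/-- A criterion. Let `A` be an uncountable subgroup commuting with an infinite subgroup `B`, and
suppose that `g A g⁻¹` has an infinite intersection with `A` or with `B`, for all `g`. Then slowly
oscillating functions are constant at infinity. -/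
theorem criterion (A B : Subgroup G) (hA : ¬ (A : Set G).Countable) (hB : (B : Set G).Infinite)
    (hAB : ∀ a ∈ A, ∀ b ∈ B, a * b = b * a)
    (h : ∀ g : G, {x | x ∈ A ∧ g⁻¹ * x * g ∈ A}.Infinite ∨ {x | x ∈ B ∧ g⁻¹ * x * g ∈ A}.Infinite)
    (f : G → ℝ) (hf : SlowlyOscillating f) : ConstantAtInfinity f := by
  obtain ⟨E, L, hE, hL⟩ := exists_limit hf A B hB hAB
  have hc := limit_close hf A hA hE hL
  have hinvA : ∀ a ∈ A, ∀ x, L (a * x) = L x := fun a ha =>
    limit_norm hf A hA hE hL a fun v hv => A.mul_mem (A.mul_mem ha hv) (A.inv_mem ha)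
  have hinvB : ∀ b ∈ B, ∀ x, L (b * x) = L x := fun b hb =>
    limit_norm hf A hA hE hL b fun v hv => by
      rw [← hAB v hv b hb]
      simpa using hv
  have hinv : ∀ g x, L (g⁻¹ * x) = L x := by
    intro g x
    by_contra hne
    have hpos : 0 < |L (g⁻¹ * x) - L x| := abs_pos.2 (sub_ne_zero.2 hne)
    set η := |L (g⁻¹ * x) - L x| with hη
    -- an infinite set of elements preserving both functions
    obtain ⟨K, hK, hK1, hK2⟩ : ∃ K : Set G, K.Infinite ∧ (∀ k ∈ K, ∀ y, L (k * y) = L y) ∧
        ∀ k ∈ K, g⁻¹ * k * g ∈ A := by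
      rcases h g with h | h
      · exact ⟨_, h, fun k hk => hinvA k hk.1, fun k hk => hk.2⟩
      · exact ⟨_, h, fun k hk => hinvB k hk.1, fun k hk => hk.2⟩
    have h1 := hc (η / 4) (by positivity)
    have h2 := so_finite hf g⁻¹ (η / 4) (by positivity)
    have h3 : {y | η / 4 ≤ |L (g⁻¹ * y) - f (g⁻¹ * y)|}.Finite :=
      h1.preimage (f := fun y => g⁻¹ * y) (mul_right_injective g⁻¹).injOn
    have hsub : (fun k => k * x) '' K ⊆ {y | η / 4 ≤ |L y - f y|} ∪
        {y | η / 4 ≤ |f (g⁻¹ * y) - f y|} ∪ {y | η / 4 ≤ |L (g⁻¹ * y) - f (g⁻¹ * y)|} := by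
      rintro _ ⟨k, hk, rfl⟩
      by_contra hcon
      simp only [mem_union, not_or] at hcon
      obtain ⟨⟨h4, h5⟩, h6⟩ := hcon
      have h4' : |L (k * x) - f (k * x)| < η / 4 := not_le.1 h4
      have h5' : |f (g⁻¹ * (k * x)) - f (k * x)| < η / 4 := not_le.1 h5
      have h6' : |L (g⁻¹ * (k * x)) - f (g⁻¹ * (k * x))| < η / 4 := not_le.1 h6
      have e1 : L (k * x) = L x := hK1 k hk x
      have e2 : L (g⁻¹ * (k * x)) = L (g⁻¹ * x) := by
        have e3 : g⁻¹ * (k * x) = (g⁻¹ * k * g) * (g⁻¹ * x) := by group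
        rw [e3, hinvA _ (hK2 k hk)]
      rw [e1] at h4'
      rw [e2] at h6'
      have h7 : η ≤ |L (g⁻¹ * x) - f (g⁻¹ * (k * x))| + |f (g⁻¹ * (k * x)) - f (k * x)| +
          |L x - f (k * x)| := by
        rw [hη]
        have : L (g⁻¹ * x) - L x = (L (g⁻¹ * x) - f (g⁻¹ * (k * x))) +
          (f (g⁻¹ * (k * x)) - f (k * x)) - (L x - f (k * x)) := by ring
        rw [this]
        exact (abs_sub _ _).trans (by gcongr; exact abs_add_le _ _)
      linarith
    have hinj : ((fun k => k * x) '' K).Infinite := hK.image (mul_left_injective x).injOn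
    exact hinj (((h1.union h2).union h3).subset hsub)
  refine ⟨L 1, fun O hO => ?_⟩
  obtain ⟨ε, hε, hb⟩ := Metric.mem_nhds_iff.1 hO
  refine (hc ε hε).subset fun x hx => ?_
  have h1 : L x = L 1 := by have := hinv x⁻¹ 1; rwa [mul_one, inv_inv] at this
  change ε ≤ |L x - f x|
  by_contra hcon
  apply hx
  apply hb
  rw [Metric.mem_ball, Real.dist_eq, abs_sub_comm, ← h1]
  exact not_le.1 hcon

end General

/-! ### Permutation groups -/

variable {X : Type u}

/-- permutations supported in `Y` -/
def supp (Y : Set X) : Subgroup (Equiv.Perm X) where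
  carrier := {g | ∀ x, x ∉ Y → g x = x}
  mul_mem' := fun {a b} ha hb x hx => by rw [Equiv.Perm.mul_apply, hb x hx, ha x hx]
  one_mem' := fun _ _ => rfl
  inv_mem' := fun {a} ha x hx => by rw [Equiv.Perm.inv_eq_iff_eq, ha x hx]

lemma mem_supp {Y : Set X} {g : Equiv.Perm X} : g ∈ supp Y ↔ ∀ x, x ∉ Y → g x = x := Iff.rfl

lemma maps_of_mem {Y : Set X} {g : Equiv.Perm X} (hg : g ∈ supp Y) {x : X} (hx : x ∈ Y) :
    g x ∈ Y := by
  by_contra h
  have h1 := hg _ h
  have h2 := g.injective h1
  rw [h2] at h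
  exact h hx

lemma commute_of_disjoint {Y Z : Set X} (h : Disjoint Y Z) {a b : Equiv.Perm X}
    (ha : a ∈ supp Y) (hb : b ∈ supp Z) : a * b = b * a := by
  ext x
  rw [Equiv.Perm.mul_apply, Equiv.Perm.mul_apply]
  by_cases hx : x ∈ Y
  · have h1 : x ∉ Z := fun h2 => Set.disjoint_left.1 h hx h2
    have h2 : a x ∉ Z := fun h3 => Set.disjoint_left.1 h (maps_of_mem ha hx) h3
    rw [hb _ h1, hb _ h2]
  · rw [ha _ hx]
    by_cases hz : x ∈ Z
    · exact ha _ fun h3 => Set.disjoint_left.1 h h3 (maps_of_mem hb hz)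
    · rw [hb _ hz, ha _ hx]

lemma supp_mono {Y Z : Set X} (h : Y ⊆ Z) : supp Y ≤ supp Z := fun _ hg x hx =>
  hg x fun h' => hx (h h')

lemma conj_mem {Y : Set X} {a : Equiv.Perm X} (g : Equiv.Perm X) (ha : a ∈ supp (g '' Y)) :
    g⁻¹ * a * g ∈ supp Y := by
  intro x hx
  rw [Equiv.Perm.mul_apply, Equiv.Perm.mul_apply, Equiv.Perm.inv_eq_iff_eq]
  apply ha
  rintro ⟨y, hy, e⟩
  rw [g.injective e] at hy
  exact hx hy

/-- the group of permutations supported in an infinite set is uncountable -/
lemma supp_uncountable {Y : Set X} (hY : Y.Infinite) :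
    ¬ ((supp Y : Subgroup (Equiv.Perm X)) : Set (Equiv.Perm X)).Countable := by
  classical
  intro hc
  have := hY.to_subtype
  obtain ⟨e⟩ : Nonempty (ℕ × Bool ↪ Y) := by
    obtain ⟨e0⟩ : Nonempty ((ℕ × Bool) ≃ ℕ) := nonempty_denumerable_iff.2
      ⟨inferInstance, inferInstance⟩ |>.map fun h => h.eqv
    exact ⟨e0.toEmbedding.trans (Infinite.natEmbedding Y)⟩
  -- the involution of a set of natural numbers
  let sw : Set ℕ → Equiv.Perm (ℕ × Bool) := fun s => Function.Involutive.toPerm
    (fun p => if p.1 ∈ s then (p.1, !p.2) else p) (by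
      intro p
      by_cases hp : p.1 ∈ s <;> simp [hp])
  let e' : ℕ × Bool ↪ X := e.trans (Function.Embedding.subtype _)
  let F : Set ℕ → Equiv.Perm X := fun s =>
    (sw s).extendDomain (Equiv.ofInjective e' e'.injective)
  have hF : ∀ s, F s ∈ supp Y := by
    intro s x hx
    apply Equiv.Perm.extendDomain_apply_not_subtype
    rintro ⟨p, rfl⟩
    exact hx (e p).2
  have hinj : Function.Injective F := by
    intro s t hst
    ext n
    have h1 : ∀ p, sw s p = sw t p := by
      intro p
      have h2 := congrArg (fun g : Equiv.Perm X =>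
        g ((Equiv.ofInjective e' e'.injective p : Set.range e') : X)) hst
      simp only [F] at h2
      rw [Equiv.Perm.extendDomain_apply_image, Equiv.Perm.extendDomain_apply_image] at h2
      exact (Equiv.ofInjective e' e'.injective).injective (Subtype.ext h2)
    have h3 : (if n ∈ s then ((n, false) : ℕ × Bool) else (n, true)) =
        if n ∈ t then ((n, false) : ℕ × Bool) else (n, true) := h1 (n, true)
    by_cases hs : n ∈ s <;> by_cases ht : n ∈ t
    · simp [hs, ht]
    · simp [hs, ht] at h3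
    · simp [hs, ht] at h3
    · simp [hs, ht]
  have h1 : (F ⁻¹' (supp Y : Set (Equiv.Perm X))).Countable := hc.preimage hinj
  have h2 : F ⁻¹' (supp Y : Set (Equiv.Perm X)) = univ := eq_univ_of_forall hF
  rw [h2, countable_univ_iff] at h1
  obtain ⟨q, hq⟩ := exists_surjective_nat (Set ℕ)
  exact Function.cantor_surjective q hq

/-- **Slowly oscillating functions on the group of all permutations of a set are constant at
infinity.** -/
theorem perm (f : Equiv.Perm X → ℝ) (hf : SlowlyOscillating f) : ConstantAtInfinity f := by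
  rcases finite_or_infinite X with hX | hX
  · exact ⟨0, fun O _ => toFinite _⟩
  · -- split `X` in two infinite parts
    obtain ⟨Y, hY, hYc⟩ : ∃ Y : Set X, Y.Infinite ∧ Yᶜ.Infinite := by
      let e := Infinite.natEmbedding X
      refine ⟨range fun n => e (2 * n), ?_, ?_⟩
      · exact infinite_range_of_injective fun a b h => by
          have := e.injective h; omega
      · refine Set.Infinite.mono (s := range fun n => e (2 * n + 1)) ?_
          (infinite_range_of_injective fun a b h => by
            have := e.injective h; omega)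
        rintro _ ⟨n, rfl⟩ ⟨m, hm⟩
        have := e.injective hm
        omega
    refine criterion (supp Y) (supp Yᶜ) (supp_uncountable hY)
      (fun h => supp_uncountable hYc h.countable)
      (fun a ha b hb => commute_of_disjoint disjoint_compl_right ha hb) (fun g => ?_) f hf
    have h1 : (g '' Y).Infinite := hY.image g.injective.injOn
    have h2 : (g '' Y ∩ Y).Infinite ∨ (g '' Y ∩ Yᶜ).Infinite := by
      by_contra hcon
      rw [not_or, not_infinite, not_infinite] at hcon
      apply h1
      have : g '' Y = (g '' Y ∩ Y) ∪ (g '' Y ∩ Yᶜ) := by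
        rw [← inter_union_distrib_left, union_compl_self, inter_univ]
      rw [this]
      exact hcon.1.union hcon.2
    have h3 : ∀ Z : Set X, Z.Infinite →
        ((supp Z : Subgroup (Equiv.Perm X)) : Set (Equiv.Perm X)).Infinite :=
      fun Z hZ h => supp_uncountable hZ h.countable
    rcases h2 with h2 | h2
    · left
      refine (h3 _ h2).mono fun x hx => ⟨supp_mono inter_subset_right hx, ?_⟩
      exact conj_mem g (supp_mono inter_subset_left hx)
    · right
      refine (h3 _ h2).mono fun x hx => ⟨supp_mono inter_subset_right hx, ?_⟩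
      exact conj_mem g (supp_mono inter_subset_left hx)

end Pool.Agent.R650.SoPerm
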