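import Mathlib

/-!
# The compact symplectic group `Sp(n)`: definition
-/

set_option autoImplicit false

namespace Pool.Agent.R650.SpInv

open Matrix

/-- The matrix `J = [[0, I], [-I, 0]]`. -/
def J (n : ℕ) : Matrix (Fin n ⊕ Fin n) (Fin n ⊕ Fin n) ℂ := Matrix.fromBlocks 0 1 (-1) 0

/-- The compact symplectic group `Sp(n) = {A ∈ U(2n) : Aᵗ J A = J}`. -/
def Sp (n : ℕ) : Set (Matrix (Fin n ⊕ Fin n) (Fin n ⊕ Fin n) ℂ) :=
  {A | A ∈ Matrix.unitaryGroup (Fin n ⊕ Fin n) ℂ ∧ Aᵀ * J n * A = J n}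

end Pool.Agent.R650.SpInv
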