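import Mathlib
import Pool.Agent.R650.SpInvDefs

/-!
# Every element of `Sp(n)`, `n ≥ 2`, is a product of five involutions
-/

set_option autoImplicit false

namespace Pool.Agent.R650.SpInv

open Matrix

variable {n : ℕ}

/-- complex conjugation of the entries -/
abbrev cj (A : Matrix (Fin n ⊕ Fin n) (Fin n ⊕ Fin n) ℂ) :
    Matrix (Fin n ⊕ Fin n) (Fin n ⊕ Fin n) ℂ := A.map (starRingEnd ℂ)

theorem cj_mul (A B : Matrix (Fin n ⊕ Fin n) (Fin n ⊕ Fin n) ℂ) : cj (A * B) = cj A * cj B :=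
  Matrix.map_mul

theorem cj_J : cj (J n) = J n := by
  ext i j
  rcases i with i | i <;> rcases j with j | j <;>
    simp [J, cj, Matrix.one_apply, apply_ite (starRingEnd ℂ)]

theorem J_mul_J : J n * J n = -1 := by
  rw [J, Matrix.fromBlocks_multiply]
  ext i j
  rcases i with i | i <;> rcases j with j | j <;> simp [Matrix.one_apply]

theorem cj_conjTranspose (A : Matrix (Fin n ⊕ Fin n) (Fin n ⊕ Fin n) ℂ) : cj Aᴴ = Aᵀ := by
  ext i j
  simp [cj]

theorem cj_cj (A : Matrix (Fin n ⊕ Fin n) (Fin n ⊕ Fin n) ℂ) : cj (cj A) = A := by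
  ext i j
  simp [cj]

/-- A reformulation of membership. -/
theorem mem_Sp_iff (A : Matrix (Fin n ⊕ Fin n) (Fin n ⊕ Fin n) ℂ) :
    A ∈ Sp n ↔ Aᴴ * A = 1 ∧ A * J n = J n * cj A := by
  have hu : A ∈ Matrix.unitaryGroup (Fin n ⊕ Fin n) ℂ ↔ Aᴴ * A = 1 := by
    rw [Matrix.mem_unitaryGroup_iff']
    rfl
  show (A ∈ Matrix.unitaryGroup (Fin n ⊕ Fin n) ℂ ∧ Aᵀ * J n * A = J n) ↔ _
  rw [hu]
  refine and_congr_right fun h1 => ⟨fun h2 => ?_, fun h2 => ?_⟩
  · have h3 := congrArg cj h2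
    rw [cj_mul, cj_mul, cj_J] at h3
    have h4 : cj Aᵀ = Aᴴ := by
      ext i j
      simp [cj]
    rw [h4] at h3
    have h5 : A * Aᴴ = 1 := mul_eq_one_comm.1 h1
    calc A * J n = A * (Aᴴ * J n * cj A) := by rw [h3]
      _ = (A * Aᴴ) * J n * cj A := by simp only [mul_assoc]
      _ = J n * cj A := by rw [h5, one_mul]
  · have h3 : Aᴴ * (A * J n) = Aᴴ * (J n * cj A) := by rw [h2]
    rw [← mul_assoc, h1, one_mul] at h3
    have h4 := congrArg cj h3
    rw [cj_J, cj_mul, cj_mul, cj_J, cj_conjTranspose, cj_cj, ← mul_assoc] at h4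
    exact h4.symm

theorem mul_mem_Sp {A B : Matrix (Fin n ⊕ Fin n) (Fin n ⊕ Fin n) ℂ} (hA : A ∈ Sp n)
    (hB : B ∈ Sp n) : A * B ∈ Sp n := by
  rw [mem_Sp_iff] at *
  refine ⟨?_, ?_⟩
  · rw [Matrix.conjTranspose_mul, mul_assoc, ← mul_assoc Aᴴ, hA.1, one_mul, hB.1]
  · rw [cj_mul, mul_assoc, hB.2, ← mul_assoc, hA.2, mul_assoc]

theorem one_mem_Sp : (1 : Matrix (Fin n ⊕ Fin n) (Fin n ⊕ Fin n) ℂ) ∈ Sp n := by
  rw [mem_Sp_iff]
  refine ⟨by simp, ?_⟩
  have : cj (1 : Matrix (Fin n ⊕ Fin n) (Fin n ⊕ Fin n) ℂ) = 1 := by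
    ext i j
    simp [cj, Matrix.one_apply, apply_ite (starRingEnd ℂ)]
  rw [this, one_mul, mul_one]

theorem conjTranspose_mem_Sp {A : Matrix (Fin n ⊕ Fin n) (Fin n ⊕ Fin n) ℂ} (hA : A ∈ Sp n) :
    Aᴴ ∈ Sp n := by
  rw [mem_Sp_iff] at *
  have h5 : A * Aᴴ = 1 := mul_eq_one_comm.1 hA.1
  refine ⟨by rw [Matrix.conjTranspose_conjTranspose, h5], ?_⟩
  have h6 : cj A * cj Aᴴ = 1 := by
    rw [← cj_mul, h5]
    ext i j
    simp [cj, Matrix.one_apply, apply_ite (starRingEnd ℂ)]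
  calc Aᴴ * J n = Aᴴ * J n * (cj A * cj Aᴴ) := by rw [h6, mul_one]
    _ = Aᴴ * (J n * cj A) * cj Aᴴ := by simp only [mul_assoc]
    _ = (Aᴴ * A) * J n * cj Aᴴ := by rw [← hA.2]; simp only [mul_assoc]
    _ = _ := by rw [hA.1, one_mul]

/-! ### Vectors -/

/-- The alternating form. -/
def om (v w : Fin n ⊕ Fin n → ℂ) : ℂ :=
  ∑ i : Fin n, (v (Sum.inl i) * w (Sum.inr i) - v (Sum.inr i) * w (Sum.inl i))

/-- The quaternionic structure (up to sign). -/
def jj (v : Fin n ⊕ Fin n → ℂ) : Fin n ⊕ Fin n → ℂ := (-J n) *ᵥ star v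

@[simp] theorem jj_inl (v : Fin n ⊕ Fin n → ℂ) (i : Fin n) :
    jj v (Sum.inl i) = - star (v (Sum.inr i)) := by
  simp [jj, J, Matrix.mulVec, dotProduct, Matrix.one_apply, Fintype.sum_sum_type]

@[simp] theorem jj_inr (v : Fin n ⊕ Fin n → ℂ) (i : Fin n) :
    jj v (Sum.inr i) = star (v (Sum.inl i)) := by
  simp [jj, J, Matrix.mulVec, dotProduct, Matrix.one_apply, Fintype.sum_sum_type]

theorem star_jj_dot (v w : Fin n ⊕ Fin n → ℂ) : star (jj v) ⬝ᵥ w = om v w := by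
  simp only [dotProduct, om, Fintype.sum_sum_type, ← Finset.sum_add_distrib, Pi.star_apply,
    jj_inl, jj_inr, star_neg, star_star]
  refine Finset.sum_congr rfl fun i _ => ?_
  ring

theorem dot_jj (v w : Fin n ⊕ Fin n → ℂ) : star v ⬝ᵥ jj w = - star (om v w) := by
  simp only [dotProduct, om, Fintype.sum_sum_type, ← Finset.sum_add_distrib, Pi.star_apply,
    jj_inl, jj_inr, star_sum, star_sub, star_mul', ← Finset.sum_neg_distrib]
  refine Finset.sum_congr rfl fun i _ => ?_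
  ring

theorem jj_dot_jj (v w : Fin n ⊕ Fin n → ℂ) : star (jj v) ⬝ᵥ jj w = star (star v ⬝ᵥ w) := by
  simp only [dotProduct, Fintype.sum_sum_type, Pi.star_apply,
    jj_inl, jj_inr, star_neg, star_star, star_add, star_sum, star_mul', neg_mul_neg]
  rw [add_comm]

theorem jj_jj (v : Fin n ⊕ Fin n → ℂ) : jj (jj v) = -v := by
  ext i
  rcases i with i | i <;> simp

theorem jj_smul (c : ℂ) (v : Fin n ⊕ Fin n → ℂ) : jj (c • v) = star c • jj v := by
  ext i
  rcases i with i | i <;> simp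

theorem jj_add (v w : Fin n ⊕ Fin n → ℂ) : jj (v + w) = jj v + jj w := by
  ext i
  rcases i with i | i <;> simp [add_comm]

theorem om_self (v : Fin n ⊕ Fin n → ℂ) : om v v = 0 := by
  rw [om]
  refine Finset.sum_eq_zero fun i _ => ?_
  ring

theorem om_swap (v w : Fin n ⊕ Fin n → ℂ) : om w v = - om v w := by
  rw [om, om, ← Finset.sum_neg_distrib]
  refine Finset.sum_congr rfl fun i _ => ?_
  ring

theorem mulVec_jj {A : Matrix (Fin n ⊕ Fin n) (Fin n ⊕ Fin n) ℂ} (hA : A ∈ Sp n)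
    (v : Fin n ⊕ Fin n → ℂ) : A *ᵥ jj v = jj (A *ᵥ v) := by
  have h := ((mem_Sp_iff A).1 hA).2
  rw [jj, jj, Matrix.mulVec_mulVec]
  have h1 : A * -J n = -J n * cj A := by rw [mul_neg, h, neg_mul]
  rw [h1, ← Matrix.mulVec_mulVec]
  congr 1
  ext i
  simp [Matrix.mulVec, dotProduct, cj]

/-! ### Frames -/

/-- `v 0, …, v (m - 1)` is a quaternionic orthonormal family of eigenvectors of `A`. -/
structure Frame (A : Matrix (Fin n ⊕ Fin n) (Fin n ⊕ Fin n) ℂ) (m : ℕ)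
    (v : ℕ → Fin n ⊕ Fin n → ℂ) (l : ℕ → ℂ) : Prop where
  dot : ∀ i < m, ∀ k < m, star (v i) ⬝ᵥ v k = if i = k then 1 else 0
  omz : ∀ i < m, ∀ k < m, om (v i) (v k) = 0
  eig : ∀ i < m, A *ᵥ v i = l i • v i

theorem dot_mulVec {A : Matrix (Fin n ⊕ Fin n) (Fin n ⊕ Fin n) ℂ} (hA : A ∈ Sp n)
    (v w : Fin n ⊕ Fin n → ℂ) : star (A *ᵥ v) ⬝ᵥ (A *ᵥ w) = star v ⬝ᵥ w := by
  rw [Matrix.star_mulVec, Matrix.dotProduct_mulVec, Matrix.vecMul_vecMul,
    ((mem_Sp_iff A).1 hA).1, Matrix.vecMul_one]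

theorem norm_eig {A : Matrix (Fin n ⊕ Fin n) (Fin n ⊕ Fin n) ℂ} (hA : A ∈ Sp n)
    (v : Fin n ⊕ Fin n → ℂ) (l : ℂ) (hv : star v ⬝ᵥ v ≠ 0) (h : A *ᵥ v = l • v) :
    star l * l = 1 := by
  have h1 := dot_mulVec hA v v
  rw [h, star_smul, smul_dotProduct, dotProduct_smul, smul_eq_mul, smul_eq_mul, ← mul_assoc] at h1
  exact mul_right_cancel₀ hv (by rw [h1, one_mul])

theorem dot_self_eq (v : Fin n ⊕ Fin n → ℂ) :
    star v ⬝ᵥ v = ((∑ i, ‖v i‖ ^ 2 : ℝ) : ℂ) := by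
  simp only [dotProduct, Pi.star_apply]
  push_cast
  refine Finset.sum_congr rfl fun i _ => ?_
  rw [← Complex.conj_mul']
  rfl

theorem dot_self_pos (v : Fin n ⊕ Fin n → ℂ) (hv : v ≠ 0) : 0 < ∑ i, ‖v i‖ ^ 2 := by
  obtain ⟨i, hi⟩ := Function.ne_iff.1 hv
  refine Finset.sum_pos' (fun i _ => by positivity) ⟨i, Finset.mem_univ i, ?_⟩
  have : 0 < ‖v i‖ := norm_pos_iff.2 hi
  positivity

theorem exists_normalize (v : Fin n ⊕ Fin n → ℂ) (hv : v ≠ 0) :
    ∃ c : ℂ, c ≠ 0 ∧ star (c • v) ⬝ᵥ (c • v) = 1 := by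
  have h := dot_self_pos v hv
  set r := ∑ i, ‖v i‖ ^ 2 with hr
  refine ⟨((Real.sqrt r)⁻¹ : ℝ), ?_, ?_⟩
  · simp only [ne_eq, Complex.ofReal_eq_zero, inv_eq_zero]
    exact (Real.sqrt_pos.2 h).ne'
  · rw [star_smul, smul_dotProduct, dotProduct_smul, dot_self_eq, ← hr, smul_eq_mul, smul_eq_mul]
    have h1 : star (((Real.sqrt r)⁻¹ : ℝ) : ℂ) = (((Real.sqrt r)⁻¹ : ℝ) : ℂ) :=
      Complex.conj_ofReal _
    rw [h1, ← Complex.ofReal_mul, ← Complex.ofReal_mul]
    have h2 : (Real.sqrt r)⁻¹ * ((Real.sqrt r)⁻¹ * r) = 1 := by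
      have h3 : Real.sqrt r * Real.sqrt r = r := Real.mul_self_sqrt h.le
      have h4 : Real.sqrt r ≠ 0 := (Real.sqrt_pos.2 h).ne'
      field_simp
      nlinarith
    rw [h2, Complex.ofReal_one]

/-- A frame of size less than `n` can be extended. -/
theorem Frame.extend {A : Matrix (Fin n ⊕ Fin n) (Fin n ⊕ Fin n) ℂ} (hA : A ∈ Sp n) {m : ℕ}
    (hm : m < n) {v : ℕ → Fin n ⊕ Fin n → ℂ} {l : ℕ → ℂ} (h : Frame A m v l) :
    ∃ w : Fin n ⊕ Fin n → ℂ, ∃ c : ℂ,
      Frame A (m + 1) (Function.update v m w) (Function.update l m c) := by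
  -- the orthogonal complement
  let L : (Fin n ⊕ Fin n → ℂ) →ₗ[ℂ] (Fin m ⊕ Fin m → ℂ) :=
    { toFun := fun w => Sum.elim (fun i => star (v i) ⬝ᵥ w) (fun i => star (jj (v i)) ⬝ᵥ w)
      map_add' := fun w w' => by
        ext i
        rcases i with i | i <;> simp [dotProduct_add]
      map_smul' := fun c w => by
        ext i
        rcases i with i | i <;> simp [dotProduct_smul] }
  have hker : LinearMap.ker L ≠ ⊥ := by
    apply LinearMap.ker_ne_bot_of_finrank_lt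
    simp only [Module.finrank_fintype_fun_eq_card, Fintype.card_sum, Fintype.card_fin]
    omega
  have hl : ∀ i < m, star (l i) * l i = 1 := fun i hi =>
    norm_eig hA (v i) (l i) (by rw [h.dot i hi i hi]; simp) (h.eig i hi)
  have hmem : ∀ w, w ∈ LinearMap.ker L ↔
      (∀ i < m, star (v i) ⬝ᵥ w = 0) ∧ ∀ i < m, om (v i) w = 0 := by
    intro w
    rw [LinearMap.mem_ker]
    constructor
    · intro h1
      refine ⟨fun i hi => ?_, fun i hi => ?_⟩
      · exact congrFun h1 (Sum.inl ⟨i, hi⟩)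
      · rw [← star_jj_dot]
        exact congrFun h1 (Sum.inr ⟨i, hi⟩)
    · rintro ⟨h1, h2⟩
      ext i
      rcases i with i | i
      · exact h1 i i.2
      · show star (jj (v i)) ⬝ᵥ w = 0
        rw [star_jj_dot]
        exact h2 i i.2
  have hinv : ∀ w ∈ LinearMap.ker L, A.mulVecLin w ∈ LinearMap.ker L := by
    intro w hw
    rw [hmem] at hw ⊢
    refine ⟨fun i hi => ?_, fun i hi => ?_⟩
    · have h1 := dot_mulVec hA (v i) w
      rw [hw.1 i hi, h.eig i hi, star_smul, smul_dotProduct, smul_eq_mul] at h1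
      rcases mul_eq_zero.1 h1 with h2 | h2
      · exfalso
        have := hl i hi
        rw [h2, zero_mul] at this
        exact zero_ne_one this
      · exact h2
    · have h1 := dot_mulVec hA (jj (v i)) w
      rw [star_jj_dot, hw.2 i hi, mulVec_jj hA, h.eig i hi, jj_smul, star_smul, smul_dotProduct,
        star_jj_dot, star_star, smul_eq_mul] at h1
      rcases mul_eq_zero.1 h1 with h2 | h2
      · exfalso
        have := hl i hi
        rw [h2, mul_zero] at this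
        exact zero_ne_one this
      · exact h2
  have hnt : Nontrivial (LinearMap.ker L) := Submodule.nontrivial_iff_ne_bot.2 hker
  obtain ⟨c, hc⟩ := Module.End.exists_eigenvalue (A.mulVecLin.restrict hinv)
  obtain ⟨w, hw⟩ := hc.exists_hasEigenvector
  have hw0 : w.1 ≠ 0 := fun h0 => hw.2 (Subtype.ext h0)
  have hAw : A *ᵥ w.1 = c • w.1 := congrArg Subtype.val hw.apply_eq_smul
  obtain ⟨d, hd, hdw⟩ := exists_normalize w.1 hw0
  have hwm := (hmem (d • w.1)).1 (Submodule.smul_mem _ d w.2)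
  refine ⟨d • w.1, c, ?_, ?_, ?_⟩
  · intro i hi k hk
    rcases Nat.lt_succ_iff_lt_or_eq.1 hi with hi' | rfl <;>
      rcases Nat.lt_succ_iff_lt_or_eq.1 hk with hk' | rfl
    · rw [Function.update_of_ne hi'.ne, Function.update_of_ne hk'.ne, h.dot i hi' k hk']
    · rw [Function.update_of_ne hi'.ne, Function.update_self, hwm.1 i hi', if_neg hi'.ne]
    · rw [Function.update_of_ne hk'.ne, Function.update_self, if_neg hk'.ne']
      have h1 := hwm.1 k hk'
      have h2 : star (star (v k) ⬝ᵥ (d • w.1)) = star (d • w.1) ⬝ᵥ v k := by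
        rw [Matrix.star_dotProduct, star_star, dotProduct_comm]
      rw [← h2, h1, star_zero]
    · rw [Function.update_self, hdw, if_pos rfl]
  · intro i hi k hk
    rcases Nat.lt_succ_iff_lt_or_eq.1 hi with hi' | rfl <;>
      rcases Nat.lt_succ_iff_lt_or_eq.1 hk with hk' | rfl
    · rw [Function.update_of_ne hi'.ne, Function.update_of_ne hk'.ne, h.omz i hi' k hk']
    · rw [Function.update_of_ne hi'.ne, Function.update_self, hwm.2 i hi']
    · rw [Function.update_of_ne hk'.ne, Function.update_self, om_swap, hwm.2 k hk', neg_zero]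
    · rw [Function.update_self, om_self]
  · intro i hi
    rcases Nat.lt_succ_iff_lt_or_eq.1 hi with hi' | rfl
    · rw [Function.update_of_ne hi'.ne, Function.update_of_ne hi'.ne, h.eig i hi']
    · rw [Function.update_self, Function.update_self, Matrix.mulVec_smul, hAw, smul_comm]

/-- A frame can be completed. -/
theorem Frame.complete {A : Matrix (Fin n ⊕ Fin n) (Fin n ⊕ Fin n) ℂ} (hA : A ∈ Sp n) {m : ℕ}
    (hm : m ≤ n) {v : ℕ → Fin n ⊕ Fin n → ℂ} {l : ℕ → ℂ} (h : Frame A m v l) :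
    ∃ (v' : ℕ → Fin n ⊕ Fin n → ℂ) (l' : ℕ → ℂ), Frame A n v' l' ∧
      (∀ i < m, v' i = v i) ∧ ∀ i < m, l' i = l i := by
  have H : ∀ k, m + k ≤ n → ∃ (v' : ℕ → Fin n ⊕ Fin n → ℂ) (l' : ℕ → ℂ),
      Frame A (m + k) v' l' ∧ (∀ i < m, v' i = v i) ∧ ∀ i < m, l' i = l i := by
    intro k
    induction k with
    | zero => exact fun _ => ⟨v, l, h, fun _ _ => rfl, fun _ _ => rfl⟩
    | succ k ih =>
      intro hk
      obtain ⟨v', l', h1, h2, h3⟩ := ih (by omega)
      obtain ⟨w, c, h4⟩ := h1.extend hA (by omega)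
      refine ⟨_, _, h4, fun i hi => ?_, fun i hi => ?_⟩
      · rw [Function.update_of_ne (by omega), h2 i hi]
      · rw [Function.update_of_ne (by omega), h3 i hi]
  have := H (n - m) (by omega)
  rwa [Nat.add_sub_cancel' hm] at this

/-! ### Monomial matrices -/

/-- The matrix with `e_a ↦ c_a e_{t a}`. -/
def mono (t : Fin n ⊕ Fin n → Fin n ⊕ Fin n) (c : Fin n ⊕ Fin n → ℂ) :
    Matrix (Fin n ⊕ Fin n) (Fin n ⊕ Fin n) ℂ := Matrix.of fun i a => if i = t a then c a else 0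

theorem mono_mul (t t' : Fin n ⊕ Fin n → Fin n ⊕ Fin n) (c c' : Fin n ⊕ Fin n → ℂ) :
    mono t c * mono t' c' = mono (fun a => t (t' a)) (fun a => c' a * c (t' a)) := by
  ext i a
  simp only [mono, Matrix.mul_apply, Matrix.of_apply]
  rw [Finset.sum_eq_single (t' a)]
  · by_cases h : i = t (t' a)
    · simp [h, mul_comm]
    · simp [h]
  · intro b _ hb
    rw [if_neg hb, mul_zero]
  · intro h
    exact absurd (Finset.mem_univ _) h

/-- The swap of the two halves. -/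
def sw : Fin n ⊕ Fin n → Fin n ⊕ Fin n := Sum.swap

/-- The signs of `J`. -/
def sg : Fin n ⊕ Fin n → ℂ := Sum.elim (fun _ => -1) (fun _ => 1)

theorem J_eq : J n = mono sw sg := by
  ext i a
  rcases i with i | i <;> rcases a with a | a <;>
    simp [J, mono, sw, sg, Matrix.one_apply, eq_comm]
  split_ifs <;> simp

theorem cj_mono (t : Fin n ⊕ Fin n → Fin n ⊕ Fin n) (c : Fin n ⊕ Fin n → ℂ) :
    cj (mono t c) = mono t (fun a => starRingEnd ℂ (c a)) := by
  ext i a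
  simp only [cj, mono, Matrix.map_apply, Matrix.of_apply]
  split_ifs <;> simp

theorem one_eq_mono : (1 : Matrix (Fin n ⊕ Fin n) (Fin n ⊕ Fin n) ℂ) =
    mono (fun a => a) (fun _ => 1) := by
  ext i a
  simp [mono, Matrix.one_apply]

/-- Involutive monomial matrices. -/
theorem mono_inv (t : Fin n ⊕ Fin n → Fin n ⊕ Fin n) (c : Fin n ⊕ Fin n → ℂ)
    (ht : ∀ a, t (t a) = a) (hc : ∀ a, c a * c (t a) = 1) : mono t c * mono t c = 1 := by
  rw [mono_mul, one_eq_mono]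
  congr 1
  · funext a
    exact ht a
  · funext a
    exact hc a

theorem mono_mem (t : Fin n ⊕ Fin n → Fin n ⊕ Fin n) (c : Fin n ⊕ Fin n → ℂ)
    (ht : Function.Injective t) (hc : ∀ a, starRingEnd ℂ (c a) * c a = 1)
    (hs : ∀ a, t (sw a) = sw (t a))
    (hg : ∀ a, sg a * c (sw a) = starRingEnd ℂ (c a) * sg (t a)) : mono t c ∈ Sp n := by
  rw [mem_Sp_iff]
  constructor
  · ext a b
    rw [Matrix.mul_apply]
    simp only [mono, Matrix.conjTranspose_apply, Matrix.of_apply, Matrix.one_apply]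
    rw [Finset.sum_eq_single (t a)]
    · by_cases h : a = b
      · subst h
        simpa using hc a
      · rw [if_pos rfl, if_neg (fun h' => h (ht h')), if_neg h, mul_zero]
    · intro i _ hi
      rw [if_neg hi, star_zero, zero_mul]
    · intro h
      exact absurd (Finset.mem_univ _) h
  · rw [J_eq, cj_mono, mono_mul, mono_mul]
    congr 1
    · funext a
      exact hs a
    · funext a
      exact hg a

/-! ### The diagonal case -/

/-- `B` is an involution of `Sp(n)`. -/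
def IsInv (B : Matrix (Fin n ⊕ Fin n) (Fin n ⊕ Fin n) ℂ) : Prop := B ∈ Sp n ∧ B * B = 1

/-- the permutation in the involution `h` -/
def tau (σ : Fin n → Fin n) : Fin n ⊕ Fin n → Fin n ⊕ Fin n :=
  Sum.elim (fun k => if σ k = k then Sum.inl k else Sum.inr (σ k))
    (fun k => if σ k = k then Sum.inr k else Sum.inl (σ k))

/-- the signs in the involution `h` -/
def eta (σ : Fin n → Fin n) (ε : Fin n → ℂ) : Fin n ⊕ Fin n → ℂ :=
  Sum.elim (fun k => if σ k = k then 1 else ε k) (fun k => if σ k = k then 1 else - ε k)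

/-- extension of the coefficients -/
def ex (l : Fin n → ℂ) : Fin n ⊕ Fin n → ℂ := Sum.elim l (fun k => starRingEnd ℂ (l k))

theorem tau_tau (σ : Fin n → Fin n) (hσ : ∀ k, σ (σ k) = k) (a : Fin n ⊕ Fin n) :
    tau σ (tau σ a) = a := by
  rcases a with k | k <;> by_cases h : σ k = k
  · simp [tau, h]
  · simp [tau, h, hσ, Ne.symm h]
  · simp [tau, h]
  · simp [tau, h, hσ, Ne.symm h]

theorem tau_sw (σ : Fin n → Fin n) (a : Fin n ⊕ Fin n) : tau σ (sw a) = sw (tau σ a) := by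
  rcases a with k | k <;> by_cases h : σ k = k <;> simp [tau, sw, h]

theorem eta_mul (σ : Fin n → Fin n) (hσ : ∀ k, σ (σ k) = k) (ε : Fin n → ℂ)
    (h1 : ∀ k, σ k ≠ k → ε (σ k) = - ε k) (h2 : ∀ k, σ k ≠ k → ε k * ε k = 1)
    (a : Fin n ⊕ Fin n) : eta σ ε a * eta σ ε (tau σ a) = 1 := by
  rcases a with k | k <;> by_cases h : σ k = k
  · simp [tau, eta, h]
  · simp [tau, eta, h, hσ, Ne.symm h, h1 k h, h2 k h]
  · simp [tau, eta, h]
  · simp [tau, eta, h, hσ, Ne.symm h, h1 k h, h2 k h]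

theorem eta_sq (σ : Fin n → Fin n) (ε : Fin n → ℂ) (h2 : ∀ k, σ k ≠ k → ε k * ε k = 1)
    (a : Fin n ⊕ Fin n) : eta σ ε a * eta σ ε a = 1 := by
  rcases a with k | k <;> by_cases h : σ k = k
  · simp [eta, h]
  · simp [eta, h, h2 k h]
  · simp [eta, h]
  · simp [eta, h, h2 k h]

theorem eta_conj (σ : Fin n → Fin n) (ε : Fin n → ℂ)
    (h3 : ∀ k, σ k ≠ k → starRingEnd ℂ (ε k) = ε k)
    (a : Fin n ⊕ Fin n) : starRingEnd ℂ (eta σ ε a) = eta σ ε a := by
  rcases a with k | k <;> by_cases h : σ k = k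
  · simp [eta, h]
  · simp [eta, h, h3 k h]
  · simp [eta, h]
  · simp [eta, h, h3 k h]

theorem eta_sg (σ : Fin n → Fin n) (ε : Fin n → ℂ) (a : Fin n ⊕ Fin n) :
    sg a * eta σ ε (sw a) = eta σ ε a * sg (tau σ a) := by
  rcases a with k | k <;> by_cases h : σ k = k <;> simp [eta, sg, sw, tau, h]

theorem inj_of_invol {t : Fin n ⊕ Fin n → Fin n ⊕ Fin n} (h : ∀ a, t (t a) = a) :
    Function.Injective t := fun a b hab => by rw [← h a, hab, h b]

theorem ex_sw (l : Fin n → ℂ) (a : Fin n ⊕ Fin n) : ex l (sw a) = starRingEnd ℂ (ex l a) := by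
  rcases a with k | k <;> simp [ex, sw]

theorem ex_norm (l : Fin n → ℂ) (h : ∀ k, starRingEnd ℂ (l k) * l k = 1) (a : Fin n ⊕ Fin n) :
    starRingEnd ℂ (ex l a) * ex l a = 1 := by
  rcases a with k | k
  · exact h k
  · simp only [ex, Sum.elim_inr, Complex.conj_conj]
    rw [mul_comm]
    exact h k

/-- The diagonal case: four involutions suffice. -/
theorem four_diag (l : Fin n → ℂ) (hl : ∀ k, starRingEnd ℂ (l k) * l k = 1)
    (σ : Fin n → Fin n) (hσ : ∀ k, σ (σ k) = k) (hfix : ∀ k, σ k = k → l k = 1) (ε : Fin n → ℂ)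
    (h1 : ∀ k, σ k ≠ k → ε (σ k) = - ε k) (h2 : ∀ k, σ k ≠ k → ε k * ε k = 1)
    (h3 : ∀ k, σ k ≠ k → starRingEnd ℂ (ε k) = ε k) :
    ∃ B₁ B₂ B₃ B₄ : Matrix (Fin n ⊕ Fin n) (Fin n ⊕ Fin n) ℂ,
      IsInv B₁ ∧ IsInv B₂ ∧ IsInv B₃ ∧ IsInv B₄ ∧
      mono (fun a => a) (ex l) = B₁ * B₂ * B₃ * B₄ := by
  -- square roots
  let μ : Fin n → ℂ := fun k => (l k * l (σ k)) ^ ((2 : ℕ) : ℂ)⁻¹
  have hμ2 : ∀ k, μ k ^ 2 = l k * l (σ k) := fun k =>
    Complex.cpow_nat_inv_pow _ two_ne_zero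
  have hμσ : ∀ k, μ (σ k) = μ k := by
    intro k
    simp only [μ, hσ]
    rw [mul_comm]
  have hμfix : ∀ k, σ k = k → μ k = 1 := by
    intro k hk
    simp only [μ, hk, hfix k hk, mul_one, Complex.one_cpow]
  have hln : ∀ k, ‖l k‖ = 1 := by
    intro k
    have h4 := hl k
    rw [Complex.conj_mul'] at h4
    have h5 : ‖l k‖ ^ 2 = 1 := by exact_mod_cast h4
    exact (pow_eq_one_iff_of_nonneg (norm_nonneg _) two_ne_zero).1 h5
  have hμn : ∀ k, ‖μ k‖ = 1 := by
    intro k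
    have h4 := congrArg norm (hμ2 k)
    rw [norm_pow, norm_mul, hln, hln, mul_one] at h4
    exact (pow_eq_one_iff_of_nonneg (norm_nonneg _) two_ne_zero).1 h4
  have hμ : ∀ k, starRingEnd ℂ (μ k) * μ k = 1 := by
    intro k
    rw [Complex.conj_mul', hμn]
    norm_num
  let ν : Fin n → ℂ := fun k => l k * starRingEnd ℂ (μ k)
  have hν : ∀ k, starRingEnd ℂ (ν k) * ν k = 1 := by
    intro k
    simp only [ν, map_mul, Complex.conj_conj]
    linear_combination (starRingEnd ℂ (μ k) * μ k) * hl k + hμ k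
  have hνσ : ∀ k, ν k * ν (σ k) = 1 := by
    intro k
    simp only [ν, hμσ]
    have h4 := hμ2 k
    linear_combination (-(starRingEnd ℂ (μ k)) ^ 2) * h4 +
      (starRingEnd ℂ (μ k) * μ k + 1) * hμ k
  have hlμν : ∀ k, ν k * μ k = l k := by
    intro k
    simp only [ν]
    linear_combination l k * hμ k
  have hσsw : ∀ a : Fin n ⊕ Fin n, Sum.map σ σ (sw a) = sw (Sum.map σ σ a) := by
    rintro (k | k) <;> simp [sw]
  have hσσ : ∀ a : Fin n ⊕ Fin n, Sum.map σ σ (Sum.map σ σ a) = a := by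
    rintro (k | k) <;> simp [hσ]
  have hσsg : ∀ a : Fin n ⊕ Fin n, sg (Sum.map σ σ a) = sg a := by
    rintro (k | k) <;> simp [sg]
  have hsg : ∀ a : Fin n ⊕ Fin n, starRingEnd ℂ (sg a) = sg a := by
    rintro (k | k) <;> simp [sg]
  have hηη := eta_mul σ hσ ε h1 h2
  have hμτ : ∀ a, ex μ a * ex μ (tau σ a) = 1 := by
    rintro (k | k) <;> by_cases h : σ k = k
    · simp [tau, ex, h, hμfix k h]
    · simp only [tau, ex, h, if_false, Sum.elim_inl, Sum.elim_inr, hμσ]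
      rw [mul_comm]
      exact hμ k
    · simp [tau, ex, h, hμfix k h]
    · simp only [tau, ex, h, if_false, Sum.elim_inl, Sum.elim_inr, hμσ]
      exact hμ k
  have hνσ' : ∀ a : Fin n ⊕ Fin n, ex ν a * ex ν (Sum.map σ σ a) = 1 := by
    rintro (k | k)
    · exact hνσ k
    · simp only [ex, Sum.elim_inr, Sum.map_inr]
      rw [← map_mul, hνσ, map_one]
  refine ⟨mono (tau σ) (eta σ ε), mono (tau σ) (fun a => ex μ a * eta σ ε a),
    mono (Sum.map σ σ) (fun _ => 1), mono (Sum.map σ σ) (ex ν), ⟨?_, ?_⟩, ⟨?_, ?_⟩, ⟨?_, ?_⟩,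
    ⟨?_, ?_⟩, ?_⟩
  · refine mono_mem _ _ (inj_of_invol (tau_tau σ hσ)) (fun a => ?_) (tau_sw σ) (fun a => ?_)
    · rw [eta_conj σ ε h3, eta_sq σ ε h2]
    · rw [eta_conj σ ε h3, eta_sg]
  · exact mono_inv _ _ (tau_tau σ hσ) hηη
  · refine mono_mem _ _ (inj_of_invol (tau_tau σ hσ)) (fun a => ?_) (tau_sw σ) (fun a => ?_)
    · rw [map_mul, eta_conj σ ε h3]
      linear_combination ex_norm μ hμ a * (eta σ ε a * eta σ ε a) + eta_sq σ ε h2 a
    · rw [map_mul, eta_conj σ ε h3, ex_sw]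
      linear_combination starRingEnd ℂ (ex μ a) * eta_sg σ ε a
  · refine mono_inv _ _ (tau_tau σ hσ) fun a => ?_
    linear_combination (eta σ ε a * eta σ ε (tau σ a)) * hμτ a + hηη a
  · refine mono_mem _ _ (inj_of_invol hσσ) (fun a => by simp) hσsw (fun a => ?_)
    rw [hσsg]
    simp
  · exact mono_inv _ _ hσσ (fun a => by simp)
  · refine mono_mem _ _ (inj_of_invol hσσ) (ex_norm ν hν) hσsw (fun a => ?_)
    rw [hσsg, ex_sw]
    ring
  · exact mono_inv _ _ hσσ hνσ'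
  · rw [mono_mul, mul_assoc, mono_mul, mono_mul]
    congr 1
    · funext a
      rw [hσσ, tau_tau σ hσ]
    · funext a
      rw [hσσ]
      simp only [mul_one]
      rw [mul_assoc, hηη a, mul_one]
      rcases a with k | k
      · exact (hlμν k).symm
      · simp only [ex, Sum.elim_inr]
        rw [← map_mul, hlμν]

theorem mul_mono (U : Matrix (Fin n ⊕ Fin n) (Fin n ⊕ Fin n) ℂ)
    (t : Fin n ⊕ Fin n → Fin n ⊕ Fin n) (c : Fin n ⊕ Fin n → ℂ) (i a : Fin n ⊕ Fin n) :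
    (U * mono t c) i a = U i (t a) * c a := by
  simp only [mono, Matrix.mul_apply, Matrix.of_apply]
  rw [Finset.sum_eq_single (t a)]
  · rw [if_pos rfl]
  · intro b _ hb
    rw [if_neg hb, mul_zero]
  · intro h
    exact absurd (Finset.mem_univ _) h

/-- A frame of full size and a pairing give four involutions. -/
theorem four_of_frame {A : Matrix (Fin n ⊕ Fin n) (Fin n ⊕ Fin n) ℂ} (hA : A ∈ Sp n)
    {v : ℕ → Fin n ⊕ Fin n → ℂ} {l : ℕ → ℂ} (h : Frame A n v l)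
    (hodd : n % 2 = 1 → l 0 = 1) :
    ∃ B₁ B₂ B₃ B₄ : Matrix (Fin n ⊕ Fin n) (Fin n ⊕ Fin n) ℂ,
      IsInv B₁ ∧ IsInv B₂ ∧ IsInv B₃ ∧ IsInv B₄ ∧ A = B₁ * B₂ * B₃ * B₄ := by
  let l' : Fin n → ℂ := fun k => l k
  have hl : ∀ k, starRingEnd ℂ (l' k) * l' k = 1 := fun k =>
    norm_eig hA (v k) (l k) (by rw [h.dot k k.2 k k.2]; simp) (h.eig k k.2)
  let σ : Fin n → Fin n := fun k =>
    if hk : ((k : ℕ) + n) % 2 = 0 then ⟨k + 1, by have := k.2; omega⟩
      else ⟨k - 1, by have := k.2; omega⟩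
  have hσv : ∀ k : Fin n, ((σ k : Fin n) : ℕ) = if ((k : ℕ) + n) % 2 = 0 then (k : ℕ) + 1 else k - 1 := by
    intro k
    simp only [σ]
    split_ifs <;> rfl
  let ε : Fin n → ℂ := fun k => if ((k : ℕ) + n) % 2 = 0 then 1 else -1
  have hσ : ∀ k, σ (σ k) = k := by
    intro k
    apply Fin.ext
    rw [hσv, hσv]
    have := k.2
    split_ifs <;> omega
  obtain ⟨B₁, B₂, B₃, B₄, hB₁, hB₂, hB₃, hB₄, hB⟩ := four_diag l' hl σ hσ (fun k hk => by
      have h4 := congrArg Fin.val hk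
      rw [hσv] at h4
      have h5 : (k : ℕ) = 0 ∧ n % 2 = 1 := by
        split_ifs at h4 <;> omega
      show l k = 1
      rw [h5.1]
      exact hodd h5.2) ε (fun k hk => by
      have h4 : (σ k : ℕ) ≠ k := fun h => hk (Fin.ext h)
      have h5 := hσv k
      simp only [ε]
      split_ifs at * <;> first | omega | simp) (fun k _ => by
      simp only [ε]
      split_ifs <;> simp) (fun k _ => by
      simp only [ε]
      split_ifs <;> simp)
  -- the change of basis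
  let U : Matrix (Fin n ⊕ Fin n) (Fin n ⊕ Fin n) ℂ :=
    Matrix.of fun i a => Sum.elim (fun k : Fin n => v k i) (fun k : Fin n => jj (v k) i) a
  have hUcol : ∀ a, (fun i => U i a) = Sum.elim (fun k : Fin n => v k) (fun k : Fin n => jj (v k)) a := by
    rintro (k | k) <;> rfl
  have hU : U ∈ Sp n := by
    rw [mem_Sp_iff]
    constructor
    · ext a b
      have h0 : (Uᴴ * U) a b = star (fun i => U i a) ⬝ᵥ (fun i => U i b) := rfl
      rw [h0, hUcol, hUcol, Matrix.one_apply]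
      rcases a with k | k <;> rcases b with m | m
      · simp only [Sum.elim_inl]
        rw [h.dot k k.2 m m.2]
        simp [Fin.ext_iff]
      · simp only [Sum.elim_inl, Sum.elim_inr]
        rw [dot_jj, h.omz k k.2 m m.2]
        simp
      · simp only [Sum.elim_inl, Sum.elim_inr]
        rw [star_jj_dot, h.omz k k.2 m m.2]
        simp
      · simp only [Sum.elim_inr]
        rw [jj_dot_jj, h.dot k k.2 m m.2]
        simp [Fin.ext_iff, apply_ite (starRingEnd ℂ)]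
    · ext i a
      have h1 : (J n * cj U) i a = - jj (fun b => U b a) i := by
        rw [jj, Matrix.neg_mulVec]
        simp only [Pi.neg_apply, neg_neg]
        rfl
      rw [h1, J_eq, mul_mono, hUcol]
      rcases a with k | k
      · simp [sw, sg, U]
      · simp [sw, sg, U, jj_jj]
  have hAU : A * U = U * mono (fun a => a) (ex l') := by
    ext i a
    have h1 : (A * U) i a = (A *ᵥ (fun b => U b a)) i := rfl
    rw [h1, mul_mono, hUcol]
    rcases a with k | k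
    · simp only [Sum.elim_inl, h.eig k k.2]
      simp [U, ex, l', mul_comm]
    · simp only [Sum.elim_inr, mulVec_jj hA, h.eig k k.2, jj_smul]
      simp [U, ex, l', mul_comm]
  have hU1 := ((mem_Sp_iff U).1 hU).1
  have hU2 : U * Uᴴ = 1 := mul_eq_one_comm.1 hU1
  have hconj : ∀ B, IsInv B → IsInv (U * B * Uᴴ) := by
    intro B hB
    refine ⟨mul_mem_Sp (mul_mem_Sp hU hB.1) (conjTranspose_mem_Sp hU), ?_⟩
    calc U * B * Uᴴ * (U * B * Uᴴ) = U * B * (Uᴴ * U) * B * Uᴴ := by simp only [mul_assoc]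
      _ = U * (B * B) * Uᴴ := by rw [hU1, mul_one]; simp only [mul_assoc]
      _ = 1 := by rw [hB.2, mul_one, hU2]
  refine ⟨_, _, _, _, hconj _ hB₁, hconj _ hB₂, hconj _ hB₃, hconj _ hB₄, ?_⟩
  calc A = A * (U * Uᴴ) := by rw [hU2, mul_one]
    _ = U * (B₁ * B₂ * B₃ * B₄) * Uᴴ := by rw [← mul_assoc, hAU, hB]
    _ = U * B₁ * (Uᴴ * U) * B₂ * (Uᴴ * U) * B₃ * (Uᴴ * U) * B₄ * Uᴴ := by
      rw [hU1]; simp only [mul_one, mul_assoc]
    _ = _ := by simp only [mul_assoc]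

/-! ### The odd case -/

/-- Two real numbers of opposite signs. -/
theorem exists_coeff (p q : ℝ) (hpq : p * q ≤ 0) :
    ∃ a b : ℝ, a ^ 2 + b ^ 2 = 1 ∧ a ^ 2 * p + b ^ 2 * q = 0 := by
  by_cases hp : p = 0
  · exact ⟨1, 0, by norm_num, by simp [hp]⟩
  have hs : 0 < |p| + |q| := by
    have : 0 < |p| := abs_pos.2 hp
    positivity
  have key : |q| * p + |p| * q = 0 := by
    rcases le_total 0 p with h1 | h1 <;> rcases le_total 0 q with h2 | h2
    · rw [abs_of_nonneg h1, abs_of_nonneg h2]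
      nlinarith [mul_nonneg h1 h2]
    · rw [abs_of_nonneg h1, abs_of_nonpos h2]
      ring
    · rw [abs_of_nonpos h1, abs_of_nonneg h2]
      ring
    · rw [abs_of_nonpos h1, abs_of_nonpos h2]
      nlinarith [mul_nonneg_of_nonpos_of_nonpos h1 h2]
  refine ⟨Real.sqrt (|q| / (|p| + |q|)), Real.sqrt (|p| / (|p| + |q|)), ?_, ?_⟩
  · rw [Real.sq_sqrt (by positivity), Real.sq_sqrt (by positivity), ← add_div, add_comm |q|,
      div_self hs.ne']
  · rw [Real.sq_sqrt (by positivity), Real.sq_sqrt (by positivity), div_mul_eq_mul_div,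
      div_mul_eq_mul_div, ← add_div, key, zero_div]

theorem om_add_left (u v w : Fin n ⊕ Fin n → ℂ) : om (u + v) w = om u w + om v w := by
  simp only [om, ← Finset.sum_add_distrib, Pi.add_apply]
  refine Finset.sum_congr rfl fun i _ => ?_
  ring

theorem om_smul_left (c : ℂ) (v w : Fin n ⊕ Fin n → ℂ) : om (c • v) w = c * om v w := by
  simp only [om, Finset.mul_sum, Pi.smul_apply, smul_eq_mul]
  refine Finset.sum_congr rfl fun i _ => ?_
  ring

theorem om_add_right (u v w : Fin n ⊕ Fin n → ℂ) : om u (v + w) = om u v + om u w := by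
  rw [om_swap, om_add_left, om_swap v u, om_swap w u]
  ring

theorem om_smul_right (c : ℂ) (v w : Fin n ⊕ Fin n → ℂ) : om v (c • w) = c * om v w := by
  rw [om_swap, om_smul_left, om_swap w v]
  ring

/-- There is a unit vector `x` with `⟨x, Ax⟩` real. -/
theorem exists_real {A : Matrix (Fin n ⊕ Fin n) (Fin n ⊕ Fin n) ℂ} (hA : A ∈ Sp n) (hn : 2 ≤ n) :
    ∃ (x : Fin n ⊕ Fin n → ℂ) (r : ℝ), star x ⬝ᵥ x = 1 ∧ star x ⬝ᵥ (A *ᵥ x) = r ∧
      om x (A *ᵥ x) = 0 := by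
  obtain ⟨v, l, h, -, -⟩ := Frame.complete hA (Nat.zero_le n) (v := fun _ => 0) (l := fun _ => 0)
    ⟨fun i hi => absurd hi (Nat.not_lt_zero i), fun i hi => absurd hi (Nat.not_lt_zero i),
      fun i hi => absurd hi (Nat.not_lt_zero i)⟩
  have h00 : star (v 0) ⬝ᵥ v 0 = 1 := by rw [h.dot 0 (by omega) 0 (by omega), if_pos rfl]
  have h11 : star (v 1) ⬝ᵥ v 1 = 1 := by rw [h.dot 1 (by omega) 1 (by omega), if_pos rfl]
  have h01 : star (v 0) ⬝ᵥ v 1 = 0 := by
    rw [h.dot 0 (by omega) 1 (by omega), if_neg (by norm_num)]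
  have h10 : star (v 1) ⬝ᵥ v 0 = 0 := by
    rw [h.dot 1 (by omega) 0 (by omega), if_neg (by norm_num)]
  have o01 : om (v 0) (v 1) = 0 := h.omz 0 (by omega) 1 (by omega)
  -- choose the second vector
  obtain ⟨w, c, hw, hcw, h0w, hw0, o0w, hc⟩ : ∃ (w : Fin n ⊕ Fin n → ℂ) (c : ℂ),
      star w ⬝ᵥ w = 1 ∧ A *ᵥ w = c • w ∧ star (v 0) ⬝ᵥ w = 0 ∧ star w ⬝ᵥ v 0 = 0 ∧
      om (v 0) w = 0 ∧ (l 0).im * c.im ≤ 0 := by
    rcases le_total ((l 0).im * (l 1).im) 0 with h1 | h1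
    · exact ⟨v 1, l 1, h11, h.eig 1 (by omega), h01, h10, o01, h1⟩
    · refine ⟨jj (v 1), star (l 1), ?_, ?_, ?_, ?_, ?_, ?_⟩
      · rw [jj_dot_jj, h11, star_one]
      · rw [mulVec_jj hA, h.eig 1 (by omega), jj_smul]
      · rw [dot_jj, o01, star_zero, neg_zero]
      · rw [star_jj_dot, om_swap, o01, neg_zero]
      · rw [← star_jj_dot, jj_dot_jj, h01, star_zero]
      · have : (star (l 1)).im = - (l 1).im := Complex.conj_im _
        rw [this]
        linarith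
  obtain ⟨a, b, hab, hab'⟩ := exists_coeff (l 0).im c.im hc
  have hA0 := h.eig 0 (by omega)
  have sa : star ((a : ℝ) : ℂ) = a := Complex.conj_ofReal a
  have sb : star ((b : ℝ) : ℂ) = b := Complex.conj_ofReal b
  refine ⟨(a : ℂ) • v 0 + (b : ℂ) • w, a ^ 2 * (l 0).re + b ^ 2 * c.re, ?_, ?_, ?_⟩
  · simp only [star_add, star_smul, add_dotProduct, dotProduct_add, smul_dotProduct,
      dotProduct_smul, h00, h0w, hw0, hw, sa, sb, smul_eq_mul, mul_zero, mul_one, add_zero, zero_add]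
    have : ((a ^ 2 + b ^ 2 : ℝ) : ℂ) = 1 := by rw [hab]; simp
    push_cast at this
    linear_combination this
  · rw [Matrix.mulVec_add, Matrix.mulVec_smul, Matrix.mulVec_smul, hA0, hcw]
    simp only [star_add, star_smul, add_dotProduct, dotProduct_add, smul_dotProduct,
      dotProduct_smul, h00, h0w, hw0, hw, sa, sb, smul_eq_mul, mul_zero, mul_one, add_zero, zero_add]
    apply Complex.ext
    · simp [pow_two]
      ring
    · simp [pow_two] at hab' ⊢
      linarith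
  · rw [Matrix.mulVec_add, Matrix.mulVec_smul, Matrix.mulVec_smul, hA0, hcw]
    have ow0 : om w (v 0) = 0 := by rw [om_swap, o0w, neg_zero]
    simp only [om_add_left, om_add_right, om_smul_left, om_smul_right, om_self, o0w, ow0]
    ring

theorem vecMul_J (w : Fin n ⊕ Fin n → ℂ) :
    w ᵥ* J n = Sum.elim (fun i => - w (Sum.inr i)) (fun i => w (Sum.inl i)) := by
  ext i
  rcases i with i | i <;>
    simp [J, Matrix.vecMul, dotProduct, Matrix.one_apply, Fintype.sum_sum_type]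

theorem cj_vecMulVec (a b : Fin n ⊕ Fin n → ℂ) :
    cj (Matrix.vecMulVec a b) = Matrix.vecMulVec (star a) (star b) := by
  ext i k
  simp [cj, Matrix.vecMulVec_apply]

/-- The reflection. -/
theorem exists_reflection {A : Matrix (Fin n ⊕ Fin n) (Fin n ⊕ Fin n) ℂ} (hA : A ∈ Sp n)
    (x : Fin n ⊕ Fin n → ℂ) (r : ℝ) (hx : star x ⬝ᵥ x = 1) (hr : star x ⬝ᵥ (A *ᵥ x) = r)
    (ho : om x (A *ᵥ x) = 0) :
    ∃ B : Matrix (Fin n ⊕ Fin n) (Fin n ⊕ Fin n) ℂ, IsInv B ∧ B *ᵥ (A *ᵥ x) = x := by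
  by_cases hy : x - A *ᵥ x = 0
  · exact ⟨1, ⟨one_mem_Sp, one_mul 1⟩, by rw [Matrix.one_mulVec]; exact (sub_eq_zero.1 hy).symm⟩
  set y := x - A *ᵥ x with hydef
  set N : ℂ := star y ⬝ᵥ y with hN
  have hNr : N = ((∑ i, ‖y i‖ ^ 2 : ℝ) : ℂ) := dot_self_eq y
  have hN0 : N ≠ 0 := by
    rw [hNr]
    exact_mod_cast (dot_self_pos y hy).ne'
  have hNs : star N = N := by
    rw [hNr]
    exact Complex.conj_ofReal _
  let Q : Matrix (Fin n ⊕ Fin n) (Fin n ⊕ Fin n) ℂ :=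
    Matrix.vecMulVec y (star y) + Matrix.vecMulVec (jj y) (star (jj y))
  have hQv : ∀ u, Q *ᵥ u = (star y ⬝ᵥ u) • y + om y u • jj y := by
    intro u
    simp only [Q]
    rw [Matrix.add_mulVec, Matrix.vecMulVec_mulVec, Matrix.vecMulVec_mulVec, star_jj_dot,
      op_smul_eq_smul, op_smul_eq_smul]
  have hQQ : Q * Q = N • Q := by
    simp only [Q]
    rw [mul_add, add_mul, add_mul]
    simp only [Matrix.vecMulVec_mul_vecMulVec]
    rw [star_jj_dot, om_self, dot_jj, om_self, jj_dot_jj, ← hN, hNs]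
    simp [Matrix.vecMulVec_smul, smul_add]
  have hQs : Qᴴ = Q := by
    simp only [Q]
    rw [Matrix.conjTranspose_add, Matrix.conjTranspose_vecMulVec, Matrix.conjTranspose_vecMulVec,
      star_star, star_star]
  have hJv : ∀ u : Fin n ⊕ Fin n → ℂ, J n *ᵥ star u = - jj u := by
    intro u
    rw [jj, Matrix.neg_mulVec, neg_neg]
  have hQJ : Q * J n = J n * cj Q := by
    have h1 : cj Q = cj (Matrix.vecMulVec y (star y)) +
        cj (Matrix.vecMulVec (jj y) (star (jj y))) := by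
      ext i k
      simp [cj, Q]
    rw [h1, cj_vecMulVec, cj_vecMulVec, star_star, star_star, mul_add, Matrix.mul_vecMulVec,
      Matrix.mul_vecMulVec, hJv, hJv, jj_jj, neg_neg]
    simp only [Q]
    rw [add_mul, Matrix.vecMulVec_mul, Matrix.vecMulVec_mul]
    have h2 : star y ᵥ* J n = jj y := by
      rw [vecMul_J]
      ext i
      rcases i with i | i <;> simp
    have h3 : star (jj y) ᵥ* J n = - y := by
      rw [vecMul_J]
      ext i
      rcases i with i | i <;> simp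
    rw [h2, h3, Matrix.vecMulVec_neg, Matrix.neg_vecMulVec, add_comm]
  have ht : (2 / N) * N = 2 := div_mul_cancel₀ _ hN0
  have hts : star (2 / N) = 2 / N := by
    rw [star_div₀, hNs]
    simp
  have hBs : (1 - (2 / N) • Q)ᴴ = 1 - (2 / N) • Q := by
    rw [Matrix.conjTranspose_sub, Matrix.conjTranspose_one, Matrix.conjTranspose_smul, hts, hQs]
  have hBB : (1 - (2 / N) • Q) * (1 - (2 / N) • Q) = 1 := by
    rw [mul_sub, sub_mul, sub_mul, one_mul, one_mul, mul_one, smul_mul_smul_comm, hQQ, smul_smul,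
      mul_assoc, ht]
    module
  refine ⟨1 - (2 / N) • Q, ⟨?_, hBB⟩, ?_⟩
  · rw [mem_Sp_iff, hBs]
    refine ⟨hBB, ?_⟩
    have h1 : cj (1 - (2 / N) • Q) = 1 - (2 / N) • cj Q := by
      ext i k
      have hts' : starRingEnd ℂ (2 / N) = 2 / N := hts
      simp only [cj, Matrix.map_apply, Matrix.sub_apply, Matrix.smul_apply, map_sub, smul_eq_mul,
        map_mul, hts', Matrix.one_apply, apply_ite (starRingEnd ℂ), map_one, map_zero]
    rw [h1, sub_mul, mul_sub, one_mul, mul_one, smul_mul_assoc, mul_smul_comm, hQJ]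
  · rw [Matrix.sub_mulVec, Matrix.one_mulVec, Matrix.smul_mulVec, hQv]
    have hAA : star (A *ᵥ x) ⬝ᵥ (A *ᵥ x) = 1 := by rw [dot_mulVec hA, hx]
    have hr' : star (A *ᵥ x) ⬝ᵥ x = r := by
      have h2 : star (star x ⬝ᵥ (A *ᵥ x)) = star (A *ᵥ x) ⬝ᵥ x := by
        rw [Matrix.star_dotProduct, star_star, dotProduct_comm]
      rw [← h2, hr]
      exact Complex.conj_ofReal r
    have h3 : star y ⬝ᵥ (A *ᵥ x) = r - 1 := by
      rw [hydef, star_sub, sub_dotProduct, hr, hAA]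
    have h4 : om y (A *ᵥ x) = 0 := by
      rw [hydef, sub_eq_add_neg, om_add_left, ho, ← neg_one_smul ℂ (A *ᵥ x), om_smul_left,
        om_self]
      simp
    have h5 : N = 2 - 2 * r := by
      rw [hN]
      nth_rewrite 2 [hydef]
      rw [dotProduct_sub, h3, hydef, star_sub, sub_dotProduct, hx, hr']
      ring
    have h6 : (2 / N) * (r - 1) = -1 := by
      have : (2 / N) * (2 - 2 * r) = 2 := by rw [← h5]; exact ht
      linear_combination (-1 / 2 : ℂ) * this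
    rw [h3, h4, zero_smul, add_zero, smul_smul, h6, hydef]
    module

/-- For even `n`, four involutions suffice. -/
theorem four {A : Matrix (Fin n ⊕ Fin n) (Fin n ⊕ Fin n) ℂ} (hA : A ∈ Sp n) (hpar : Even n) :
    ∃ B₁ B₂ B₃ B₄ : Matrix (Fin n ⊕ Fin n) (Fin n ⊕ Fin n) ℂ,
      IsInv B₁ ∧ IsInv B₂ ∧ IsInv B₃ ∧ IsInv B₄ ∧ A = B₁ * B₂ * B₃ * B₄ := by
  obtain ⟨v, l, h, -, -⟩ := Frame.complete hA (Nat.zero_le n) (v := fun _ => 0)
      (l := fun _ => 0) ⟨fun i hi => absurd hi (Nat.not_lt_zero i),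
        fun i hi => absurd hi (Nat.not_lt_zero i), fun i hi => absurd hi (Nat.not_lt_zero i)⟩
  have h2 : ¬ n % 2 = 1 := by
    rw [Nat.even_iff] at hpar
    omega
  exact four_of_frame hA h (fun h => absurd h h2)

/-- Every element of `Sp(n)`, `n ≥ 2`, is a product of five involutions. -/
theorem five {A : Matrix (Fin n ⊕ Fin n) (Fin n ⊕ Fin n) ℂ} (hA : A ∈ Sp n) (hn : 2 ≤ n) :
    ∃ B₀ B₁ B₂ B₃ B₄ : Matrix (Fin n ⊕ Fin n) (Fin n ⊕ Fin n) ℂ,
      IsInv B₀ ∧ IsInv B₁ ∧ IsInv B₂ ∧ IsInv B₃ ∧ IsInv B₄ ∧ A = B₀ * B₁ * B₂ * B₃ * B₄ := by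
  by_cases hpar : n % 2 = 1
  · obtain ⟨x, r, hx, hr, ho⟩ := exists_real hA hn
    obtain ⟨B, hB, hBx⟩ := exists_reflection hA x r hx hr ho
    have hBA : B * A ∈ Sp n := mul_mem_Sp hB.1 hA
    have hf : Frame (B * A) 1 (fun _ => x) (fun _ => 1) := by
      refine ⟨fun i hi k hk => ?_, fun i _ k _ => om_self x, fun i _ => ?_⟩
      · rw [hx, if_pos (by omega)]
      · rw [one_smul, ← Matrix.mulVec_mulVec, hBx]
    obtain ⟨v, l, h, -, hl⟩ := Frame.complete hBA (by omega) hf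
    obtain ⟨B₁, B₂, B₃, B₄, h1, h2, h3, h4, h5⟩ := four_of_frame hBA h
      (fun _ => hl 0 (by norm_num))
    refine ⟨B, B₁, B₂, B₃, B₄, hB, h1, h2, h3, h4, ?_⟩
    calc A = B * (B * A) := by rw [← mul_assoc, hB.2, one_mul]
      _ = _ := by rw [h5]; simp only [mul_assoc]
  · obtain ⟨B₁, B₂, B₃, B₄, h1, h2, h3, h4, h5⟩ := four hA (by
      rw [Nat.even_iff]
      omega)
    exact ⟨1, B₁, B₂, B₃, B₄, ⟨one_mem_Sp, one_mul 1⟩, h1, h2, h3, h4, by rw [one_mul, h5]⟩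

end Pool.Agent.R650.SpInv
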