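import Mathlib

/-!
# Undistorted embeddings into unitriangular groups: definitions
-/

set_option autoImplicit false

namespace Pool.Agent.R650.UT

universe u v

/-- The integer matrices that are upper triangular with ones on the diagonal. -/
def Unitri {n : ℕ} (M : Matrix (Fin n) (Fin n) ℤ) : Prop :=
  (∀ i j, j < i → M i j = 0) ∧ ∀ i, M i i = 1

theorem Unitri.mul {n : ℕ} {A B : Matrix (Fin n) (Fin n) ℤ} (hA : Unitri A) (hB : Unitri B) :
    Unitri (A * B) := by
  constructor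
  · intro i j hji
    rw [Matrix.mul_apply]
    refine Finset.sum_eq_zero fun k _ => ?_
    rcases lt_or_ge k i with h | h
    · rw [hA.1 i k h, zero_mul]
    · rw [hB.1 k j (lt_of_lt_of_le hji h), mul_zero]
  · intro i
    rw [Matrix.mul_apply, Finset.sum_eq_single i]
    · rw [hA.2, hB.2, mul_one]
    · intro k _ hk
      rcases lt_or_gt_of_ne hk with h | h
      · rw [hA.1 i k h, zero_mul]
      · rw [hB.1 k i h, mul_zero]
    · intro h
      exact absurd (Finset.mem_univ _) h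

/-- The group `UT_n(ℤ)` of upper unitriangular integer matrices. -/
def UT (n : ℕ) : Subgroup (Matrix (Fin n) (Fin n) ℤ)ˣ where
  carrier := {g | Unitri (g : Matrix (Fin n) (Fin n) ℤ)}
  one_mem' := by
    constructor
    · intro i j h
      rw [Units.val_one, Matrix.one_apply_ne h.ne']
    · intro i
      rw [Units.val_one, Matrix.one_apply_eq]
  mul_mem' := fun ha hb => ha.mul hb
  inv_mem' := by
    intro g hg
    have hinv : Invertible (g : Matrix (Fin n) (Fin n) ℤ) := g.isUnit.invertible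
    have h1 : Matrix.BlockTriangular (g : Matrix (Fin n) (Fin n) ℤ) id := fun i j h => hg.1 i j h
    have h2 := Matrix.blockTriangular_inv_of_blockTriangular h1
    rw [← Matrix.coe_units_inv] at h2
    have h3 : ∀ i j, j < i → ((g⁻¹ : (Matrix (Fin n) (Fin n) ℤ)ˣ) : Matrix (Fin n) (Fin n) ℤ) i j =
        0 := fun i j h => h2 h
    refine ⟨h3, fun i => ?_⟩
    have h4 : ((g : Matrix (Fin n) (Fin n) ℤ) *
        ((g⁻¹ : (Matrix (Fin n) (Fin n) ℤ)ˣ) : Matrix (Fin n) (Fin n) ℤ)) i i = 1 := by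
      rw [← Units.val_mul, mul_inv_cancel, Units.val_one, Matrix.one_apply_eq]
    rw [Matrix.mul_apply, Finset.sum_eq_single i] at h4
    · rwa [hg.2, one_mul] at h4
    · intro k _ hk
      rcases lt_or_gt_of_ne hk with h | h
      · rw [hg.1 i k h, zero_mul]
      · rw [h3 k i h, mul_zero]
    · intro h
      exact absurd (Finset.mem_univ _) h

/-- The word length of `g` with respect to `S`: the least length of a product of elements of
`S ∪ S⁻¹` equal to `g`. -/
noncomputable def wordLen {K : Type u} [Group K] (S : Set K) (g : K) : ℕ :=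
  sInf {m | ∃ w : List K, w.length = m ∧ (∀ s ∈ w, s ∈ S ∨ s⁻¹ ∈ S) ∧ w.prod = g}

/-- The homomorphism `φ : G → K` is undistorted: for some finite generating sets `S` of `G` and `T`
of `K` and some constant `C`, `|g|_S ≤ C |φ(g)|_T + C` for all `g`.  (For injective `φ` this says
that the subgroup `φ(G)` is undistorted in `K`.) -/
def IsUndistorted {G : Type u} {K : Type v} [Group G] [Group K] (φ : G →* K) : Prop :=
  ∃ (S : Finset G) (T : Finset K) (C : ℕ), Subgroup.closure (S : Set G) = ⊤ ∧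
    Subgroup.closure (T : Set K) = ⊤ ∧
    ∀ g, wordLen (S : Set G) g ≤ C * wordLen (T : Set K) (φ g) + C

/-- The five-dimensional integer Heisenberg group: `ℤ⁵` with the multiplication
`(a₁, b₁, a₂, b₂, c) (a₁', b₁', a₂', b₂', c') =
  (a₁ + a₁', b₁ + b₁', a₂ + a₂', b₂ + b₂', c + c' + a₁ b₁' + a₂ b₂')`. -/
@[ext]
structure Heis where
  a1 : ℤ
  b1 : ℤ
  a2 : ℤ
  b2 : ℤ
  c : ℤ

namespace Heis

instance : Mul Heis :=
  ⟨fun g h => ⟨g.a1 + h.a1, g.b1 + h.b1, g.a2 + h.a2, g.b2 + h.b2,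
    g.c + h.c + g.a1 * h.b1 + g.a2 * h.b2⟩⟩

instance : One Heis := ⟨⟨0, 0, 0, 0, 0⟩⟩

instance : Inv Heis :=
  ⟨fun g => ⟨-g.a1, -g.b1, -g.a2, -g.b2, -g.c + g.a1 * g.b1 + g.a2 * g.b2⟩⟩

@[simp] theorem mul_a1 (g h : Heis) : (g * h).a1 = g.a1 + h.a1 := rfl
@[simp] theorem mul_b1 (g h : Heis) : (g * h).b1 = g.b1 + h.b1 := rfl
@[simp] theorem mul_a2 (g h : Heis) : (g * h).a2 = g.a2 + h.a2 := rfl
@[simp] theorem mul_b2 (g h : Heis) : (g * h).b2 = g.b2 + h.b2 := rfl
@[simp] theorem mul_c (g h : Heis) : (g * h).c = g.c + h.c + g.a1 * h.b1 + g.a2 * h.b2 := rfl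
@[simp] theorem one_a1 : (1 : Heis).a1 = 0 := rfl
@[simp] theorem one_b1 : (1 : Heis).b1 = 0 := rfl
@[simp] theorem one_a2 : (1 : Heis).a2 = 0 := rfl
@[simp] theorem one_b2 : (1 : Heis).b2 = 0 := rfl
@[simp] theorem one_c : (1 : Heis).c = 0 := rfl
@[simp] theorem inv_a1 (g : Heis) : (g⁻¹).a1 = -g.a1 := rfl
@[simp] theorem inv_b1 (g : Heis) : (g⁻¹).b1 = -g.b1 := rfl
@[simp] theorem inv_a2 (g : Heis) : (g⁻¹).a2 = -g.a2 := rfl
@[simp] theorem inv_b2 (g : Heis) : (g⁻¹).b2 = -g.b2 := rfl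
@[simp] theorem inv_c (g : Heis) : (g⁻¹).c = -g.c + g.a1 * g.b1 + g.a2 * g.b2 := rfl

instance : Group Heis :=
  Group.ofLeftAxioms
    (fun _ _ _ => by ext <;> simp <;> ring)
    (fun _ => by ext <;> simp)
    (fun _ => by ext <;> simp <;> ring)

end Heis

end Pool.Agent.R650.UT
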