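import Mathlib
import Pool.Agent.R650.UTDefs

/-!
# The five-dimensional Heisenberg group has no undistorted embedding into a `UT_n(ℤ)`
-/

set_option autoImplicit false

namespace Pool.Agent.R650.UT

/-! ### Word length -/

section Len

variable {K : Type*} [Group K]

/-- `g` is a product of at most `m` elements of `S ∪ S⁻¹` -/
def Len (S : Set K) (m : ℕ) (g : K) : Prop :=
  ∃ w : List K, w.length ≤ m ∧ (∀ s ∈ w, s ∈ S ∨ s⁻¹ ∈ S) ∧ w.prod = g

theorem Len.mul {S : Set K} {m m' : ℕ} {g g' : K} (h : Len S m g) (h' : Len S m' g') :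
    Len S (m + m') (g * g') := by
  obtain ⟨w, h1, h2, h3⟩ := h
  obtain ⟨w', h1', h2', h3'⟩ := h'
  refine ⟨w ++ w', by rw [List.length_append]; omega, fun s hs => ?_, ?_⟩
  · rcases List.mem_append.1 hs with h4 | h4
    · exact h2 s h4
    · exact h2' s h4
  · rw [List.prod_append, h3, h3']

theorem Len.inv {S : Set K} {m : ℕ} {g : K} (h : Len S m g) : Len S m g⁻¹ := by
  obtain ⟨w, h1, h2, h3⟩ := h
  refine ⟨(w.map fun x => x⁻¹).reverse, by simpa using h1, fun s hs => ?_, ?_⟩
  · rw [List.mem_reverse, List.mem_map] at hs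
    obtain ⟨a, ha, rfl⟩ := hs
    rw [inv_inv]
    exact (h2 a ha).symm
  · rw [← List.prod_inv_reverse, h3]

theorem len_one (S : Set K) (m : ℕ) : Len S m (1 : K) := ⟨[], by simp, by simp, by simp⟩

theorem Len.pow {S : Set K} {m : ℕ} {g : K} (h : Len S m g) (k : ℕ) : Len S (m * k) (g ^ k) := by
  induction k with
  | zero => exact ⟨[], by simp, by simp, by simp⟩
  | succ k ih =>
    rw [pow_succ, Nat.mul_succ]
    exact ih.mul h

theorem Len.mono {S : Set K} {m m' : ℕ} {g : K} (h : Len S m g) (hm : m ≤ m') : Len S m' g := by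
  obtain ⟨w, h1, h2, h3⟩ := h
  exact ⟨w, h1.trans hm, h2, h3⟩

theorem exists_len (S : Set K) (hS : Subgroup.closure S = ⊤) (g : K) : ∃ m, Len S m g := by
  have h1 : g ∈ (Subgroup.closure S).toSubmonoid := by rw [hS]; trivial
  rw [Subgroup.closure_toSubmonoid] at h1
  obtain ⟨l, hl1, hl2⟩ := Submonoid.exists_list_of_mem_closure h1
  exact ⟨l.length, l, le_rfl, fun s hs => by simpa using hl1 s hs, hl2⟩

theorem len_wordLen (S : Set K) (hS : Subgroup.closure S = ⊤) (g : K) : Len S (wordLen S g) g := by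
  obtain ⟨m, w, -, h2, h3⟩ := exists_len S hS g
  obtain ⟨w', h1', h2', h3'⟩ := Nat.sInf_mem (s := {m | ∃ w : List K, w.length = m ∧
    (∀ s ∈ w, s ∈ S ∨ s⁻¹ ∈ S) ∧ w.prod = g}) ⟨w.length, w, rfl, h2, h3⟩
  exact ⟨w', h1'.le, h2', h3'⟩

theorem Len.wordLen_le {S : Set K} {m : ℕ} {g : K} (h : Len S m g) : wordLen S g ≤ m := by
  obtain ⟨w, h1, h2, h3⟩ := h
  have h4 : w.length ∈ {m | ∃ w : List K, w.length = m ∧ (∀ s ∈ w, s ∈ S ∨ s⁻¹ ∈ S) ∧
      w.prod = g} := ⟨w, rfl, h2, h3⟩
  exact (Nat.sInf_le h4).trans h1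

end Len

/-! ### The elementary matrices in `UT_n(ℤ)` and their lengths -/

section Elem

variable {n : ℕ}

theorem unitri_transvection {i j : Fin n} (h : i < j) (c : ℤ) :
    Unitri (Matrix.transvection i j c) := by
  constructor
  · intro a b hba
    rw [Matrix.transvection, Matrix.add_apply, Matrix.one_apply_ne hba.ne', zero_add,
      Matrix.single_apply]
    rw [if_neg]
    rintro ⟨rfl, rfl⟩
    exact absurd h (not_lt.2 hba.le)
  · intro a
    rw [Matrix.transvection, Matrix.add_apply, Matrix.one_apply_eq, Matrix.single_apply, if_neg,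
      add_zero]
    rintro ⟨rfl, rfl⟩
    exact lt_irrefl _ h

/-- The elementary matrix as an element of `UT_n(ℤ)`. -/
def E (i j : Fin n) (h : i < j) (c : ℤ) : UT n :=
  ⟨⟨Matrix.transvection i j c, Matrix.transvection i j (-c),
    by rw [Matrix.transvection_mul_transvection_same _ _ h.ne, add_neg_cancel,
      Matrix.transvection_zero],
    by rw [Matrix.transvection_mul_transvection_same _ _ h.ne, neg_add_cancel,
      Matrix.transvection_zero]⟩, unitri_transvection h c⟩

/-- the underlying matrix -/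
def mat (g : UT n) : Matrix (Fin n) (Fin n) ℤ := ((g : (Matrix (Fin n) (Fin n) ℤ)ˣ) : _)

theorem mat_mul (g h : UT n) : mat (g * h) = mat g * mat h := rfl

theorem mat_one : mat (1 : UT n) = 1 := rfl

theorem mat_pow (g : UT n) (k : ℕ) : mat (g ^ k) = mat g ^ k := rfl

theorem mat_E (i j : Fin n) (h : i < j) (c : ℤ) : mat (E i j h c) = Matrix.transvection i j c := rfl

theorem mat_inj {g h : UT n} (e : mat g = mat h) : g = h := Subtype.ext (Units.ext e)

theorem unitri_mat (g : UT n) : Unitri (mat g) := g.2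

theorem E_add (i j : Fin n) (h : i < j) (a b : ℤ) : E i j h (a + b) = E i j h a * E i j h b := by
  apply mat_inj
  rw [mat_mul, mat_E, mat_E, mat_E, Matrix.transvection_mul_transvection_same _ _ h.ne]

theorem E_zero (i j : Fin n) (h : i < j) : E i j h 0 = 1 := by
  apply mat_inj
  rw [mat_E, Matrix.transvection_zero, mat_one]

theorem E_neg (i j : Fin n) (h : i < j) (a : ℤ) : E i j h (-a) = (E i j h a)⁻¹ := by
  rw [eq_inv_iff_mul_eq_one, ← E_add, neg_add_cancel, E_zero]

theorem E_nat (i j : Fin n) (h : i < j) (a : ℕ) : E i j h a = E i j h 1 ^ a := by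
  induction a with
  | zero => rw [Nat.cast_zero, E_zero, pow_zero]
  | succ a ih => rw [Nat.cast_succ, E_add, ih, pow_succ]

theorem E_comm (i k j : Fin n) (h : i < k) (h' : k < j) (a b : ℤ) :
    E i j (h.trans h') (a * b) = E i k h a * E k j h' b * (E i k h a)⁻¹ * (E k j h' b)⁻¹ := by
  rw [← E_neg, ← E_neg]
  apply mat_inj
  simp only [mat_mul, mat_E, Matrix.transvection]
  have e1 : Matrix.single i k a * Matrix.single k j b = Matrix.single i j (a * b) :=
    Matrix.single_mul_single_same ..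
  have e2 : Matrix.single k j b * Matrix.single i k a = 0 :=
    Matrix.single_mul_single_of_ne _ _ _ _ (h.trans h').ne' _
  have e3 : Matrix.single i k a * Matrix.single i k a = 0 :=
    Matrix.single_mul_single_of_ne _ _ _ _ h.ne' _
  have e4 : Matrix.single k j b * Matrix.single k j b = 0 :=
    Matrix.single_mul_single_of_ne _ _ _ _ h'.ne' _
  have n1 : Matrix.single i k (-a) = -Matrix.single i k a := by
    rw [eq_neg_iff_add_eq_zero, ← Matrix.single_add, neg_add_cancel, Matrix.single_zero]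
  have n2 : Matrix.single k j (-b) = -Matrix.single k j b := by
    rw [eq_neg_iff_add_eq_zero, ← Matrix.single_add, neg_add_cancel, Matrix.single_zero]
  rw [n1, n2]
  rw [← e1]
  set A := Matrix.single i k a
  set B := Matrix.single k j b
  have : (1 + A) * (1 + B) * (1 + -A) * (1 + -B) =
      1 + A * B - A * A - B * A - A * (B * A) - B * B - A * (B * B) + (A * A) * B +
      (B * A) * B + A * (B * A) * B := by
    noncomm_ring
  rw [this, e2, e3, e4]
  simp

/-- Uniform bound for the lengths of the elementary matrices with entry `1`. -/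
theorem exists_len_E (T : Set (UT n)) (hT : Subgroup.closure T = ⊤) :
    ∃ C, ∀ (i j : Fin n) (h : i < j), Len T C (E i j h 1) := by
  choose f hf using fun p : {p : Fin n × Fin n // p.1 < p.2} =>
    exists_len T hT (E p.1.1 p.1.2 p.2 1)
  exact ⟨∑ p, f p, fun i j h => (hf ⟨(i, j), h⟩).mono
    (Finset.single_le_sum (f := f) (fun _ _ => Nat.zero_le _) (Finset.mem_univ _))⟩

theorem len_E (T : Set (UT n)) (hT : Subgroup.closure T = ⊤) (e : ℕ) :
    ∃ C : ℕ, ∀ m : ℕ, 1 ≤ m → ∀ (i j : Fin n) (h : i < j), (i : ℕ) + e + 1 ≤ j →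
      ∀ a : ℤ, |a| ≤ (m : ℤ) ^ (e + 1) → Len T (C * m) (E i j h a) := by
  obtain ⟨C₀, h₀⟩ := exists_len_E T hT
  have hbase : ∀ m : ℕ, ∀ (i j : Fin n) (h : i < j) (a : ℤ), |a| ≤ (m : ℤ) →
      Len T (C₀ * m) (E i j h a) := by
    intro m i j h a ha
    have h1 : a.natAbs ≤ m := by
      rw [Int.abs_eq_natAbs] at ha
      exact_mod_cast ha
    rcases Int.natAbs_eq a with h2 | h2
    · rw [h2, E_nat]
      exact ((h₀ i j h).pow _).mono (Nat.mul_le_mul_left _ h1)
    · rw [h2, E_neg, E_nat]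
      exact ((h₀ i j h).pow _).inv.mono (Nat.mul_le_mul_left _ h1)
  induction e with
  | zero =>
    exact ⟨C₀, fun m _ i j h _ a ha => hbase m i j h a (by simpa using ha)⟩
  | succ e ih =>
    obtain ⟨C, hC⟩ := ih
    refine ⟨C + (C₀ + C + C₀ + C), fun m hm i j h hij a ha => ?_⟩
    set b : ℤ := (m : ℤ) ^ (e + 1) with hb
    have hb0 : 0 < b := by positivity
    have ha1 := abs_le.1 ha
    have ha2 : (m : ℤ) ^ (e + 1 + 1) = m * b := by rw [hb]; ring
    rw [ha2] at ha1
    have h1 : a = a % b + (a / b) * b := by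
      have := Int.emod_add_mul_ediv a b
      linarith [mul_comm b (a / b)]
    have h2 : |a % b| ≤ b := by
      rw [abs_of_nonneg (Int.emod_nonneg _ hb0.ne')]
      exact (Int.emod_lt_of_pos _ hb0).le
    have h3 : |a / b| ≤ (m : ℤ) := by
      rw [abs_le]
      constructor
      · rw [Int.le_ediv_iff_mul_le hb0]
        linarith
      · exact Int.ediv_le_of_le_mul hb0 ha1.2
    -- the intermediate index
    have hk : (i : ℕ) + 1 < n := by omega
    let k : Fin n := ⟨i + 1, hk⟩
    have hik : i < k := Fin.lt_def.2 (Nat.lt_succ_self _)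
    have hkj : k < j := Fin.lt_def.2 (show (i : ℕ) + 1 < j by omega)
    have h4 : E i j h a = E i j h (a % b) * (E i k hik (a / b) * E k j hkj b *
        (E i k hik (a / b))⁻¹ * (E k j hkj b)⁻¹) := by
      rw [← E_comm i k j hik hkj, ← E_add, ← h1]
    have h5 : Len T (C * m) (E k j hkj b) :=
      hC m hm k j hkj (show (i : ℕ) + 1 + e + 1 ≤ j by omega) b (by rw [abs_of_pos hb0])
    have h6 : Len T (C₀ * m) (E i k hik (a / b)) := hbase m i k hik _ h3
    have h7 : Len T (C * m) (E i j h (a % b)) := hC m hm i j h (by omega) _ h2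
    rw [h4]
    refine (h7.mul (((h6.mul h5).mul h6.inv).mul h5.inv)).mono (le_of_eq ?_)
    ring

/-- The matrix consisting of the entries of `M` with (lexicographic) index less than `t`. -/
def part (M : Matrix (Fin n) (Fin n) ℤ) (t : ℕ) : Matrix (Fin n) (Fin n) ℤ := fun i j =>
  if i = j then 1 else if i < j ∧ (i : ℕ) * n + j < t then M i j else 0

theorem idx_inj {i j k l : Fin n} (h : (i : ℕ) * n + j = k * n + l) : i = k ∧ j = l := by
  have hj := j.2
  have hl := l.2
  rcases lt_trichotomy (i : ℕ) k with h1 | h1 | h1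
  · have h2 : ((i : ℕ) + 1) * n ≤ k * n := Nat.mul_le_mul_right _ h1
    rw [add_mul, one_mul] at h2
    omega
  · refine ⟨Fin.ext h1, Fin.ext ?_⟩
    rw [h1] at h
    omega
  · have h2 : ((k : ℕ) + 1) * n ≤ i * n := Nat.mul_le_mul_right _ h1
    rw [add_mul, one_mul] at h2
    omega

theorem exists_part (T : Set (UT n)) (M : Matrix (Fin n) (Fin n) ℤ) (D : ℕ)
    (hD : ∀ (i j : Fin n) (h : i < j), Len T D (E i j h (M i j))) (t : ℕ) :
    ∃ g : UT n, mat g = part M t ∧ Len T (D * t) g := by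
  induction t with
  | zero =>
    refine ⟨1, ?_, len_one _ _⟩
    ext i j
    rw [mat_one, part, Matrix.one_apply]
    simp
  | succ t ih =>
    obtain ⟨g, hg, hl⟩ := ih
    by_cases h : ∃ k l : Fin n, k < l ∧ (k : ℕ) * n + l = t
    · obtain ⟨k, l, hkl, ht⟩ := h
      refine ⟨E k l hkl (M k l) * g, ?_, ((hD k l hkl).mul hl).mono (by
        rw [Nat.mul_succ, add_comm])⟩
      rw [mat_mul, mat_E, hg]
      ext i j
      by_cases hik : i = k
      · subst hik
        rw [Matrix.transvection_mul_apply_same]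
        have h1 : part M t l j = if l = j then 1 else 0 := by
          rw [part]
          by_cases hlj : l = j
          · rw [if_pos hlj, if_pos hlj]
          · rw [if_neg hlj, if_neg hlj, if_neg]
            rintro ⟨-, h2⟩
            have h3 : ((i : ℕ) + 1) * n ≤ l * n := Nat.mul_le_mul_right _ hkl
            rw [add_mul, one_mul] at h3
            have := l.2
            omega
        rw [h1]
        by_cases hlj : l = j
        · subst hlj
          rw [if_pos rfl, mul_one]
          simp only [part]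
          rw [if_neg hkl.ne, if_neg hkl.ne, if_neg (fun h2 => by omega),
            if_pos ⟨hkl, by omega⟩, zero_add]
        · rw [if_neg hlj, mul_zero, add_zero]
          simp only [part]
          have h2 : (i < j ∧ (i : ℕ) * n + j < t) ↔ (i < j ∧ (i : ℕ) * n + j < t + 1) := by
            constructor
            · rintro ⟨h3, h4⟩
              exact ⟨h3, by omega⟩
            · rintro ⟨h3, h4⟩
              refine ⟨h3, lt_of_le_of_ne (by omega) fun h5 => hlj ?_⟩
              rw [← ht] at h5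
              exact (idx_inj h5).2.symm
          simp only [h2]
      · rw [Matrix.transvection_mul_apply_of_ne _ _ _ _ hik]
        simp only [part]
        have h2 : (i < j ∧ (i : ℕ) * n + j < t) ↔ (i < j ∧ (i : ℕ) * n + j < t + 1) := by
          constructor
          · rintro ⟨h3, h4⟩
            exact ⟨h3, by omega⟩
          · rintro ⟨h3, h4⟩
            refine ⟨h3, lt_of_le_of_ne (by omega) fun h5 => hik ?_⟩
            rw [← ht] at h5
            exact (idx_inj h5).1
        simp only [h2]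
    · refine ⟨g, ?_, hl.mono (by rw [Nat.mul_succ]; omega)⟩
      rw [hg]
      ext i j
      simp only [part]
      have h2 : (i < j ∧ (i : ℕ) * n + j < t) ↔ (i < j ∧ (i : ℕ) * n + j < t + 1) := by
        constructor
        · rintro ⟨h3, h4⟩
          exact ⟨h3, by omega⟩
        · rintro ⟨h3, h4⟩
          exact ⟨h3, lt_of_le_of_ne (by omega) fun h5 => h ⟨i, j, h3, h5⟩⟩
      simp only [h2]

theorem part_top (g : UT n) : part (mat g) (n * n) = mat g := by
  have hg := unitri_mat g
  ext i j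
  simp only [part]
  have hi := i.2
  have hj := j.2
  rcases lt_trichotomy i j with h | h | h
  · rw [if_neg h.ne, if_pos]
    refine ⟨h, ?_⟩
    have h1 : ((i : ℕ) + 1) * n ≤ n * n := Nat.mul_le_mul_right _ hi
    rw [add_mul, one_mul] at h1
    omega
  · rw [if_pos h, h, hg.2]
  · rw [if_neg h.ne', if_neg (fun h1 => absurd h1.1 (not_lt.2 h.le)), hg.1 i j h]

/-- Elements whose `(i, j)` entry is at most `m ^ (j - i)` have length at most `D m`. -/
theorem len_of_le (T : Set (UT n)) (hT : Subgroup.closure T = ⊤) :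
    ∃ D : ℕ, ∀ m : ℕ, 1 ≤ m → ∀ g : UT n,
      (∀ i j : Fin n, i < j → |mat g i j| ≤ (m : ℤ) ^ ((j : ℕ) - i)) → Len T (D * m) g := by
  choose C hC using len_E T hT
  refine ⟨(∑ e ∈ Finset.range n, C e) * (n * n), fun m hm g hg => ?_⟩
  obtain ⟨g', h1, h2⟩ := exists_part T (mat g) ((∑ e ∈ Finset.range n, C e) * m)
    (fun i j h => by
      have hij : (i : ℕ) < j := h
      have hj := j.2
      have h3 := hC ((j : ℕ) - i - 1) m hm i j h (by omega) (mat g i j) (by
        have h4 : (j : ℕ) - i - 1 + 1 = j - i := by omega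
        rw [h4]
        exact hg i j h)
      refine h3.mono (Nat.mul_le_mul_right _ ?_)
      exact Finset.single_le_sum (f := C) (fun _ _ => Nat.zero_le _)
        (Finset.mem_range.2 (by omega))) (n * n)
  rw [part_top] at h1
  rw [← mat_inj h1]
  refine h2.mono (le_of_eq ?_)
  ring

theorem Unitri.one : Unitri (1 : Matrix (Fin n) (Fin n) ℤ) :=
  ⟨fun _ _ h => Matrix.one_apply_ne h.ne', fun _ => Matrix.one_apply_eq _⟩

theorem Unitri.pow {M : Matrix (Fin n) (Fin n) ℤ} (h : Unitri M) (t : ℕ) : Unitri (M ^ t) := by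
  induction t with
  | zero => rw [pow_zero]; exact Unitri.one
  | succ t ih => rw [pow_succ]; exact ih.mul h

/-- Growth of the entries of the powers of a unitriangular matrix whose first two superdiagonals
vanish. -/
theorem pow_entries {Z : Matrix (Fin n) (Fin n) ℤ} (hZ : Unitri Z)
    (h0 : ∀ i j : Fin n, i < j → (j : ℕ) ≤ i + 2 → Z i j = 0) (B : ℤ) (hB : ∀ i j, |Z i j| ≤ B)
    (A : ℤ) (hA1 : 1 ≤ A) (hA : n * B ≤ A) (m : ℕ) (hm : 1 ≤ m) (d : ℕ) :
    ∀ i j : Fin n, (j : ℕ) = i + d → ∀ t ≤ m ^ 3, |(Z ^ t) i j| ≤ (A * m) ^ d := by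
  have hm' : (1 : ℤ) ≤ m := by exact_mod_cast hm
  have hAm : 1 ≤ A * m := by nlinarith
  induction d using Nat.strong_induction_on with
  | _ d ih =>
    intro i j hij t ht
    have hB0 : 0 ≤ B := (abs_nonneg _).trans (hB i j)
    rcases Nat.eq_zero_or_pos d with rfl | hd
    · have : i = j := Fin.ext hij.symm
      subst this
      rw [(hZ.pow t).2]
      simp
    · have hlt : i < j := Fin.lt_def.2 (by omega)
      have key : ∀ t : ℕ, t ≤ m ^ 3 → |(Z ^ t) i j| * (m : ℤ) ^ 3 ≤ t * (A * m) ^ d := by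
        intro t
        induction t with
        | zero =>
          intro _
          rw [pow_zero, Matrix.one_apply_ne hlt.ne]
          simp
        | succ t iht =>
          intro ht
          have iht' := iht (by omega)
          obtain ⟨τ, hτ1, hτ2⟩ : ∃ τ : ℤ, (∀ l, l ≠ i → |Z i l * (Z ^ t) l j| * (m : ℤ) ^ 3 ≤ τ) ∧
              n * τ ≤ (A * m) ^ d := by
            have hz : ∀ l, l ≠ i → (l : ℕ) < i + 3 → Z i l = 0 := by
              intro l hl hl'
              rcases lt_or_gt_of_ne hl with h1 | h1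
              · exact hZ.1 i l h1
              · exact h0 i l h1 (by omega)
            rcases Nat.lt_or_ge d 3 with h3 | h3
            · refine ⟨0, fun l hl => ?_, ?_⟩
              · rcases Nat.lt_or_ge (l : ℕ) (i + 3) with h4 | h4
                · rw [hz l hl h4]
                  simp
                · rw [(hZ.pow t).1 l j (Fin.lt_def.2 (by omega))]
                  simp
              · rw [mul_zero]
                positivity
            · refine ⟨B * (A * m) ^ (d - 3) * (m : ℤ) ^ 3, fun l hl => ?_, ?_⟩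
              · refine mul_le_mul_of_nonneg_right ?_ (by positivity)
                have hnn : 0 ≤ B * (A * m) ^ (d - 3) := by positivity
                rcases Nat.lt_or_ge (l : ℕ) (i + 3) with h4 | h4
                · rw [hz l hl h4]
                  simpa using hnn
                · rcases Nat.lt_or_ge (j : ℕ) l with h5 | h5
                  · rw [(hZ.pow t).1 l j (Fin.lt_def.2 h5)]
                    simpa using hnn
                  · rw [abs_mul]
                    refine mul_le_mul (hB i l) ?_ (abs_nonneg _) hB0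
                    refine (ih ((j : ℕ) - l) (by omega) l j (by omega) t (by omega)).trans ?_
                    exact pow_le_pow_right₀ hAm (by omega)
              · have e1 : (A * (m : ℤ)) ^ d = (A * m) ^ (d - 3) * (A * m) ^ 3 := by
                  rw [← pow_add]
                  congr 1
                  omega
                rw [e1]
                have h6 : (n : ℤ) * B ≤ A ^ 3 := by
                  have : A ≤ A ^ 3 := le_self_pow₀ hA1 (by norm_num)
                  linarith
                have h7 : (0 : ℤ) ≤ (A * m) ^ (d - 3) * (m : ℤ) ^ 3 := by positivity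
                have h8 := mul_le_mul_of_nonneg_right h6 h7
                calc (n : ℤ) * (B * (A * m) ^ (d - 3) * (m : ℤ) ^ 3)
                    = n * B * ((A * m) ^ (d - 3) * (m : ℤ) ^ 3) := by ring
                  _ ≤ A ^ 3 * ((A * m) ^ (d - 3) * (m : ℤ) ^ 3) := h8
                  _ = _ := by ring
          have hτ0 : 0 ≤ τ := by
            have hj := hτ1 j hlt.ne'
            refine le_trans ?_ hj
            positivity
          have e2 : (Z ^ (t + 1)) i j = (Z ^ t) i j +
              ∑ l ∈ Finset.univ.erase i, Z i l * (Z ^ t) l j := by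
            rw [pow_succ', Matrix.mul_apply, ← Finset.add_sum_erase _ _ (Finset.mem_univ i), hZ.2,
              one_mul]
          have e3 : |∑ l ∈ Finset.univ.erase i, Z i l * (Z ^ t) l j| * (m : ℤ) ^ 3 ≤ n * τ := by
            calc |∑ l ∈ Finset.univ.erase i, Z i l * (Z ^ t) l j| * (m : ℤ) ^ 3
                ≤ (∑ l ∈ Finset.univ.erase i, |Z i l * (Z ^ t) l j|) * (m : ℤ) ^ 3 :=
                  mul_le_mul_of_nonneg_right (Finset.abs_sum_le_sum_abs _ _) (by positivity)
              _ = ∑ l ∈ Finset.univ.erase i, |Z i l * (Z ^ t) l j| * (m : ℤ) ^ 3 :=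
                  Finset.sum_mul ..
              _ ≤ ∑ l ∈ Finset.univ.erase i, τ :=
                  Finset.sum_le_sum fun l hl => hτ1 l (Finset.ne_of_mem_erase hl)
              _ ≤ ∑ l : Fin n, τ :=
                  Finset.sum_le_sum_of_subset_of_nonneg (Finset.erase_subset _ _)
                    fun _ _ _ => hτ0
              _ = n * τ := by simp
          have e4 : |(Z ^ (t + 1)) i j| ≤ |(Z ^ t) i j| +
              |∑ l ∈ Finset.univ.erase i, Z i l * (Z ^ t) l j| := by
            rw [e2]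
            exact abs_add_le _ _
          have e5 := mul_le_mul_of_nonneg_right e4 (show (0 : ℤ) ≤ (m : ℤ) ^ 3 by positivity)
          push_cast
          linarith
      have h1 := key t ht
      have h2 : (t : ℤ) * (A * m) ^ d ≤ (m : ℤ) ^ 3 * (A * m) ^ d := by
        refine mul_le_mul_of_nonneg_right ?_ (by positivity)
        exact_mod_cast ht
      have h3 : |(Z ^ t) i j| * (m : ℤ) ^ 3 ≤ (A * m) ^ d * (m : ℤ) ^ 3 := by linarith
      exact le_of_mul_le_mul_right h3 (by positivity)

end Elem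

/-! ### The Heisenberg group -/

namespace Heis

theorem pow_a1 (g : Heis) (k : ℕ) : (g ^ k).a1 = k * g.a1 := by
  induction k with
  | zero => simp
  | succ k ih => rw [pow_succ, mul_a1, ih]; push_cast; ring

theorem pow_b1 (g : Heis) (k : ℕ) : (g ^ k).b1 = k * g.b1 := by
  induction k with
  | zero => simp
  | succ k ih => rw [pow_succ, mul_b1, ih]; push_cast; ring

theorem pow_a2 (g : Heis) (k : ℕ) : (g ^ k).a2 = k * g.a2 := by
  induction k with
  | zero => simp
  | succ k ih => rw [pow_succ, mul_a2, ih]; push_cast; ring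

theorem pow_b2 (g : Heis) (k : ℕ) : (g ^ k).b2 = k * g.b2 := by
  induction k with
  | zero => simp
  | succ k ih => rw [pow_succ, mul_b2, ih]; push_cast; ring

/-- powers of elements with `a₁ = a₂ = 0` -/
theorem pow_c (g : Heis) (h1 : g.a1 = 0) (h2 : g.a2 = 0) (k : ℕ) : (g ^ k).c = k * g.c := by
  induction k with
  | zero => simp
  | succ k ih =>
    rw [pow_succ, mul_c, ih, pow_a1, pow_a2, h1, h2]
    push_cast
    ring

/-- powers of elements with `b₁ = b₂ = 0` -/
theorem pow_c' (g : Heis) (h1 : g.b1 = 0) (h2 : g.b2 = 0) (k : ℕ) : (g ^ k).c = k * g.c := by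
  induction k with
  | zero => simp
  | succ k ih =>
    rw [pow_succ, mul_c, ih, h1, h2]
    push_cast
    ring

theorem torsionFree (g : Heis) (hg : g ≠ 1) (k : ℕ) (hk : 0 < k) : g ^ k ≠ 1 := by
  intro h
  apply hg
  have hk' : (k : ℤ) ≠ 0 := by exact_mod_cast hk.ne'
  have e1 : g.a1 = 0 := by
    have := congrArg Heis.a1 h
    rw [pow_a1, one_a1] at this
    exact (mul_eq_zero.1 this).resolve_left hk'
  have e2 : g.b1 = 0 := by
    have := congrArg Heis.b1 h
    rw [pow_b1, one_b1] at this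
    exact (mul_eq_zero.1 this).resolve_left hk'
  have e3 : g.a2 = 0 := by
    have := congrArg Heis.a2 h
    rw [pow_a2, one_a2] at this
    exact (mul_eq_zero.1 this).resolve_left hk'
  have e4 : g.b2 = 0 := by
    have := congrArg Heis.b2 h
    rw [pow_b2, one_b2] at this
    exact (mul_eq_zero.1 this).resolve_left hk'
  have e5 : g.c = 0 := by
    have := congrArg Heis.c h
    rw [pow_c g e1 e3, one_c] at this
    exact (mul_eq_zero.1 this).resolve_left hk'
  ext <;> assumption

/-- the abelianisation map -/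
def toAb : Heis →* Multiplicative (ℤ × ℤ × ℤ × ℤ) where
  toFun g := Multiplicative.ofAdd (g.a1, g.b1, g.a2, g.b2)
  map_one' := rfl
  map_mul' _ _ := rfl

theorem isNilpotent : Group.IsNilpotent Heis := by
  refine Subgroup.isNilpotent_of_ker_le_center toAb ?_
  intro g hg
  rw [MonoidHom.mem_ker] at hg
  have h1 : (g.a1, g.b1, g.a2, g.b2) = ((0 : ℤ), (0 : ℤ), (0 : ℤ), (0 : ℤ)) := hg
  simp only [Prod.mk.injEq] at h1
  obtain ⟨e1, e2, e3, e4⟩ := h1
  rw [Subgroup.mem_center_iff]
  intro h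
  ext <;> simp [e1, e2, e3, e4, add_comm]

def x1 : Heis := ⟨1, 0, 0, 0, 0⟩
def y1 : Heis := ⟨0, 1, 0, 0, 0⟩
def x2 : Heis := ⟨0, 0, 1, 0, 0⟩
def y2 : Heis := ⟨0, 0, 0, 1, 0⟩
def z : Heis := ⟨0, 0, 0, 0, 1⟩

theorem closure_eq : Subgroup.closure ({x1, y1, x2, y2} : Set Heis) = ⊤ := by
  set H := Subgroup.closure ({x1, y1, x2, y2} : Set Heis) with hH
  have hx1 : x1 ∈ H := Subgroup.subset_closure (by simp)
  have hy1 : y1 ∈ H := Subgroup.subset_closure (by simp)
  have hx2 : x2 ∈ H := Subgroup.subset_closure (by simp)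
  have hy2 : y2 ∈ H := Subgroup.subset_closure (by simp)
  have hz : z ∈ H := by
    have : z = x1 * y1 * x1⁻¹ * y1⁻¹ := by ext <;> simp [x1, y1, z]
    rw [this]
    exact H.mul_mem (H.mul_mem (H.mul_mem hx1 hy1) (H.inv_mem hx1)) (H.inv_mem hy1)
  have key : ∀ (u : Heis) (f : ℤ → Heis), u ∈ H → f 0 = 1 → (∀ k, f (k + 1) = f k * u) →
      ∀ k, f k ∈ H := by
    intro u f hu h0 hs k
    induction k using Int.induction_on with
    | zero => rw [h0]; exact H.one_mem
    | succ k ih => rw [hs]; exact H.mul_mem ih hu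
    | pred k ih =>
      have h1 := hs (-(k : ℤ) - 1)
      rw [sub_add_cancel] at h1
      have h2 : f (-(k : ℤ) - 1) = f (-(k : ℤ)) * u⁻¹ := by rw [h1, mul_inv_cancel_right]
      rw [h2]
      exact H.mul_mem ih (H.inv_mem hu)
  rw [eq_top_iff]
  rintro ⟨a, b, a', b', c⟩ -
  have e : (⟨a, b, a', b', c⟩ : Heis) = ⟨0, b, 0, 0, 0⟩ * ⟨a, 0, 0, 0, 0⟩ * ⟨0, 0, 0, b', 0⟩ *
      ⟨0, 0, a', 0, 0⟩ * ⟨0, 0, 0, 0, c⟩ := by
    ext <;> simp
  rw [e]
  refine H.mul_mem (H.mul_mem (H.mul_mem (H.mul_mem ?_ ?_) ?_) ?_) ?_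
  · exact key y1 (fun k => ⟨0, k, 0, 0, 0⟩) hy1 rfl (fun k => by ext <;> simp [y1]) b
  · exact key x1 (fun k => ⟨k, 0, 0, 0, 0⟩) hx1 rfl (fun k => by ext <;> simp [x1]) a
  · exact key y2 (fun k => ⟨0, 0, 0, k, 0⟩) hy2 rfl (fun k => by ext <;> simp [y2]) b'
  · exact key x2 (fun k => ⟨0, 0, k, 0, 0⟩) hx2 rfl (fun k => by ext <;> simp [x2]) a'
  · exact key z (fun k => ⟨0, 0, 0, 0, k⟩) hz rfl (fun k => by ext <;> simp [z]) c

theorem fg : Group.FG Heis := by
  rw [Group.fg_iff]
  exact ⟨{x1, y1, x2, y2}, closure_eq, by simp⟩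

/-- Quadratic upper bound for the central coordinate of a short word. -/
theorem exists_bound (S : Finset Heis) : ∃ M : ℤ, 0 ≤ M ∧ ∀ (m : ℕ) (g : Heis),
    Len (S : Set Heis) m g → |g.c| ≤ M * m + 2 * M ^ 2 * m ^ 2 := by
  let f : Heis → ℤ := fun s => |s.a1| + |s.b1| + |s.a2| + |s.b2| + |s.c| + |(s⁻¹).c|
  have hf : ∀ s, 0 ≤ f s := fun s => by positivity
  refine ⟨∑ s ∈ S, f s, Finset.sum_nonneg fun s _ => hf s, ?_⟩
  set M := ∑ s ∈ S, f s with hM
  have hM0 : 0 ≤ M := Finset.sum_nonneg fun s _ => hf s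
  have hle : ∀ s ∈ S, f s ≤ M := fun s hs => Finset.single_le_sum (fun s _ => hf s) hs
  have hs : ∀ s : Heis, (s ∈ (S : Set Heis) ∨ s⁻¹ ∈ (S : Set Heis)) → |s.a1| ≤ M ∧ |s.b1| ≤ M ∧
      |s.a2| ≤ M ∧ |s.b2| ≤ M ∧ |s.c| ≤ M := by
    intro s hs
    rcases hs with hs | hs
    · have h1 := hle s hs
      have := abs_nonneg s.a1
      have := abs_nonneg s.b1
      have := abs_nonneg s.a2
      have := abs_nonneg s.b2
      have := abs_nonneg s.c
      have := abs_nonneg (s⁻¹).c
      simp only [f] at h1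
      refine ⟨?_, ?_, ?_, ?_, ?_⟩ <;> linarith
    · have h1 := hle _ hs
      have := abs_nonneg s.a1
      have := abs_nonneg s.b1
      have := abs_nonneg s.a2
      have := abs_nonneg s.b2
      have := abs_nonneg s.c
      have := abs_nonneg (s⁻¹).c
      simp only [f, inv_a1, inv_b1, inv_a2, inv_b2, abs_neg, inv_inv] at h1
      refine ⟨?_, ?_, ?_, ?_, ?_⟩ <;> linarith
  have key : ∀ w : List Heis, (∀ s ∈ w, s ∈ (S : Set Heis) ∨ s⁻¹ ∈ (S : Set Heis)) →
      |w.prod.a1| ≤ M * w.length ∧ |w.prod.b1| ≤ M * w.length ∧ |w.prod.a2| ≤ M * w.length ∧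
      |w.prod.b2| ≤ M * w.length ∧ |w.prod.c| ≤ M * w.length + 2 * M ^ 2 * w.length ^ 2 := by
    intro w
    induction w with
    | nil => intro _; simp
    | cons s w ih =>
      intro hw
      obtain ⟨i1, i2, i3, i4, i5⟩ := ih fun t ht => hw t (List.mem_cons_of_mem _ ht)
      obtain ⟨j1, j2, j3, j4, j5⟩ := hs s (hw s List.mem_cons_self)
      rw [List.prod_cons, List.length_cons]
      push_cast
      have e1 : |s.a1 * w.prod.b1| ≤ M * (M * w.length) := by
        rw [abs_mul]
        exact mul_le_mul j1 i2 (abs_nonneg _) hM0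
      have e2 : |s.a2 * w.prod.b2| ≤ M * (M * w.length) := by
        rw [abs_mul]
        exact mul_le_mul j3 i4 (abs_nonneg _) hM0
      refine ⟨?_, ?_, ?_, ?_, ?_⟩
      · rw [mul_a1]
        have := abs_add_le s.a1 w.prod.a1
        linarith
      · rw [mul_b1]
        have := abs_add_le s.b1 w.prod.b1
        linarith
      · rw [mul_a2]
        have := abs_add_le s.a2 w.prod.a2
        linarith
      · rw [mul_b2]
        have := abs_add_le s.b2 w.prod.b2
        linarith
      · rw [mul_c]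
        have h1 := abs_add_le (s.c + w.prod.c + s.a1 * w.prod.b1) (s.a2 * w.prod.b2)
        have h2 := abs_add_le (s.c + w.prod.c) (s.a1 * w.prod.b1)
        have h3 := abs_add_le s.c w.prod.c
        have h4 : (0 : ℤ) ≤ M ^ 2 * w.length := by positivity
        have h5 : (0 : ℤ) ≤ M ^ 2 := by positivity
        nlinarith
  rintro m g ⟨w, h1, h2, h3⟩
  have h4 := (key w h2).2.2.2.2
  rw [h3] at h4
  have h5 : (w.length : ℤ) ≤ m := by exact_mod_cast h1
  have h6 : (0 : ℤ) ≤ w.length := by positivity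
  have h7 : (w.length : ℤ) ^ 2 ≤ (m : ℤ) ^ 2 := pow_le_pow_left₀ h6 h5 2
  have h8 : (0 : ℤ) ≤ 2 * M ^ 2 := by positivity
  have := mul_le_mul_of_nonneg_left h5 hM0
  have := mul_le_mul_of_nonneg_left h7 h8
  linarith

end Heis

/-! ### The image of the centre -/

section Image

variable {n : ℕ}

theorem mul_entry_one {A B : Matrix (Fin n) (Fin n) ℤ} (hA : Unitri A) (hB : Unitri B)
    {i j : Fin n} (h : (j : ℕ) = i + 1) : (A * B) i j = A i j + B i j := by
  have hij : i ≠ j := fun e => by rw [e] at h; omega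
  rw [Matrix.mul_apply, ← Finset.sum_subset (Finset.subset_univ {i, j}), Finset.sum_pair hij,
    hA.2, hB.2]
  · ring
  · intro l _ hl
    rw [Finset.mem_insert, Finset.mem_singleton, not_or] at hl
    have h1 : (l : ℕ) ≠ i := fun e => hl.1 (Fin.ext e)
    rcases Nat.lt_or_ge (l : ℕ) i with h2 | h2
    · rw [hA.1 i l (Fin.lt_def.2 h2), zero_mul]
    · have h3 : (l : ℕ) ≠ j := fun e => hl.2 (Fin.ext e)
      rw [hB.1 l j (Fin.lt_def.2 (by omega)), mul_zero]

theorem mul_entry_two {A B : Matrix (Fin n) (Fin n) ℤ} (hA : Unitri A) (hB : Unitri B)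
    {i k j : Fin n} (h : (k : ℕ) = i + 1) (h' : (j : ℕ) = i + 2) :
    (A * B) i j = A i j + A i k * B k j + B i j := by
  have hij : i ≠ j := fun e => by rw [e] at h'; omega
  have hik : i ≠ k := fun e => by rw [e] at h; omega
  have hkj : k ≠ j := fun e => by rw [e] at h; omega
  rw [Matrix.mul_apply, ← Finset.sum_subset (Finset.subset_univ {i, k, j}), Finset.sum_insert,
    Finset.sum_pair hkj, hA.2, hB.2]
  · ring
  · simp [hij, hik]
  · intro l _ hl
    simp only [Finset.mem_insert, Finset.mem_singleton, not_or] at hl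
    have h1 : (l : ℕ) ≠ i := fun e => hl.1 (Fin.ext e)
    have h2 : (l : ℕ) ≠ k := fun e => hl.2.1 (Fin.ext e)
    have h3 : (l : ℕ) ≠ j := fun e => hl.2.2 (Fin.ext e)
    rcases Nat.lt_or_ge (l : ℕ) i with h2 | h2
    · rw [hA.1 i l (Fin.lt_def.2 h2), zero_mul]
    · rw [hB.1 l j (Fin.lt_def.2 (by omega)), mul_zero]

/-- The first two superdiagonals of the image of the central element vanish. -/
theorem image_z (φ : Heis →* UT n) (i j : Fin n) (h : i < j) (h' : (j : ℕ) ≤ i + 2) :
    mat (φ Heis.z) i j = 0 := by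
  have hc1 : φ Heis.x1 * φ Heis.y1 = φ Heis.z * (φ Heis.y1 * φ Heis.x1) := by
    rw [← map_mul, ← map_mul, ← map_mul]
    rfl
  have hc2 : φ Heis.x2 * φ Heis.y2 = φ Heis.z * (φ Heis.y2 * φ Heis.x2) := by
    rw [← map_mul, ← map_mul, ← map_mul]
    rfl
  have hd1 : φ Heis.x1 * φ Heis.x2 = φ Heis.x2 * φ Heis.x1 := by
    rw [← map_mul, ← map_mul]
    congr 1
  have hd2 : φ Heis.x1 * φ Heis.y2 = φ Heis.y2 * φ Heis.x1 := by
    rw [← map_mul, ← map_mul]
    congr 1
  have hd3 : φ Heis.y1 * φ Heis.x2 = φ Heis.x2 * φ Heis.y1 := by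
    rw [← map_mul, ← map_mul]
    congr 1
  have hd4 : φ Heis.y1 * φ Heis.y2 = φ Heis.y2 * φ Heis.y1 := by
    rw [← map_mul, ← map_mul]
    congr 1
  replace hc1 := congrArg mat hc1
  replace hc2 := congrArg mat hc2
  replace hd1 := congrArg mat hd1
  replace hd2 := congrArg mat hd2
  replace hd3 := congrArg mat hd3
  replace hd4 := congrArg mat hd4
  simp only [mat_mul] at hc1 hc2 hd1 hd2 hd3 hd4
  have uX1 := unitri_mat (φ Heis.x1)
  have uY1 := unitri_mat (φ Heis.y1)
  have uX2 := unitri_mat (φ Heis.x2)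
  have uY2 := unitri_mat (φ Heis.y2)
  have uZ := unitri_mat (φ Heis.z)
  set X1 := mat (φ Heis.x1)
  set Y1 := mat (φ Heis.y1)
  set X2 := mat (φ Heis.x2)
  set Y2 := mat (φ Heis.y2)
  set Z := mat (φ Heis.z)
  have hone : ∀ i j : Fin n, (j : ℕ) = i + 1 → Z i j = 0 := by
    intro i j hij
    have e := congrFun (congrFun hc1 i) j
    rw [mul_entry_one uX1 uY1 hij, mul_entry_one uZ (uY1.mul uX1) hij,
      mul_entry_one uY1 uX1 hij] at e
    linarith
  have hlt : (i : ℕ) < j := h
  rcases Nat.lt_or_ge (j : ℕ) (i + 2) with h2 | h2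
  · exact hone i j (by omega)
  · have hj : (j : ℕ) = i + 2 := by omega
    have hjn := j.2
    let k : Fin n := ⟨i + 1, by omega⟩
    have hk : (k : ℕ) = i + 1 := rfl
    have hkj : (j : ℕ) = k + 1 := by omega
    have e1 := congrFun (congrFun hc1 i) j
    have e2 := congrFun (congrFun hc2 i) j
    have f1 := congrFun (congrFun hd1 i) j
    have f2 := congrFun (congrFun hd2 i) j
    have f3 := congrFun (congrFun hd3 i) j
    have f4 := congrFun (congrFun hd4 i) j
    rw [mul_entry_two uX1 uY1 hk hj, mul_entry_two uZ (uY1.mul uX1) hk hj,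
      mul_entry_two uY1 uX1 hk hj, hone i k hk] at e1
    rw [mul_entry_two uX2 uY2 hk hj, mul_entry_two uZ (uY2.mul uX2) hk hj,
      mul_entry_two uY2 uX2 hk hj, hone i k hk] at e2
    rw [mul_entry_two uX1 uX2 hk hj, mul_entry_two uX2 uX1 hk hj] at f1
    rw [mul_entry_two uX1 uY2 hk hj, mul_entry_two uY2 uX1 hk hj] at f2
    rw [mul_entry_two uY1 uX2 hk hj, mul_entry_two uX2 uY1 hk hj] at f3
    rw [mul_entry_two uY1 uY2 hk hj, mul_entry_two uY2 uY1 hk hj] at f4
    have g1 : Z i j = X1 i k * Y1 k j - Y1 i k * X1 k j := by linarith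
    have g2 : Z i j = X2 i k * Y2 k j - Y2 i k * X2 k j := by linarith
    have g3 : X1 i k * X2 k j = X2 i k * X1 k j := by linarith
    have g4 : X1 i k * Y2 k j = Y2 i k * X1 k j := by linarith
    have g5 : Y1 i k * X2 k j = X2 i k * Y1 k j := by linarith
    have g6 : Y1 i k * Y2 k j = Y2 i k * Y1 k j := by linarith
    have g7 : Z i j * Z i j = 0 := by
      nth_rewrite 1 [g1]
      rw [g2]
      linear_combination (Y1 i k * Y2 k j - Y2 i k * Y1 k j) * g3
        - (Y1 i k * X2 k j - X2 i k * Y1 k j) * g4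
    exact mul_self_eq_zero.1 g7

theorem z_pow (k : ℕ) : (Heis.z ^ k).c = k := by
  rw [Heis.pow_c _ rfl rfl]
  simp [Heis.z]

theorem not_isUndistorted (φ : Heis →* UT n) : ¬ IsUndistorted φ := by
  rintro ⟨S, T, C, hS, hT, hC⟩
  obtain ⟨M, hM0, hM⟩ := Heis.exists_bound S
  obtain ⟨D, hD⟩ := len_of_le (T : Set (UT n)) hT
  set Z := mat (φ Heis.z) with hZ
  have uZ : Unitri Z := unitri_mat _
  have hB : ∀ i j, |Z i j| ≤ ∑ i, ∑ j, |Z i j| := by
    intro i j
    refine (Finset.single_le_sum (f := fun j => |Z i j|) (fun _ _ => abs_nonneg _)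
      (Finset.mem_univ j)).trans ?_
    exact Finset.single_le_sum (f := fun i => ∑ j, |Z i j|)
      (fun _ _ => Finset.sum_nonneg fun _ _ => abs_nonneg _) (Finset.mem_univ i)
  set B : ℤ := ∑ i, ∑ j, |Z i j| with hBdef
  have hB0 : 0 ≤ B := Finset.sum_nonneg fun _ _ => Finset.sum_nonneg fun _ _ => abs_nonneg _
  obtain ⟨A, hA⟩ : ∃ A : ℕ, (A : ℤ) = n * B + 1 :=
    ⟨(n * B + 1).toNat, Int.toNat_of_nonneg (by positivity)⟩
  have hA1 : (1 : ℤ) ≤ A := by
    rw [hA]
    have : 0 ≤ (n : ℤ) * B := by positivity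
    linarith
  have hlen : ∀ m : ℕ, 1 ≤ m → Len (S : Set Heis) ((C * (D * A) + C) * m) (Heis.z ^ (m ^ 3)) := by
    intro m hm
    have h1 : Len (T : Set (UT n)) (D * (A * m)) (φ Heis.z ^ (m ^ 3)) := by
      refine hD (A * m) (Nat.mul_pos (by exact_mod_cast hA1) hm) _ fun i j hij => ?_
      rw [mat_pow]
      push_cast
      have hlt : (i : ℕ) < j := hij
      exact pow_entries uZ (image_z φ) B hB A hA1 (by rw [hA]; linarith) m hm ((j : ℕ) - i) i j
        (by omega) (m ^ 3) le_rfl
    have h2 := hC (Heis.z ^ (m ^ 3))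
    rw [map_pow] at h2
    refine (len_wordLen _ hS _).mono (h2.trans ?_)
    have h3 := Nat.mul_le_mul_left C h1.wordLen_le
    have h4 : C ≤ C * m := Nat.le_mul_of_pos_right _ hm
    have h5 : (C * (D * A) + C) * m = C * (D * (A * m)) + C * m := by ring
    rw [h5]
    omega
  set L : ℕ := C * (D * A) + C with hL
  set Q : ℤ := M * L + 2 * M ^ 2 * L ^ 2 with hQ
  have hQ0 : 0 ≤ Q := by positivity
  obtain ⟨m, hm⟩ : ∃ m : ℕ, (m : ℤ) = Q + 1 := ⟨(Q + 1).toNat, Int.toNat_of_nonneg (by positivity)⟩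
  have hm1 : 1 ≤ m := by
    have : (1 : ℤ) ≤ m := by rw [hm]; linarith
    exact_mod_cast this
  have h1 := hM _ _ (hlen m hm1)
  rw [z_pow] at h1
  push_cast at h1
  rw [abs_of_nonneg (by positivity)] at h1
  have hm1' : (1 : ℤ) ≤ m := by exact_mod_cast hm1
  have h2 : M * ((L : ℤ) * m) + 2 * M ^ 2 * ((L : ℤ) * m) ^ 2 ≤ Q * (m : ℤ) ^ 2 := by
    have h3 : (m : ℤ) ≤ (m : ℤ) ^ 2 := le_self_pow₀ hm1' (by norm_num)
    have h4 : 0 ≤ M * (L : ℤ) := by positivity
    have h5 := mul_le_mul_of_nonneg_left h3 h4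
    rw [hQ]
    linarith
  have h3 : (m : ℤ) ^ 3 ≤ Q * (m : ℤ) ^ 2 := h1.trans h2
  have h4 : (m : ℤ) ^ 3 = (Q + 1) * (m : ℤ) ^ 2 := by rw [← hm]; ring
  have h5 : 0 < (m : ℤ) ^ 2 := by positivity
  linarith

end Image

end Pool.Agent.R650.UT
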