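import Pool.Agent.R684.VG.Stm

/-!
# VG-NF: `BS(1,2) * ℤ` is not free and not a hyperbolic surface group
-/

set_option autoImplicit false

namespace Pool.Agent.R650.VG

open Pool.Agent.R684.VG Pool.Agent.H919R3.Grp

open FreeGroup FreeGroup.reduceCyclically in
theorem norm_pow_eq {α : Type*} [DecidableEq α] (x : FreeGroup α) (n : ℕ) (hn : n ≠ 0) :
    FreeGroup.norm (x ^ n) = 2 * (conjugator x.toWord).length +
      n * (FreeGroup.reduceCyclically x.toWord).length := by
  have h1 : (x ^ n).toWord = conjugator x.toWord ++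
      ((List.replicate n (FreeGroup.reduceCyclically x.toWord)).flatten ++
        invRev (conjugator x.toWord)) := by
    simp [toWord_pow, reduce_flatten_replicate, isReduced_toWord, hn]
  have h2 := congrArg List.length h1
  unfold FreeGroup.norm
  rw [h2]
  simp only [List.length_append, invRev_length, List.length_flatten, List.map_replicate,
    List.sum_replicate, smul_eq_mul]
  ring

open FreeGroup FreeGroup.reduceCyclically in
/-- in a free group `y x y⁻¹ = x²` implies `x = 1` -/
theorem bs_free {α : Type*} (x y : FreeGroup α) (h : y * x * y⁻¹ = x * x) : x = 1 := by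
  classical
  have h1 : ∀ n : ℕ, y * x ^ n * y⁻¹ = x ^ (2 * n) := by
    intro n
    rw [← conj_pow, h, ← pow_two, ← pow_mul]
  set r := (FreeGroup.reduceCyclically x.toWord).length with hr
  have h2 : ∀ n : ℕ, n ≠ 0 → n * r ≤ 2 * FreeGroup.norm y := by
    intro n hn
    have h3 := norm_pow_eq x n hn
    have h4 := norm_pow_eq x (2 * n) (by omega)
    have h5 : FreeGroup.norm (x ^ (2 * n)) ≤ FreeGroup.norm y + FreeGroup.norm (x ^ n) +
        FreeGroup.norm y := by
      rw [← h1 n]
      refine (FreeGroup.norm_mul_le _ _).trans ?_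
      rw [FreeGroup.norm_inv_eq]
      exact Nat.add_le_add_right (FreeGroup.norm_mul_le _ _) _
    rw [h3, h4, ← hr] at h5
    nlinarith
  have h3 := h2 (2 * FreeGroup.norm y + 1) (by omega)
  have h4 : r = 0 := by
    by_contra hne
    have : 1 ≤ r := Nat.one_le_iff_ne_zero.2 hne
    nlinarith
  have h5 : FreeGroup.reduceCyclically x.toWord = [] := List.length_eq_zero_iff.1 h4
  have h6 := conj_conjugator_reduceCyclically x.toWord
  rw [h5, List.append_nil] at h6
  have h7 := congrArg FreeGroup.mk h6
  rw [← FreeGroup.mul_mk, ← FreeGroup.inv_mk, mul_inv_cancel, FreeGroup.mk_toWord] at h7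
  exact h7.symm

/-- the group with two elements -/
abbrev C2 : Type := Multiplicative (ZMod 2)

theorem C2_sq (z : C2) : z * z = 1 := by
  revert z
  decide

theorem card_C2 : Fintype.card C2 = 2 := by
  rfl

section
variable {B : Type} [Group B] {a b : B}

/-- homomorphisms to the group with two elements -/
theorem hom_inj (hcl : Subgroup.closure ({a, b} : Set B) = ⊤) (hrel : b * a * b⁻¹ = a * a)
    (φ ψ : Wr B →* C2) (h1 : φ (SemidirectProduct.inr b) = ψ (SemidirectProduct.inr b))
    (h2 : φ xx = ψ xx) : φ = ψ := by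
  have ha : ∀ χ : Wr B →* C2, χ (SemidirectProduct.inr a) = 1 := by
    intro χ
    have h3 := congrArg (fun t : B => χ (SemidirectProduct.inr t)) hrel
    simp only [map_mul, map_inv] at h3
    rw [mul_inv_cancel_comm] at h3
    exact (mul_eq_left.1 h3.symm)
  refine MonoidHom.eq_of_eqOn_dense (Wr_closure _ hcl) ?_
  intro z hz
  rcases hz with rfl | ⟨t, ht, rfl⟩
  · exact h2
  · rcases ht with rfl | ht
    · rw [ha, ha]
    · rw [Set.mem_singleton_iff] at ht
      subst ht
      exact h1

theorem card_bound (hcl : Subgroup.closure ({a, b} : Set B) = ⊤) (hrel : b * a * b⁻¹ = a * a)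
    {G : Type} [Group G] (e : Wr B ≃* G) {α : Type} [Fintype α] [DecidableEq α]
    (F : (α → C2) → (G →* C2)) (hF : Function.Injective F) : 2 ^ Fintype.card α ≤ 4 := by
  have h1 : Function.Injective fun v : α → C2 =>
      (((F v).comp e.toMonoidHom (SemidirectProduct.inr b), (F v).comp e.toMonoidHom xx) :
        C2 × C2) := by
    intro v w h
    simp only [Prod.mk.injEq] at h
    have h2 := hom_inj hcl hrel _ _ h.1 h.2
    apply hF
    ext g
    have h3 := DFunLike.congr_fun h2 (e.symm g)
    simpa using h3
  have h2 := Fintype.card_le_of_injective _ h1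
  rw [Fintype.card_prod, Fintype.card_fun, card_C2] at h2
  exact h2

end

theorem toGroup_inj {α : Type} (rels : Set (FreeGroup α))
    (h : ∀ v : α → C2, ∀ r ∈ rels, FreeGroup.lift v r = 1) :
    Function.Injective fun v : α → C2 => (PresentedGroup.toGroup (h v) : PresentedGroup rels →* C2) := by
  intro v w hvw
  funext x
  have h1 := DFunLike.congr_fun hvw (PresentedGroup.of x)
  simpa using h1

theorem t_NF : S_NF := by
  intro B _ a b hcl hrel ha
  refine ⟨fun X => ⟨fun e => ?_⟩, fun g hg => ⟨fun e => ?_⟩, fun k hk => ⟨fun e => ?_⟩⟩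
  · have h1 := bs_free (e (SemidirectProduct.inr a)) (e (SemidirectProduct.inr b)) (by
      rw [← map_mul, ← map_inv, ← map_mul, ← map_mul, ← map_inv, ← map_mul, ← map_mul, ← map_mul,
        hrel])
    rw [MulEquiv.map_eq_one_iff] at h1
    exact ha (SemidirectProduct.inr_injective (by rw [h1, map_one]))
  · have h1 := card_bound hcl hrel e _ (toGroup_inj _ (fun v r hr => by
      rw [Set.mem_singleton_iff] at hr
      subst hr
      rw [map_list_prod]
      refine List.prod_eq_one fun z hz => ?_
      rw [List.mem_map] at hz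
      obtain ⟨y, hy, rfl⟩ := hz
      rw [List.mem_ofFn] at hy
      obtain ⟨i, rfl⟩ := hy
      simp only [map_mul, map_inv, FreeGroup.lift_apply_of]
      rw [mul_comm (v (i, false)) (v (i, true))]
      group))
    rw [Fintype.card_prod, Fintype.card_fin, Fintype.card_bool] at h1
    have h2 : 2 ^ 4 ≤ 2 ^ (g * 2) := Nat.pow_le_pow_right (by norm_num) (by omega)
    omega
  · have h1 := card_bound hcl hrel e _ (toGroup_inj _ (fun v r hr => by
      rw [Set.mem_singleton_iff] at hr
      subst hr
      rw [map_list_prod]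
      refine List.prod_eq_one fun z hz => ?_
      rw [List.mem_map] at hz
      obtain ⟨y, hy, rfl⟩ := hz
      rw [List.mem_ofFn] at hy
      obtain ⟨i, rfl⟩ := hy
      simp only [map_mul, FreeGroup.lift_apply_of]
      exact C2_sq _))
    rw [Fintype.card_fin] at h1
    have h2 : 2 ^ 3 ≤ 2 ^ k := Nat.pow_le_pow_right (by norm_num) hk
    omega

end Pool.Agent.R650.VG
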